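import Mathlib

/-!
Definitions for the exact half-plane one-arm formula (critical bond percolation on `ℤ²`).
-/

namespace Pool.Agent.H988R2.Perc

open Finset

/-! ## the cube root of unity -/

/-- primitive cube root of unity -/
noncomputable def q : ℂ := ⟨-1/2, Real.sqrt 3 / 2⟩

theorem q_spec : q^2 + q + 1 = 0 := by
  have h : Real.sqrt 3 * Real.sqrt 3 = 3 := Real.mul_self_sqrt (by norm_num)
  apply Complex.ext
  · simp [q, pow_two]; nlinarith
  · simp [q, pow_two]; ring

theorem q_cube : q^3 = 1 := by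
  have h := q_spec
  have : q^3 - 1 = (q-1)*(q^2+q+1) := by ring
  rw [h, mul_zero] at this
  exact sub_eq_zero.mp this

theorem q_ne_zero : q ≠ 0 := by
  intro h; have := q_cube; rw [h] at this; norm_num at this

theorem q_ne_one : q ≠ 1 := by
  intro h; have := q_spec; rw [h] at this; norm_num at this

theorem q_sq_ne_one : q^2 ≠ 1 := by
  intro h
  have h3 := q_cube
  have : q^3 = q^2*q := by ring
  rw [h3, h, one_mul] at this
  exact q_ne_one this.symm

/-! ## words (noncrossing matchings); `true` = opening letter, `false` = closing letter.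
Positions are 0-based: the letters are the points `0,…,N-1`; the faces are `0,…,N`,
face `j` lies between the points `j-1` and `j`. -/

abbrev Word := List Bool

/-- insert the small arc `()` at positions `i, i+1`. -/
def ins (i : ℕ) (w : Word) : Word := w.take i ++ true :: false :: w.drop i

/-- well-formed words -/
inductive Dyck : Word → Prop
  | nil : Dyck []
  | ins (i : ℕ) (w : Word) : i ≤ w.length → Dyck w → Dyck (ins i w)

/-- change the first unmatched closing letter into an opening letter -/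
def flipR : ℕ → Word → Word
  | _, [] => []
  | d, true :: v => true :: flipR (d+1) v
  | 0, false :: v => true :: v
  | d+1, false :: v => false :: flipR d v

/-- mirror image of `flipR` (applied to the reversed prefix): change the first unmatched opening
letter into a closing letter -/
def flipL : ℕ → Word → Word
  | _, [] => []
  | d, false :: v => false :: flipL (d+1) v
  | 0, true :: v => false :: v
  | d+1, true :: v => true :: flipL d v

/-- close the points `i, i+1` by an arc (a closed loop is removed with weight 1) -/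
def cap (i : ℕ) (w : Word) : Word :=
  match w.drop i with
  | true :: true :: v => w.take i ++ flipR 0 v
  | false :: false :: v => (flipL 0 (w.take i).reverse).reverse ++ v
  | _ :: _ :: v => w.take i ++ v
  | _ => w

/-- the Temperley-Lieb generator acting on the points `i, i+1` -/
def act (i : ℕ) (w : Word) : Word := ins i (cap i w)

def rainbow (n : ℕ) : Word := List.replicate n true ++ List.replicate n false

/-- the finite set of well-formed words of length `N` -/
noncomputable def LP (N : ℕ) : Finset Word :=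
  ((List.finite_length_eq Bool N).subset
    (s := {w : Word | w.length = N}) (t := {w : Word | w.length = N ∧ Dyck w})
    (fun _ h => h.1)).toFinset

theorem mem_LP {N : ℕ} {w : Word} : w ∈ LP N ↔ w.length = N ∧ Dyck w := by
  simp [LP]

/-! ## polynomial functions on lists -/

/-- On lists of length `N`, `F` is a polynomial function of degree `≤ d` in each variable. -/
def PD (N d : ℕ) (F : List ℂ → ℂ) : Prop :=
  ∃ p : MvPolynomial (Fin N) ℂ, (∀ i, p.degreeOf i ≤ d) ∧
    ∀ l : List ℂ, l.length = N → F l = MvPolynomial.eval (fun i : Fin N => l.getD i 0) p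

/-- The space `V_N` of wheel polynomials. -/
structure V (N : ℕ) (F : List ℂ → ℂ) : Prop where
  pd : PD N (N - 2) F
  wheel1 : ∀ (u v w : List ℂ) (x : ℂ), u.length + v.length + w.length + 2 = N →
    (∃ y ∈ u ++ v ++ w, y * x = q^2) → F (u ++ x :: (v ++ (q^2 * x) :: w)) = 0
  wheel2 : ∀ (u v w : List ℂ) (x : ℂ), u.length + v.length + w.length + 2 = N →
    q * x ∈ u ++ w → F (u ++ x :: (v ++ (q^2 * x) :: w)) = 0

/-- `E` is the exchange operator `(c F(s_i z) - a F(z))/b` applied to `F`. -/
def IsE (N i : ℕ) (F E : List ℂ → ℂ) : Prop :=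
  ∀ (u v : List ℂ) (x y : ℂ), u.length = i → u.length + v.length + 2 = N →
    (y - x) * E (u ++ x :: y :: v) =
      (q * x - q^2 * y) * F (u ++ y :: x :: v) - (q * y - q^2 * x) * F (u ++ x :: y :: v)

/-- the factor of the recursion -/
noncomputable def fac (x : ℂ) (l : List ℂ) : ℂ :=
  (l.map (fun y => (x - q^2 * y) * (x * y - q^2))).prod

/-- some `x` with `fac x m ≠ 0` -/
noncomputable def gx (m : List ℂ) : ℂ := Classical.epsilon (fun x => fac x m ≠ 0)

/-- the restriction operator: `F (u ++ x :: q²x :: v) = fac x (u ++ v) * rho i F (u ++ v)` for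
`F ∈ V` and `|u| = i`. -/
noncomputable def rho (i : ℕ) (F : List ℂ → ℂ) (m : List ℂ) : ℂ :=
  F (m.take i ++ gx m :: (q^2 * gx m) :: m.drop i) / fac (gx m) m

/-- position of the first small arc -/
def firstArc : Word → ℕ
  | true :: false :: _ => 0
  | _ :: w => firstArc w + 1
  | [] => 0

/-- remove the letters `i, i+1` -/
def rem (i : ℕ) (w : Word) : Word := w.take i ++ w.drop (i+2)

/-- the evaluation functional of a word with `n` arcs -/
noncomputable def ev : ℕ → Word → (List ℂ → ℂ) → ℂ
  | 0, _, F => F []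
  | n+1, w, F => ev n (rem (firstArc w) w) (rho (firstArc w) F)

/-- invariance under inversion of the first variable -/
def Inv1 (N : ℕ) (F : List ℂ → ℂ) : Prop :=
  ∀ (x : ℂ) (l : List ℂ), x ≠ 0 → l.length + 1 = N → F (x :: l) = x^(N-2) * F (x⁻¹ :: l)

/-- invariance under inversion of the last variable -/
def InvN (N : ℕ) (F : List ℂ → ℂ) : Prop :=
  ∀ (x : ℂ) (l : List ℂ), x ≠ 0 → l.length + 1 = N → F (l ++ [x]) = x^(N-2) * F (l ++ [x⁻¹])

/-! ## states: equivalence relations on the (odd = white) faces -/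

@[ext] structure St where
  rel : ℕ → ℕ → Prop
  eqv : Equivalence rel
  odd : ∀ a b, rel a b → a = b ∨ (a % 2 = 1 ∧ b % 2 = 1)

namespace St

/-- all faces isolated -/
def bot : St where
  rel a b := a = b
  eqv := ⟨fun _ => rfl, fun h => h.symm, fun h k => h.trans k⟩
  odd a b h := Or.inl h

/-- the Temperley-Lieb generator on states: isolate face `i+1`, join the faces `i` and `i+2`
(only odd faces are recorded). -/
def act (i : ℕ) (R : St) : St where
  rel a b := a = b ∨ (a % 2 = 1 ∧ b % 2 = 1 ∧ a ≠ i+1 ∧ b ≠ i+1 ∧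
    (R.rel a b ∨ (R.rel a i ∧ R.rel (i+2) b) ∨ (R.rel a (i+2) ∧ R.rel i b)))
  eqv := by
    obtain ⟨hr, hs, ht⟩ := R.eqv
    refine ⟨fun _ => Or.inl rfl, ?_, ?_⟩
    · rintro a b (h | ⟨h1, h2, h3, h4, h5⟩)
      · exact Or.inl h.symm
      · refine Or.inr ⟨h2, h1, h4, h3, ?_⟩
        rcases h5 with h | ⟨h, h'⟩ | ⟨h, h'⟩
        · exact Or.inl (hs h)
        · exact Or.inr (Or.inr ⟨hs h', hs h⟩)
        · exact Or.inr (Or.inl ⟨hs h', hs h⟩)
    · rintro a b c (h | ⟨h1, h2, h3, h4, h5⟩) (k | ⟨k1, k2, k3, k4, k5⟩)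
      · exact Or.inl (h.trans k)
      · subst h; exact Or.inr ⟨k1, k2, k3, k4, k5⟩
      · subst k; exact Or.inr ⟨h1, h2, h3, h4, h5⟩
      · refine Or.inr ⟨h1, k2, h3, k4, ?_⟩
        rcases h5 with h | ⟨h, h'⟩ | ⟨h, h'⟩ <;> rcases k5 with k | ⟨k, k'⟩ | ⟨k, k'⟩
        · exact Or.inl (ht h k)
        · exact Or.inr (Or.inl ⟨ht h k, k'⟩)
        · exact Or.inr (Or.inr ⟨ht h k, k'⟩)
        · exact Or.inr (Or.inl ⟨h, ht h' k⟩)
        · exact Or.inr (Or.inl ⟨h, k'⟩)
        · exact Or.inl (ht h k')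
        · exact Or.inr (Or.inr ⟨h, ht h' k⟩)
        · exact Or.inl (ht h k')
        · exact Or.inr (Or.inr ⟨h, k'⟩)
  odd := by
    rintro a b (h | ⟨h1, h2, _⟩)
    · exact Or.inl h
    · exact Or.inr ⟨h1, h2⟩

/-- the old face of a new face after the insertion of a small arc at `i` (face `i` is split into
`i` and `i+2`, the new face is `i+1`). -/
def low (i a : ℕ) : ℕ := if a ≤ i then a else a - 2

/-- insert a small arc at `i`: faces `i` and `i+2` come from the old face `i`, the face `i+1`
is new and isolated. -/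
def ins (i : ℕ) (R : St) : St where
  rel a b := a = b ∨ (a % 2 = 1 ∧ b % 2 = 1 ∧ a ≠ i+1 ∧ b ≠ i+1 ∧ R.rel (low i a) (low i b))
  eqv := by
    obtain ⟨hr, hs, ht⟩ := R.eqv
    refine ⟨fun _ => Or.inl rfl, ?_, ?_⟩
    · rintro a b (h | ⟨h1, h2, h3, h4, h5⟩)
      · exact Or.inl h.symm
      · exact Or.inr ⟨h2, h1, h4, h3, hs h5⟩
    · rintro a b c (h | ⟨h1, h2, h3, h4, h5⟩) (k | ⟨k1, k2, k3, k4, k5⟩)
      · exact Or.inl (h.trans k)
      · subst h; exact Or.inr ⟨k1, k2, k3, k4, k5⟩
      · subst k; exact Or.inr ⟨h1, h2, h3, h4, h5⟩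
      · exact Or.inr ⟨h1, k2, h3, k4, ht h5 k5⟩
  odd := by
    rintro a b (h | ⟨h1, h2, _⟩)
    · exact Or.inl h
    · exact Or.inr ⟨h1, h2⟩

/-- the new face of an old face -/
def up (i a : ℕ) : ℕ := if a ≤ i then a else a + 2

/-- close the points `i, i+1` -/
def cap (i : ℕ) (R : St) : St where
  rel a b := (R.act i).rel (up i a) (up i b)
  eqv := by
    obtain ⟨hr, hs, ht⟩ := (R.act i).eqv
    exact ⟨fun _ => hr _, fun h => hs h, fun h k => ht h k⟩
  odd := by
    intro a b h
    rcases (R.act i).odd _ _ h with h | ⟨h, k⟩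
    · left; unfold up at h; split_ifs at h <;> omega
    · right; unfold up at h k; split_ifs at h k <;> constructor <;> omega

end St

/-- the state of a word with `n` arcs -/
def Phi : ℕ → Word → St
  | 0, _ => St.bot
  | n+1, w => St.ins (firstArc w) (Phi n (rem (firstArc w) w))

/-- the faces `1` and `L` are joined in the join of `R` and `R'` -/
def conn (L : ℕ) (R R' : St) : Prop :=
  Relation.EqvGen (fun a b => R.rel a b ∨ R'.rel a b) 1 L

open Classical in
/-- the bilinear pairing on vectors of states -/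
noncomputable def pair (L : ℕ) (f g : St →₀ ℂ) : ℂ :=
  f.sum fun R a => g.sum fun R' b => a * b * (if conn L R R' then 1 else 0)

/-- total mass -/
noncomputable def mass (f : St →₀ ℂ) : ℂ := f.sum fun _ a => a

/-- one tile: `(1 + e_i)/2` -/
noncomputable def tile (i : ℕ) (f : St →₀ ℂ) : St →₀ ℂ :=
  (1/2 : ℂ) • (f + Finsupp.mapDomain (St.act i) f)

/-- tiles `1, 2, …, L` (in this order) -/
noncomputable def fwd : ℕ → (St →₀ ℂ) → (St →₀ ℂ)
  | 0, f => f
  | L+1, f => tile (L+1) (fwd L f)

/-- tiles `L, L-1, …, 1` (in this order) -/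
noncomputable def bwd : ℕ → (St →₀ ℂ) → (St →₀ ℂ)
  | 0, f => f
  | L+1, f => bwd L (tile (L+1) f)

/-- the double-row transfer matrix -/
noncomputable def Tvec (L : ℕ) (f : St →₀ ℂ) : St →₀ ℂ :=
  Finsupp.mapDomain (St.cap 0) (bwd L (fwd L (Finsupp.mapDomain (St.ins 0) f)))

/-- law after `M` double rows -/
noncomputable def law (L M : ℕ) : St →₀ ℂ := (Tvec L)^[M] (Finsupp.single St.bot 1)

/-! ## one-row dynamics on states, driven by bits (`true` = apply `act`) -/

def fwdS : ℕ → (ℕ → Bool) → St → St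
  | 0, _, R => R
  | L+1, c, R => let R' := fwdS L c R; if c (L+1) then St.act (L+1) R' else R'

def bwdS : ℕ → (ℕ → Bool) → St → St
  | 0, _, R => R
  | L+1, c, R => bwdS L c (if c (L+1) then St.act (L+1) R else R)

/-- state after `M` double rows driven by the bits `c k i` (row `k`, tile `i`) -/
def X (L : ℕ) (c : ℕ → ℕ → Bool) : ℕ → St
  | 0 => St.bot
  | M+1 => St.cap 0 (bwdS L (c (2*M+1)) (fwdS L (c (2*M)) (St.ins 0 (X L c M))))

/-! ## bond percolation on `ℤ²` -/

/-- edges of `ℤ²`: `(u,v,false)` joins `(u,v)` and `(u+1,v)`; `(u,v,true)` joins `(u,v)` and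
`(u,v+1)`. -/
abbrev Edge := ℤ × ℤ × Bool

/-- configurations (`true` = open) -/
abbrev Conf := Edge → Bool

/-- `a` and `b` are joined by an open edge -/
def OpenAdj (ω : Conf) (a b : ℤ × ℤ) : Prop :=
  (b = (a.1 + 1, a.2) ∧ ω (a.1, a.2, false) = true) ∨
  (a = (b.1 + 1, b.2) ∧ ω (b.1, b.2, false) = true) ∨
  (b = (a.1, a.2 + 1) ∧ ω (a.1, a.2, true) = true) ∨
  (a = (b.1, b.2 + 1) ∧ ω (b.1, b.2, true) = true)

/-- fair coin -/
noncomputable def coin : MeasureTheory.Measure Bool := (PMF.uniformOfFintype Bool).toMeasure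

instance : MeasureTheory.IsProbabilityMeasure coin := by unfold coin; infer_instance

/-- bond percolation at `p = 1/2` (every edge open with probability `1/2`, independently) -/
noncomputable def perc : MeasureTheory.Measure Conf :=
  MeasureTheory.Measure.infinitePi (fun _ : Edge => coin)

instance : MeasureTheory.IsProbabilityMeasure perc := by unfold perc; infer_instance

/-- open path inside the half-plane `{u ≥ v}` from `(1,0)` to the line `u - v = L` -/
def Arm (L : ℕ) : Set Conf :=
  {ω | ∃ x : ℤ × ℤ, x.1 - x.2 = L ∧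
    Relation.ReflTransGen (fun a b => OpenAdj ω a b ∧ a.2 ≤ a.1 ∧ b.2 ≤ b.1) (1, 0) x}

/-! ## the strip -/

/-- the edge of `ℤ²` crossed at the tile between the columns `i-1, i` and the times `r, r+1`. -/
def edgeOf (i r : ℤ) : Edge :=
  if (i + r) % 2 = 1 then ((i + r + 1) / 2, (r + 1 - i) / 2, true)
  else ((i + r) / 2, (r + 2 - i) / 2, false)

/-- adjacency of the vertices (column, time) of the strip driven by the open bits `o k i` of the
tiles `i = 1..L`, `k < K` : tile `(i,k)` joins `(i,k)` and `(i-1,k+1)` if `i+k` is odd and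
`(i-1,k)` and `(i,k+1)` if `i+k` is even. -/
def StripAdj (L K : ℕ) (o : ℕ → ℕ → Bool) (a b : ℕ × ℕ) : Prop :=
  ∃ i k, 1 ≤ i ∧ i ≤ L ∧ k < K ∧ o k i = true ∧
    (((i + k) % 2 = 1 ∧ a = (i, k) ∧ b = (i-1, k+1)) ∨
     ((i + k) % 2 = 0 ∧ a = (i-1, k) ∧ b = (i, k+1)))

/-- connectivity in the strip; the right boundary (column `L`) is wired -/
def StripConn (L K : ℕ) (o : ℕ → ℕ → Bool) : ℕ × ℕ → ℕ × ℕ → Prop :=
  Relation.EqvGen (fun a b => StripAdj L K o a b ∨ (a.1 = L ∧ b.1 = L))

/-- translation of open bits into `act`-bits -/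
def actBit (o : ℕ → ℕ → Bool) (k i : ℕ) : Bool := if i % 2 = 1 then o k i else !(o k i)

/-- open bits of the past window (times `-2M..0`) -/
def oPast (ω : Conf) (M : ℕ) (k i : ℕ) : Bool := ω (edgeOf i ((k : ℤ) - 2 * M))

/-- open bits of the future window (times `2M..0`, read downwards) -/
def oFut (ω : Conf) (M : ℕ) (k i : ℕ) : Bool := ω (edgeOf i (2 * (M : ℤ) - 1 - k))

/-- the window event -/
def Win (L M : ℕ) : Set Conf :=
  {ω | conn L (X L (actBit (oPast ω M)) M) (X L (actBit (oFut ω M)) M)}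

/-! ## the vector `Psi` -/

/-- the dual basis: `Fw w` is an element of `V` with `ev w' (Fw w) = δ`. -/
def IsDual (w : Word) (F : List ℂ → ℂ) : Prop :=
  V w.length F ∧ Inv1 w.length F ∧ InvN w.length F ∧
    ∀ w' : Word, Dyck w' → w'.length = w.length → ev (w.length / 2) w' F = if w' = w then 1 else 0

noncomputable def Fw (w : Word) : List ℂ → ℂ := Classical.epsilon (IsDual w)

/-- the qKZ vector -/
noncomputable def Psi (l : List ℂ) : St →₀ ℂ :=
  ∑ w ∈ LP l.length, Finsupp.single (Phi (l.length / 2) w) (Fw w l)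

/-- its mass -/
noncomputable def Z (l : List ℂ) : ℂ := mass (Psi l)

/-- positive integers not divisible by 3: `mu 0 = 1, mu 1 = 2, mu 2 = 4, mu 3 = 5, …` -/
def mu (j : ℕ) : ℕ := (3 * j + 2) / 2

/-- the symplectic-character product `χ_N` -/
noncomputable def chi (N : ℕ) : ℝ :=
  (∏ j ∈ range N, (mu j : ℝ) / (j + 1)) *
  ∏ j ∈ range N, ∏ i ∈ range j, ((mu j : ℝ)^2 - (mu i : ℝ)^2) / (((j:ℝ)+1)^2 - ((i:ℝ)+1)^2)

/-- the exact one-arm probability -/
noncomputable def armFormula (L : ℕ) : ℝ :=
  (3 * (3 * (L:ℝ) + 1)) / (2 * (2 * (L:ℝ) + 1)) * ∏ j ∈ range L, (3 * (j:ℝ) + 1) / (3 * (j:ℝ) + 2)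

/-- inverted vector, polynomial in the entries -/
noncomputable def PsiInv (l : List ℂ) : St →₀ ℂ :=
  (l.prod)^(l.length - 1) • Psi (l.map (fun x => x⁻¹) ++ [0])

/-- the bilinear form of the two qKZ vectors (`l` has odd length `L`) -/
noncomputable def B (l : List ℂ) : ℂ := pair l.length (PsiInv l) (Psi (l ++ [0]))

end Pool.Agent.H988R2.Perc
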