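import Pool.Agent.H988R2.Perc.T01

/-! T12: states, relations, the map `Phi` from words to states. -/

namespace Pool.Agent.H988R2.Perc

namespace St

theorem ins_rel (i : ℕ) (R : St) (a b : ℕ) : (ins i R).rel a b ↔
  (a = b ∨ (a % 2 = 1 ∧ b % 2 = 1 ∧ a ≠ i+1 ∧ b ≠ i+1 ∧ R.rel (low i a) (low i b))) := Iff.rfl

theorem act_rel (i : ℕ) (R : St) (a b : ℕ) : (act i R).rel a b ↔
  (a = b ∨ (a % 2 = 1 ∧ b % 2 = 1 ∧ a ≠ i+1 ∧ b ≠ i+1 ∧
    (R.rel a b ∨ (R.rel a i ∧ R.rel (i+2) b) ∨ (R.rel a (i+2) ∧ R.rel i b)))) := Iff.rfl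

theorem cap_rel (i : ℕ) (R : St) (a b : ℕ) : (cap i R).rel a b ↔
  (act i R).rel (up i a) (up i b) := Iff.rfl

theorem ext' {R R' : St} (h : ∀ a b, R.rel a b ↔ R'.rel a b) : R = R' := by
  ext a b; exact h a b

theorem ext_le {R R' : St} (h : ∀ a b, a < b → (R.rel a b ↔ R'.rel a b)) : R = R' := by
  apply ext'
  intro a b
  rcases lt_trichotomy a b with h1 | h1 | h1
  · exact h a b h1
  · subst h1
    exact ⟨fun _ => R'.eqv.1 a, fun _ => R.eqv.1 a⟩
  · exact ⟨fun k => R'.eqv.2 ((h b a h1).1 (R.eqv.2 k)), fun k => R.eqv.2 ((h b a h1).2 (R'.eqv.2 k))⟩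

theorem ins_ins {i j : ℕ} (hij : i ≤ j) (R : St) : ins i (ins j R) = ins (j+2) (ins i R) := by
  apply ext'
  intro a b
  simp only [ins_rel]
  have hr := R.eqv.1
  unfold low
  grind

theorem act_ins_self' (i : ℕ) (R : St) : act i (ins i R) = ins i R := by
  apply ext'
  intro a b
  simp only [ins_rel, act_rel]
  obtain ⟨hr, hs, ht⟩ := R.eqv
  unfold low
  grind

theorem low_up (i a : ℕ) : low i (up i a) = a := by
  unfold low up; grind

theorem act_eq (i : ℕ) (R : St) : act i R = ins i (cap i R) := by
  apply ext'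
  intro a b
  simp only [ins_rel, act_rel, cap_rel]
  obtain ⟨hr, hs, ht⟩ := R.eqv
  unfold low up
  grind

theorem cap_ins_self (i : ℕ) (R : St) : cap i (ins i R) = R := by
  apply ext'
  intro a b
  rw [cap_rel, act_ins_self', ins_rel, low_up, low_up]
  have ho := R.odd a b
  have hr := R.eqv.1
  unfold up
  grind

theorem ins_inj (i : ℕ) : Function.Injective (ins i) := by
  intro R R' h
  rw [← cap_ins_self i R, h, cap_ins_self]

theorem act_ins_self (i : ℕ) (R : St) : act i (ins i R) = ins i R := by
  rw [act_eq, cap_ins_self]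

theorem act_ins_succ (i : ℕ) (R : St) : act i (ins (i+1) R) = ins i R := by
  apply ext'
  intro a b
  simp only [ins_rel, act_rel]
  obtain ⟨hr, hs, ht⟩ := R.eqv
  unfold low
  grind

theorem act_succ_ins (i : ℕ) (R : St) : act (i+1) (ins i R) = ins (i+1) R := by
  apply ext'
  intro a b
  simp only [ins_rel, act_rel]
  obtain ⟨hr, hs, ht⟩ := R.eqv
  unfold low
  grind

theorem act_ins_right {i j : ℕ} (h : i + 2 ≤ j) (R : St) : act i (ins j R) = ins j (act i R) := by
  apply ext_le
  intro a b hab
  simp only [ins_rel, act_rel]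
  have h1 : low j i = i := by unfold low; grind
  have h2 : low j (i+2) = i+2 := by unfold low; grind
  simp only [h1, h2]
  obtain ⟨hr, hs, ht⟩ := R.eqv
  have ho := R.odd
  unfold low
  by_cases ha : a ≤ j <;> by_cases hb : b ≤ j <;> simp only [ha, hb, if_true, if_false] 
  · grind
  · grind
  · grind
  · grind

theorem act_ins_left {i j : ℕ} (h : j + 2 ≤ i) (R : St) :
    act i (ins j R) = ins j (act (i-2) R) := by
  obtain ⟨i, rfl⟩ : ∃ i', i = i' + 2 := ⟨i-2, by omega⟩
  apply ext_le
  intro a b hab
  simp only [ins_rel, act_rel, Nat.add_sub_cancel]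
  have h1 : low j (i+2) = i := by unfold low; grind
  have h2 : low j (i+2+2) = i+2 := by unfold low; grind
  simp only [h1, h2]
  obtain ⟨hr, hs, ht⟩ := R.eqv
  have ho := R.odd
  unfold low
  have e3 : (i + 2) % 2 = i % 2 := by omega
  have e4 : (i + 2 + 2) % 2 = i % 2 := by omega
  by_cases ha : a ≤ j <;> by_cases hb : b ≤ j <;> simp only [ha, hb, if_true, if_false] 
  · grind
  · by_cases hb' : b = j + 1
    · grind
    obtain ⟨b, rfl⟩ : ∃ b', b = b' + 2 := ⟨b-2, by omega⟩
    have e2 : (b + 2) % 2 = b % 2 := by omega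
    simp only [Nat.add_sub_cancel, e2, e3, e4]
    grind
  · grind
  · by_cases ha' : a = j + 1
    · grind
    by_cases hb' : b = j + 1
    · grind
    obtain ⟨a, rfl⟩ : ∃ a', a = a' + 2 := ⟨a-2, by omega⟩
    obtain ⟨b, rfl⟩ : ∃ b', b = b' + 2 := ⟨b-2, by omega⟩
    have e1 : (a + 2) % 2 = a % 2 := by omega
    have e2 : (b + 2) % 2 = b % 2 := by omega
    simp only [Nat.add_sub_cancel, e1, e2, e3, e4]
    grind

theorem act_act (i : ℕ) (R : St) : act i (act i R) = act i R := by
  rw [act_eq i R, act_ins_self]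

end St

theorem Phi_ins {n i : ℕ} {w : Word} (hw : Dyck w) (hl : w.length = 2*n) (hi : i ≤ 2*n) :
    Phi (n+1) (ins i w) = St.ins i (Phi n w) := by
  induction n generalizing i w with
  | zero =>
    have hw0 : w = [] := List.length_eq_zero_iff.mp (by omega)
    have hi0 : i = 0 := by omega
    subst hw0 hi0
    rfl
  | succ n ih =>
    have hD : Dyck (ins i w) := Dyck.ins i w (by omega) hw
    have hne : ins i w ≠ [] := by
      intro h
      have := congrArg List.length h
      rw [length_ins] at this
      simp at this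
    obtain ⟨h1, h2, h3⟩ := dyck_firstArc hD hne
    show St.ins (firstArc (ins i w)) (Phi (n+1) (rem (firstArc (ins i w)) (ins i w))) = _
    generalize firstArc (ins i w) = k at h1 h2 h3
    have hl1 : (rem k (ins i w)).length = 2*(n+1) := by
      have := congrArg List.length h2
      rw [length_ins, length_ins] at this
      omega
    rw [length_ins] at h1
    generalize hw1 : rem k (ins i w) = w1 at h2 h3 hl1
    rcases lt_trichotomy k i with h | h | h
    · obtain ⟨hk, x, hx1, hx2, e1, e2⟩ := ins_eq_ins h (by omega) (by omega) h2.symm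
      have hxl : x.length = 2*n := by
        have := congrArg List.length e2
        rw [length_ins] at this; omega
      have hxD : Dyck x := (dyck_ins_iff hx1).1 (e2 ▸ hw)
      rw [e1, e2, ih hxD hxl (by omega), ih hxD hxl (by omega), St.ins_ins (by omega)]
      congr 1
      omega
    · subst h
      rw [rem_ins (by omega)] at hw1
      rw [hw1]
    · obtain ⟨hk, x, hx1, hx2, e1, e2⟩ := ins_eq_ins h (by omega) (by omega) h2
      have hxl : x.length = 2*n := by
        have := congrArg List.length e2
        rw [length_ins] at this; omega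
      have hxD : Dyck x := (dyck_ins_iff hx1).1 (e2 ▸ h3)
      rw [e1, e2, ih hxD hxl (by omega), ih hxD hxl (by omega), St.ins_ins (i := i) (by omega)]
      congr 1
      omega

theorem Phi_act {n i : ℕ} {w : Word} (hw : Dyck w) (hl : w.length = 2*n) (hi : i + 2 ≤ 2*n) :
    Phi n (act i w) = St.act i (Phi n w) := by
  induction n generalizing i w with
  | zero => omega
  | succ n ih =>
    have hne : w ≠ [] := by rintro rfl; simp at hl
    obtain ⟨h1, h2, h3⟩ := dyck_firstArc hw hne
    generalize firstArc w = j at h1 h2 h3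
    generalize rem j w = x at h2 h3
    subst h2
    rw [length_ins] at h1 hl
    have hxl : x.length = 2*n := by omega
    rw [Phi_ins h3 hxl (by omega)]
    rcases lt_trichotomy i j with h | h | h
    · rcases Nat.lt_or_ge (i+1) j with h' | h'
      · rw [act_ins_right (by omega) (by omega), St.act_ins_right (by omega),
          Phi_ins (dyck_act h3 (by omega)) (by rw [length_act (by omega)]; omega) (by omega),
          ih h3 hxl (by omega)]
      · obtain rfl : j = i+1 := by omega
        rw [act_ins_succ (by omega), St.act_ins_succ, Phi_ins h3 hxl (by omega)]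
    · subst h
      rw [act_ins_self (by omega), St.act_ins_self, Phi_ins h3 hxl (by omega)]
    · rcases Nat.lt_or_ge (j+1) i with h' | h'
      · rw [act_ins_left (by omega) (by omega), St.act_ins_left (by omega),
          Phi_ins (dyck_act h3 (by omega)) (by rw [length_act (by omega)]; omega) (by omega),
          ih h3 hxl (by omega)]
      · obtain rfl : i = j+1 := by omega
        rw [act_succ_ins (by omega), St.act_succ_ins, Phi_ins h3 hxl (by omega)]

theorem Phi_supp {n : ℕ} {w : Word} (hw : Dyck w) (hl : w.length = 2*n) (a b : ℕ)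
    (h : (Phi n w).rel a b) : a = b ∨ (a < 2*n ∧ b < 2*n) := by
  induction n generalizing w a b with
  | zero => exact Or.inl h
  | succ n ih =>
    have hne : w ≠ [] := by rintro rfl; simp at hl
    obtain ⟨h1, h2, h3⟩ := dyck_firstArc hw hne
    generalize firstArc w = j at h1 h2 h3
    generalize rem j w = x at h2 h3
    subst h2
    rw [length_ins] at h1 hl
    have hxl : x.length = 2*n := by omega
    rw [Phi_ins h3 hxl (by omega)] at h
    rcases h with h | ⟨e1, e2, e3, e4, h⟩
    · exact Or.inl h
    · have := ih h3 hxl _ _ h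
      unfold St.low at this
      split_ifs at this <;> omega

end Pool.Agent.H988R2.Perc
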