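import Pool.Agent.H988R2.Perc.T11
import Pool.Agent.H988R2.Perc.T12

/-! T13: the interface of the qKZ vector `Psi`. -/

namespace Pool.Agent.H988R2.Perc

theorem LP_zero : LP 0 = {[]} := by
  ext w
  rw [mem_LP, Finset.mem_singleton]
  constructor
  · intro h; exact List.length_eq_zero_iff.1 h.1
  · rintro rfl; exact ⟨rfl, Dyck.nil⟩

theorem Psi_nil : Psi [] = Finsupp.single St.bot 1 := by
  have h := (Fw_spec Dyck.nil).2.2.2 [] Dyck.nil rfl
  have h1 : Fw [] [] = 1 := by simpa [ev] using h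
  show ∑ w ∈ LP 0, Finsupp.single (Phi 0 w) (Fw w []) = _
  rw [LP_zero, Finset.sum_singleton, h1]
  rfl

theorem Fw_V {N : ℕ} {w : Word} (h : w ∈ LP N) : V N (Fw w) := by
  rw [mem_LP] at h
  have := (Fw_spec h.2).1
  rwa [h.1] at this

theorem ev_Fw {n : ℕ} {w w' : Word} (h : w ∈ LP (2*n)) (h' : w' ∈ LP (2*n)) :
    ev n w' (Fw w) = if w' = w then 1 else 0 := by
  rw [mem_LP] at h h'
  have := (Fw_spec h.2).2.2.2 w' h'.2 (h'.1.trans h.1.symm)
  have hn : (2 * n) / 2 = n := by omega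
  rwa [h.1, hn] at this

theorem Fw_exch {n : ℕ} {pi : Word} (hpi : pi ∈ LP (2*n)) (u v : List ℂ) (x y : ℂ)
    (h : u.length + v.length + 2 = 2*n) :
    (q * x - q^2 * y) * Fw pi (u ++ y :: x :: v) =
      (q * y - q^2 * x) * Fw pi (u ++ x :: y :: v) +
      (y - x) * ∑ w ∈ LP (2*n), (if act u.length w = pi then Fw w (u ++ x :: y :: v) else 0) := by
  have hV := Fw_V hpi
  obtain ⟨E, hEpd, hE⟩ := exists_E (i := u.length) hV.pd (by omega)
  have hVE : V (2*n) E := hV.exch (by omega) hE hEpd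
  have h1 := V_expand hVE (u ++ x :: y :: v) (by simp; omega)
  have h2 : ∑ w ∈ LP (2*n), ev n w E * Fw w (u ++ x :: y :: v) =
      ∑ w ∈ LP (2*n), (if act u.length w = pi then Fw w (u ++ x :: y :: v) else 0) := by
    refine Finset.sum_congr rfl fun w hw => ?_
    have hw' := mem_LP.1 hw
    have h3 : ev n w E = ev n (act u.length w) (Fw pi) :=
      ev_act hV hVE hE (by omega) hw'.2 hw'.1
    rw [h3, ev_Fw hpi (mem_LP.2 ⟨by rw [length_act (by omega)]; exact hw'.1,
      dyck_act hw'.2 (by omega)⟩)]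
    split_ifs <;> simp
  have h3 := hE u v x y rfl (by omega)
  rw [h1, h2] at h3
  rw [h3]
  ring

theorem Psi_eq {l : List ℂ} {n : ℕ} (h : l.length = 2*n) :
    Psi l = ∑ w ∈ LP (2*n), Finsupp.single (Phi n w) (Fw w l) := by
  unfold Psi
  rw [h]
  have hn : (2 * n) / 2 = n := by omega
  rw [hn]

theorem Psi_exch (u v : List ℂ) (x y : ℂ) (h : Even (u.length + v.length)) :
    (q * x - q^2 * y) • Psi (u ++ y :: x :: v) =
      (q * y - q^2 * x) • Psi (u ++ x :: y :: v) +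
      (y - x) • Finsupp.mapDomain (St.act u.length) (Psi (u ++ x :: y :: v)) := by
  obtain ⟨m, hm⟩ := h.exists_two_nsmul
  rw [smul_eq_mul] at hm
  have hl1 : (u ++ y :: x :: v).length = 2 * (m+1) := by simp; omega
  have hl2 : (u ++ x :: y :: v).length = 2 * (m+1) := by simp; omega
  rw [Psi_eq hl1, Psi_eq hl2, Finsupp.mapDomain_finsetSum, Finset.smul_sum, Finset.smul_sum,
    Finset.smul_sum]
  have h1 : ∀ pi ∈ LP (2*(m+1)),
      (q * x - q^2 * y) • Finsupp.single (Phi (m+1) pi) (Fw pi (u ++ y :: x :: v)) =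
      (q * y - q^2 * x) • Finsupp.single (Phi (m+1) pi) (Fw pi (u ++ x :: y :: v)) +
      ∑ w ∈ LP (2*(m+1)), (if act u.length w = pi then
        (y - x) • Finsupp.single (Phi (m+1) pi) (Fw w (u ++ x :: y :: v)) else 0) := by
    intro pi hpi
    rw [Finsupp.smul_single, Finsupp.smul_single, smul_eq_mul, smul_eq_mul,
      Fw_exch hpi u v x y (by omega), Finsupp.single_add]
    congr 1
    rw [Finset.mul_sum, Finsupp.single_finsetSum]
    refine Finset.sum_congr rfl fun w _ => ?_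
    split_ifs
    · rw [Finsupp.smul_single, smul_eq_mul]
    · rw [mul_zero, Finsupp.single_zero]
  rw [Finset.sum_congr rfl h1, Finset.sum_add_distrib]
  congr 1
  rw [Finset.sum_comm]
  refine Finset.sum_congr rfl fun w hw => ?_
  have hw' := mem_LP.1 hw
  have hmem : act u.length w ∈ LP (2*(m+1)) :=
    mem_LP.2 ⟨by rw [length_act (by omega)]; exact hw'.1, dyck_act hw'.2 (by omega)⟩
  rw [Finset.sum_ite_eq, if_pos hmem, Finsupp.mapDomain_single,
    Phi_act hw'.2 hw'.1 (by omega)]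

theorem Fw_rec {n : ℕ} {w : Word} (hw : w ∈ LP (2*(n+1))) (u v : List ℂ) (x : ℂ)
    (h : u.length + v.length = 2*n) :
    Fw w (u ++ x :: (q^2 * x) :: v) =
      fac x (u ++ v) * ∑ w' ∈ LP (2*n), (if ins u.length w' = w then Fw w' (u ++ v) else 0) := by
  have hV : V (2*n+2) (Fw w) := Fw_V hw
  rw [rho_spec hV (by omega) (by omega) u v x rfl h]
  congr 1
  have hVr : V (2*n) (rho u.length (Fw w)) := rho_V hV (by omega) (by omega)
  rw [V_expand hVr (u ++ v) (by simpa using h)]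
  refine Finset.sum_congr rfl fun w' hw' => ?_
  have hw1 := mem_LP.1 hw'
  rw [← ev_ins hV hw1.2 hw1.1 (by omega)]
  rw [ev_Fw hw (mem_LP.2 ⟨by rw [length_ins, hw1.1]; ring,
    (dyck_ins_iff (by omega)).2 hw1.2⟩)]
  split_ifs <;> simp

theorem Psi_rec (u v : List ℂ) (x : ℂ) (h : Even (u.length + v.length)) :
    Psi (u ++ x :: (q^2 * x) :: v) =
      fac x (u ++ v) • Finsupp.mapDomain (St.ins u.length) (Psi (u ++ v)) := by
  obtain ⟨m, hm⟩ := h.exists_two_nsmul
  rw [smul_eq_mul] at hm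
  have hl1 : (u ++ x :: (q^2 * x) :: v).length = 2 * (m+1) := by simp; omega
  have hl2 : (u ++ v).length = 2 * m := by simp; omega
  rw [Psi_eq hl1, Psi_eq hl2, Finsupp.mapDomain_finsetSum, Finset.smul_sum]
  have h1 : ∀ w ∈ LP (2*(m+1)),
      Finsupp.single (Phi (m+1) w) (Fw w (u ++ x :: (q^2 * x) :: v)) =
      ∑ w' ∈ LP (2*m), (if ins u.length w' = w then
        fac x (u ++ v) • Finsupp.single (Phi (m+1) w) (Fw w' (u ++ v)) else 0) := by
    intro w hw
    rw [Fw_rec hw u v x (by omega), Finset.mul_sum, Finsupp.single_finsetSum]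
    refine Finset.sum_congr rfl fun w' _ => ?_
    split_ifs
    · rw [Finsupp.smul_single, smul_eq_mul]
    · rw [mul_zero, Finsupp.single_zero]
  rw [Finset.sum_congr rfl h1, Finset.sum_comm]
  refine Finset.sum_congr rfl fun w' hw' => ?_
  have hw1 := mem_LP.1 hw'
  have hmem : ins u.length w' ∈ LP (2*(m+1)) :=
    mem_LP.2 ⟨by rw [length_ins, hw1.1]; ring, (dyck_ins_iff (by omega)).2 hw1.2⟩
  rw [Finset.sum_ite_eq, if_pos hmem, Finsupp.mapDomain_single,
    Phi_ins hw1.2 hw1.1 (by omega)]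

theorem Psi_inv1 (x : ℂ) (l : List ℂ) (hx : x ≠ 0) (h : Odd l.length) :
    Psi (x :: l) = x^(l.length - 1) • Psi (x⁻¹ :: l) := by
  obtain ⟨m, hm⟩ := h
  have hl1 : (x :: l).length = 2 * (m+1) := by simp; omega
  have hl2 : (x⁻¹ :: l).length = 2 * (m+1) := by simp; omega
  rw [Psi_eq hl1, Psi_eq hl2, Finset.smul_sum]
  refine Finset.sum_congr rfl fun w hw => ?_
  have hw1 := mem_LP.1 hw
  rw [Finsupp.smul_single, smul_eq_mul]
  congr 1
  have := (Fw_spec hw1.2).2.1
  rw [hw1.1] at this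
  have h2 := this x l hx (by omega)
  rw [h2]
  congr 2; omega

theorem Psi_invN (x : ℂ) (l : List ℂ) (hx : x ≠ 0) (h : Odd l.length) :
    Psi (l ++ [x]) = x^(l.length - 1) • Psi (l ++ [x⁻¹]) := by
  obtain ⟨m, hm⟩ := h
  have hl1 : (l ++ [x]).length = 2 * (m+1) := by simp; omega
  have hl2 : (l ++ [x⁻¹]).length = 2 * (m+1) := by simp; omega
  rw [Psi_eq hl1, Psi_eq hl2, Finset.smul_sum]
  refine Finset.sum_congr rfl fun w hw => ?_
  have hw1 := mem_LP.1 hw
  rw [Finsupp.smul_single, smul_eq_mul]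
  congr 1
  have := (Fw_spec hw1.2).2.2.1
  rw [hw1.1] at this
  have h2 := this x l hx (by omega)
  rw [h2]
  congr 2; omega

theorem Psi_pd (N : ℕ) (hN : Even N) (R : St) : PD N (N-2) (fun l => Psi l R) := by
  classical
  have h1 : PD N (N-2) (fun l => ∑ w ∈ LP N, (if Phi (N/2) w = R then (1:ℂ) else 0) * Fw w l) :=
    PD.sum _ fun w hw => (Fw_V hw).pd.smul _
  refine h1.congr fun l hl => ?_
  unfold Psi
  rw [hl, Finsupp.finsetSum_apply]
  refine Finset.sum_congr rfl fun w _ => ?_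
  rw [Finsupp.single_apply]
  split_ifs <;> simp

theorem Psi_supp (l : List ℂ) (h : Even l.length) (R : St) (hR : R ∈ (Psi l).support) (a b : ℕ)
    (hab : R.rel a b) : a = b ∨ (a < l.length ∧ b < l.length) := by
  classical
  obtain ⟨m, hm⟩ := h.exists_two_nsmul
  rw [smul_eq_mul] at hm
  rw [Psi_eq hm] at hR
  have h1 := Finsupp.support_finsetSum hR
  rw [Finset.mem_biUnion] at h1
  obtain ⟨w, hw, h2⟩ := h1
  have h3 := Finsupp.support_single_subset h2
  rw [Finset.mem_singleton] at h3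
  have hw1 := mem_LP.1 hw
  subst h3
  rw [hm]
  exact Phi_supp hw1.2 hw1.1 a b hab

end Pool.Agent.H988R2.Perc
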