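import Pool.Agent.H988R2.Perc.Defs

/-! T01: words. -/

namespace Pool.Agent.H988R2.Perc

theorem ins_app {i : ℕ} (a b : Word) (h : a.length = i) :
    ins i (a ++ b) = a ++ true :: false :: b := by
  subst h; simp [ins]

theorem exists_split {i : ℕ} {w : Word} (h : i ≤ w.length) :
    ∃ a b : Word, w = a ++ b ∧ a.length = i :=
  ⟨w.take i, w.drop i, (List.take_append_drop i w).symm, by simp [h]⟩

theorem cap_tt {i : ℕ} (a v : Word) (h : a.length = i) :
    cap i (a ++ true :: true :: v) = a ++ flipR 0 v := by
  subst h; simp [cap]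

theorem cap_ff {i : ℕ} (a v : Word) (h : a.length = i) :
    cap i (a ++ false :: false :: v) = (flipL 0 a.reverse).reverse ++ v := by
  subst h; simp [cap]

theorem cap_tf {i : ℕ} (a v : Word) (h : a.length = i) :
    cap i (a ++ true :: false :: v) = a ++ v := by
  subst h; simp [cap]

theorem cap_ft {i : ℕ} (a v : Word) (h : a.length = i) :
    cap i (a ++ false :: true :: v) = a ++ v := by
  subst h; simp [cap]

theorem length_ins (i : ℕ) (w : Word) : (ins i w).length = w.length + 2 := by
  unfold ins
  have := List.take_append_drop i w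
  have h2 : (w.take i).length + (w.drop i).length = w.length := by
    rw [← List.length_append, this]
  simp only [List.length_append, List.length_cons]
  omega

theorem ins_ins {i j : ℕ} {w : Word} (hij : i ≤ j) (hj : j ≤ w.length) :
    ins i (ins j w) = ins (j+2) (ins i w) := by
  obtain ⟨a, c, rfl, ha⟩ := exists_split hj
  obtain ⟨u, b, rfl, hu⟩ := exists_split (i := i) (w := a) (by omega)
  rw [ins_app _ _ ha, List.append_assoc, ins_app _ _ hu, List.append_assoc, ins_app _ _ hu]
  have e : u ++ true :: false :: (b ++ c) = (u ++ true :: false :: b) ++ c := by simp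
  rw [e, ins_app _ _ (by simp at ha ⊢; omega)]
  simp

theorem rem_ins {i : ℕ} {w : Word} (h : i ≤ w.length) : rem i (ins i w) = w := by
  obtain ⟨a, b, rfl, ha⟩ := exists_split h
  rw [ins_app _ _ ha]
  subst ha
  simp [rem]

theorem ins_inj {i : ℕ} {w w' : Word} (h : i ≤ w.length) (h' : i ≤ w'.length)
    (e : ins i w = ins i w') : w = w' := by
  rw [← rem_ins h, e, rem_ins h']

theorem ins_eq_ins {i j : ℕ} {w w' : Word} (hij : i < j) (hi : i ≤ w.length)
    (hj : j ≤ w'.length) (e : ins i w = ins j w') :
    i + 2 ≤ j ∧ ∃ x : Word, i ≤ x.length ∧ j - 2 ≤ x.length ∧ w = ins (j-2) x ∧ w' = ins i x := by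
  obtain ⟨a, b, rfl, ha⟩ := exists_split hi
  obtain ⟨c, d, rfl, hc⟩ := exists_split hj
  rw [ins_app _ _ ha, ins_app _ _ hc] at e
  obtain ⟨c1, c2, rfl, hc1⟩ := exists_split (i := i) (w := c) (by omega)
  rw [List.append_assoc] at e
  obtain ⟨rfl, e2⟩ := List.append_inj e (by omega)
  -- e2 : true :: false :: b = c2 ++ true :: false :: d
  rcases c2 with _ | ⟨x1, c3⟩
  · simp at hc; omega
  · rw [List.cons_append] at e2
    obtain ⟨rfl, e3⟩ := List.cons.inj e2
    rcases c3 with _ | ⟨x2, c4⟩
    · simp at e3
    · rw [List.cons_append] at e3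
      obtain ⟨rfl, rfl⟩ := List.cons.inj e3
      have hlen : (a ++ c4).length = j - 2 := by
        simp only [List.length_append, List.length_cons] at hc ⊢
        omega
      refine ⟨by simp only [List.length_append, List.length_cons] at hc; omega,
        a ++ (c4 ++ d), ?_, ?_, ?_, ?_⟩
      · simp only [List.length_append]; omega
      · rw [← List.append_assoc, List.length_append, hlen]; omega
      · rw [← List.append_assoc a c4 d, ins_app _ _ hlen]
        simp
      · rw [ins_app _ _ ha]
        simp

theorem dyck_even {w : Word} (hw : Dyck w) : Even w.length := by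
  induction hw with
  | nil => simp
  | ins i w h _ ih =>
    rw [length_ins]
    exact ih.add (by norm_num)

theorem dyck_ins_aux {W : Word} (hW : Dyck W) : ∀ (i : ℕ) (w : Word), i ≤ w.length →
    W = ins i w → Dyck w := by
  induction hW with
  | nil =>
    intro i w _ h
    have := congrArg List.length h
    rw [length_ins] at this
    simp at this
  | ins j w0 hj h0 ih =>
    intro i w hi h
    rcases lt_trichotomy i j with hij | hij | hij
    · obtain ⟨h2, x, hx1, hx2, hx3, hx4⟩ := ins_eq_ins hij hi hj h.symm
      have hx := ih i x hx1 hx4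
      rw [hx3]
      exact Dyck.ins _ _ hx2 hx
    · subst hij
      rw [← ins_inj hj hi h]
      exact h0
    · obtain ⟨h2, x, hx1, hx2, hx3, hx4⟩ := ins_eq_ins hij hj hi h
      have hx := ih (i-2) x hx2 hx3
      rw [hx4]
      exact Dyck.ins _ _ hx1 hx

theorem dyck_ins_iff {i : ℕ} {w : Word} (hi : i ≤ w.length) : Dyck (ins i w) ↔ Dyck w :=
  ⟨fun h => dyck_ins_aux h i w hi rfl, fun h => Dyck.ins i w hi h⟩

/-- `firstArc` finds the first factor `()` -/
theorem firstArc_app (u v : Word) : firstArc (u ++ true :: false :: v) + 2 ≤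
    (u ++ true :: false :: v).length ∧
    u ++ true :: false :: v = ins (firstArc (u ++ true :: false :: v))
      (rem (firstArc (u ++ true :: false :: v)) (u ++ true :: false :: v)) := by
  induction u with
  | nil => simp [firstArc, ins, rem]
  | cons x u ih =>
    have key : ∀ W : Word, firstArc W + 2 ≤ W.length →
        W = ins (firstArc W) (rem (firstArc W) W) → firstArc (x :: W) = firstArc W + 1 →
        firstArc (x :: W) + 2 ≤ (x :: W).length ∧
        x :: W = ins (firstArc (x :: W)) (rem (firstArc (x :: W)) (x :: W)) := by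
      intro W h1 h2 h3
      rw [h3]
      refine ⟨by simp; omega, ?_⟩
      have e1 : rem (firstArc W + 1) (x :: W) = x :: rem (firstArc W) W := by
        simp [rem]
      rw [e1]
      have e2 : ins (firstArc W + 1) (x :: rem (firstArc W) W) =
          x :: ins (firstArc W) (rem (firstArc W) W) := by
        simp [ins]
      rw [e2, ← h2]
    rw [List.cons_append]
    obtain ⟨h1, h2⟩ := ih
    set W := u ++ true :: false :: v with hW
    by_cases hc : x = true ∧ ∃ W', W = false :: W'
    · obtain ⟨rfl, W', hW'⟩ := hc
      rw [hW']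
      simp [firstArc, ins, rem]
    · apply key W h1 h2
      rcases x with _ | _
      · rfl
      · rcases hWW : W with _ | ⟨y, W'⟩
        · rfl
        · rcases y with _ | _
          · exact absurd ⟨rfl, W', hWW⟩ hc
          · rfl

theorem dyck_firstArc {w : Word} (hw : Dyck w) (h : w ≠ []) :
    firstArc w + 2 ≤ w.length ∧ w = ins (firstArc w) (rem (firstArc w) w) ∧
      Dyck (rem (firstArc w) w) := by
  have h1 : firstArc w + 2 ≤ w.length ∧ w = ins (firstArc w) (rem (firstArc w) w) := by
    cases hw with
    | nil => exact absurd rfl h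
    | ins i w0 hi _ =>
      obtain ⟨a, b, rfl, ha⟩ := exists_split hi
      rw [ins_app _ _ ha]
      exact firstArc_app a b
  refine ⟨h1.1, h1.2, ?_⟩
  have h2 : firstArc w ≤ (rem (firstArc w) w).length := by
    have := congrArg List.length h1.2
    rw [length_ins] at this
    omega
  rw [← dyck_ins_iff h2, ← h1.2]
  exact hw

theorem cap_ins_self {i : ℕ} {w : Word} (h : i ≤ w.length) : cap i (ins i w) = w := by
  obtain ⟨a, b, rfl, ha⟩ := exists_split h
  rw [ins_app _ _ ha, cap_tf _ _ ha]

theorem cap_ins_succ {i : ℕ} {w : Word} (h : i + 1 ≤ w.length) : cap i (ins (i+1) w) = w := by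
  obtain ⟨a, b, rfl, ha⟩ := exists_split h
  rw [ins_app _ _ ha]
  obtain ⟨u, c, rfl, hu⟩ := exists_split (i := i) (w := a) (by omega)
  rcases c with _ | ⟨x, c⟩
  · simp at ha; omega
  · rcases c with _ | ⟨y, c⟩
    · have e : (u ++ [x]) ++ true :: false :: b = u ++ x :: true :: false :: b := by simp
      rw [e]
      rcases x with _ | _
      · rw [cap_ft _ _ hu]; simp
      · rw [cap_tt _ _ hu]; simp [flipR]
    · simp at ha; omega

theorem cap_succ_ins {i : ℕ} {w : Word} (h : i + 1 ≤ w.length) : cap (i+1) (ins i w) = w := by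
  obtain ⟨a, b, rfl, ha⟩ := exists_split (i := i) (w := w) (by omega)
  rw [ins_app _ _ ha]
  rcases b with _ | ⟨x, b⟩
  · simp at h; omega
  · have e : a ++ true :: false :: x :: b = (a ++ [true]) ++ false :: x :: b := by simp
    rw [e]
    rcases x with _ | _
    · rw [cap_ff _ _ (by simp [ha])]
      simp [flipL]
    · rw [cap_ft _ _ (by simp [ha])]
      simp

/-- key: `flipR` commutes with insertions (for all words). -/
theorem flipR_ins (d k : ℕ) (v : Word) (hk : k ≤ v.length) :
    flipR d (ins k v) = ins k (flipR d v) := by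
  induction v generalizing d k with
  | nil =>
    have : k = 0 := by simpa using hk
    subst this
    simp [ins, flipR]
  | cons x v ih =>
    rcases k with _ | k
    · simp [ins, flipR]
    · have hk' : k ≤ v.length := by simpa using hk
      have e : ∀ (x : Bool) (v : Word), ins (k+1) (x :: v) = x :: ins k v := by
        intro x v; simp [ins]
      rw [e]
      rcases x with _ | _
      · rcases d with _ | d
        · simp only [flipR]; rw [e]
        · simp only [flipR]; rw [ih d k hk', e]
      · simp only [flipR]; rw [ih (d+1) k hk', e]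

theorem length_flipR (d : ℕ) (v : Word) : (flipR d v).length = v.length := by
  induction v generalizing d with
  | nil => simp [flipR]
  | cons x v ih =>
    rcases x with _ | _
    · rcases d with _ | d
      · simp [flipR]
      · simp [flipR, ih]
    · simp [flipR, ih]

theorem length_flipL (d : ℕ) (v : Word) : (flipL d v).length = v.length := by
  induction v generalizing d with
  | nil => simp [flipL]
  | cons x v ih =>
    rcases x with _ | _
    · simp [flipL, ih]
    · rcases d with _ | d
      · simp [flipL]
      · simp [flipL, ih]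

/-- mirror image of `flipR_ins` -/
theorem flipL_ins (d : ℕ) (u v : Word) :
    ∃ u' v' : Word, u'.length = u.length ∧ flipL d (u ++ v) = u' ++ v' ∧
      flipL d (u ++ false :: true :: v) = u' ++ false :: true :: v' := by
  induction u generalizing d with
  | nil => exact ⟨[], flipL d v, rfl, rfl, by simp [flipL]⟩
  | cons x u ih =>
    rcases x with _ | _
    · obtain ⟨u', v', h1, h2, h3⟩ := ih (d+1)
      exact ⟨false :: u', v', by simp [h1], by simp [flipL, h2], by simp [flipL, h3]⟩
    · rcases d with _ | d
      · exact ⟨false :: u, v, by simp, by simp [flipL], by simp [flipL]⟩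
      · obtain ⟨u', v', h1, h2, h3⟩ := ih d
        exact ⟨true :: u', v', by simp [h1], by simp [flipL, h2], by simp [flipL, h3]⟩

theorem ins_append_right {i j : ℕ} (a b : Word) (hi : a.length + i = j) (hb : i ≤ b.length) :
    ins j (a ++ b) = a ++ ins i b := by
  obtain ⟨c, d, rfl, hc⟩ := exists_split hb
  rw [ins_app _ _ hc, ← List.append_assoc, ins_app (a ++ c) d (by simp; omega)]
  simp

theorem cap_ins_right {i j : ℕ} {w : Word} (h : i + 2 ≤ j) (hj : j ≤ w.length) :
    cap i (ins j w) = ins (j-2) (cap i w) := by
  obtain ⟨a, b, rfl, ha⟩ := exists_split (i := i) (w := w) (by omega)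
  rcases b with _ | ⟨x, b⟩
  · simp at hj; omega
  rcases b with _ | ⟨y, b⟩
  · simp at hj; omega
  obtain ⟨k, rfl⟩ : ∃ k, j = i + 2 + k := ⟨j - (i+2), by omega⟩
  have hkb : k ≤ b.length := by
    simp only [List.length_append, List.length_cons] at hj; omega
  have e : ins (i+2+k) (a ++ x :: y :: b) = a ++ x :: y :: ins k b := by
    have h1 : a ++ x :: y :: b = (a ++ [x, y]) ++ b := by simp
    rw [h1, ins_append_right (i := k) (a ++ [x,y]) b (by simp; omega) hkb]
    simp
  have e2 : i + 2 + k - 2 = i + k := by omega
  rw [e, e2]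
  have e3 : ∀ c : Word, k ≤ c.length → ins (i+k) (a ++ c) = a ++ ins k c := fun c hc =>
    ins_append_right a c (by omega) hc
  rcases x with _ | _ <;> rcases y with _ | _
  · rw [cap_ff _ _ ha, cap_ff _ _ ha,
      ins_append_right (i := k) _ _ (by simp [length_flipL]; omega) hkb]
  · rw [cap_ft _ _ ha, cap_ft _ _ ha, e3 _ hkb]
  · rw [cap_tf _ _ ha, cap_tf _ _ ha, e3 _ hkb]
  · rw [cap_tt _ _ ha, cap_tt _ _ ha, e3 _ (by rw [length_flipR]; exact hkb),
      flipR_ins 0 k b hkb]

theorem cap_ins_left {i j : ℕ} {w : Word} (h : j + 2 ≤ i) (hi : i ≤ w.length) :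
    cap i (ins j w) = ins j (cap (i-2) w) := by
  obtain ⟨a, b, rfl, ha⟩ := exists_split (i := j) (w := w) (by omega)
  have hb : i - 2 - j + 2 ≤ b.length := by
    simp only [List.length_append] at hi; omega
  obtain ⟨b1, b2, rfl, hb1⟩ := exists_split (i := i - 2 - j) (w := b) (by omega)
  rcases b2 with _ | ⟨x, b2⟩
  · simp at hb; omega
  rcases b2 with _ | ⟨y, c⟩
  · simp at hb; omega
  have l1 : (a ++ true :: false :: b1).length = i := by simp; omega
  have l2 : (a ++ b1).length = i - 2 := by simp; omega
  have e1 : ins j (a ++ (b1 ++ x :: y :: c)) = (a ++ true :: false :: b1) ++ x :: y :: c := by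
    rw [ins_app _ _ ha]; simp
  have e2 : a ++ (b1 ++ x :: y :: c) = (a ++ b1) ++ x :: y :: c := by simp
  rw [e1, e2]
  rcases x with _ | _ <;> rcases y with _ | _
  · rw [cap_ff _ _ l1, cap_ff _ _ l2]
    have r1 : (a ++ true :: false :: b1).reverse = b1.reverse ++ false :: true :: a.reverse := by
      simp
    have r2 : (a ++ b1).reverse = b1.reverse ++ a.reverse := by simp
    obtain ⟨u', v', h1, h2, h3⟩ := flipL_ins 0 b1.reverse a.reverse
    rw [r1, r2, h2, h3]
    have hv' : v'.length = a.length := by
      have h4 := congrArg List.length h2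
      rw [length_flipL] at h4
      simp only [List.length_append, List.length_reverse] at h4 h1
      omega
    have e3 : (u' ++ v').reverse ++ c = v'.reverse ++ (u'.reverse ++ c) := by simp
    rw [e3, ins_app _ _ (by simp [hv', ha])]
    simp
  · rw [cap_ft _ _ l1, cap_ft _ _ l2, List.append_assoc a b1 c, ins_app _ _ ha]; simp
  · rw [cap_tf _ _ l1, cap_tf _ _ l2, List.append_assoc a b1 c, ins_app _ _ ha]; simp
  · rw [cap_tt _ _ l1, cap_tt _ _ l2, List.append_assoc a b1 _, ins_app _ _ ha]; simp

theorem length_cap {i : ℕ} {w : Word} (h : i + 2 ≤ w.length) :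
    (cap i w).length = w.length - 2 := by
  obtain ⟨a, b, rfl, ha⟩ := exists_split (i := i) (w := w) (by omega)
  rcases b with _ | ⟨x, b⟩
  · simp at h; omega
  rcases b with _ | ⟨y, b⟩
  · simp at h; omega
  rcases x with _ | _ <;> rcases y with _ | _
  · rw [cap_ff _ _ ha]; simp [length_flipL]; omega
  · rw [cap_ft _ _ ha]; simp; omega
  · rw [cap_tf _ _ ha]; simp; omega
  · rw [cap_tt _ _ ha]; simp [length_flipR]; omega

theorem dyck_cap {i : ℕ} {w : Word} (hw : Dyck w) (h : i + 2 ≤ w.length) : Dyck (cap i w) := by
  induction hw generalizing i with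
  | nil => simp at h
  | ins j w0 hj h0 ih =>
    rw [length_ins] at h
    rcases (by omega : j + 2 ≤ i ∨ i = j + 1 ∨ i = j ∨ j = i + 1 ∨ i + 2 ≤ j) with
      c | c | c | c | c
    · rw [cap_ins_left c (by omega)]
      have h1 := ih (i := i - 2) (by omega)
      refine Dyck.ins _ _ ?_ h1
      rw [length_cap (by omega)]
      omega
    · subst c; rw [cap_succ_ins (by omega)]; exact h0
    · subst c; rw [cap_ins_self (by omega)]; exact h0
    · subst c; rw [cap_ins_succ (by omega)]; exact h0
    · rw [cap_ins_right c hj]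
      have h1 := ih (i := i) (by omega)
      refine Dyck.ins _ _ ?_ h1
      rw [length_cap (by omega)]
      omega

theorem length_act {i : ℕ} {w : Word} (h : i + 2 ≤ w.length) :
    (act i w).length = w.length := by
  unfold act
  rw [length_ins, length_cap h]
  omega

theorem dyck_act {i : ℕ} {w : Word} (hw : Dyck w) (h : i + 2 ≤ w.length) : Dyck (act i w) := by
  unfold act
  exact Dyck.ins _ _ (by rw [length_cap h]; omega) (dyck_cap hw h)

theorem act_ins_self {i : ℕ} {w : Word} (h : i ≤ w.length) : act i (ins i w) = ins i w := by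
  unfold act
  rw [cap_ins_self h]

theorem act_ins_succ {i : ℕ} {w : Word} (h : i + 1 ≤ w.length) :
    act i (ins (i+1) w) = ins i w := by
  unfold act
  rw [cap_ins_succ h]

theorem act_succ_ins {i : ℕ} {w : Word} (h : i + 1 ≤ w.length) :
    act (i+1) (ins i w) = ins (i+1) w := by
  unfold act
  rw [cap_succ_ins h]

theorem act_ins_right {i j : ℕ} {w : Word} (h : i + 2 ≤ j) (hj : j ≤ w.length) :
    act i (ins j w) = ins j (act i w) := by
  unfold act
  rw [cap_ins_right h hj, ins_ins (by omega) (by rw [length_cap (by omega)]; omega)]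
  congr 1
  omega

theorem act_ins_left {i j : ℕ} {w : Word} (h : j + 2 ≤ i) (hi : i ≤ w.length) :
    act i (ins j w) = ins j (act (i-2) w) := by
  unfold act
  rw [cap_ins_left h hi, ins_ins (i := j) (j := i - 2) (by omega)
    (by rw [length_cap (by omega)]; omega)]
  congr 1
  omega

end Pool.Agent.H988R2.Perc
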