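import Pool.Agent.H988R2.Perc.Defs

/-! T03: polynomial functions on lists. -/

namespace Pool.Agent.H988R2.Perc

open Polynomial

/-! ### auxiliary degree bounds -/

theorem natDegree_aeval_le {N d : ℕ} (p : MvPolynomial (Fin N) ℂ) (hp : ∀ i, p.degreeOf i ≤ d)
    (f : Fin N → ℂ[X]) (e : Fin N → ℕ) (hf : ∀ i, (f i).natDegree ≤ e i) :
    (MvPolynomial.aeval f p).natDegree ≤ ∑ i, d * e i := by
  conv_lhs => rw [p.as_sum]
  rw [map_sum]
  refine Polynomial.natDegree_sum_le_of_forall_le _ _ ?_
  intro m hm
  rw [MvPolynomial.aeval_monomial]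
  refine (Polynomial.natDegree_mul_le).trans ?_
  have h0 : ((algebraMap ℂ ℂ[X]) (MvPolynomial.coeff m p)).natDegree = 0 := by
    rw [Polynomial.algebraMap_eq]; exact Polynomial.natDegree_C _
  rw [h0, zero_add, Finsupp.prod_fintype _ _ (by intro i; exact pow_zero _)]
  refine (Polynomial.natDegree_prod_le _ _).trans ?_
  refine Finset.sum_le_sum ?_
  intro i _
  refine (Polynomial.natDegree_pow_le).trans ?_
  have h1 : m i ≤ d := by
    have := hp i
    rw [MvPolynomial.degreeOf_eq_sup] at this
    exact (Finset.le_sup (f := fun m : Fin N →₀ ℕ => m i) hm).trans this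
  exact Nat.mul_le_mul h1 (hf i)

theorem degreeOf_aeval_le {N M d : ℕ} (p : MvPolynomial (Fin N) ℂ) (hp : ∀ i, p.degreeOf i ≤ d)
    (f : Fin N → MvPolynomial (Fin M) ℂ) (j : Fin M) :
    (MvPolynomial.aeval f p).degreeOf j ≤ ∑ i, d * (f i).degreeOf j := by
  conv_lhs => rw [p.as_sum]
  rw [map_sum]
  refine (MvPolynomial.degreeOf_sum_le _ _ _).trans ?_
  refine Finset.sup_le ?_
  intro m hm
  rw [MvPolynomial.aeval_monomial]
  refine (MvPolynomial.degreeOf_mul_le _ _ _).trans ?_
  have h0 : ((algebraMap ℂ (MvPolynomial (Fin M) ℂ)) (MvPolynomial.coeff m p)).degreeOf j = 0 := by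
    rw [MvPolynomial.algebraMap_eq]; exact MvPolynomial.degreeOf_C _ _
  rw [h0, zero_add, Finsupp.prod_fintype _ _ (by intro i; exact pow_zero _)]
  refine (MvPolynomial.degreeOf_prod_le _ _ _).trans ?_
  refine Finset.sum_le_sum ?_
  intro i _
  refine (MvPolynomial.degreeOf_pow_le _ _ _).trans ?_
  have h1 : m i ≤ d := by
    have := hp i
    rw [MvPolynomial.degreeOf_eq_sup] at this
    exact (Finset.le_sup (f := fun m : Fin N →₀ ℕ => m i) hm).trans this
  exact Nat.mul_le_mul_right _ h1

/-- substitution of constants and distinct variables -/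
theorem PD.subst {N M d : ℕ} {F : List ℂ → ℂ} (hF : PD N d F)
    (σ : Fin N → MvPolynomial (Fin M) ℂ)
    (h1 : ∀ (k : Fin N) (j : Fin M), (σ k).degreeOf j ≤ 1)
    (h2 : ∀ (j : Fin M) (k k' : Fin N), (σ k).degreeOf j ≠ 0 → (σ k').degreeOf j ≠ 0 → k = k')
    (g : List ℂ → List ℂ)
    (hg : ∀ l : List ℂ, l.length = M → (g l).length = N)
    (hg' : ∀ l : List ℂ, l.length = M → ∀ k : Fin N,
      (g l).getD k 0 = MvPolynomial.eval (fun i : Fin M => l.getD i 0) (σ k)) :
    PD M d (fun l => F (g l)) := by
  obtain ⟨p, hp, hp'⟩ := hF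
  refine ⟨MvPolynomial.aeval σ p, ?_, ?_⟩
  · intro j
    refine (degreeOf_aeval_le p hp σ j).trans ?_
    rw [← Finset.mul_sum]
    have : ∑ i, (σ i).degreeOf j ≤ 1 := by
      calc ∑ i, (σ i).degreeOf j
          ≤ ∑ i, (if (σ i).degreeOf j ≠ 0 then 1 else 0) := by
            refine Finset.sum_le_sum ?_
            intro i _
            have := h1 i j
            split_ifs with h
            · exact this
            · push Not at h; omega
        _ = (Finset.univ.filter fun i => (σ i).degreeOf j ≠ 0).card := by
            rw [Finset.card_filter]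
        _ ≤ 1 := by
            rw [Finset.card_le_one]
            intro a ha b hb
            simp only [Finset.mem_filter, Finset.mem_univ, true_and] at ha hb
            exact h2 j a b ha hb
    calc d * ∑ i, (σ i).degreeOf j ≤ d * 1 := Nat.mul_le_mul_left _ this
      _ = d := mul_one d
  · intro l hl
    show F (g l) = _
    rw [hp' (g l) (hg l hl)]
    have hco : MvPolynomial.eval (fun i : Fin M => l.getD i 0) (MvPolynomial.aeval σ p)
        = MvPolynomial.eval
          (fun k => MvPolynomial.eval (fun i : Fin M => l.getD i 0) (σ k)) p := by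
      rw [← MvPolynomial.coe_aeval_eq_eval, ← MvPolynomial.coe_aeval_eq_eval]
      show MvPolynomial.aeval _ (MvPolynomial.aeval σ p) = MvPolynomial.aeval _ p
      rw [MvPolynomial.aeval_eq_bind₁, MvPolynomial.aeval_bind₁]
      rfl
    rw [hco]
    congr 2
    funext k
    exact hg' l hl k

theorem eval_aeval_poly {N : ℕ} (p : MvPolynomial (Fin N) ℂ) (f : Fin N → ℂ[X]) (x : ℂ) :
    (MvPolynomial.aeval f p).eval x = MvPolynomial.eval (fun i => (f i).eval x) p := by
  have h := MvPolynomial.induction_on (motive := fun p : MvPolynomial (Fin N) ℂ =>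
    (MvPolynomial.aeval f p).eval x = MvPolynomial.eval (fun i => (f i).eval x) p) p
    (by intro a; simp)
    (by intro a b ha hb; simp [ha, hb])
    (by intro a i ha; simp [ha])
  exact h

/-! ### the API -/

theorem PD.congr {N d : ℕ} {F G : List ℂ → ℂ} (hF : PD N d F)
    (h : ∀ l : List ℂ, l.length = N → G l = F l) : PD N d G := by
  obtain ⟨p, hp, hp'⟩ := hF
  exact ⟨p, hp, fun l hl => (h l hl).trans (hp' l hl)⟩

theorem PD.le {N d d' : ℕ} {F : List ℂ → ℂ} (hF : PD N d F) (h : d ≤ d') : PD N d' F := by
  obtain ⟨p, hp, hp'⟩ := hF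
  exact ⟨p, fun i => (hp i).trans h, hp'⟩

theorem PD.const (N d : ℕ) (c : ℂ) : PD N d (fun _ => c) := by
  refine ⟨MvPolynomial.C c, fun i => ?_, fun l _ => ?_⟩
  · rw [MvPolynomial.degreeOf_C]; exact Nat.zero_le _
  · rw [MvPolynomial.eval_C]

theorem PD.add {N d : ℕ} {F G : List ℂ → ℂ} (hF : PD N d F) (hG : PD N d G) :
    PD N d (fun l => F l + G l) := by
  obtain ⟨p, hp, hp'⟩ := hF
  obtain ⟨r, hr, hr'⟩ := hG
  refine ⟨p + r, fun i => ?_, fun l hl => ?_⟩
  · exact (MvPolynomial.degreeOf_add_le _ _ _).trans (max_le (hp i) (hr i))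
  · show F l + G l = _
    rw [map_add, hp' l hl, hr' l hl]

theorem PD.smul {N d : ℕ} {F : List ℂ → ℂ} (c : ℂ) (hF : PD N d F) :
    PD N d (fun l => c * F l) := by
  obtain ⟨p, hp, hp'⟩ := hF
  refine ⟨MvPolynomial.C c * p, fun i => ?_, fun l hl => ?_⟩
  · exact (MvPolynomial.degreeOf_C_mul_le _ _ _).trans (hp i)
  · show c * F l = _
    rw [map_mul, MvPolynomial.eval_C, hp' l hl]

theorem PD.sum {N d : ℕ} {ι : Type*} (s : Finset ι) {F : ι → List ℂ → ℂ}
    (hF : ∀ i ∈ s, PD N d (F i)) : PD N d (fun l => ∑ i ∈ s, F i l) := by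
  classical
  induction s using Finset.induction_on with
  | empty => simpa using PD.const N d 0
  | insert a s ha ih =>
    have h1 := hF a (Finset.mem_insert_self a s)
    have h2 := ih (fun i hi => hF i (Finset.mem_insert_of_mem hi))
    refine (h1.add h2).congr ?_
    intro l _
    exact Finset.sum_insert ha

theorem PD.mul {N d e : ℕ} {F G : List ℂ → ℂ} (hF : PD N d F) (hG : PD N e G) :
    PD N (d + e) (fun l => F l * G l) := by
  obtain ⟨p, hp, hp'⟩ := hF
  obtain ⟨r, hr, hr'⟩ := hG
  refine ⟨p * r, fun i => ?_, fun l hl => ?_⟩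
  · exact (MvPolynomial.degreeOf_mul_le _ _ _).trans (Nat.add_le_add (hp i) (hr i))
  · show F l * G l = _
    rw [map_mul, hp' l hl, hr' l hl]

theorem PD.coord (N i : ℕ) : PD N 1 (fun l => l.getD i 0) := by
  by_cases h : i < N
  · refine ⟨MvPolynomial.X ⟨i, h⟩, fun j => ?_, fun l _ => ?_⟩
    · rw [MvPolynomial.degreeOf_X]; split_ifs <;> omega
    · rw [MvPolynomial.eval_X]
  · refine (PD.const N 1 0).congr ?_
    intro l hl
    exact List.getD_eq_default _ _ (by omega)

/-- with the other variables fixed, `F` is a univariate polynomial of degree `≤ d`. -/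
theorem PD.univ {N d : ℕ} {F : List ℂ → ℂ} (hF : PD N d F) (u v : List ℂ)
    (h : u.length + v.length + 1 = N) :
    ∃ P : ℂ[X], P.natDegree ≤ d ∧ ∀ x, F (u ++ x :: v) = P.eval x := by
  obtain ⟨p, hp, hp'⟩ := hF
  have hu : u.length < N := by omega
  let f : Fin N → ℂ[X] := fun i =>
    if i = ⟨u.length, hu⟩ then Polynomial.X else Polynomial.C ((u ++ 0 :: v).getD i 0)
  refine ⟨MvPolynomial.aeval f p, ?_, ?_⟩
  · refine (natDegree_aeval_le p hp f (fun i => if i = ⟨u.length, hu⟩ then 1 else 0) ?_).trans ?_
    · intro i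
      simp only [f]
      split_ifs
      · exact Polynomial.natDegree_X_le
      · rw [Polynomial.natDegree_C]
    · rw [← Finset.mul_sum, Finset.sum_ite_eq' Finset.univ]
      simp
  · intro x
    rw [eval_aeval_poly, hp' _ (by simp only [List.length_append, List.length_cons]; omega)]
    congr 2
    funext i
    simp only [f]
    split_ifs with hi
    · subst hi
      rw [Polynomial.eval_X]
      simp [List.getD_eq_getElem?_getD]
    · rw [Polynomial.eval_C]
      have hi' : (i : ℕ) ≠ u.length := fun h => hi (Fin.ext h)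
      rw [List.getD_eq_getElem?_getD, List.getD_eq_getElem?_getD]
      rw [List.getElem?_append, List.getElem?_append]
      split_ifs with hlt
      · rfl
      · obtain ⟨k, hk⟩ : ∃ k, (i : ℕ) - u.length = k + 1 := ⟨(i : ℕ) - u.length - 1, by omega⟩
        rw [hk]
        simp

/-- two adjacent variables `x, c x` -/
theorem PD.univ_pair {N d : ℕ} {F : List ℂ → ℂ} (hF : PD N d F) (u v : List ℂ) (c : ℂ)
    (h : u.length + v.length + 2 = N) :
    ∃ P : ℂ[X], P.natDegree ≤ 2 * d ∧ ∀ x, F (u ++ x :: (c * x) :: v) = P.eval x := by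
  obtain ⟨p, hp, hp'⟩ := hF
  have hu : u.length < N := by omega
  have hu' : u.length + 1 < N := by omega
  let f : Fin N → ℂ[X] := fun i => if i = ⟨u.length, hu⟩ then Polynomial.X else
    if i = ⟨u.length + 1, hu'⟩ then Polynomial.C c * Polynomial.X
    else Polynomial.C ((u ++ 0 :: 0 :: v).getD i 0)
  refine ⟨MvPolynomial.aeval f p, ?_, ?_⟩
  · refine (natDegree_aeval_le p hp f (fun i => (if i = ⟨u.length, hu⟩ then 1 else 0) +
      (if i = ⟨u.length + 1, hu'⟩ then 1 else 0)) ?_).trans ?_
    · intro i
      simp only [f]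
      by_cases h1 : i = ⟨u.length, hu⟩
      · rw [if_pos h1, if_pos h1]
        exact (Polynomial.natDegree_X_le).trans (by omega)
      · rw [if_neg h1, if_neg h1]
        by_cases h2 : i = ⟨u.length + 1, hu'⟩
        · rw [if_pos h2, if_pos h2]
          refine (Polynomial.natDegree_C_mul_le _ _).trans ?_
          exact (Polynomial.natDegree_X_le).trans (by omega)
        · rw [if_neg h2, if_neg h2, Polynomial.natDegree_C]
    · rw [← Finset.mul_sum, Finset.sum_add_distrib, Finset.sum_ite_eq' Finset.univ,
        Finset.sum_ite_eq' Finset.univ]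
      simp only [Finset.mem_univ, if_true]
      omega
  · intro x
    rw [eval_aeval_poly, hp' _ (by simp only [List.length_append, List.length_cons]; omega)]
    congr 2
    funext i
    simp only [f]
    split_ifs with hi hj
    · subst hi
      rw [Polynomial.eval_X]
      simp [List.getD_eq_getElem?_getD]
    · subst hj
      rw [Polynomial.eval_mul, Polynomial.eval_X, Polynomial.eval_C]
      rw [List.getD_eq_getElem?_getD, List.getElem?_append]
      simp
    · rw [Polynomial.eval_C]
      have hi' : (i : ℕ) ≠ u.length := fun h => hi (Fin.ext h)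
      have hj' : (i : ℕ) ≠ u.length + 1 := fun h => hj (Fin.ext h)
      rw [List.getD_eq_getElem?_getD, List.getD_eq_getElem?_getD]
      rw [List.getElem?_append, List.getElem?_append]
      split_ifs with hlt
      · rfl
      · obtain ⟨k, hk⟩ : ∃ k, (i : ℕ) - u.length = k + 2 := ⟨(i : ℕ) - u.length - 2, by omega⟩
        rw [hk]
        simp

/-- substitution of univariate polynomials for all variables -/
theorem PD.curve {N d : ℕ} {F : List ℂ → ℂ} (hF : PD N d F) (P : List ℂ[X])
    (h : P.length = N) :
    ∃ Q : ℂ[X], ∀ x, F (P.map (fun p => p.eval x)) = Q.eval x := by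
  obtain ⟨p, hp, hp'⟩ := hF
  refine ⟨MvPolynomial.aeval (fun i : Fin N => P.getD i 0) p, ?_⟩
  intro x
  rw [eval_aeval_poly, hp' _ (by rw [List.length_map, h])]
  congr 2
  funext i
  rw [List.getD_eq_getElem?_getD, List.getD_eq_getElem?_getD, List.getElem?_map]
  cases P[(i : ℕ)]? <;> simp

/-- fixing one variable -/
theorem PD.slice {M d : ℕ} {F : List ℂ → ℂ} (hF : PD (M+1) d F) (i : ℕ) (hi : i ≤ M) (x : ℂ) :
    PD M d (fun l => F (l.take i ++ x :: l.drop i)) := by
  classical
  let σ : Fin (M+1) → MvPolynomial (Fin M) ℂ := fun k =>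
    if h : (k : ℕ) < i then MvPolynomial.X ⟨k, by omega⟩
    else if h' : (k : ℕ) = i then MvPolynomial.C x
    else MvPolynomial.X ⟨(k : ℕ) - 1, by omega⟩
  refine hF.subst σ ?_ ?_ _ ?_ ?_
  · intro k j
    simp only [σ]
    split_ifs
    · rw [MvPolynomial.degreeOf_X]; split_ifs <;> omega
    · rw [MvPolynomial.degreeOf_C]; omega
    · rw [MvPolynomial.degreeOf_X]; split_ifs <;> omega
  · have key : ∀ (j : Fin M) (k : Fin (M+1)), (σ k).degreeOf j ≠ 0 →
        (k : ℕ) = if (j : ℕ) < i then (j : ℕ) else (j : ℕ) + 1 := by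
      intro j k hk
      simp only [σ] at hk
      split_ifs at hk with a b
      · rw [MvPolynomial.degreeOf_X] at hk
        split_ifs at hk with c
        · have : (j : ℕ) = k := by rw [c]
          rw [if_pos (by omega)]; omega
        · exact absurd rfl hk
      · rw [MvPolynomial.degreeOf_C] at hk
        exact absurd rfl hk
      · rw [MvPolynomial.degreeOf_X] at hk
        split_ifs at hk with c
        · have : (j : ℕ) = (k : ℕ) - 1 := by rw [c]
          rw [if_neg (by omega)]; omega
        · exact absurd rfl hk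
    intro j k k' h h'
    exact Fin.ext ((key j k h).trans (key j k' h').symm)
  · intro l hl
    simp only [List.length_append, List.length_cons, List.length_take, List.length_drop]
    omega
  · intro l hl k
    simp only [σ]
    rw [List.getD_eq_getElem?_getD, List.getElem?_append]
    have hlen : (l.take i).length = i := by rw [List.length_take]; omega
    rw [hlen]
    split_ifs with a b
    · rw [MvPolynomial.eval_X, List.getElem?_take_of_lt a, List.getD_eq_getElem?_getD]
    · rw [MvPolynomial.eval_C, b]
      simp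
    · rw [MvPolynomial.eval_X]
      obtain ⟨m, hm⟩ : ∃ m, (k : ℕ) - i = m + 1 := ⟨(k : ℕ) - i - 1, by omega⟩
      rw [hm, List.getElem?_cons_succ, List.getElem?_drop, List.getD_eq_getElem?_getD]
      congr 2
      show i + m = (k : ℕ) - 1
      omega

/-- fixing several leading or trailing variables -/
theorem PD.sliceLeft {M d : ℕ} {F : List ℂ → ℂ} (u : List ℂ) (hF : PD (u.length + M) d F) :
    PD M d (fun l => F (u ++ l)) := by
  classical
  let σ : Fin (u.length + M) → MvPolynomial (Fin M) ℂ := fun k =>
    if h : (k : ℕ) < u.length then MvPolynomial.C (u.getD k 0)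
    else MvPolynomial.X ⟨(k : ℕ) - u.length, by omega⟩
  refine hF.subst σ ?_ ?_ _ ?_ ?_
  · intro k j
    simp only [σ]
    split_ifs
    · rw [MvPolynomial.degreeOf_C]; omega
    · rw [MvPolynomial.degreeOf_X]; split_ifs <;> omega
  · have key : ∀ (j : Fin M) (k : Fin (u.length+M)), (σ k).degreeOf j ≠ 0 →
        (k : ℕ) = u.length + j := by
      intro j k hk
      simp only [σ] at hk
      split_ifs at hk with a
      · rw [MvPolynomial.degreeOf_C] at hk
        exact absurd rfl hk
      · rw [MvPolynomial.degreeOf_X] at hk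
        split_ifs at hk with c
        · have : (j : ℕ) = (k : ℕ) - u.length := by rw [c]
          omega
        · exact absurd rfl hk
    intro j k k' h h'
    exact Fin.ext ((key j k h).trans (key j k' h').symm)
  · intro l hl
    rw [List.length_append, hl]
  · intro l hl k
    simp only [σ]
    rw [List.getD_eq_getElem?_getD, List.getElem?_append]
    split_ifs with a
    · rw [MvPolynomial.eval_C, List.getD_eq_getElem?_getD]
    · rw [MvPolynomial.eval_X, List.getD_eq_getElem?_getD]

theorem PD.sliceRight {M d : ℕ} {F : List ℂ → ℂ} (v : List ℂ) (hF : PD (M + v.length) d F) :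
    PD M d (fun l => F (l ++ v)) := by
  classical
  let σ : Fin (M + v.length) → MvPolynomial (Fin M) ℂ := fun k =>
    if h : (k : ℕ) < M then MvPolynomial.X ⟨(k : ℕ), h⟩
    else MvPolynomial.C (v.getD ((k : ℕ) - M) 0)
  refine hF.subst σ ?_ ?_ _ ?_ ?_
  · intro k j
    simp only [σ]
    split_ifs
    · rw [MvPolynomial.degreeOf_X]; split_ifs <;> omega
    · rw [MvPolynomial.degreeOf_C]; omega
  · have key : ∀ (j : Fin M) (k : Fin (M + v.length)), (σ k).degreeOf j ≠ 0 →
        (k : ℕ) = j := by
      intro j k hk
      simp only [σ] at hk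
      split_ifs at hk with a
      · rw [MvPolynomial.degreeOf_X] at hk
        split_ifs at hk with c
        · have : (j : ℕ) = (k : ℕ) := by rw [c]
          omega
        · exact absurd rfl hk
      · rw [MvPolynomial.degreeOf_C] at hk
        exact absurd rfl hk
    intro j k k' h h'
    exact Fin.ext ((key j k h).trans (key j k' h').symm)
  · intro l hl
    rw [List.length_append, hl]
  · intro l hl k
    simp only [σ]
    rw [List.getD_eq_getElem?_getD, List.getElem?_append, hl]
    split_ifs with a
    · rw [MvPolynomial.eval_X, List.getD_eq_getElem?_getD]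
    · rw [MvPolynomial.eval_C, List.getD_eq_getElem?_getD]

theorem PD.roots {N d : ℕ} {F : List ℂ → ℂ} (hF : PD N d F) (u v : List ℂ)
    (h : u.length + v.length + 1 = N) (S : Finset ℂ) (hS : d < S.card)
    (h0 : ∀ x ∈ S, F (u ++ x :: v) = 0) (x : ℂ) : F (u ++ x :: v) = 0 := by
  obtain ⟨P, hP, hP'⟩ := hF.univ u v h
  rw [hP']
  have : P = 0 := by
    refine Polynomial.eq_zero_of_natDegree_lt_card_of_eval_eq_zero' P S ?_ (lt_of_le_of_lt hP hS)
    intro y hy
    rw [← hP']
    exact h0 y hy
  rw [this, Polynomial.eval_zero]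

/-- a polynomial function which vanishes for generic arguments vanishes: `bad` gives the finite
set of forbidden values of the next entry. -/
theorem PD.generic {N d : ℕ} {F : List ℂ → ℂ} (hF : PD N d F) (bad : List ℂ → Finset ℂ)
    (h : ∀ l : List ℂ, l.length = N → (∀ k < N, l.getD k 0 ∉ bad (l.take k)) → F l = 0) :
    ∀ l : List ℂ, l.length = N → F l = 0 := by
  induction N generalizing F bad with
  | zero =>
    intro l hl
    exact h l hl (fun k hk => absurd hk (Nat.not_lt_zero k))
  | succ N ih =>
    have hstep : ∀ x ∉ bad [], ∀ l : List ℂ, l.length = N → F (x :: l) = 0 := by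
      intro x hx
      have hF' : PD N d (fun l => F ([x] ++ l)) := by
        refine PD.sliceLeft [x] ?_
        rw [List.length_singleton, add_comm]
        exact hF
      refine ih hF' (fun l => bad (x :: l)) ?_
      intro l hl hk
      refine h (x :: l) (by rw [List.length_cons, hl]) ?_
      intro k hk'
      cases k with
      | zero => simpa using hx
      | succ k => simpa using hk k (by omega)
    intro l hl
    cases l with
    | nil => simp at hl
    | cons x l =>
      have hl' : l.length = N := by simpa using hl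
      obtain ⟨P, _, hP'⟩ := hF.univ [] l (by simp [hl'])
      have h0 : P = 0 := by
        refine Polynomial.eq_zero_of_infinite_isRoot P ?_
        refine Set.Infinite.mono (s := {y | y ∉ bad []}) ?_ ?_
        · intro y hy
          show P.eval y = 0
          rw [← hP']
          exact hstep y hy l hl'
        · exact (bad []).finite_toSet.infinite_compl
      have := hP' x
      rw [h0, Polynomial.eval_zero] at this
      exact this

/-- swapping two adjacent variables -/
theorem PD.swapAt {N d : ℕ} {F : List ℂ → ℂ} (hF : PD N d F) (i : ℕ) (hi : i + 2 ≤ N) :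
    PD N d (fun l => F (l.take i ++ l.getD (i+1) 0 :: l.getD i 0 :: l.drop (i+2))) := by
  classical
  let τ : Equiv.Perm (Fin N) := Equiv.swap ⟨i, by omega⟩ ⟨i+1, by omega⟩
  refine hF.subst (fun k => MvPolynomial.X (τ k)) ?_ ?_ _ ?_ ?_
  · intro k j
    rw [MvPolynomial.degreeOf_X]; split_ifs <;> omega
  · intro j k k' h h'
    simp only [MvPolynomial.degreeOf_X] at h h'
    split_ifs at h with a
    · split_ifs at h' with b
      · exact τ.injective (a.symm.trans b)
      · exact absurd rfl h'
    · exact absurd rfl h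
  · intro l hl
    simp only [List.length_append, List.length_cons, List.length_take, List.length_drop]
    omega
  · intro l hl k
    rw [MvPolynomial.eval_X]
    have hlen : (l.take i).length = i := by rw [List.length_take]; omega
    rw [List.getD_eq_getElem?_getD, List.getElem?_append, hlen]
    rcases lt_trichotomy (k : ℕ) i with a | a | a
    · have : τ k = k := by
        refine Equiv.swap_apply_of_ne_of_ne ?_ ?_
        · intro h; rw [h] at a; exact lt_irrefl _ a
        · intro h
          have : (k : ℕ) = i + 1 := by rw [h]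
          omega
      rw [if_pos a, this, List.getElem?_take_of_lt a, List.getD_eq_getElem?_getD]
    · have : τ k = ⟨i+1, by omega⟩ := by
        have hk : k = ⟨i, by omega⟩ := Fin.ext a
        exact (congrArg τ hk).trans (Equiv.swap_apply_left _ _)
      rw [if_neg (by omega), this, a]
      simp
    · by_cases b : (k : ℕ) = i + 1
      · have : τ k = ⟨i, by omega⟩ := by
          have hk : k = ⟨i+1, by omega⟩ := Fin.ext b
          exact (congrArg τ hk).trans (Equiv.swap_apply_right _ _)
        rw [if_neg (by omega), this, b]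
        simp
      · have : τ k = k := by
          refine Equiv.swap_apply_of_ne_of_ne ?_ ?_
          · intro h
            have : (k : ℕ) = i := by rw [h]
            omega
          · intro h
            have : (k : ℕ) = i + 1 := by rw [h]
            omega
        obtain ⟨m, hm⟩ : ∃ m, (k : ℕ) - i = m + 2 := ⟨(k : ℕ) - i - 2, by omega⟩
        rw [if_neg (by omega), this, hm, List.getElem?_cons_succ, List.getElem?_cons_succ,
          List.getElem?_drop, List.getD_eq_getElem?_getD]
        congr 2
        omega

/-- continuity along continuous curves -/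
theorem PD.cont {N d : ℕ} {F : List ℂ → ℂ} (hF : PD N d F) (f : Fin N → ℂ → ℂ) (t : ℂ)
    (hf : ∀ i, ContinuousAt (f i) t) :
    ContinuousAt (fun s => F (List.ofFn fun i => f i s)) t := by
  obtain ⟨p, hp, hp'⟩ := hF
  have h1 : (fun s => F (List.ofFn fun i => f i s))
      = fun s => MvPolynomial.eval (fun i => f i s) p := by
    funext s
    rw [hp' _ (List.length_ofFn)]
    congr 2
    funext i
    rw [List.getD_eq_getElem?_getD]
    simp
  rw [h1]
  have h2 : Continuous fun x : Fin N → ℂ => MvPolynomial.eval x p := MvPolynomial.continuous_eval p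
  have h3 : ContinuousAt (fun s => fun i => f i s) t := continuousAt_pi.2 hf
  exact h2.continuousAt.comp (f := fun s => fun i => f i s) h3

end Pool.Agent.H988R2.Perc
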