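import Pool.Agent.H988R2.Perc.T14

/-! T17: structural properties of the bilinear form `B`. -/

set_option linter.unusedVariables false

namespace Pool.Agent.H988R2.Perc

section Conn

theorem t17_act_subset {i : ℕ} (R R' : St) (a b : ℕ) (h : (St.act i R').rel a b) :
    Relation.EqvGen (fun a b => (St.act i R).rel a b ∨ R'.rel a b) a b := by
  have hR' : ∀ {x y : ℕ}, R'.rel x y →
      Relation.EqvGen (fun a b => (St.act i R).rel a b ∨ R'.rel a b) x y :=
    fun {x y} h => Relation.EqvGen.rel _ _ (Or.inr h)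
  rcases h with h | ⟨h1, h2, h3, h4, h | ⟨h, h'⟩ | ⟨h, h'⟩⟩
  · subst h; exact Relation.EqvGen.refl _
  · exact hR' h
  · have hi : i % 2 = 1 := by
      rcases R'.odd _ _ h with h | ⟨_, h⟩
      · rw [← h]; exact h1
      · exact h
    have h12 : (St.act i R).rel i (i+2) :=
      Or.inr ⟨hi, by omega, by omega, by omega, Or.inr (Or.inl ⟨R.eqv.1 _, R.eqv.1 _⟩)⟩
    exact Relation.EqvGen.trans _ _ _ (hR' h)
      (Relation.EqvGen.trans _ _ _ (Relation.EqvGen.rel _ _ (Or.inl h12)) (hR' h'))
  · have hi : i % 2 = 1 := by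
      rcases R'.odd _ _ h' with h | ⟨h, _⟩
      · rw [h]; exact h2
      · exact h
    have h12 : (St.act i R).rel i (i+2) :=
      Or.inr ⟨hi, by omega, by omega, by omega, Or.inr (Or.inl ⟨R.eqv.1 _, R.eqv.1 _⟩)⟩
    exact Relation.EqvGen.trans _ _ _ (hR' h)
      (Relation.EqvGen.trans _ _ _
        (Relation.EqvGen.symm _ _ (Relation.EqvGen.rel _ _ (Or.inl h12))) (hR' h'))

/-- the relation generated by both restricted relations -/
theorem t17_key {i : ℕ} (R R' : St) (a b : ℕ) (ha : a ≠ i+1) (hb : b ≠ i+1) :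
    Relation.EqvGen (fun a b => (St.act i R).rel a b ∨ R'.rel a b) a b ↔
    Relation.EqvGen (fun a b => (St.act i R).rel a b ∨ (St.act i R').rel a b) a b := by
  constructor
  · intro h
    -- W
    have hTr : ∀ {x y : ℕ}, x ≠ i+1 → y ≠ i+1 → R'.rel x y →
        Relation.EqvGen (fun a b => (St.act i R).rel a b ∨ (St.act i R').rel a b) x y := by
      intro x y hx hy hxy
      rcases R'.odd _ _ hxy with h | ⟨h, h'⟩
      · subst h; exact Relation.EqvGen.refl _
      · exact Relation.EqvGen.rel _ _ (Or.inr (Or.inr ⟨h, h', hx, hy, Or.inl hxy⟩))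
    have key : ∀ x y : ℕ,
        Relation.EqvGen (fun a b => (St.act i R).rel a b ∨ R'.rel a b) x y →
        (x = y ∨ ∃ x' y' : ℕ, x' ≠ i+1 ∧ y' ≠ i+1 ∧ R'.rel x x' ∧ R'.rel y y' ∧
          Relation.EqvGen (fun a b => (St.act i R).rel a b ∨ (St.act i R').rel a b) x' y') := by
      intro x y hxy
      induction hxy with
      | rel x y h =>
        rcases h with h | h
        · rcases h with h | ⟨h1, h2, h3, h4, h5⟩
          · exact Or.inl h
          · exact Or.inr ⟨x, y, h3, h4, R'.eqv.1 _, R'.eqv.1 _,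
              Relation.EqvGen.rel _ _ (Or.inl (Or.inr ⟨h1, h2, h3, h4, h5⟩))⟩
        · by_cases hx : x = i+1
          · by_cases hy : y = i+1
            · left; rw [hx, hy]
            · exact Or.inr ⟨y, y, hy, hy, h, R'.eqv.1 _, Relation.EqvGen.refl _⟩
          · exact Or.inr ⟨x, x, hx, hx, R'.eqv.1 _, R'.eqv.2 h, Relation.EqvGen.refl _⟩
      | refl x => exact Or.inl rfl
      | symm x y _ ih =>
        rcases ih with h | ⟨x', y', h1, h2, h3, h4, h5⟩
        · exact Or.inl h.symm
        · exact Or.inr ⟨y', x', h2, h1, h4, h3, Relation.EqvGen.symm _ _ h5⟩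
      | trans x y z _ _ ih1 ih2 =>
        rcases ih1 with h | ⟨x', y', h1, h2, h3, h4, h5⟩
        · rw [h]; exact ih2
        · rcases ih2 with k | ⟨y'', z', k1, k2, k3, k4, k5⟩
          · rw [← k]; exact Or.inr ⟨x', y', h1, h2, h3, h4, h5⟩
          · refine Or.inr ⟨x', z', h1, k2, h3, k4, ?_⟩
            exact Relation.EqvGen.trans _ _ _ h5 (Relation.EqvGen.trans _ _ _
              (hTr h2 k1 (R'.eqv.3 (R'.eqv.2 h4) k3)) k5)
    rcases key a b h with h | ⟨x', y', h1, h2, h3, h4, h5⟩
    · subst h; exact Relation.EqvGen.refl _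
    · exact Relation.EqvGen.trans _ _ _ (hTr ha h1 h3)
        (Relation.EqvGen.trans _ _ _ h5 (Relation.EqvGen.symm _ _ (hTr hb h2 h4)))
  · intro h
    clear ha hb
    induction h with
    | rel x y h =>
      rcases h with h | h
      · exact Relation.EqvGen.rel _ _ (Or.inl h)
      · exact t17_act_subset R R' x y h
    | refl x => exact Relation.EqvGen.refl _
    | symm x y _ ih => exact Relation.EqvGen.symm _ _ ih
    | trans x y z _ _ ih1 ih2 => exact Relation.EqvGen.trans _ _ _ ih1 ih2

theorem t17_conn_comm (L : ℕ) (R R' : St) : conn L R R' ↔ conn L R' R := by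
  unfold conn
  have : (fun a b => R.rel a b ∨ R'.rel a b) = (fun a b => R'.rel a b ∨ R.rel a b) := by
    funext a b; exact propext or_comm
  rw [this]

/-- adjointness of the generators (face `i+1` is neither `1` nor `L`). -/
theorem conn_act {L i : ℕ} (hi : 1 ≤ i) (hL : i + 1 ≠ L) (R R' : St) :
    conn L (St.act i R) R' ↔ conn L R (St.act i R') := by
  have h1 : (1:ℕ) ≠ i+1 := by omega
  rw [t17_conn_comm L R]
  unfold conn
  rw [t17_key R R' 1 L h1 (Ne.symm hL), t17_key R' R 1 L h1 (Ne.symm hL)]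
  have : (fun a b => (St.act i R).rel a b ∨ (St.act i R').rel a b) =
      (fun a b => (St.act i R').rel a b ∨ (St.act i R).rel a b) := by
    funext a b; exact propext or_comm
  rw [this]

theorem conn_ins_one {L : ℕ} (hL : 3 ≤ L) (hodd : Odd L) (R R' : St) :
    conn L (St.ins 1 R) (St.ins 1 R') ↔ conn (L-2) R R' := by
  unfold conn
  have hlow : ∀ (S : St) (a b : ℕ), (St.ins 1 S).rel a b → S.rel (St.low 1 a) (St.low 1 b) := by
    rintro S a b (h | ⟨_, _, _, _, h⟩)
    · subst h; exact S.eqv.1 _
    · exact h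
  have hup : ∀ (S : St) (a b : ℕ), S.rel a b → (St.ins 1 S).rel (a+2) (b+2) := by
    intro S a b h
    rcases S.odd _ _ h with h' | ⟨h1, h2⟩
    · left; rw [h']
    · right
      have e1 : St.low 1 (a+2) = a := by unfold St.low; split_ifs <;> omega
      have e2 : St.low 1 (b+2) = b := by unfold St.low; split_ifs <;> omega
      exact ⟨by omega, by omega, by omega, by omega, by rw [e1, e2]; exact h⟩
  constructor
  · intro h
    have : ∀ a b : ℕ, Relation.EqvGen (fun a b => (St.ins 1 R).rel a b ∨ (St.ins 1 R').rel a b) a b →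
        Relation.EqvGen (fun a b => R.rel a b ∨ R'.rel a b) (St.low 1 a) (St.low 1 b) := by
      intro a b h
      induction h with
      | rel x y h =>
        rcases h with h | h
        · exact Relation.EqvGen.rel _ _ (Or.inl (hlow R _ _ h))
        · exact Relation.EqvGen.rel _ _ (Or.inr (hlow R' _ _ h))
      | refl x => exact Relation.EqvGen.refl _
      | symm x y _ ih => exact Relation.EqvGen.symm _ _ ih
      | trans x y z _ _ ih1 ih2 => exact Relation.EqvGen.trans _ _ _ ih1 ih2
    have h2 := this _ _ h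
    have e1 : St.low 1 1 = 1 := by simp [St.low]
    have e2 : St.low 1 L = L - 2 := by unfold St.low; split_ifs <;> omega
    rw [e1, e2] at h2
    exact h2
  · intro h
    have : ∀ a b : ℕ, Relation.EqvGen (fun a b => R.rel a b ∨ R'.rel a b) a b →
        Relation.EqvGen (fun a b => (St.ins 1 R).rel a b ∨ (St.ins 1 R').rel a b) (a+2) (b+2) := by
      intro a b h
      induction h with
      | rel x y h =>
        rcases h with h | h
        · exact Relation.EqvGen.rel _ _ (Or.inl (hup R _ _ h))
        · exact Relation.EqvGen.rel _ _ (Or.inr (hup R' _ _ h))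
      | refl x => exact Relation.EqvGen.refl _
      | symm x y _ ih => exact Relation.EqvGen.symm _ _ ih
      | trans x y z _ _ ih1 ih2 => exact Relation.EqvGen.trans _ _ _ ih1 ih2
    have h2 := this _ _ h
    have e2 : L - 2 + 2 = L := by omega
    rw [e2] at h2
    refine Relation.EqvGen.trans _ _ _ (Relation.EqvGen.rel _ _ (Or.inl (Or.inr
      ⟨by omega, by omega, by omega, by omega, ?_⟩))) h2
    have e1 : St.low 1 1 = 1 := by simp [St.low]
    have e3 : St.low 1 (1+2) = 1 := by simp [St.low]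
    rw [e1, e3]; exact R.eqv.1 _

end Conn

section Pair

open Classical in
theorem t17_pair_def (L : ℕ) (f g : St →₀ ℂ) :
    pair L f g = f.sum fun R a => g.sum fun R' b => a * b * (if conn L R R' then 1 else 0) := rfl

theorem pair_add_left (L : ℕ) (f g h : St →₀ ℂ) : pair L (f + g) h = pair L f h + pair L g h := by
  classical
  unfold pair
  rw [Finsupp.sum_add_index']
  · intro R; simp
  · intro R b c
    rw [← Finsupp.sum_add]
    refine Finsupp.sum_congr (fun R' _ => ?_)
    ring

theorem pair_add_right (L : ℕ) (f g h : St →₀ ℂ) :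
    pair L f (g + h) = pair L f g + pair L f h := by
  classical
  unfold pair
  rw [← Finsupp.sum_add]
  refine Finsupp.sum_congr (fun R _ => ?_)
  rw [Finsupp.sum_add_index']
  · intro R; simp
  · intro R b c; ring

theorem pair_smul_left (L : ℕ) (c : ℂ) (f g : St →₀ ℂ) : pair L (c • f) g = c * pair L f g := by
  classical
  unfold pair
  rw [Finsupp.sum_smul_index' (fun R => by simp), Finsupp.mul_sum]
  refine Finsupp.sum_congr (fun R _ => ?_)
  rw [Finsupp.mul_sum]
  refine Finsupp.sum_congr (fun R' _ => ?_)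
  simp only [smul_eq_mul]; ring

theorem pair_smul_right (L : ℕ) (c : ℂ) (f g : St →₀ ℂ) : pair L f (c • g) = c * pair L f g := by
  classical
  unfold pair
  rw [Finsupp.mul_sum]
  refine Finsupp.sum_congr (fun R _ => ?_)
  rw [Finsupp.sum_smul_index' (fun R => by simp), Finsupp.mul_sum]
  refine Finsupp.sum_congr (fun R' _ => ?_)
  simp only [smul_eq_mul]; ring

theorem t17_pair_map_left (L : ℕ) (φ : St → St) (f g : St →₀ ℂ) [∀ R R' : St, Decidable (conn L R R')] :
    pair L (Finsupp.mapDomain φ f) g =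
      f.sum fun R a => g.sum fun R' b => a * b * (if conn L (φ R) R' then 1 else 0) := by
  unfold pair
  rw [Finsupp.sum_mapDomain_index]
  · refine Finsupp.sum_congr (fun R _ => ?_)
    refine Finsupp.sum_congr (fun R' _ => ?_)
    congr
  · intro R; simp
  · intro R b c
    rw [← Finsupp.sum_add]
    refine Finsupp.sum_congr (fun R' _ => ?_)
    ring

theorem t17_pair_map_right (L : ℕ) (φ : St → St) (f g : St →₀ ℂ) [∀ R R' : St, Decidable (conn L R R')] :
    pair L f (Finsupp.mapDomain φ g) =
      f.sum fun R a => g.sum fun R' b => a * b * (if conn L R (φ R') then 1 else 0) := by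
  unfold pair
  refine Finsupp.sum_congr (fun R _ => ?_)
  rw [Finsupp.sum_mapDomain_index]
  · refine Finsupp.sum_congr (fun R' _ => ?_)
    congr
  · intro R; simp
  · intro R b c
    ring

theorem pair_act {L i : ℕ} (hi : 1 ≤ i) (hL : i + 1 ≠ L) (f g : St →₀ ℂ) :
    pair L (Finsupp.mapDomain (St.act i) f) g = pair L f (Finsupp.mapDomain (St.act i) g) := by
  classical
  rw [t17_pair_map_left, t17_pair_map_right]
  refine Finsupp.sum_congr (fun R _ => Finsupp.sum_congr (fun R' _ => ?_))
  by_cases h : conn L (St.act i R) R'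
  · rw [if_pos h, if_pos ((conn_act hi hL R R').1 h)]
  · rw [if_neg h, if_neg (fun k => h ((conn_act hi hL R R').2 k))]

theorem pair_ins_one {L : ℕ} (hL : 3 ≤ L) (hodd : Odd L) (f g : St →₀ ℂ) :
    pair L (Finsupp.mapDomain (St.ins 1) f) (Finsupp.mapDomain (St.ins 1) g) =
      pair (L-2) f g := by
  classical
  rw [t17_pair_map_left]
  have : ∀ (R : St) (a : ℂ), ((Finsupp.mapDomain (St.ins 1) g).sum fun R' b =>
      a * b * (if conn L (St.ins 1 R) R' then (1:ℂ) else 0)) =
      g.sum fun R' b => a * b * (if conn (L-2) R R' then (1:ℂ) else 0) := by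
    intro R a
    rw [Finsupp.sum_mapDomain_index]
    · refine Finsupp.sum_congr (fun R' _ => ?_)
      by_cases h : conn L (St.ins 1 R) (St.ins 1 R')
      · rw [if_pos h, if_pos ((conn_ins_one hL hodd R R').1 h)]
      · rw [if_neg h, if_neg (fun k => h ((conn_ins_one hL hodd R R').2 k))]
    · intro R; simp
    · intro R b c; ring
  simp only [this]
  unfold pair
  refine Finsupp.sum_congr (fun R _ => Finsupp.sum_congr (fun R' _ => ?_))
  congr

end Pair

theorem t17_mapDomain_act_act (i : ℕ) (f : St →₀ ℂ) :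
    Finsupp.mapDomain (St.act i) (Finsupp.mapDomain (St.act i) f) =
      Finsupp.mapDomain (St.act i) f := by
  rw [← Finsupp.mapDomain_comp]
  congr 1
  funext R
  exact St.act_act i R

/-- `B` is symmetric in all variables except the first -/
theorem B_swap (u v : List ℂ) (x y : ℂ) (hu : 1 ≤ u.length) (h : Odd (u.length + v.length))
    (hx : x ≠ 0) (hy : y ≠ 0) (h0 : ∀ z ∈ u ++ v, z ≠ 0)
    (hxy : q * x - q^2 * y ≠ 0) (hyx : q * y - q^2 * x ≠ 0) :
    B (u ++ y :: x :: v) = B (u ++ x :: y :: v) := by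
  have hev : Even (u.length + (v ++ [0]).length) := by
    rw [List.length_append, List.length_singleton, ← add_assoc]
    exact Odd.add_one h
  have hev' : Even ((u.map (fun x => x⁻¹)).length + ((v.map (fun x => x⁻¹)) ++ [0]).length) := by
    rw [List.length_append, List.length_map, List.length_map, List.length_singleton, ← add_assoc]
    exact Odd.add_one h
  have e1 := Psi_exch u (v ++ [0]) x y hev
  have e2 := Psi_exch (u.map (fun x => x⁻¹)) ((v.map (fun x => x⁻¹)) ++ [0]) x⁻¹ y⁻¹ hev'
  rw [List.length_map] at e2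
  have hB1 : B (u ++ y :: x :: v) = (u.prod * v.prod * (x * y))^(u.length + v.length + 1) *
      pair (u.length + v.length + 2)
        (Psi (u.map (fun x => x⁻¹) ++ y⁻¹ :: x⁻¹ :: (v.map (fun x => x⁻¹) ++ [0])))
        (Psi (u ++ y :: x :: (v ++ [0]))) := by
    unfold B PsiInv
    rw [pair_smul_left]
    have hl : (u ++ y :: x :: v).length = u.length + v.length + 2 := by
      simp only [List.length_append, List.length_cons]; ring
    rw [hl]
    congr 1
    · congr 1
      simp only [List.prod_append, List.prod_cons]; ring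
    · congr 1
      · congr 1; simp
      · congr 1; simp
  have hB2 : B (u ++ x :: y :: v) = (u.prod * v.prod * (x * y))^(u.length + v.length + 1) *
      pair (u.length + v.length + 2)
        (Psi (u.map (fun x => x⁻¹) ++ x⁻¹ :: y⁻¹ :: (v.map (fun x => x⁻¹) ++ [0])))
        (Psi (u ++ x :: y :: (v ++ [0]))) := by
    unfold B PsiInv
    rw [pair_smul_left]
    have hl : (u ++ x :: y :: v).length = u.length + v.length + 2 := by
      simp only [List.length_append, List.length_cons]; ring
    rw [hl]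
    congr 1
    · congr 1
      simp only [List.prod_append, List.prod_cons]; ring
    · congr 1
      · congr 1; simp
      · congr 1; simp
  rw [hB1, hB2]
  congr 1
  set I' := Psi (u.map (fun x => x⁻¹) ++ y⁻¹ :: x⁻¹ :: (v.map (fun x => x⁻¹) ++ [0])) with hI'
  set I := Psi (u.map (fun x => x⁻¹) ++ x⁻¹ :: y⁻¹ :: (v.map (fun x => x⁻¹) ++ [0])) with hI
  set P' := Psi (u ++ y :: x :: (v ++ [0])) with hP'
  set P := Psi (u ++ x :: y :: (v ++ [0])) with hP
  have e3 : (q * y - q^2 * x) • I' = (q * x - q^2 * y) • I + (x - y) •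
      Finsupp.mapDomain (St.act u.length) I := by
    have := congrArg (fun F => (x * y) • F) e2
    simp only [smul_add, smul_smul] at this
    have k1 : x * y * (q * x⁻¹ - q^2 * y⁻¹) = q * y - q^2 * x := by field_simp
    have k2 : x * y * (q * y⁻¹ - q^2 * x⁻¹) = q * x - q^2 * y := by field_simp
    have k3 : x * y * (y⁻¹ - x⁻¹) = x - y := by field_simp
    rw [k1, k2, k3] at this
    exact this
  set L := u.length + v.length + 2 with hL
  have hadj : ∀ f g : St →₀ ℂ, pair L (Finsupp.mapDomain (St.act u.length) f) g =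
      pair L f (Finsupp.mapDomain (St.act u.length) g) := fun f g =>
    pair_act hu (by omega) f g
  have main : (q * y - q^2 * x) * ((q * x - q^2 * y) * pair L I' P') =
      (q * y - q^2 * x) * ((q * x - q^2 * y) * pair L I P) := by
    have s1 : (q * y - q^2 * x) * ((q * x - q^2 * y) * pair L I' P') =
        pair L ((q * y - q^2 * x) • I') ((q * x - q^2 * y) • P') := by
      rw [pair_smul_left, pair_smul_right]
    rw [s1, e3, e1]
    simp only [pair_add_left, pair_add_right, pair_smul_left, pair_smul_right, hadj,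
      t17_mapDomain_act_act]
    have hq := q_spec
    linear_combination (y - x) * (x - y) * pair L I (Finsupp.mapDomain (St.act u.length) P) * hq
  exact mul_left_cancel₀ hxy (mul_left_cancel₀ hyx main)

/-- inversion of the last variable -/
theorem B_inv_last (u : List ℂ) (x : ℂ) (hu : Even u.length) (hx : x ≠ 0)
    (h0 : ∀ z ∈ u, z ≠ 0) :
    B (u ++ [x]) = x^(2 * u.length) * B (u ++ [x⁻¹]) := by
  have e1 := Psi_inv0 x u hx hu
  have e2 := Psi_inv0 x (u.map (fun x => x⁻¹)) hx (by rw [List.length_map]; exact hu)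
  rw [List.length_map] at e2
  have e3 : PsiInv (u ++ [x]) = x^(u.length) • PsiInv (u ++ [x⁻¹]) := by
    unfold PsiInv
    have hl : ∀ z : ℂ, (u ++ [z]).length - 1 = u.length := by
      intro z; simp
    have hm : ∀ z : ℂ, (u ++ [z]).map (fun x => x⁻¹) ++ [0] = u.map (fun x => x⁻¹) ++ [z⁻¹, 0] := by
      intro z; simp
    have hp : ∀ z : ℂ, (u ++ [z]).prod = u.prod * z := by
      intro z; simp
    rw [hl, hl, hm, hm, hp, hp, inv_inv, e2, smul_smul, smul_smul]
    congr 1
    rw [mul_pow, mul_pow, inv_pow]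
    have : x ^ u.length ≠ 0 := pow_ne_zero _ hx
    field_simp
  unfold B
  have hl : ∀ z : ℂ, (u ++ [z]).length = u.length + 1 := by
    intro z; simp
  have hm : ∀ z : ℂ, (u ++ [z]) ++ [0] = u ++ [z, 0] := by
    intro z; simp
  rw [hl, hl, hm, hm, e1, e3, pair_smul_left, pair_smul_right]
  ring

/-- the factor at inverted variables -/
theorem t17_fac_inv (x : ℂ) (hx : x ≠ 0) (m : List ℂ) (hm : ∀ z ∈ m, z ≠ 0) :
    (x^m.length)^2 * m.prod^2 * fac (q^2 * x)⁻¹ (m.map (fun z => z⁻¹)) =
      q^m.length * fac x m := by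
  induction m with
  | nil => simp [fac]
  | cons z m ih =>
    have hz : z ≠ 0 := hm z (by simp)
    have ih := ih (fun z hz => hm z (by simp [hz]))
    have hq0 := q_ne_zero
    have hq3 := q_cube
    have hf1 : fac (q^2 * x)⁻¹ ((z :: m).map (fun z => z⁻¹)) =
        (((q^2 * x)⁻¹ - q^2 * z⁻¹) * ((q^2 * x)⁻¹ * z⁻¹ - q^2)) *
          fac (q^2 * x)⁻¹ (m.map (fun z => z⁻¹)) := by
      simp [fac]
    have hf2 : fac x (z :: m) = ((x - q^2 * z) * (x * z - q^2)) * fac x m := by
      simp [fac]
    rw [hf1, hf2, List.prod_cons, List.length_cons]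
    have hinv : (q^2 * x)⁻¹ = q * x⁻¹ := by
      rw [mul_inv]
      congr 1
      rw [inv_eq_iff_eq_inv]
      rw [eq_comm, inv_eq_iff_eq_inv]
      field_simp
      linear_combination hq3
    have key : x^2 * z^2 * (((q^2 * x)⁻¹ - q^2 * z⁻¹) * ((q^2 * x)⁻¹ * z⁻¹ - q^2)) =
        q * ((x - q^2 * z) * (x * z - q^2)) := by
      rw [hinv]
      have h1 : x^2 * z^2 * ((q * x⁻¹ - q^2 * z⁻¹) * (q * x⁻¹ * z⁻¹ - q^2)) =
          q^2 * (z - q * x) * (1 - q * (x * z)) := by
        field_simp
      rw [h1]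
      linear_combination (-x - x * z^2 + x^2 * z * q + x * z^2 - q^2 * z + x) * hq3
    calc (x ^ (m.length + 1)) ^ 2 * (z * m.prod) ^ 2 *
        ((((q^2 * x)⁻¹ - q^2 * z⁻¹) * ((q^2 * x)⁻¹ * z⁻¹ - q^2)) *
          fac (q^2 * x)⁻¹ (m.map (fun z => z⁻¹))) =
        (x^2 * z^2 * (((q^2 * x)⁻¹ - q^2 * z⁻¹) * ((q^2 * x)⁻¹ * z⁻¹ - q^2))) *
          ((x^m.length)^2 * m.prod^2 * fac (q^2 * x)⁻¹ (m.map (fun z => z⁻¹))) := by ring
      _ = _ := by rw [key, ih]; ring

/-- recursion -/
theorem B_rec (a x : ℂ) (v : List ℂ) (hv : Even v.length) (ha : a ≠ 0) (hx : x ≠ 0)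
    (h0 : ∀ z ∈ v, z ≠ 0) :
    B (a :: x :: (q^2 * x) :: v) = q^4 * x^2 * (fac x (a :: v))^2 * B (a :: v) := by
  have hq0 := q_ne_zero
  have hq3 := q_cube
  have hpar : Even (([a] : List ℂ).length + (v ++ [0]).length) := by
    rw [List.length_append, List.length_singleton, List.length_singleton]
    have h2 : 1 + (v.length + 1) = v.length + 2 := by ring
    rw [h2]; exact hv.add (by decide)
  have hpar' : Even (([a⁻¹] : List ℂ).length + (v.map (fun x => x⁻¹) ++ [0]).length) := by
    rw [List.length_append, List.length_singleton, List.length_singleton, List.length_map]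
    have h2 : 1 + (v.length + 1) = v.length + 2 := by ring
    rw [h2]; exact hv.add (by decide)
  set y' := (q^2 * x)⁻¹ with hy'
  have hy'0 : y' ≠ 0 := inv_ne_zero (mul_ne_zero (pow_ne_zero _ hq0) hx)
  have hxy : x⁻¹ = q^2 * y' := by
    rw [hy', mul_inv, ← mul_assoc, mul_inv_cancel₀ (pow_ne_zero _ hq0), one_mul]
  set H := Psi ([a] ++ (v ++ [0])) with hH
  set K := Psi ([a⁻¹] ++ (v.map (fun x => x⁻¹) ++ [0])) with hK
  have r1 := Psi_rec [a] (v ++ [0]) x hpar
  have r2 := Psi_rec [a⁻¹] (v.map (fun x => x⁻¹) ++ [0]) y' hpar'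
  have e1 := Psi_exch [a⁻¹] (v.map (fun x => x⁻¹) ++ [0]) (q^2 * y') y' hpar'
  set G := Psi ([a⁻¹] ++ (q^2 * y') :: y' :: (v.map (fun x => x⁻¹) ++ [0])) with hG
  have hc1 : q * (q^2 * y') - q^2 * y' = (1 - q^2) * y' := by
    linear_combination y' * hq3
  have hc2 : q * y' - q^2 * (q^2 * y') = 0 := by
    linear_combination (-q * y') * hq3
  have hc3 : y' - q^2 * y' = (1 - q^2) * y' := by ring
  rw [hc1, hc2, hc3, zero_smul, zero_add] at e1
  have hne : (1 - q^2) * y' ≠ 0 :=
    mul_ne_zero (sub_ne_zero.2 (Ne.symm q_sq_ne_one)) hy'0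
  have e2 : Psi ([a⁻¹] ++ y' :: (q^2 * y') :: (v.map (fun x => x⁻¹) ++ [0])) =
      Finsupp.mapDomain (St.act ([a⁻¹] : List ℂ).length) G := by
    have := congrArg (fun F => ((1 - q^2) * y')⁻¹ • F) e1
    simp only [smul_smul, inv_mul_cancel₀ hne, one_smul] at this
    exact this
  rw [e2, List.length_singleton] at r2
  rw [List.length_singleton] at r1
  have hpair : pair (v.length + 3) G (Finsupp.mapDomain (St.ins 1) H) =
      fac y' ([a⁻¹] ++ (v.map (fun x => x⁻¹) ++ [0])) * pair (v.length + 1) K H := by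
    have s1 : Finsupp.mapDomain (St.ins 1) H =
        Finsupp.mapDomain (St.act 1) (Finsupp.mapDomain (St.ins 1) H) := by
      rw [← Finsupp.mapDomain_comp]
      congr 1
      funext R
      exact (St.act_ins_self 1 R).symm
    rw [s1, ← pair_act (le_refl 1) (by omega), r2, pair_smul_left]
    congr 1
    have := pair_ins_one (L := v.length + 3) (by omega) (hv.add_odd (by decide)) K H
    rw [this]
    rfl
  have hB1 : B (a :: x :: (q^2 * x) :: v) = ((a * v.prod) * (q^2 * x^2))^(v.length + 2) *
      (fac x ([a] ++ (v ++ [0])) *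
        (fac y' ([a⁻¹] ++ (v.map (fun x => x⁻¹) ++ [0])) * pair (v.length + 1) K H)) := by
    unfold B PsiInv
    rw [pair_smul_left]
    have hl : (a :: x :: (q^2 * x) :: v).length = v.length + 3 := by
      simp only [List.length_cons]
    have hl' : (a :: x :: (q^2 * x) :: v).length - 1 = v.length + 2 := by
      simp only [List.length_cons]; omega
    rw [hl', hl]
    congr 1
    · congr 1
      simp only [List.prod_cons]; ring
    · have t1 : Psi ((a :: x :: (q^2 * x) :: v).map (fun x => x⁻¹) ++ [0]) = G := by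
        rw [hG]
        congr 1
        simp only [List.map_cons, List.cons_append, List.nil_append, ← hxy, ← hy']
      have t2 : Psi ((a :: x :: (q^2 * x) :: v) ++ [0]) =
          fac x ([a] ++ (v ++ [0])) • Finsupp.mapDomain (St.ins 1) H := by
        rw [← r1]
        congr 1
      rw [t1, t2, pair_smul_right, hpair]
  have hB2 : B (a :: v) = (a * v.prod)^(v.length) * pair (v.length + 1) K H := by
    unfold B PsiInv
    rw [pair_smul_left]
    have hl : (a :: v).length = v.length + 1 := by
      simp only [List.length_cons]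
    have hl' : (a :: v).length - 1 = v.length := by
      simp only [List.length_cons]; omega
    rw [hl', hl]
    congr 1
  rw [hB1, hB2]
  have hf1 : fac x ([a] ++ (v ++ [0])) = fac x (a :: v) * (x * (-q^2)) := by
    simp [fac]; ring
  have hf2 : fac y' ([a⁻¹] ++ (v.map (fun x => x⁻¹) ++ [0])) =
      fac y' ((a :: v).map (fun x => x⁻¹)) * (y' * (-q^2)) := by
    simp [fac]; ring
  have hf3 := t17_fac_inv x hx (a :: v) (by
    intro z hz
    rcases List.mem_cons.1 hz with rfl | hz
    · exact ha
    · exact h0 z hz)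
  rw [← hy', List.prod_cons, List.length_cons] at hf3
  rw [hf1, hf2]
  set W := fac y' ((a :: v).map (fun x => x⁻¹)) with hW
  set F := fac x (a :: v) with hF
  set D := pair (v.length + 1) K H with hD
  set p := a * v.prod with hp
  set n := v.length with hn
  have hyx : y' * (q^2 * x) = 1 := by
    rw [hy']; exact inv_mul_cancel₀ (mul_ne_zero (pow_ne_zero _ hq0) hx)
  -- (p q² x²)^(n+2) F x (-q²) W y' (-q²) D = q⁴ x² F² p^n D
  have hq3n : q^(3*n) = 1 := by rw [pow_mul, hq3, one_pow]
  have g1 : (p * (q^2 * x^2))^(n+2) * (F * (x * (-q^2)) * (W * (y' * (-q^2)) * D)) =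
      (x^(n+1))^2 * p^2 * W * (y' * (q^2 * x)) * (p^n * q^(2*n+6) * x^2 * F * D) := by
    ring
  have g2 : q^(n+1) * q^(2*n+6) = q^4 := by
    have : q^(n+1) * q^(2*n+6) = q^(3*n) * q^3 * q^4 := by ring
    rw [this, hq3n, hq3]; ring
  rw [g1, hyx, hf3]
  linear_combination (F^2 * p^n * x^2 * D) * g2

/-- reflected polynomials -/
theorem t17_reflect (n : ℕ) (Q : Polynomial ℂ) (hQ : Q.natDegree ≤ n) :
    ∃ P : Polynomial ℂ, P.natDegree ≤ n ∧ ∀ x : ℂ, x ≠ 0 → x^n * Q.eval x⁻¹ = P.eval x := by
  refine ⟨∑ k ∈ Finset.range (n+1), Polynomial.C (Q.coeff k) * Polynomial.X^(n-k), ?_, ?_⟩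
  · refine Polynomial.natDegree_sum_le_of_forall_le _ _ ?_
    intro k _
    exact (Polynomial.natDegree_C_mul_X_pow_le _ _).trans (Nat.sub_le _ _)
  · intro x hx
    rw [Polynomial.eval_eq_sum_range' (Nat.lt_succ_of_le hQ), Polynomial.eval_finsetSum,
      Finset.mul_sum]
    refine Finset.sum_congr rfl (fun k hk => ?_)
    have hk : k ≤ n := Nat.lt_succ_iff.1 (Finset.mem_range.1 hk)
    rw [Polynomial.eval_mul, Polynomial.eval_C, Polynomial.eval_pow, Polynomial.eval_X, inv_pow]
    have : x^n = x^(n-k) * x^k := by rw [← pow_add, Nat.sub_add_cancel hk]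
    rw [this]
    have hxk : x^k ≠ 0 := pow_ne_zero _ hx
    field_simp

theorem t17_pair_sum (L : ℕ) (f g : St →₀ ℂ) (S : Finset St) (hf : f.support ⊆ S)
    (hg : g.support ⊆ S) [∀ R R' : St, Decidable (conn L R R')] :
    pair L f g = ∑ R ∈ S, ∑ R' ∈ S, f R * g R' * (if conn L R R' then 1 else 0) := by
  unfold pair
  rw [Finsupp.sum_of_support_subset f hf]
  · refine Finset.sum_congr rfl (fun R _ => ?_)
    rw [Finsupp.sum_of_support_subset g hg]
    · refine Finset.sum_congr rfl (fun R' _ => ?_)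
      congr
    · intro R' _; simp
  · intro R _; simp

theorem t17_supp (N : ℕ) : ∃ S : Finset St, ∀ l : List ℂ, l.length = N → (Psi l).support ⊆ S := by
  classical
  refine ⟨(LP N).image (Phi (N / 2)), ?_⟩
  intro l hl
  unfold Psi
  rw [hl]
  refine (Finsupp.support_finsetSum).trans ?_
  intro R hR
  rw [Finset.mem_biUnion] at hR
  obtain ⟨w, hw, hR⟩ := hR
  have := Finsupp.support_single_subset hR
  rw [Finset.mem_singleton] at this
  rw [this]
  exact Finset.mem_image_of_mem _ hw

/-- polynomiality in one variable: degree `≤ 2(L-1)`. -/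
theorem B_poly (u v : List ℂ) (h : Even (u.length + v.length)) (h0 : ∀ z ∈ u ++ v, z ≠ 0) :
    ∃ P : Polynomial ℂ, P.natDegree ≤ 2 * (u.length + v.length) ∧
      ∀ x, x ≠ 0 → B (u ++ x :: v) = P.eval x := by
  classical
  set n := u.length + v.length with hn
  have hN : Even (n + 2) := h.add (by decide)
  obtain ⟨S, hS⟩ := t17_supp (n + 2)
  have h1 : ∀ R : St, ∃ P : Polynomial ℂ, P.natDegree ≤ n ∧
      ∀ x, Psi (u ++ x :: (v ++ [0])) R = P.eval x := fun R => by
    have := (Psi_pd (n+2) hN R).univ u (v ++ [0]) (by simp [hn]; ring)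
    simpa using this
  have h2 : ∀ R : St, ∃ P : Polynomial ℂ, P.natDegree ≤ n ∧
      ∀ x, Psi (u.map (fun x => x⁻¹) ++ x :: (v.map (fun x => x⁻¹) ++ [0])) R = P.eval x := by
    intro R
    have := (Psi_pd (n+2) hN R).univ (u.map (fun x => x⁻¹)) (v.map (fun x => x⁻¹) ++ [0])
      (by simp [hn]; ring)
    simpa using this
  choose P hP1 hP2 using h1
  choose Q hQ1 hQ2 using h2
  have h3 := fun R => t17_reflect n (Q R) (hQ1 R)
  choose Q' hQ'1 hQ'2 using h3
  refine ⟨∑ R ∈ S, ∑ R' ∈ S, Q' R * P R' *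
    Polynomial.C ((u.prod * v.prod)^n * (if conn (n+1) R R' then 1 else 0)), ?_, ?_⟩
  · refine Polynomial.natDegree_sum_le_of_forall_le _ _ (fun R _ => ?_)
    refine Polynomial.natDegree_sum_le_of_forall_le _ _ (fun R' _ => ?_)
    refine (Polynomial.natDegree_mul_C_le _ _).trans ?_
    refine (Polynomial.natDegree_mul_le).trans ?_
    have := hQ'1 R
    have := hP1 R'
    omega
  · intro x hx
    have e1 : B (u ++ x :: v) = (u.prod * v.prod)^n * (x^n *
        pair (n+1) (Psi (u.map (fun x => x⁻¹) ++ x⁻¹ :: (v.map (fun x => x⁻¹) ++ [0])))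
          (Psi (u ++ x :: (v ++ [0])))) := by
      unfold B PsiInv
      rw [pair_smul_left]
      have hl : (u ++ x :: v).length = n + 1 := by
        simp only [List.length_append, List.length_cons, hn]; ring
      have hl' : (u ++ x :: v).length - 1 = n := by rw [hl]; rfl
      rw [hl', hl, ← mul_assoc, ← mul_pow]
      congr 1
      · congr 1
        simp only [List.prod_append, List.prod_cons]; ring
      · congr 1
        · congr 1; simp
        · congr 1; simp
    rw [e1, t17_pair_sum (n+1) _ _ S (hS _ (by simp [hn]; ring)) (hS _ (by simp [hn]; ring)),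
      Polynomial.eval_finsetSum, Finset.mul_sum, Finset.mul_sum]
    refine Finset.sum_congr rfl (fun R _ => ?_)
    rw [Polynomial.eval_finsetSum, Finset.mul_sum, Finset.mul_sum]
    refine Finset.sum_congr rfl (fun R' _ => ?_)
    rw [Polynomial.eval_mul, Polynomial.eval_mul, Polynomial.eval_C, ← hQ'2 R x hx, hP2, hQ2]
    ring

/-- `B` is symmetric in all variables except the first: general version -/
theorem B_swap' (u v : List ℂ) (x y : ℂ) (hu : 1 ≤ u.length) (h : Odd (u.length + v.length))
    (hx : x ≠ 0) (hy : y ≠ 0) (h0 : ∀ z ∈ u ++ v, z ≠ 0) :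
    B (u ++ y :: x :: v) = B (u ++ x :: y :: v) := by
  obtain ⟨P, _, hP⟩ := B_poly u (x :: v) (by
    rw [List.length_cons, ← add_assoc]; exact h.add_one) (by
      intro z hz
      rw [List.mem_append, List.mem_cons] at hz
      rcases hz with hz | rfl | hz
      · exact h0 z (List.mem_append_left _ hz)
      · exact hx
      · exact h0 z (List.mem_append_right _ hz))
  obtain ⟨Q, _, hQ⟩ := B_poly (u ++ [x]) v (by
    rw [List.length_append, List.length_singleton, add_right_comm]; exact h.add_one) (by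
      intro z hz
      rw [List.mem_append, List.mem_append, List.mem_singleton] at hz
      rcases hz with (hz | rfl) | hz
      · exact h0 z (List.mem_append_left _ hz)
      · exact hx
      · exact h0 z (List.mem_append_right _ hz))
  have hQ' : ∀ z, z ≠ 0 → B (u ++ x :: z :: v) = Q.eval z := by
    intro z hz
    rw [← hQ z hz]
    congr 1
    simp
  have hq0 := q_ne_zero
  have hPQ : P = Q := by
    refine Polynomial.eq_of_infinite_eval_eq _ _ ?_
    have hfin : ({0, q * x / q^2, q^2 * x / q} : Set ℂ).Finite := by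
      exact Set.toFinite _
    refine (hfin.infinite_compl).mono ?_
    intro z hz
    simp only [Set.mem_compl_iff, Set.mem_insert_iff, Set.mem_singleton_iff, not_or] at hz
    obtain ⟨hz0, hz1, hz2⟩ := hz
    rw [Set.mem_ofPred_eq, ← hP z hz0, ← hQ' z hz0]
    refine B_swap u v x z hu h hx hz0 h0 ?_ ?_
    · intro h'
      apply hz1
      rw [eq_div_iff (pow_ne_zero _ hq0)]
      linear_combination -h'
    · intro h'
      apply hz2
      rw [eq_div_iff hq0]
      linear_combination h'
  rw [hP y hy, hQ' y hy, hPQ]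

end Pool.Agent.H988R2.Perc
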