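import Pool.Agent.H988R2.Perc.T13

/-! T14: the total mass `Z` and consequences of the interface. -/

namespace Pool.Agent.H988R2.Perc

theorem mass_add (f g : St →₀ ℂ) : mass (f + g) = mass f + mass g := by
  classical
  unfold mass
  exact Finsupp.sum_add_index' (fun _ => rfl) (fun _ _ _ => rfl)

theorem mass_smul (c : ℂ) (f : St →₀ ℂ) : mass (c • f) = c * mass f := by
  classical
  unfold mass
  rw [Finsupp.sum_smul_index' (fun _ => rfl), Finsupp.mul_sum]
  rfl

theorem mass_mapDomain (φ : St → St) (f : St →₀ ℂ) : mass (Finsupp.mapDomain φ f) = mass f := by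
  classical
  unfold mass
  exact Finsupp.sum_mapDomain_index (fun _ => rfl) (fun _ _ _ => rfl)

theorem mass_single (R : St) (c : ℂ) : mass (Finsupp.single R c) = c := by
  unfold mass
  exact Finsupp.sum_single_index rfl

theorem mass_sum {ι : Type*} (s : Finset ι) (f : ι → St →₀ ℂ) :
    mass (∑ i ∈ s, f i) = ∑ i ∈ s, mass (f i) := by
  classical
  induction s using Finset.induction_on with
  | empty => simp [mass]
  | insert a s ha ih => rw [Finset.sum_insert ha, Finset.sum_insert ha, mass_add, ih]

theorem Z_eq_sum (l : List ℂ) : Z l = ∑ w ∈ LP l.length, Fw w l := by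
  unfold Z Psi
  rw [mass_sum]
  exact Finset.sum_congr rfl (fun w _ => mass_single _ _)

theorem Z_pd (N : ℕ) (hN : Even N) : PD N (N-2) Z := by
  have _ := hN
  have h1 : PD N (N-2) (fun l => ∑ w ∈ LP N, Fw w l) := by
    apply PD.sum
    intro w hw
    obtain ⟨hl, hd⟩ := mem_LP.mp hw
    have := (Fw_spec hd).1.pd
    rw [hl] at this
    exact this
  refine PD.congr h1 (fun l hl => ?_)
  rw [Z_eq_sum, hl]

theorem Z_nil : Z [] = 1 := by
  unfold Z
  rw [Psi_nil, mass_single]

theorem Z_rec (u v : List ℂ) (x : ℂ) (h : Even (u.length + v.length)) :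
    Z (u ++ x :: (q^2 * x) :: v) = fac x (u ++ v) * Z (u ++ v) := by
  unfold Z
  rw [Psi_rec u v x h, mass_smul, mass_mapDomain]

theorem Z_two (x y : ℂ) : Z [x, y] = 1 := by
  obtain ⟨p, hp, hF⟩ := Z_pd 2 (by decide)
  have hdeg : ∀ i, p.degreeOf i = 0 := fun i => Nat.le_zero.mp (hp i)
  have hvars : p.vars = ∅ := by
    apply Finset.eq_empty_of_forall_notMem
    intro i hi
    have h0 := hdeg i
    obtain ⟨m, hm, hmi⟩ := (MvPolynomial.mem_vars i).mp hi
    have h1 := MvPolynomial.monomial_le_degreeOf i hm
    rw [h0] at h1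
    exact (Finsupp.mem_support_iff.mp hmi) (Nat.le_zero.mp h1)
  have hC : p = MvPolynomial.C (MvPolynomial.coeff 0 p) :=
    MvPolynomial.vars_eq_empty_iff_eq_C.mp hvars
  have key : ∀ l : List ℂ, l.length = 2 → Z l = MvPolynomial.coeff 0 p := by
    intro l hl
    rw [hF l hl, hC]
    simp
  have h1 : Z ([] ++ (1:ℂ) :: (q^2 * 1) :: []) = fac 1 ([] ++ []) * Z ([] ++ []) :=
    Z_rec [] [] 1 (by simp)
  simp only [List.nil_append] at h1
  rw [Z_nil, key _ (by simp)] at h1
  rw [key _ (by simp), h1]
  simp [fac]

theorem Z_swap (u v : List ℂ) (x y : ℂ) (h : Even (u.length + v.length)) :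
    Z (u ++ y :: x :: v) = Z (u ++ x :: y :: v) := by
  have key : ∀ y : ℂ, q * x - q^2 * y ≠ 0 → Z (u ++ y :: x :: v) = Z (u ++ x :: y :: v) := by
    intro y hy
    have h1 := congrArg mass (Psi_exch u v x y h)
    rw [mass_smul, mass_add, mass_smul, mass_smul, mass_mapDomain] at h1
    have h2 : (q * x - q^2 * y) * (Z (u ++ y :: x :: v) - Z (u ++ x :: y :: v)) = 0 := by
      have h3 := q_spec
      unfold Z
      linear_combination h1 + (y - x) * (mass (Psi (u ++ x :: y :: v))) * h3
    rcases mul_eq_zero.mp h2 with h4 | h4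
    · exact absurd h4 hy
    · exact sub_eq_zero.mp h4
  have hN : Even (u.length + v.length + 2) := by
    rw [Nat.even_add]; simp [h]
  obtain ⟨P, _, hP⟩ := (Z_pd (u.length + v.length + 2) hN).univ u (x :: v) (by simp; omega)
  obtain ⟨Q, _, hQ⟩ := (Z_pd (u.length + v.length + 2) hN).univ (u ++ [x]) v (by simp; omega)
  have hPQ : P = Q := by
    apply Polynomial.eq_of_infinite_eval_eq
    have : ({y : ℂ | q * x - q^2 * y ≠ 0}).Infinite := by
      have hfin : ({y : ℂ | q * x - q^2 * y = 0}).Finite := by
        apply (Set.finite_singleton (q * x / q^2)).subset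
        intro y hy
        simp only [Set.mem_ofPred_eq] at hy
        rw [Set.mem_singleton_iff]
        field_simp [q_ne_zero]
        have : q * (x - q * y) = 0 := by linear_combination hy
        rcases mul_eq_zero.mp this with h | h
        · exact absurd h q_ne_zero
        · linear_combination -h
      have := hfin.infinite_compl
      exact this
    apply this.mono
    intro y hy
    simp only [Set.mem_ofPred_eq] at hy ⊢
    rw [← hP y, ← hQ y, key y hy]
    simp
  rw [hP y, hPQ, ← hQ y]
  simp

theorem Z_perm {l l' : List ℂ} (h : Even l.length) (hp : l.Perm l') : Z l = Z l' := by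
  have key : ∀ {l l' : List ℂ}, l.Perm l' → ∀ u : List ℂ, Even (u.length + l.length) →
      Z (u ++ l) = Z (u ++ l') := by
    intro l l' hp
    induction hp with
    | nil => intro u _; rfl
    | cons x h ih =>
      intro u hu
      have := ih (u ++ [x]) (by simpa [Nat.add_assoc, Nat.add_comm, Nat.add_left_comm] using hu)
      simpa using this
    | swap x y l =>
      intro u hu
      have hu' : Even (u.length + l.length) := by
        have : u.length + (y :: x :: l).length = u.length + l.length + 2 := by simp; omega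
        rw [this, Nat.even_add] at hu
        simpa using hu
      exact Z_swap u l x y hu'
    | trans h1 h2 ih1 ih2 =>
      intro u hu
      rw [ih1 u hu, ih2 u (by rw [← h1.length_eq]; exact hu)]
  have := key hp [] (by simpa using h)
  simpa using this

theorem Z_inv (x : ℂ) (l : List ℂ) (hx : x ≠ 0) (h : Odd l.length) :
    Z (x :: l) = x^(l.length - 1) * Z (x⁻¹ :: l) := by
  unfold Z
  rw [Psi_inv1 x l hx h, mass_smul]

/-- the vector with last variable `0` is inversion invariant in its last nonzero variable. -/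
theorem Psi_inv0 (x : ℂ) (u : List ℂ) (hx : x ≠ 0) (h : Even u.length) :
    Psi (u ++ [x, 0]) = x^(u.length) • Psi (u ++ [x⁻¹, 0]) := by
  classical
  set e : (St →₀ ℂ) → (St →₀ ℂ) := Finsupp.mapDomain (St.act u.length) with he
  have hee : ∀ f, e (e f) = e f := by
    intro f
    rw [he]
    show Finsupp.mapDomain _ (Finsupp.mapDomain _ f) = _
    rw [← Finsupp.mapDomain_comp]
    congr 1
    funext R
    exact St.act_act _ R
  have hadd : ∀ f g, e (f + g) = e f + e g := fun f g => Finsupp.mapDomain_add
  have hsmul : ∀ (c : ℂ) f, e (c • f) = c • e f := fun c f => Finsupp.mapDomain_smul c f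
  have hq := q_spec
  have hq3 := q_cube
  -- exchange at `(x, 0)`
  have hexch : ∀ x : ℂ, x ≠ 0 → Psi (u ++ [0, x]) =
      (-q) • Psi (u ++ [x, 0]) + (-q^2) • e (Psi (u ++ [x, 0])) := by
    intro x hx
    have h1 := Psi_exch u [] x 0 (by simpa using h)
    have h2 : (q * x) • Psi (u ++ [0, x]) = (q * x) • ((-q) • Psi (u ++ [x, 0]) +
        (-q^2) • e (Psi (u ++ [x, 0]))) := by
      have h3 : (q * x - q^2 * 0) = q * x := by ring
      rw [h3] at h1
      rw [h1, smul_add, smul_smul, smul_smul]
      congr 2
      · ring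
      · linear_combination (-x) * hq3 * (-1)
    have h4 : q * x ≠ 0 := mul_ne_zero q_ne_zero hx
    exact smul_right_injective _ h4 h2
  have hinv : ∀ f : St →₀ ℂ, (-q^2) • ((-q) • f + (-q^2) • e f) +
      (-q) • e ((-q) • f + (-q^2) • e f) = f := by
    intro f
    rw [hadd, hsmul, hsmul, hee]
    have : (-q^2) • ((-q) • f + (-q^2) • e f) + (-q) • ((-q) • e f + (-q^2) • e f) =
        (q^3) • f + (q^4 + q^2 + q^3) • e f := by
      simp only [smul_add, smul_smul, add_smul]
      have a1 : -q^2 * -q = q^3 := by ring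
      have a2 : -q^2 * -q^2 = q^4 := by ring
      have a3 : -q * -q = q^2 := by ring
      have a4 : -q * -q^2 = q^3 := by ring
      rw [a1, a2, a3, a4]
      abel
    rw [this]
    have a5 : q^4 + q^2 + q^3 = 0 := by linear_combination q^2 * hq
    rw [a5, hq3, one_smul, zero_smul, add_zero]
  have hlast := Psi_invN x (u ++ [0]) hx (by simp; exact Even.add_one h)
  have hlen : (u ++ [(0:ℂ)]).length - 1 = u.length := by simp
  rw [hlen] at hlast
  simp only [List.append_assoc, List.singleton_append] at hlast
  have h1 := hexch x hx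
  have h2 := hexch x⁻¹ (inv_ne_zero hx)
  rw [hlast, h2] at h1
  rw [← hinv (Psi (u ++ [x, 0])), ← h1, hsmul, smul_comm (-q^2), smul_comm (-q), ← smul_add, hinv]

end Pool.Agent.H988R2.Perc
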