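import Pool.Agent.H988R2.Perc.T06

/-! T07: relations of `rho` with itself and with the exchange operators. -/

namespace Pool.Agent.H988R2.Perc

/-- `fac` as a polynomial -/
noncomputable def facP (m : List ℂ) : Polynomial ℂ :=
  (m.map (fun y => (Polynomial.X - Polynomial.C (q^2 * y)) *
    (Polynomial.C y * Polynomial.X - Polynomial.C (q^2)))).prod

theorem facP_eval (x : ℂ) (m : List ℂ) : (facP m).eval x = fac x m := by
  induction m with
  | nil => simp [facP, fac]
  | cons y m ih =>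
    unfold facP fac at ih ⊢
    rw [List.map_cons, List.prod_cons, List.map_cons, List.prod_cons, Polynomial.eval_mul, ih]
    congr 1
    simp only [Polynomial.eval_mul, Polynomial.eval_sub, Polynomial.eval_X, Polynomial.eval_C]
    ring

theorem facP_ne_zero (m : List ℂ) : facP m ≠ 0 := by
  unfold facP
  apply List.prod_ne_zero
  intro h
  rw [List.mem_map] at h
  obtain ⟨y, _, hy⟩ := h
  rcases mul_eq_zero.1 hy with h1 | h1
  · exact Polynomial.X_sub_C_ne_zero _ h1
  · have h2 := congrArg (fun p => Polynomial.eval 0 p) h1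
    simp at h2
    exact q_ne_zero h2

theorem exists_fac (m : List ℂ) (S : Finset ℂ) : ∃ x, x ∉ S ∧ fac x m ≠ 0 := by
  classical
  obtain ⟨x, hx⟩ := Infinite.exists_notMem_finset (S ∪ (facP m).roots.toFinset)
  rw [Finset.mem_union, not_or] at hx
  refine ⟨x, hx.1, ?_⟩
  intro h
  apply hx.2
  rw [Multiset.mem_toFinset, Polynomial.mem_roots (facP_ne_zero m), Polynomial.IsRoot, facP_eval]
  exact h

theorem fac_cons7 (x y : ℂ) (m : List ℂ) :
    fac x (y :: m) = (x - q^2 * y) * (x * y - q^2) * fac x m := by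
  simp [fac]

theorem fac_swap (t x y : ℂ) (u v : List ℂ) :
    fac t (u ++ y :: x :: v) = fac t (u ++ x :: y :: v) := by
  rw [fac_append, fac_cons7, fac_cons7, fac_append, fac_cons7, fac_cons7]; ring

theorem one_sub_q_sq_ne : (1 : ℂ) - q^2 ≠ 0 := sub_ne_zero.2 (fun h => q_sq_ne_one h.symm)

theorem split_at7 {N i : ℕ} (l : List ℂ) (hl : l.length = N) (hi : i ≤ N) :
    ∃ u v : List ℂ, l = u ++ v ∧ u.length = i ∧ u.length + v.length = N := by
  refine ⟨l.take i, l.drop i, (List.take_append_drop i l).symm, ?_, ?_⟩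
  · rw [List.length_take, hl]; omega
  · rw [List.length_take, List.length_drop, hl]; omega

theorem split_cons {N i : ℕ} (l : List ℂ) (hl : l.length = N) (hi : i + 1 ≤ N) :
    ∃ (u v : List ℂ) (z : ℂ), l = u ++ z :: v ∧ u.length = i ∧ u.length + v.length + 1 = N := by
  obtain ⟨u, v, h1, h2, h3⟩ := split_at7 l hl (show i ≤ N by omega)
  cases v with
  | nil => simp at h3; omega
  | cons z v =>
    refine ⟨u, v, z, h1, h2, ?_⟩
    simp at h3
    omega

theorem rho_comm {N i j : ℕ} {F : List ℂ → ℂ} (hF : V (N+4) F) (hN : N ≠ 1) (hij : i ≤ j)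
    (hj : j ≤ N) (l : List ℂ) (hl : l.length = N) :
    rho j (rho i F) l = rho i (rho (j+2) F) l := by
  obtain ⟨l12, l3, h1, h2, h3⟩ := split_at7 l hl hj
  obtain ⟨l1, l2, h4, h5, h6⟩ := split_at7 l12 h2 hij
  subst h4
  subst h1
  obtain ⟨y, _, hy⟩ := exists_fac (l1 ++ l2 ++ l3) ∅
  obtain ⟨x, _, hx⟩ := exists_fac (y :: (q^2 * y) :: (l1 ++ l2 ++ l3)) ∅
  rw [fac_cons7, fac_cons7] at hx
  have hV1 : V (N+2) (rho i F) := rho_V (N := N+2) hF (by omega) (by omega)
  have hV2 : V (N+2) (rho (j+2) F) := rho_V (N := N+2) hF (by omega) (by omega)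
  have e1 := rho_spec (N := N+2) hF (by omega) (show i ≤ N+2 by omega) l1
    (l2 ++ y :: (q^2 * y) :: l3) x h5 (by simp at *; omega)
  have e2 := rho_spec hV1 hN hj (l1 ++ l2) l3 y h2 h3
  have e3 := rho_spec (N := N+2) hF (by omega) (show j+2 ≤ N+2 by omega)
    (l1 ++ x :: (q^2 * x) :: l2) l3 y (by simp at *; omega) (by simp at *; omega)
  have e4 := rho_spec hV2 hN (show i ≤ N by omega) l1 (l2 ++ l3) x h5 (by simp at *; omega)
  have a1 : l1 ++ x :: (q^2 * x) :: (l2 ++ y :: (q^2 * y) :: l3) =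
      (l1 ++ x :: (q^2 * x) :: l2) ++ y :: (q^2 * y) :: l3 := by simp
  have a2 : l1 ++ (l2 ++ y :: (q^2 * y) :: l3) = (l1 ++ l2) ++ y :: (q^2 * y) :: l3 := by simp
  have a3 : (l1 ++ x :: (q^2 * x) :: l2) ++ l3 = l1 ++ x :: (q^2 * x) :: (l2 ++ l3) := by simp
  have a4 : l1 ++ (l2 ++ l3) = l1 ++ l2 ++ l3 := by simp
  rw [a1, a2, e2, e3, a3, e4, a4] at e1
  have f1 : fac x (l1 ++ l2 ++ y :: (q^2 * y) :: l3) =
      (x - q^2 * y) * (x * y - q^2) * ((x - q^2 * (q^2 * y)) * (x * (q^2 * y) - q^2) *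
        fac x (l1 ++ l2 ++ l3)) := by
    rw [fac_append, fac_cons7, fac_cons7, fac_append x (l1 ++ l2) l3]; ring
  have f2 : fac y (l1 ++ x :: (q^2 * x) :: (l2 ++ l3)) =
      (y - q^2 * x) * (y * x - q^2) * ((y - q^2 * (q^2 * x)) * (y * (q^2 * x) - q^2) *
        fac y (l1 ++ l2 ++ l3)) := by
    rw [fac_append, fac_cons7, fac_cons7, fac_append y (l1 ++ l2) l3, fac_append, fac_append]; ring
  rw [f1, f2] at e1
  have g1 : (x - q^2 * y) * (x - q^2 * (q^2 * y)) = (y - q^2 * x) * (y - q^2 * (q^2 * x)) := by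
    have h3 := q_cube
    have h2 := q_spec
    linear_combination (-(1 - q^3) * y^2 - q^3 * y^2 + y^2 + (1 - q^3) * x^2 + q^3 * x^2 - x^2) * h2
      + (q^3 + 1) * (y^2 - x^2) * h3
  set A := rho j (rho i F) (l1 ++ l2 ++ l3)
  set B' := rho i (rho (j+2) F) (l1 ++ l2 ++ l3)
  have key : ((x - q^2 * y) * (x * y - q^2) * ((x - q^2 * (q^2 * y)) * (x * (q^2 * y) - q^2) *
      fac x (l1 ++ l2 ++ l3))) * fac y (l1 ++ l2 ++ l3) * (A - B') = 0 := by
    linear_combination -e1 - (x * y - q^2) * (x * (q^2 * y) - q^2) * fac x (l1 ++ l2 ++ l3) *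
      fac y (l1 ++ l2 ++ l3) * B' * g1
  rcases mul_eq_zero.1 key with h | h
  · exact absurd h (mul_ne_zero hx hy)
  · exact sub_eq_zero.1 h

theorem rho_E_self {N i : ℕ} {F E : List ℂ → ℂ} (hF : V (N+2) F) (hE : V (N+2) E)
    (h : IsE (N+2) i F E) (hN : N ≠ 1) (hi : i ≤ N) (l : List ℂ) (hl : l.length = N) :
    rho i E l = rho i F l := by
  obtain ⟨u, v, h1, h2, h3⟩ := split_at7 l hl hi
  subst h1
  obtain ⟨x, hx0, hx⟩ := exists_fac (u ++ v) {0}
  have hx0' : x ≠ 0 := by simpa using hx0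
  have e1 := h u v x (q^2 * x) h2 (by omega)
  have e2 := rho_spec hF hN hi u v x h2 h3
  have e3 := rho_spec hE hN hi u v x h2 h3
  have h4 : (1 - q^2) * x * (E (u ++ x :: (q^2 * x) :: v) - F (u ++ x :: (q^2 * x) :: v)) = 0 := by
    linear_combination -e1 + (q * x * F (u ++ q^2 * x :: x :: v) + x * F (u ++ x :: (q^2 * x) :: v)) * q_cube
  have h5 : E (u ++ x :: (q^2 * x) :: v) = F (u ++ x :: (q^2 * x) :: v) := by
    rcases mul_eq_zero.1 h4 with h | h
    · exact absurd h (mul_ne_zero one_sub_q_sq_ne hx0')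
    · exact sub_eq_zero.1 h
  rw [e2, e3] at h5
  exact mul_left_cancel₀ hx h5

/-- two polynomial functions which agree for generic values of one variable agree -/
theorem eq_of_generic {N d : ℕ} {F G : List ℂ → ℂ} (hF : PD N d F) (hG : PD N d G) (u v : List ℂ)
    (h : u.length + v.length + 1 = N) (S : Finset ℂ) (hS : ∀ z, z ∉ S → F (u ++ z :: v) = G (u ++ z :: v))
    (z : ℂ) : F (u ++ z :: v) = G (u ++ z :: v) := by
  obtain ⟨P, _, hP⟩ := hF.univ u v h
  obtain ⟨Q, _, hQ⟩ := hG.univ u v h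
  rw [hP, hQ]
  have h1 : P - Q = 0 := by
    apply Polynomial.eq_zero_of_infinite_isRoot
    apply Set.Infinite.mono (s := (↑S : Set ℂ)ᶜ)
    · intro z hz
      have h2 := hS z hz
      rw [hP, hQ] at h2
      show (P - Q).eval z = 0
      rw [Polynomial.eval_sub, h2, sub_self]
    · exact S.finite_toSet.infinite_compl
  rw [sub_eq_zero.1 h1]

theorem rho_E_succ {N i : ℕ} {F E : List ℂ → ℂ} (hF : V (N+2) F) (hE : V (N+2) E)
    (h : IsE (N+2) i F E) (hN : N ≠ 1) (hi : i + 1 ≤ N) (l : List ℂ) (hl : l.length = N) :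
    rho (i+1) E l = rho i F l := by
  classical
  obtain ⟨u, v, z, h1, h2, h3⟩ := split_cons l hl hi
  subst h1
  have hV1 : V N (rho (i+1) E) := rho_V hE hN hi
  have hV2 : V N (rho i F) := rho_V hF hN (by omega)
  -- the polynomial whose nonvanishing is needed
  set P : Polynomial ℂ := (facP (u ++ v)).comp (Polynomial.C q * Polynomial.X) *
    (Polynomial.X * (Polynomial.X^2 - Polynomial.C q)) with hP
  have hP0 : P ≠ 0 := by
    rw [hP]
    refine mul_ne_zero ?_ (mul_ne_zero Polynomial.X_ne_zero ?_)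
    · intro h0
      have h5 := congrArg (fun p => Polynomial.comp p (Polynomial.C (q^2) * Polynomial.X)) h0
      simp only [Polynomial.zero_comp, Polynomial.comp_assoc] at h5
      have h6 : (Polynomial.C q * Polynomial.X).comp (Polynomial.C (q^2) * Polynomial.X) =
          (Polynomial.X : Polynomial ℂ) := by
        rw [Polynomial.mul_comp, Polynomial.C_comp, Polynomial.X_comp, ← mul_assoc,
          ← Polynomial.C_mul, ← pow_succ', q_cube, Polynomial.C_1, one_mul]
      rw [h6, Polynomial.comp_X] at h5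
      exact facP_ne_zero _ h5
    · exact Polynomial.X_pow_sub_C_ne_zero (by norm_num) _
  apply eq_of_generic hV1.pd hV2.pd u v h3 P.roots.toFinset
  intro z hz
  rw [Multiset.mem_toFinset, Polynomial.mem_roots hP0, Polynomial.IsRoot, hP] at hz
  simp only [Polynomial.eval_mul, Polynomial.eval_comp, Polynomial.eval_sub, Polynomial.eval_pow,
    Polynomial.eval_X, Polynomial.eval_C, facP_eval] at hz
  have hz1 : fac (q * z) (u ++ v) ≠ 0 := fun h0 => hz (by rw [h0, zero_mul])
  have hz2 : z ≠ 0 := by rintro rfl; apply hz; simp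
  have hz3 : z^2 - q ≠ 0 := fun h0 => hz (by rw [h0]; simp)
  have e1 := h u (q^2 * (q * z) :: v) z (q * z) h2 (by simp; omega)
  have hqz : q^2 * (q * z) = z := by rw [← mul_assoc, ← pow_succ, q_cube, one_mul]
  have e2 := rho_spec hE hN hi (u ++ [z]) v (q * z) (by simp; omega) (by simp; omega)
  have e3 := rho_spec hF hN (show i ≤ N by omega) u (z :: v) (q * z) h2 (by simp; omega)
  have a1 : (u ++ [z]) ++ (q * z) :: (q^2 * (q * z)) :: v = u ++ z :: (q * z) :: (q^2 * (q * z)) :: v := by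
    simp
  have a2 : (u ++ [z]) ++ v = u ++ z :: v := by simp
  rw [a1, a2] at e2
  rw [hqz] at e1 e2 e3
  have h4 : (q - 1) * z * (E (u ++ z :: (q * z) :: z :: v) - F (u ++ (q * z) :: z :: z :: v)) = 0 := by
    linear_combination e1
  have h5 : E (u ++ z :: (q * z) :: z :: v) = F (u ++ (q * z) :: z :: z :: v) := by
    rcases mul_eq_zero.1 h4 with h | h
    · exact absurd h (mul_ne_zero (sub_ne_zero.2 q_ne_one) hz2)
    · exact sub_eq_zero.1 h
  rw [e2, e3] at h5
  refine mul_left_cancel₀ ?_ h5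
  have a3 : fac (q * z) (u ++ z :: v) = ((q * z) - q^2 * z) * ((q * z) * z - q^2) *
      fac (q * z) (u ++ v) := by
    rw [fac_append, fac_cons7, fac_append]; ring
  rw [a3]
  refine mul_ne_zero (mul_ne_zero ?_ ?_) hz1
  · have : q * z - q^2 * z = q * z * (1 - q) := by ring
    rw [this]
    exact mul_ne_zero (mul_ne_zero q_ne_zero hz2) (sub_ne_zero.2 q_ne_one.symm)
  · have : q * z * z - q^2 = q * (z^2 - q) := by ring
    rw [this]
    exact mul_ne_zero q_ne_zero hz3

theorem rho_E_pred {N i : ℕ} {F E : List ℂ → ℂ} (hF : V (N+2) F) (hE : V (N+2) E)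
    (h : IsE (N+2) (i+1) F E) (hN : N ≠ 1) (hi : i + 1 ≤ N) (l : List ℂ) (hl : l.length = N) :
    rho i E l = rho (i+1) F l := by
  classical
  obtain ⟨u, v, z, h1, h2, h3⟩ := split_cons l hl hi
  subst h1
  have hV1 : V N (rho i E) := rho_V hE hN (by omega)
  have hV2 : V N (rho (i+1) F) := rho_V hF hN hi
  set P : Polynomial ℂ := facP (u ++ v) *
    (Polynomial.X * (Polynomial.X^2 - Polynomial.C (q^2))) with hP
  have hP0 : P ≠ 0 := by
    rw [hP]
    refine mul_ne_zero (facP_ne_zero _) (mul_ne_zero Polynomial.X_ne_zero ?_)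
    exact Polynomial.X_pow_sub_C_ne_zero (by norm_num) _
  apply eq_of_generic hV1.pd hV2.pd u v h3 P.roots.toFinset
  intro z hz
  rw [Multiset.mem_toFinset, Polynomial.mem_roots hP0, Polynomial.IsRoot, hP] at hz
  simp only [Polynomial.eval_mul, Polynomial.eval_sub, Polynomial.eval_pow,
    Polynomial.eval_X, Polynomial.eval_C, facP_eval] at hz
  have hz1 : fac z (u ++ v) ≠ 0 := fun h0 => hz (by rw [h0, zero_mul])
  have hz2 : z ≠ 0 := by rintro rfl; apply hz; simp
  have hz3 : z^2 - q^2 ≠ 0 := fun h0 => hz (by rw [h0]; simp)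
  have e1 := h (u ++ [z]) v (q^2 * z) z (by simp; omega) (by simp; omega)
  have e2 := rho_spec hE hN (show i ≤ N by omega) u (z :: v) z h2 (by simp; omega)
  have e3 := rho_spec hF hN hi (u ++ [z]) v z (by simp; omega) (by simp; omega)
  have a1 : (u ++ [z]) ++ (q^2 * z) :: z :: v = u ++ z :: (q^2 * z) :: z :: v := by simp
  have a2 : (u ++ [z]) ++ z :: (q^2 * z) :: v = u ++ z :: z :: (q^2 * z) :: v := by simp
  have a3 : (u ++ [z]) ++ v = u ++ z :: v := by simp
  rw [a1, a2] at e1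
  rw [a2, a3] at e3
  have h4 : (1 - q^2) * z * (E (u ++ z :: (q^2 * z) :: z :: v) - F (u ++ z :: z :: (q^2 * z) :: v)) = 0 := by
    linear_combination e1 + (z * F (u ++ z :: z :: (q^2 * z) :: v) +
      q * z * F (u ++ z :: (q^2 * z) :: z :: v)) * q_cube
  have h5 : E (u ++ z :: (q^2 * z) :: z :: v) = F (u ++ z :: z :: (q^2 * z) :: v) := by
    rcases mul_eq_zero.1 h4 with h | h
    · exact absurd h (mul_ne_zero one_sub_q_sq_ne hz2)
    · exact sub_eq_zero.1 h
  rw [e2, e3] at h5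
  refine mul_left_cancel₀ ?_ h5
  have a4 : fac z (u ++ z :: v) = (z - q^2 * z) * (z * z - q^2) * fac z (u ++ v) := by
    rw [fac_append, fac_cons7, fac_append]; ring
  rw [a4]
  refine mul_ne_zero (mul_ne_zero ?_ ?_) hz1
  · have : z - q^2 * z = z * (1 - q^2) := by ring
    rw [this]
    exact mul_ne_zero hz2 one_sub_q_sq_ne
  · rwa [← pow_two]

theorem rho_E_right {N i j : ℕ} {F E : List ℂ → ℂ} (hF : V (N+2) F) (hE : V (N+2) E)
    (h : IsE (N+2) i F E) (hN : N ≠ 1) (hij : i + 2 ≤ j) (hj : j ≤ N) :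
    IsE N i (rho j F) (rho j E) := by
  intro u v x y hu huv
  obtain ⟨v1, v2, h1, h2, h3⟩ := split_at7 (N := v.length) (i := j - (i + 2)) v rfl (by omega)
  subst h1
  obtain ⟨t, _, ht⟩ := exists_fac (u ++ x :: y :: (v1 ++ v2)) ∅
  have e0 := h u (v1 ++ t :: (q^2 * t) :: v2) x y hu (by simp at *; omega)
  have e1 := rho_spec hE hN hj (u ++ x :: y :: v1) v2 t (by simp at *; omega) (by simp at *; omega)
  have e2 := rho_spec hF hN hj (u ++ x :: y :: v1) v2 t (by simp at *; omega) (by simp at *; omega)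
  have e3 := rho_spec hF hN hj (u ++ y :: x :: v1) v2 t (by simp at *; omega) (by simp at *; omega)
  have a1 : ∀ (x y : ℂ) (w : List ℂ), (u ++ x :: y :: v1) ++ w = u ++ x :: y :: (v1 ++ w) := by
    intro x y w; simp
  rw [a1, a1] at e1 e2 e3
  have a2 := fac_swap t x y u (v1 ++ v2)
  rw [e1, e2, e3, a2] at e0
  apply mul_left_cancel₀ ht
  linear_combination e0

theorem rho_E_left {N i j : ℕ} {F E : List ℂ → ℂ} (hF : V (N+2) F) (hE : V (N+2) E)
    (h : IsE (N+2) i F E) (hN : N ≠ 1) (hij : j + 2 ≤ i) (hi : i ≤ N) :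
    IsE N (i-2) (rho j F) (rho j E) := by
  intro u v x y hu huv
  obtain ⟨u1, u2, h1, h2, h3⟩ := split_at7 (N := u.length) (i := j) u rfl (by omega)
  subst h1
  obtain ⟨t, _, ht⟩ := exists_fac (u1 ++ u2 ++ x :: y :: v) ∅
  have e0 := h (u1 ++ t :: (q^2 * t) :: u2) v x y (by simp at *; omega) (by simp at *; omega)
  have hj : j ≤ N := by omega
  have e1 := rho_spec hE hN hj u1 (u2 ++ x :: y :: v) t h2 (by simp at *; omega)
  have e2 := rho_spec hF hN hj u1 (u2 ++ x :: y :: v) t h2 (by simp at *; omega)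
  have e3 := rho_spec hF hN hj u1 (u2 ++ y :: x :: v) t h2 (by simp at *; omega)
  have a1 : ∀ (w : List ℂ), (u1 ++ t :: (q^2 * t) :: u2) ++ w = u1 ++ t :: (q^2 * t) :: (u2 ++ w) := by
    intro w; simp
  rw [a1, a1] at e0
  rw [← List.append_assoc u1 u2] at e1 e2 e3
  have a2 := fac_swap t x y (u1 ++ u2) v
  rw [e1, e2, e3, a2] at e0
  apply mul_left_cancel₀ ht
  linear_combination e0

end Pool.Agent.H988R2.Perc
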