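import Pool.Agent.H988R2.Perc.T01
import Pool.Agent.H988R2.Perc.T07

/-! T08: the evaluation functionals `ev`. -/

namespace Pool.Agent.H988R2.Perc

theorem ev_congr {n : ℕ} {w : Word} {F G : List ℂ → ℂ}
    (h : ∀ l : List ℂ, l.length = 2 * n → F l = G l) : ev n w F = ev n w G := by
  induction n generalizing w F G with
  | zero =>
    simp only [ev]
    exact h [] rfl
  | succ n ih =>
    simp only [ev]
    apply ih
    intro m hm
    unfold rho
    rw [h]
    simp only [List.length_append, List.length_take, List.length_cons, List.length_drop]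
    omega

theorem ev_add (n : ℕ) (w : Word) (F G : List ℂ → ℂ) :
    ev n w (fun l => F l + G l) = ev n w F + ev n w G := by
  induction n generalizing w F G with
  | zero => simp only [ev]
  | succ n ih =>
    simp only [ev]
    rw [← ih]
    congr 1
    funext m
    unfold rho
    rw [add_div]

theorem ev_smul (n : ℕ) (w : Word) (c : ℂ) (F : List ℂ → ℂ) :
    ev n w (fun l => c * F l) = c * ev n w F := by
  induction n generalizing w F with
  | zero => simp only [ev]
  | succ n ih =>
    simp only [ev]
    rw [← ih]
    congr 1
    funext m
    unfold rho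
    rw [mul_div_assoc]

theorem ev_sum (n : ℕ) (w : Word) {ι : Type*} (s : Finset ι) (F : ι → List ℂ → ℂ) :
    ev n w (fun l => ∑ i ∈ s, F i l) = ∑ i ∈ s, ev n w (F i) := by
  classical
  induction s using Finset.induction_on with
  | empty =>
    simp only [Finset.sum_empty]
    have := ev_smul n w 0 (fun _ => (0 : ℂ))
    simpa using this
  | insert a s ha ih =>
    simp only [Finset.sum_insert ha]
    rw [ev_add, ih]

theorem V_even_ne_one (n : ℕ) : 2 * n ≠ 1 := by omega

theorem ev_ins {n i : ℕ} {w : Word} {F : List ℂ → ℂ} (hF : V (2*n+2) F) (hw : Dyck w)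
    (hl : w.length = 2*n) (hi : i ≤ 2*n) : ev (n+1) (ins i w) F = ev n w (rho i F) := by
  induction n generalizing i w F with
  | zero =>
    have hw0 : w = [] := List.length_eq_zero_iff.1 (by omega)
    have hi0 : i = 0 := by omega
    subst hw0 hi0
    simp [ins, ev, firstArc]
  | succ n ih =>
    set W := ins i w with hW
    have hWd : Dyck W := Dyck.ins i w (by omega) hw
    have hWl : W.length = 2 * n + 4 := by rw [hW, length_ins]; omega
    have hWne : W ≠ [] := by
      intro h
      rw [h] at hWl
      simp at hWl
    obtain ⟨hk, hWk, hrd⟩ := dyck_firstArc hWd hWne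
    have e1 : ev (n + 1 + 1) W F = ev (n+1) (rem (firstArc W) W) (rho (firstArc W) F) := rfl
    rw [e1]
    set k := firstArc W with hkd
    set w' := rem k W with hw'
    have hl' : w'.length = 2 * n + 2 := by
      have := length_ins k w'
      rw [← hWk] at this
      omega
    have heq : ins i w = ins k w' := hWk
    have hFi : V (2*(n+1)) (rho i F) := rho_V (N := 2*(n+1)) hF (by omega) (by omega)
    have hFk : V (2*(n+1)) (rho k F) := rho_V (N := 2*(n+1)) hF (by omega) (by omega)
    rcases lt_trichotomy i k with hik | hik | hik
    · obtain ⟨h1, x, h2, h3, h4, h5⟩ := ins_eq_ins hik (by omega) (by omega) heq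
      have hxd : Dyck x := (dyck_ins_iff h2).1 (h5 ▸ hrd)
      have hxl : x.length = 2 * n := by
        have := length_ins i x
        rw [← h5] at this
        omega
      rw [h5, h4, ih (i := i) hFk hxd hxl (by omega), ih (i := k - 2) hFi hxd hxl (by omega)]
      apply ev_congr
      intro l hll
      have := rho_comm (N := 2*n) (i := i) (j := k-2) (F := F) hF (by omega) (by omega) (by omega) l hll
      rw [show k - 2 + 2 = k by omega] at this
      exact this.symm
    · have : w = w' := by
        rw [← hik] at heq
        exact ins_inj (by omega) (by omega) heq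
      rw [← this, ← hik]
    · obtain ⟨h1, x, h2, h3, h4, h5⟩ := ins_eq_ins hik (by omega) (by omega) heq.symm
      have hxd : Dyck x := (dyck_ins_iff h2).1 (h5 ▸ hw)
      have hxl : x.length = 2 * n := by
        have := length_ins k x
        rw [← h5] at this
        omega
      rw [h5, h4, ih (i := k) hFi hxd hxl (by omega), ih (i := i - 2) hFk hxd hxl (by omega)]
      apply ev_congr
      intro l hll
      have := rho_comm (N := 2*n) (i := k) (j := i-2) (F := F) hF (by omega) (by omega) (by omega) l hll
      rw [show i - 2 + 2 = i by omega] at this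
      exact this

theorem ev_act {n i : ℕ} {w : Word} {F E : List ℂ → ℂ} (hF : V (2*n) F) (hE : V (2*n) E)
    (h : IsE (2*n) i F E) (hi : i + 2 ≤ 2*n) (hw : Dyck w) (hl : w.length = 2*n) :
    ev n w E = ev n (act i w) F := by
  induction n generalizing i w F E with
  | zero => omega
  | succ n ih =>
    have hwne : w ≠ [] := by
      intro h'
      rw [h'] at hl
      simp at hl
    obtain ⟨hk, hwk, hrd⟩ := dyck_firstArc hw hwne
    set j := firstArc w with hj
    set w0 := rem j w with hw0
    have hl0 : w0.length = 2 * n := by
      have := length_ins j w0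
      rw [← hwk] at this
      omega
    have hj2 : j ≤ 2 * n := by omega
    have hF2 : V (2*n+2) F := hF
    have hE2 : V (2*n+2) E := hE
    have h2 : IsE (2*n+2) i F E := h
    have hjE := rho_V (N := 2*n) hE2 (by omega) hj2
    have hjF := rho_V (N := 2*n) hF2 (by omega) hj2
    rw [hwk, ev_ins hE2 hrd hl0 hj2]
    rcases lt_trichotomy i j with hij | hij | hij
    · by_cases hij2 : j = i + 1
      · rw [hij2, act_ins_succ (by omega), ev_ins hF2 hrd hl0 (by omega)]
        apply ev_congr
        intro l hll
        exact rho_E_succ (N := 2*n) hF2 hE2 h2 (by omega) (by omega) l hll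
      · have hij3 : i + 2 ≤ j := by omega
        rw [act_ins_right hij3 (by omega)]
        have hd : Dyck (act i w0) := dyck_act hrd (by omega)
        have hdl : (act i w0).length = 2 * n := by rw [length_act (by omega), hl0]
        rw [ev_ins hF2 hd hdl hj2]
        exact ih hjF hjE (rho_E_right (N := 2*n) hF2 hE2 h2 (by omega) hij3 hj2) (by omega) hrd hl0
    · subst hij
      rw [act_ins_self (by omega), ev_ins hF2 hrd hl0 hj2]
      apply ev_congr
      intro l hll
      exact rho_E_self (N := 2*n) hF2 hE2 h2 (by omega) hj2 l hll
    · by_cases hij2 : i = j + 1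
      · rw [hij2, act_succ_ins (by omega), ev_ins hF2 hrd hl0 (by omega)]
        apply ev_congr
        intro l hll
        exact rho_E_pred (N := 2*n) hF2 hE2 (hij2 ▸ h2) (by omega) (by omega) l hll
      · have hij3 : j + 2 ≤ i := by omega
        rw [act_ins_left hij3 (by omega)]
        have hd : Dyck (act (i-2) w0) := dyck_act hrd (by omega)
        have hdl : (act (i-2) w0).length = 2 * n := by rw [length_act (by omega), hl0]
        rw [ev_ins hF2 hd hdl hj2]
        exact ih hjF hjE (rho_E_left (N := 2*n) hF2 hE2 h2 (by omega) hij3 (by omega)) (by omega)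
          hrd hl0

end Pool.Agent.H988R2.Perc
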