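import Pool.Agent.H988R2.Perc.T02
import Pool.Agent.H988R2.Perc.T08

/-! T10: the base polynomial. -/

namespace Pool.Agent.H988R2.Perc

open Finset

/-- the component of the rainbow -/
noncomputable def base (n : ℕ) (l : List ℂ) : ℂ :=
  (∏ j ∈ range n, ∏ i ∈ range j,
    ((l.getD j 0 - q^2 * l.getD i 0) * (l.getD i 0 * l.getD j 0 - q^2))) *
  (∏ j ∈ range n, ∏ i ∈ range j,
    ((q * l.getD (n+i) 0 - q^2 * l.getD (n+j) 0) * (q * l.getD (n+i) 0 * l.getD (n+j) 0 - q^2)))

namespace T10

/-! ### products over pairs -/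

/-- product over the pairs of entries (in order) -/
noncomputable def pairs (f : ℂ → ℂ → ℂ) : List ℂ → ℂ
  | [] => 1
  | x :: l => (l.map (f x)).prod * pairs f l

theorem prod_getD (g : ℂ → ℂ) (l : List ℂ) :
    ∏ j ∈ range l.length, g (l.getD j 0) = (l.map g).prod := by
  induction l with
  | nil => simp
  | cons x l ih =>
    rw [List.length_cons, Finset.prod_range_succ']
    simp only [List.getD_cons_succ, List.getD_cons_zero, List.map_cons, List.prod_cons]
    rw [ih, mul_comm]

theorem pairs_eq (f : ℂ → ℂ → ℂ) (l : List ℂ) :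
    ∏ j ∈ range l.length, ∏ i ∈ range j, f (l.getD i 0) (l.getD j 0) = pairs f l := by
  induction l with
  | nil => simp [pairs]
  | cons x l ih =>
    rw [List.length_cons, Finset.prod_range_succ']
    simp only [Finset.range_zero, Finset.prod_empty, mul_one]
    have h : ∀ j ∈ range l.length,
        ∏ i ∈ range (j + 1), f ((x :: l).getD i 0) ((x :: l).getD (j + 1) 0) =
          (∏ i ∈ range j, f (l.getD i 0) (l.getD j 0)) * f x (l.getD j 0) := by
      intro j _
      rw [Finset.prod_range_succ']
      simp only [List.getD_cons_succ, List.getD_cons_zero]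
    rw [Finset.prod_congr rfl h, Finset.prod_mul_distrib, ih, prod_getD (f x) l, mul_comm]
    rfl

theorem pairs_append_singleton (f : ℂ → ℂ → ℂ) (l : List ℂ) (x : ℂ) :
    pairs f (l ++ [x]) = pairs f l * (l.map (fun y => f y x)).prod := by
  induction l with
  | nil => simp [pairs]
  | cons y l ih =>
    rw [List.cons_append, pairs, ih, pairs]
    simp only [List.map_append, List.map_cons, List.map_nil, List.prod_append, List.prod_cons,
      List.prod_nil]
    ring

/-- first half factor -/
noncomputable def fA (x y : ℂ) : ℂ := (y - q^2 * x) * (x * y - q^2)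
/-- second half factor -/
noncomputable def fB (x y : ℂ) : ℂ := (q * x - q^2 * y) * (q * x * y - q^2)

theorem base_append (n : ℕ) (u v : List ℂ) (hu : u.length = n) (hv : v.length = n) :
    base n (u ++ v) = pairs fA u * pairs fB v := by
  unfold base
  rw [← pairs_eq fA u, ← pairs_eq fB v, hu, hv]
  congr 1
  · apply Finset.prod_congr rfl
    intro j hj
    apply Finset.prod_congr rfl
    intro i hi
    rw [Finset.mem_range] at hi hj
    rw [List.getD_append _ _ _ _ (by omega), List.getD_append _ _ _ _ (by omega)]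
    rfl
  · apply Finset.prod_congr rfl
    intro j hj
    apply Finset.prod_congr rfl
    intro i hi
    rw [Finset.mem_range] at hi hj
    rw [List.getD_append_right _ _ _ _ (by omega), List.getD_append_right _ _ _ _ (by omega)]
    have e1 : n + i - u.length = i := by omega
    have e2 : n + j - u.length = j := by omega
    rw [e1, e2]
    rfl

/-! ### degree -/

/-- the variable number `i` (or `0`) -/
noncomputable def Xv (N i : ℕ) : MvPolynomial (Fin N) ℂ :=
  if h : i < N then MvPolynomial.X ⟨i, h⟩ else 0

theorem eval_Xv (N i : ℕ) (hi : i < N) (l : List ℂ) :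
    MvPolynomial.eval (fun i : Fin N => l.getD i 0) (Xv N i) = l.getD i 0 := by
  simp [Xv, hi]

/-- indicator -/
def ee (k i : ℕ) : ℕ := if k = i then 1 else 0

theorem deg_Xv (N i : ℕ) (k : Fin N) : (Xv N i).degreeOf k ≤ ee k i := by
  unfold Xv ee
  split_ifs with h h' h'
  · have : k = ⟨i, h⟩ := Fin.ext h'
    rw [this, MvPolynomial.degreeOf_X_self]
  · rw [MvPolynomial.degreeOf_X, if_neg]
    intro hk
    apply h'
    rw [hk]
  · simp
  · simp

theorem deg_lin (N i j : ℕ) (a b : ℂ) (k : Fin N) :
    (MvPolynomial.C a * Xv N i - MvPolynomial.C b * Xv N j).degreeOf k ≤ ee k i + ee k j := by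
  refine (MvPolynomial.degreeOf_sub_le _ _ _).trans (max_le ?_ ?_)
  · refine (MvPolynomial.degreeOf_mul_le _ _ _).trans ?_
    rw [MvPolynomial.degreeOf_C]
    have := deg_Xv N i k
    omega
  · refine (MvPolynomial.degreeOf_mul_le _ _ _).trans ?_
    rw [MvPolynomial.degreeOf_C]
    have := deg_Xv N j k
    omega

theorem deg_quad (N i j : ℕ) (a b : ℂ) (k : Fin N) :
    (MvPolynomial.C a * Xv N i * Xv N j - MvPolynomial.C b).degreeOf k ≤ ee k i + ee k j := by
  refine (MvPolynomial.degreeOf_sub_le _ _ _).trans (max_le ?_ ?_)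
  · refine (MvPolynomial.degreeOf_mul_le _ _ _).trans ?_
    have h1 := MvPolynomial.degreeOf_mul_le k (MvPolynomial.C a) (Xv N i)
    rw [MvPolynomial.degreeOf_C] at h1
    have := deg_Xv N i k
    have := deg_Xv N j k
    omega
  · rw [MvPolynomial.degreeOf_C]
    omega

theorem sum_ee (n k : ℕ) : ∑ j ∈ range n, ∑ i ∈ range j, 2 * (ee k i + ee k j) =
    if k < n then 2 * (n - 1) else 0 := by
  have h1 : ∀ n, ∑ i ∈ range n, ee k i = if k < n then 1 else 0 := by
    intro n
    simp only [ee]
    rw [Finset.sum_ite_eq]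
    simp only [Finset.mem_range]
  induction n with
  | zero => simp
  | succ n ih =>
    rw [Finset.sum_range_succ, ih, ← Finset.mul_sum, Finset.sum_add_distrib, h1,
      Finset.sum_const, Finset.card_range, smul_eq_mul]
    unfold ee
    split_ifs with a b c <;> omega

/-- the polynomial of the base -/
noncomputable def bpoly (n : ℕ) : MvPolynomial (Fin (2 * n)) ℂ :=
  (∏ j ∈ range n, ∏ i ∈ range j,
    ((MvPolynomial.C 1 * Xv (2 * n) j - MvPolynomial.C (q^2) * Xv (2 * n) i) *
      (MvPolynomial.C 1 * Xv (2 * n) i * Xv (2 * n) j - MvPolynomial.C (q^2)))) *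
  (∏ j ∈ range n, ∏ i ∈ range j,
    ((MvPolynomial.C q * Xv (2 * n) (n+i) - MvPolynomial.C (q^2) * Xv (2 * n) (n+j)) *
      (MvPolynomial.C q * Xv (2 * n) (n+i) * Xv (2 * n) (n+j) - MvPolynomial.C (q^2))))

theorem deg_bpoly (n : ℕ) (k : Fin (2 * n)) : (bpoly n).degreeOf k ≤ 2 * n - 2 := by
  unfold bpoly
  refine (MvPolynomial.degreeOf_mul_le _ _ _).trans ?_
  have h1 : (∏ j ∈ range n, ∏ i ∈ range j,
    ((MvPolynomial.C 1 * Xv (2 * n) j - MvPolynomial.C (q^2) * Xv (2 * n) i) *
      (MvPolynomial.C 1 * Xv (2 * n) i * Xv (2 * n) j - MvPolynomial.C (q^2)))).degreeOf k ≤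
      ∑ j ∈ range n, ∑ i ∈ range j, 2 * (ee k i + ee k j) := by
    refine (MvPolynomial.degreeOf_prod_le _ _ _).trans (Finset.sum_le_sum fun j _ => ?_)
    refine (MvPolynomial.degreeOf_prod_le _ _ _).trans (Finset.sum_le_sum fun i _ => ?_)
    refine (MvPolynomial.degreeOf_mul_le _ _ _).trans ?_
    have a1 := deg_lin (2 * n) j i 1 (q^2) k
    have a2 := deg_quad (2 * n) i j 1 (q^2) k
    omega
  have h2 : (∏ j ∈ range n, ∏ i ∈ range j,
    ((MvPolynomial.C q * Xv (2 * n) (n+i) - MvPolynomial.C (q^2) * Xv (2 * n) (n+j)) *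
      (MvPolynomial.C q * Xv (2 * n) (n+i) * Xv (2 * n) (n+j) -
        MvPolynomial.C (q^2)))).degreeOf k ≤
      ∑ j ∈ range n, ∑ i ∈ range j, 2 * (ee k (n+i) + ee k (n+j)) := by
    refine (MvPolynomial.degreeOf_prod_le _ _ _).trans (Finset.sum_le_sum fun j _ => ?_)
    refine (MvPolynomial.degreeOf_prod_le _ _ _).trans (Finset.sum_le_sum fun i _ => ?_)
    refine (MvPolynomial.degreeOf_mul_le _ _ _).trans ?_
    have a1 := deg_lin (2 * n) (n+i) (n+j) q (q^2) k
    have a2 := deg_quad (2 * n) (n+i) (n+j) q (q^2) k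
    omega
  rw [sum_ee] at h1
  by_cases hk : k.val < n
  · have h3 : ∑ j ∈ range n, ∑ i ∈ range j, 2 * (ee k (n+i) + ee k (n+j)) = 0 := by
      apply Finset.sum_eq_zero
      intro j _
      apply Finset.sum_eq_zero
      intro i _
      unfold ee
      rw [if_neg (by omega), if_neg (by omega)]
      rfl
    rw [if_pos hk] at h1
    omega
  · have h3 : ∑ j ∈ range n, ∑ i ∈ range j, 2 * (ee k (n+i) + ee k (n+j)) =
        ∑ j ∈ range n, ∑ i ∈ range j, 2 * (ee (k - n) i + ee (k - n) j) := by
      apply Finset.sum_congr rfl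
      intro j _
      apply Finset.sum_congr rfl
      intro i _
      have e : ∀ i, ee k (n + i) = ee (k - n) i := by
        intro i
        unfold ee
        congr 1
        apply propext
        omega
      rw [e, e]
    rw [h3, sum_ee, if_pos (by omega)] at h2
    rw [if_neg hk] at h1
    omega

theorem base_PD (n : ℕ) : PD (2 * n) (2 * n - 2) (base n) := by
  refine ⟨bpoly n, fun k => deg_bpoly n k, fun l _ => ?_⟩
  unfold bpoly base
  rw [map_mul, map_prod, map_prod]
  congr 1
  · apply Finset.prod_congr rfl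
    intro j hj
    rw [map_prod]
    apply Finset.prod_congr rfl
    intro i hi
    rw [Finset.mem_range] at hi hj
    simp only [map_mul, map_sub, MvPolynomial.eval_C]
    rw [eval_Xv _ _ (by omega), eval_Xv _ _ (by omega)]
    ring
  · apply Finset.prod_congr rfl
    intro j hj
    rw [map_prod]
    apply Finset.prod_congr rfl
    intro i hi
    rw [Finset.mem_range] at hi hj
    simp only [map_mul, map_sub, MvPolynomial.eval_C]
    rw [eval_Xv _ _ (by omega), eval_Xv _ _ (by omega)]

/-! ### zeros -/

theorem base_zero_A {n : ℕ} {l : List ℂ} {i j : ℕ} (hij : i < j) (hj : j < n)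
    (h : (l.getD j 0 - q^2 * l.getD i 0) * (l.getD i 0 * l.getD j 0 - q^2) = 0) :
    base n l = 0 := by
  unfold base
  rw [Finset.prod_eq_zero (Finset.mem_range.2 hj)
    (Finset.prod_eq_zero (Finset.mem_range.2 hij) h), zero_mul]

theorem base_zero_B {n : ℕ} {l : List ℂ} {i j : ℕ} (hij : i < j) (hj : j < n)
    (h : (q * l.getD (n+i) 0 - q^2 * l.getD (n+j) 0) *
      (q * l.getD (n+i) 0 * l.getD (n+j) 0 - q^2) = 0) :
    base n l = 0 := by
  unfold base
  apply mul_eq_zero_of_right
  exact Finset.prod_eq_zero (Finset.mem_range.2 hj)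
    (Finset.prod_eq_zero (Finset.mem_range.2 hij) h)

theorem q4 : q^4 = q := by
  have : q^4 = q^3 * q := by ring
  rw [this, q_cube, one_mul]

/-- both in the same half -/
theorem base_zero_same {n : ℕ} {l : List ℂ} {I J : ℕ} (hIJ : I < J) (hJ : J < 2 * n)
    (hl : l.getD J 0 = q^2 * l.getD I 0) (h : J < n ∨ n ≤ I) : base n l = 0 := by
  rcases h with h | h
  · apply base_zero_A hIJ h
    rw [hl]
    ring
  · apply base_zero_B (i := I - n) (j := J - n) (by omega) (by omega)
    have e1 : n + (I - n) = I := by omega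
    have e2 : n + (J - n) = J := by omega
    rw [e1, e2, hl]
    have : q * l.getD I 0 - q^2 * (q^2 * l.getD I 0) = (q - q^4) * l.getD I 0 := by ring
    rw [this, q4]
    ring

theorem base_wheel1 {n : ℕ} {l : List ℂ} {I J K : ℕ} (hIJ : I < J) (hJ : J < 2 * n)
    (hl : l.getD J 0 = q^2 * l.getD I 0) (hK : K < 2 * n) (hKI : K ≠ I) (hKJ : K ≠ J)
    (hy : l.getD K 0 * l.getD I 0 = q^2) : base n l = 0 := by
  by_cases hs : J < n ∨ n ≤ I
  · exact base_zero_same hIJ hJ hl hs
  · push Not at hs
    by_cases hKn : K < n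
    · rcases lt_or_gt_of_ne hKI with h | h
      · apply base_zero_A h hs.2
        rw [hy]
        ring
      · apply base_zero_A h hKn
        rw [mul_comm (l.getD I 0), hy]
        ring
    · have e1 : n + (K - n) = K := by omega
      have e2 : n + (J - n) = J := by omega
      rcases lt_or_gt_of_ne hKJ with h | h
      · apply base_zero_B (i := K - n) (j := J - n) (by omega) (by omega)
        rw [e1, e2, hl]
        have : q * l.getD K 0 * (q^2 * l.getD I 0) = q^3 * (l.getD K 0 * l.getD I 0) := by ring
        rw [this, hy, q_cube]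
        ring
      · apply base_zero_B (i := J - n) (j := K - n) (by omega) (by omega)
        rw [e1, e2, hl]
        have : q * (q^2 * l.getD I 0) * l.getD K 0 = q^3 * (l.getD K 0 * l.getD I 0) := by ring
        rw [this, hy, q_cube]
        ring

theorem base_wheel2 {n : ℕ} {l : List ℂ} {I J K : ℕ} (hIJ : I < J) (hJ : J < 2 * n)
    (hl : l.getD J 0 = q^2 * l.getD I 0) (hK : K < 2 * n) (hKIJ : K < I ∨ J < K)
    (hy : l.getD K 0 = q * l.getD I 0) : base n l = 0 := by
  by_cases hs : J < n ∨ n ≤ I
  · exact base_zero_same hIJ hJ hl hs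
  · push Not at hs
    rcases hKIJ with h | h
    · apply base_zero_A h hs.2
      rw [hy]
      have : l.getD I 0 - q^2 * (q * l.getD I 0) = (1 - q^3) * l.getD I 0 := by ring
      rw [this, q_cube]
      ring
    · apply base_zero_B (i := J - n) (j := K - n) (by omega) (by omega)
      have e1 : n + (K - n) = K := by omega
      have e2 : n + (J - n) = J := by omega
      rw [e1, e2, hl, hy]
      ring

theorem getD_mid (u v w : List ℂ) (x y : ℂ) :
    (u ++ x :: (v ++ y :: w)).getD u.length 0 = x ∧
      (u ++ x :: (v ++ y :: w)).getD (u.length + 1 + v.length) 0 = y := by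
  constructor
  · rw [List.getD_append_right _ _ _ _ (le_refl _)]
    simp
  · rw [List.getD_append_right _ _ _ _ (by omega)]
    have : u.length + 1 + v.length - u.length = v.length + 1 := by omega
    rw [this, List.getD_cons_succ, List.getD_append_right _ _ _ _ (le_refl _)]
    simp

/-- the position of an element of `u ++ v ++ w` in `u ++ x :: (v ++ y :: w)` -/
theorem exists_pos (u v w : List ℂ) (x y z : ℂ) :
    (z ∈ u → ∃ K < u.length, (u ++ x :: (v ++ y :: w)).getD K 0 = z) ∧
    (z ∈ v → ∃ K, u.length < K ∧ K < u.length + 1 + v.length ∧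
      (u ++ x :: (v ++ y :: w)).getD K 0 = z) ∧
    (z ∈ w → ∃ K, u.length + 1 + v.length < K ∧ K < u.length + v.length + w.length + 2 ∧
      (u ++ x :: (v ++ y :: w)).getD K 0 = z) := by
  refine ⟨fun h => ?_, fun h => ?_, fun h => ?_⟩
  · obtain ⟨K, hK, rfl⟩ := List.mem_iff_getElem.mp h
    refine ⟨K, hK, ?_⟩
    rw [List.getD_append _ _ _ _ hK, List.getD_eq_getElem _ _ hK]
  · obtain ⟨K, hK, rfl⟩ := List.mem_iff_getElem.mp h
    refine ⟨u.length + 1 + K, by omega, by omega, ?_⟩
    rw [List.getD_append_right _ _ _ _ (by omega)]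
    have : u.length + 1 + K - u.length = K + 1 := by omega
    rw [this, List.getD_cons_succ, List.getD_append _ _ _ _ hK, List.getD_eq_getElem _ _ hK]
  · obtain ⟨K, hK, rfl⟩ := List.mem_iff_getElem.mp h
    refine ⟨u.length + 1 + v.length + 1 + K, by omega, by omega, ?_⟩
    rw [List.getD_append_right _ _ _ _ (by omega)]
    have : u.length + 1 + v.length + 1 + K - u.length = (v.length + 1 + K) + 1 := by omega
    rw [this, List.getD_cons_succ, List.getD_append_right _ _ _ _ (by omega)]
    have : v.length + 1 + K - v.length = K + 1 := by omega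
    rw [this, List.getD_cons_succ, List.getD_eq_getElem _ _ hK]

end T10

open T10

theorem base_V (n : ℕ) : V (2*n) (base n) := by
  refine ⟨base_PD n, ?_, ?_⟩
  · rintro u v w x hlen ⟨y, hy, hyx⟩
    obtain ⟨g1, g2⟩ := getD_mid u v w x (q^2 * x)
    obtain ⟨p1, p2, p3⟩ := exists_pos u v w x (q^2 * x) y
    rw [List.mem_append, List.mem_append] at hy
    have key : ∀ K, K < 2 * n → K ≠ u.length → K ≠ u.length + 1 + v.length →
        (u ++ x :: (v ++ (q^2 * x) :: w)).getD K 0 = y →
        base n (u ++ x :: (v ++ (q^2 * x) :: w)) = 0 := by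
      intro K hK h1 h2 h3
      apply base_wheel1 (I := u.length) (J := u.length + 1 + v.length) (K := K) (by omega)
        (by omega) (by rw [g1, g2]) hK h1 h2
      rw [h3, g1, hyx]
    rcases hy with (h | h) | h
    · obtain ⟨K, hK, hz⟩ := p1 h
      exact key K (by omega) (by omega) (by omega) hz
    · obtain ⟨K, hK, hK', hz⟩ := p2 h
      exact key K (by omega) (by omega) (by omega) hz
    · obtain ⟨K, hK, hK', hz⟩ := p3 h
      exact key K (by omega) (by omega) (by omega) hz
  · rintro u v w x hlen hy
    obtain ⟨g1, g2⟩ := getD_mid u v w x (q^2 * x)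
    obtain ⟨p1, p2, p3⟩ := exists_pos u v w x (q^2 * x) (q * x)
    rw [List.mem_append] at hy
    have key : ∀ K, K < 2 * n → (K < u.length ∨ u.length + 1 + v.length < K) →
        (u ++ x :: (v ++ (q^2 * x) :: w)).getD K 0 = q * x →
        base n (u ++ x :: (v ++ (q^2 * x) :: w)) = 0 := by
      intro K hK h1 h3
      apply base_wheel2 (I := u.length) (J := u.length + 1 + v.length) (K := K) (by omega)
        (by omega) (by rw [g1, g2]) hK h1
      rw [h3, g1]
    rcases hy with h | h
    · obtain ⟨K, hK, hz⟩ := p1 h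
      exact key K (by omega) (Or.inl hK) hz
    · obtain ⟨K, hK, hK', hz⟩ := p3 h
      exact key K (by omega) (Or.inr hK) hz

namespace T10

theorem prod_map_scale (c : ℂ) (f g : ℂ → ℂ) (h : ∀ y, f y = c * g y) (u : List ℂ) :
    (u.map f).prod = c ^ u.length * (u.map g).prod := by
  induction u with
  | nil => simp
  | cons y u ih =>
    rw [List.map_cons, List.prod_cons, ih, h, List.map_cons, List.prod_cons, List.length_cons]
    ring

theorem fA_inv {x : ℂ} (hx : x ≠ 0) (y : ℂ) : fA x y = x^2 * fA x⁻¹ y := by
  unfold fA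
  field_simp

theorem fB_inv {x : ℂ} (hx : x ≠ 0) (y : ℂ) : fB y x = x^2 * fB y x⁻¹ := by
  unfold fB
  field_simp

end T10

theorem base_inv1 (n : ℕ) : Inv1 (2*n) (base n) := by
  intro x l hx hl
  obtain ⟨n, rfl⟩ : ∃ m, n = m + 1 := ⟨n - 1, by omega⟩
  have e : ∀ z : ℂ, z :: l = (z :: l.take n) ++ l.drop n := by
    intro z
    simp
  have h1 : ∀ z : ℂ, (z :: l.take n).length = n + 1 := by
    intro z
    simp only [List.length_cons, List.length_take]
    omega
  have h2 : (l.drop n).length = n + 1 := by
    rw [List.length_drop]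
    omega
  have h3 : (l.take n).length = n := by
    rw [List.length_take]
    omega
  rw [e x, e x⁻¹, base_append _ _ _ (h1 _) h2, base_append _ _ _ (h1 _) h2]
  simp only [pairs]
  rw [prod_map_scale (x^2) _ _ (fun y => fA_inv hx y), h3]
  have h4 : 2 * (n + 1) - 2 = 2 * n := by omega
  rw [h4, pow_mul]
  ring

theorem base_invN (n : ℕ) : InvN (2*n) (base n) := by
  intro x l hx hl
  obtain ⟨n, rfl⟩ : ∃ m, n = m + 1 := ⟨n - 1, by omega⟩
  have e : ∀ z : ℂ, l ++ [z] = l.take (n + 1) ++ (l.drop (n + 1) ++ [z]) := by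
    intro z
    rw [← List.append_assoc, List.take_append_drop]
  have h1 : (l.take (n + 1)).length = n + 1 := by
    rw [List.length_take]
    omega
  have h3 : (l.drop (n + 1)).length = n := by
    rw [List.length_drop]
    omega
  have h2 : ∀ z : ℂ, (l.drop (n + 1) ++ [z]).length = n + 1 := by
    intro z
    rw [List.length_append, h3]
    rfl
  rw [e x, e x⁻¹, base_append _ _ _ h1 (h2 _), base_append _ _ _ h1 (h2 _),
    pairs_append_singleton, pairs_append_singleton,
    prod_map_scale (x^2) _ _ (fun y => fB_inv hx y), h3]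
  have h4 : 2 * (n + 1) - 2 = 2 * n := by omega
  rw [h4, pow_mul]
  ring

namespace T10

theorem rho_base_ne {n i : ℕ} (hi : i ≤ 2 * n) (hin : i ≠ n) (m : List ℂ) (hm : m.length = 2 * n) :
    rho i (base (n + 1)) m = 0 := by
  unfold rho
  have hlen : (m.take i).length = i := by
    rw [List.length_take]
    omega
  obtain ⟨g1, g2⟩ := getD_mid (m.take i) [] (m.drop i) (gx m) (q^2 * gx m)
  rw [hlen] at g1 g2
  have hz : base (n + 1) (m.take i ++ gx m :: (q^2 * gx m) :: m.drop i) = 0 := by
    apply base_zero_same (I := i) (J := i + 1) (Nat.lt_succ_self i) (by omega)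
    · have g1' : (m.take i ++ gx m :: (q^2 * gx m) :: m.drop i).getD i 0 = gx m := g1
      have g2' : (m.take i ++ gx m :: (q^2 * gx m) :: m.drop i).getD (i + 1) 0 =
        q^2 * gx m := g2
      rw [g1', g2']
    · omega
  rw [hz, zero_div]

theorem rho_base_self {n : ℕ} (m : List ℂ) (hm : m.length = 2 * n) :
    rho n (base (n + 1)) m = base n m := by
  unfold rho
  have hlen : (m.take n).length = n := by
    rw [List.length_take]
    omega
  have hlen2 : (m.drop n).length = n := by
    rw [List.length_drop]
    omega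
  generalize hx : gx m = x
  have hfac : fac x m ≠ 0 := by
    rw [← hx]
    exact fac_gx m
  rw [div_eq_iff hfac]
  have e : m.take n ++ x :: (q^2 * x) :: m.drop n =
      (m.take n ++ [x]) ++ ((q^2 * x) :: m.drop n) := by simp
  have hb : base n m = pairs fA (m.take n) * pairs fB (m.drop n) := by
    conv_lhs => rw [← List.take_append_drop n m]
    exact base_append n _ _ hlen hlen2
  have hf : fac x m = ((m.take n).map (fun y => fA y x)).prod *
      ((m.drop n).map (fB (q^2 * x))).prod := by
    have h1 : fac x m = fac x (m.take n) * fac x (m.drop n) := by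
      rw [← fac_append, List.take_append_drop]
    rw [h1]
    unfold fac
    congr 2
    · apply List.map_congr_left
      intro y _
      unfold fA
      ring
    · apply List.map_congr_left
      intro y _
      unfold fB
      have e1 : q * (q^2 * x) = x := by
        have : q * (q^2 * x) = q^3 * x := by ring
        rw [this, q_cube, one_mul]
      rw [e1]
  rw [e, base_append (n + 1) _ _ (by rw [List.length_append, hlen]; rfl)
    (by rw [List.length_cons, hlen2]), pairs_append_singleton, hb, hf]
  simp only [pairs]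
  ring

end T10

theorem base_dual (n : ℕ) : IsDual (rainbow n) (base n) := by
  have hlr := length_rainbow n
  refine ⟨by rw [hlr]; exact base_V n, by rw [hlr]; exact base_inv1 n,
    by rw [hlr]; exact base_invN n, ?_⟩
  have hhalf : (rainbow n).length / 2 = n := by
    rw [hlr]
    omega
  rw [hhalf, hlr]
  clear hhalf hlr
  induction n with
  | zero =>
    intro w' _ hl
    have hw' : w' = [] := List.length_eq_zero_iff.mp (by simpa using hl)
    subst hw'
    simp [ev, base, rainbow]
  | succ n ih =>
    intro w' hw hl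
    have hne : w' ≠ [] := by
      rintro rfl
      simp at hl
    obtain ⟨h1, h2, h3⟩ := dyck_firstArc hw hne
    set i := firstArc w' with hi
    set r := rem i w' with hr
    have hrl : r.length = 2 * n := by
      have h4 := congrArg List.length h2
      rw [length_ins] at h4
      omega
    have hil : i ≤ 2 * n := by omega
    have hev : ev (n + 1) w' (base (n + 1)) = ev n r (rho i (base (n + 1))) := by
      conv_lhs => rw [h2]
      exact ev_ins (base_V (n + 1)) h3 hrl hil
    rw [hev]
    by_cases hin : i = n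
    · have e1 : ev n r (rho i (base (n + 1))) = ev n r (base n) := by
        apply ev_congr
        intro m hm
        rw [hin]
        exact rho_base_self m hm
      rw [e1, ih r h3 hrl]
      have hiff : (r = rainbow n) ↔ (w' = rainbow (n + 1)) := by
        constructor
        · intro h
          rw [h2, h, hin, rainbow_succ]
        · intro h
          rw [h2] at h
          exact (ins_eq_rainbow (by omega) h).2
      simp only [hiff]
    · have e1 : ev n r (rho i (base (n + 1))) = ev n r (fun l => 0 * base n l) := by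
        apply ev_congr
        intro m hm
        rw [zero_mul]
        exact rho_base_ne hil hin m hm
      rw [e1, ev_smul, zero_mul, if_neg]
      intro h
      rw [h2] at h
      exact hin (ins_eq_rainbow (by omega) h).1

end Pool.Agent.H988R2.Perc
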