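import Pool.Agent.H988R2.Perc.T09
import Pool.Agent.H988R2.Perc.T10

/-! T11: the dual basis. -/

namespace Pool.Agent.H988R2.Perc

theorem V.add' {N : ℕ} {F G : List ℂ → ℂ} (hF : V N F) (hG : V N G) :
    V N (fun l => F l + G l) where
  pd := hF.pd.add hG.pd
  wheel1 u v w x h1 h2 := by
    show F _ + G _ = 0
    rw [hF.wheel1 u v w x h1 h2, hG.wheel1 u v w x h1 h2, add_zero]
  wheel2 u v w x h1 h2 := by
    show F _ + G _ = 0
    rw [hF.wheel2 u v w x h1 h2, hG.wheel2 u v w x h1 h2, add_zero]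

theorem V.smul' {N : ℕ} (c : ℂ) {F : List ℂ → ℂ} (hF : V N F) : V N (fun l => c * F l) where
  pd := hF.pd.smul c
  wheel1 u v w x h1 h2 := by
    show c * F _ = 0
    rw [hF.wheel1 u v w x h1 h2, mul_zero]
  wheel2 u v w x h1 h2 := by
    show c * F _ = 0
    rw [hF.wheel2 u v w x h1 h2, mul_zero]

theorem V.sum' {N : ℕ} {ι : Type*} (s : Finset ι) {F : ι → List ℂ → ℂ}
    (hF : ∀ i ∈ s, V N (F i)) : V N (fun l => ∑ i ∈ s, F i l) where
  pd := PD.sum s (fun i hi => (hF i hi).pd)
  wheel1 u v w x h1 h2 := Finset.sum_eq_zero fun i hi => (hF i hi).wheel1 u v w x h1 h2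
  wheel2 u v w x h1 h2 := Finset.sum_eq_zero fun i hi => (hF i hi).wheel2 u v w x h1 h2

theorem Inv1.add' {N : ℕ} {F G : List ℂ → ℂ} (hF : Inv1 N F) (hG : Inv1 N G) :
    Inv1 N (fun l => F l + G l) := by
  intro x l hx hl
  show F _ + G _ = _ * (F _ + G _)
  rw [hF x l hx hl, hG x l hx hl, mul_add]

theorem Inv1.smul' {N : ℕ} (c : ℂ) {F : List ℂ → ℂ} (hF : Inv1 N F) :
    Inv1 N (fun l => c * F l) := by
  intro x l hx hl
  show c * F _ = _ * (c * F _)
  rw [hF x l hx hl]; ring

theorem Inv1.sum' {N : ℕ} {ι : Type*} (s : Finset ι) {F : ι → List ℂ → ℂ}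
    (hF : ∀ i ∈ s, Inv1 N (F i)) : Inv1 N (fun l => ∑ i ∈ s, F i l) := by
  intro x l hx hl
  show ∑ i ∈ s, F i _ = _ * ∑ i ∈ s, F i _
  rw [Finset.mul_sum]
  exact Finset.sum_congr rfl fun i hi => hF i hi x l hx hl

theorem InvN.add' {N : ℕ} {F G : List ℂ → ℂ} (hF : InvN N F) (hG : InvN N G) :
    InvN N (fun l => F l + G l) := by
  intro x l hx hl
  show F _ + G _ = _ * (F _ + G _)
  rw [hF x l hx hl, hG x l hx hl, mul_add]

theorem InvN.smul' {N : ℕ} (c : ℂ) {F : List ℂ → ℂ} (hF : InvN N F) :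
    InvN N (fun l => c * F l) := by
  intro x l hx hl
  show c * F _ = _ * (c * F _)
  rw [hF x l hx hl]; ring

theorem InvN.sum' {N : ℕ} {ι : Type*} (s : Finset ι) {F : ι → List ℂ → ℂ}
    (hF : ∀ i ∈ s, InvN N (F i)) : InvN N (fun l => ∑ i ∈ s, F i l) := by
  intro x l hx hl
  show ∑ i ∈ s, F i _ = _ * ∑ i ∈ s, F i _
  rw [Finset.mul_sum]
  exact Finset.sum_congr rfl fun i hi => hF i hi x l hx hl

/-- two univariate polynomials that agree away from one point agree everywhere -/
theorem poly_eq_of_ne {P Q : Polynomial ℂ} {c a : ℂ}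
    (h : ∀ y, y ≠ a → P.eval y = c * Q.eval y) (b : ℂ) : P.eval b = c * Q.eval b := by
  have h1 : P = Polynomial.C c * Q := by
    apply Polynomial.eq_of_infinite_eval_eq
    refine ((Set.finite_singleton a).infinite_compl).mono ?_
    intro y hy
    have hy' : y ≠ a := hy
    simp only [Polynomial.eval_mul, Polynomial.eval_C]
    exact h y hy'
  rw [h1, Polynomial.eval_mul, Polynomial.eval_C]

theorem split_at {α : Type*} {l : List α} {i : ℕ} (h : i + 2 ≤ l.length) :
    ∃ (u : List α) (a b : α) (v : List α), u.length = i ∧ l = u ++ a :: b :: v := by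
  have h1 : i < l.length := by omega
  have h2 : i + 1 < l.length := by omega
  refine ⟨l.take i, l[i], l[i+1], l.drop (i+2), by simp; omega, ?_⟩
  conv_lhs => rw [← List.take_append_drop i l]
  rw [List.drop_eq_getElem_cons h1, List.drop_eq_getElem_cons h2]

theorem Inv1.exch {N d i : ℕ} {F E : List ℂ → ℂ} (hF : Inv1 N F) (hE : IsE N i F E)
    (hpd : PD N d E) (hi : 1 ≤ i) (hi2 : i + 2 ≤ N) : Inv1 N E := by
  intro x0 l hx0 hl
  obtain ⟨u, a, b, v, hu, rfl⟩ := split_at (l := l) (i := i - 1) (by omega)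
  have hlen : u.length + v.length + 3 = N := by
    simp only [List.length_append, List.length_cons] at hl
    omega
  obtain ⟨P, -, hP⟩ := hpd.univ (x0 :: (u ++ [a])) v (by simp; omega)
  obtain ⟨Q, -, hQ⟩ := hpd.univ (x0⁻¹ :: (u ++ [a])) v (by simp; omega)
  have key : ∀ y, y ≠ a → P.eval y = x0^(N-2) * Q.eval y := by
    intro y hy
    rw [← hP, ← hQ]
    have e1 := hE (x0 :: u) v a y (by simp; omega) (by simp; omega)
    have e2 := hE (x0⁻¹ :: u) v a y (by simp; omega) (by simp; omega)
    have f1 := hF x0 (u ++ y :: a :: v) hx0 (by simp; omega)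
    have f2 := hF x0 (u ++ a :: y :: v) hx0 (by simp; omega)
    simp only [List.cons_append, List.append_assoc, List.nil_append, List.singleton_append] at *
    rw [f1, f2] at e1
    have hya : y - a ≠ 0 := sub_ne_zero.2 hy
    apply mul_left_cancel₀ hya
    rw [e1]
    linear_combination (-(x0^(N-2))) * e2
  have := poly_eq_of_ne key b
  rw [← hP, ← hQ] at this
  simpa using this

theorem InvN.exch {N d i : ℕ} {F E : List ℂ → ℂ} (hF : InvN N F) (hE : IsE N i F E)
    (hpd : PD N d E) (hi2 : i + 3 ≤ N) : InvN N E := by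
  intro x0 l hx0 hl
  obtain ⟨u, a, b, v, hu, rfl⟩ := split_at (l := l) (i := i) (by omega)
  have hlen : u.length + v.length + 3 = N := by
    simp only [List.length_append, List.length_cons] at hl
    omega
  obtain ⟨P, -, hP⟩ := hpd.univ (u ++ [a]) (v ++ [x0]) (by simp; omega)
  obtain ⟨Q, -, hQ⟩ := hpd.univ (u ++ [a]) (v ++ [x0⁻¹]) (by simp; omega)
  have key : ∀ y, y ≠ a → P.eval y = x0^(N-2) * Q.eval y := by
    intro y hy
    rw [← hP, ← hQ]
    have e1 := hE u (v ++ [x0]) a y hu (by simp; omega)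
    have e2 := hE u (v ++ [x0⁻¹]) a y hu (by simp; omega)
    have f1 := hF x0 (u ++ y :: a :: v) hx0 (by simp; omega)
    have f2 := hF x0 (u ++ a :: y :: v) hx0 (by simp; omega)
    simp only [List.cons_append, List.append_assoc, List.nil_append, List.singleton_append] at *
    rw [f1, f2] at e1
    have hya : y - a ≠ 0 := sub_ne_zero.2 hy
    apply mul_left_cancel₀ hya
    rw [e1]
    linear_combination (-(x0^(N-2))) * e2
  have := poly_eq_of_ne key b
  rw [← hP, ← hQ] at this
  simpa using this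

theorem IsDual.comb {w pi : Word} (hw : Dyck w) (u v : Word)
    (hwe : w = u ++ false :: true :: v) (hpe : pi = u ++ true :: false :: v)
    (hu : 1 ≤ u.length) (hv : 1 ≤ v.length)
    (hpd : Dyck pi) {Fp : List ℂ → ℂ} (hFp : IsDual pi Fp)
    (IH : ∀ t : Word, Dyck t → t.length = w.length → w < t → ∃ F, IsDual t F) :
    ∃ F, IsDual w F := by
  classical
  have hlp : pi.length = w.length := by rw [hwe, hpe]; simp
  obtain ⟨n, hn⟩ := (dyck_even hw).exists_two_nsmul
  rw [smul_eq_mul] at hn
  have hn2 : w.length / 2 = n := by omega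
  have hlen : u.length + v.length + 2 = w.length := by rw [hwe]; simp; omega
  obtain ⟨hVp, hI1p, hINp, hdp⟩ := hFp
  rw [hlp] at hVp hI1p hINp hdp
  obtain ⟨E, hEpd, hE⟩ := exists_E (i := u.length) hVp.pd (by omega)
  have hVE : V w.length E := hVp.exch (by omega) hE hEpd
  have hI1E : Inv1 w.length E := hI1p.exch hE hEpd hu (by omega)
  have hINE : InvN w.length E := hINp.exch hE hEpd (by omega)
  have hact : act u.length w = pi := by rw [hwe, hpe]; exact act_valley u v
  have hevE : ∀ w' : Word, Dyck w' → w'.length = w.length →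
      ev n w' E = if act u.length w' = pi then 1 else 0 := by
    intro w' hw' hl'
    have h1 : ev n w' E = ev n (act u.length w') Fp := by
      rw [hn] at hVp hVE hE
      exact ev_act hVp hVE hE (by omega) hw' (by omega)
    rw [h1]
    have h2 := hdp (act u.length w') (dyck_act hw' (by omega)) (by rw [length_act (by omega)]; exact hl')
    rw [hn2] at h2
    exact h2
  set S : Finset Word := (LP w.length).filter (fun t => act u.length t = pi ∧ t ≠ w) with hS
  have hSd : ∀ t ∈ S, ∃ F, IsDual t F := by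
    intro t ht
    rw [hS, Finset.mem_filter, mem_LP] at ht
    obtain ⟨⟨h1, h2⟩, h3, h4⟩ := ht
    refine IH t h2 h1 ?_
    have := act_eq_valley (u := u) (v := v) h2 (by omega) (by rw [h3, hpe])
    rcases this with h5 | h5
    · exact absurd (h5.trans hwe.symm) h4
    · rw [hwe]; exact h5
  choose! G hG using hSd
  have hlS : ∀ t ∈ S, t.length = w.length := by
    intro t ht
    rw [hS, Finset.mem_filter, mem_LP] at ht
    exact ht.1.1
  have hVG : ∀ t ∈ S, V w.length (G t) := fun t ht => by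
    have := (hG t ht).1
    rwa [hlS t ht] at this
  have hI1G : ∀ t ∈ S, Inv1 w.length (G t) := fun t ht => by
    have := (hG t ht).2.1
    rwa [hlS t ht] at this
  have hING : ∀ t ∈ S, InvN w.length (G t) := fun t ht => by
    have := (hG t ht).2.2.1
    rwa [hlS t ht] at this
  refine ⟨fun l => E l + (-1) * ∑ t ∈ S, G t l, ?_, ?_, ?_, ?_⟩
  · exact hVE.add' ((V.sum' S hVG).smul' (-1))
  · exact hI1E.add' ((Inv1.sum' S hI1G).smul' (-1))
  · exact hINE.add' ((InvN.sum' S hING).smul' (-1))
  · intro w' hw' hl'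
    rw [hn2, ev_add, ev_smul, ev_sum, hevE w' hw' hl']
    have h1 : ∑ t ∈ S, ev n w' (G t) = ∑ t ∈ S, (if w' = t then (1:ℂ) else 0) := by
      refine Finset.sum_congr rfl fun t ht => ?_
      have h2 := (hG t ht).2.2.2 w' hw' (by rw [hl', hlS t ht])
      rw [hlS t ht, hn2] at h2
      exact h2
    rw [h1, Finset.sum_ite_eq]
    by_cases hww : w' = w
    · subst hww
      have : w' ∉ S := by simp [hS]
      simp [this, hact]
    · have hmem : w' ∈ S ↔ act u.length w' = pi := by
        rw [hS, Finset.mem_filter, mem_LP]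
        exact ⟨fun h => h.2.1, fun h => ⟨⟨hl', hw'⟩, h, hww⟩⟩
      by_cases h3 : act u.length w' = pi
      · simp [hmem, h3, hww]
      · simp [hmem, h3, hww]

theorem exists_dual_aux (N : ℕ) (x : {w : Word // w.length = N}) :
    Dyck x.1 → ∃ F, IsDual x.1 F := by
  have wf : WellFounded (fun a b : {w : Word // w.length = N} => b.1 < a.1) := by
    have : Finite {w : Word // w.length = N} := (List.finite_length_eq Bool N)
    have : IsTrans {w : Word // w.length = N} (fun a b => b.1 < a.1) :=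
      ⟨fun a b c h h' => lt_trans h' h⟩
    have : Std.Irrefl (fun a b : {w : Word // w.length = N} => b.1 < a.1) :=
      ⟨fun a h => lt_irrefl _ h⟩
    exact Finite.wellFounded_of_trans_of_irrefl _
  induction x using wf.induction with
  | _ x IH =>
  intro hw
  by_cases hr : x.1 = rainbow (x.1.length / 2)
  · rw [hr]
    exact ⟨_, base_dual _⟩
  · obtain ⟨u, v, hwe, hu, hv⟩ := valley_exists hw hr
    have hpi : Dyck (u ++ true :: false :: v) := dyck_valley (by rw [← hwe]; exact hw)
    have hlt : x.1 < u ++ true :: false :: v := by rw [hwe]; exact valley_lt u v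
    have hlen : (u ++ true :: false :: v).length = N := by
      have := x.2
      rw [hwe] at this
      simpa using this
    obtain ⟨Fp, hFp⟩ := IH ⟨u ++ true :: false :: v, hlen⟩ hlt hpi
    refine IsDual.comb hw u v hwe rfl hu hv hpi hFp ?_
    intro t ht htl htlt
    exact IH ⟨t, htl.trans x.2⟩ htlt ht

theorem exists_dual {w : Word} (hw : Dyck w) : ∃ F, IsDual w F :=
  exists_dual_aux w.length ⟨w, rfl⟩ hw

theorem Fw_spec {w : Word} (hw : Dyck w) : IsDual w (Fw w) :=
  Classical.epsilon_spec (exists_dual hw)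

/-- every element of `V` is expanded in the dual basis -/
theorem V_expand {n : ℕ} {F : List ℂ → ℂ} (hF : V (2*n) F) (l : List ℂ) (hl : l.length = 2*n) :
    F l = ∑ w ∈ LP (2*n), ev n w F * Fw w l := by
  have hn : (2 * n) / 2 = n := by omega
  have hV : ∀ w ∈ LP (2*n), V (2*n) (fun l => ev n w F * Fw w l) := by
    intro w hw
    rw [mem_LP] at hw
    have := (Fw_spec hw.2).1
    rw [hw.1] at this
    exact this.smul' _
  have hG : V (2*n) (fun l => F l + (-1) * ∑ w ∈ LP (2*n), ev n w F * Fw w l) :=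
    hF.add' ((V.sum' _ hV).smul' (-1))
  have := ev_inj hG ?_ l hl
  · linear_combination this
  · intro w' hw' hl'
    rw [ev_add, ev_smul, ev_sum]
    have h1 : ∑ w ∈ LP (2*n), ev n w' (fun l => ev n w F * Fw w l) =
        ∑ w ∈ LP (2*n), (if w' = w then ev n w F else 0) := by
      refine Finset.sum_congr rfl fun w hw => ?_
      rw [mem_LP] at hw
      rw [ev_smul]
      have h2 := (Fw_spec hw.2).2.2.2 w' hw' (by rw [hl', hw.1])
      rw [hw.1, hn] at h2
      rw [h2]
      split_ifs <;> simp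
    rw [h1, Finset.sum_ite_eq]
    have : w' ∈ LP (2*n) := mem_LP.2 ⟨hl', hw'⟩
    simp [this]

end Pool.Agent.H988R2.Perc
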