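import Pool.Agent.H988R2.Perc.T14
import Pool.Agent.H988R2.Perc.T11

/-! T18: the formula for `B` in size 3 (explicit computation). -/

namespace Pool.Agent.H988R2.Perc

open Finset

namespace T18

theorem rel_bot (a b : ℕ) : St.bot.rel a b ↔ a = b := Iff.rfl

theorem ins0_bot : St.ins 0 St.bot = St.bot := by
  apply St.ext
  funext a b
  apply propext
  constructor
  · rintro (h | ⟨h1, h2, h3, h4, h5⟩)
    · exact h
    · have h6 : St.low 0 a = St.low 0 b := h5
      unfold St.low at h6
      show a = b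
      split_ifs at h6 <;> omega
  · intro h
    exact Or.inl h

/-- the joined state -/
noncomputable def J : St := St.ins 1 St.bot

theorem rel_J (a b : ℕ) : J.rel a b ↔ a = b ∨ (a = 1 ∧ b = 3) ∨ (a = 3 ∧ b = 1) := by
  constructor
  · rintro (h | ⟨h1, h2, h3, h4, h5⟩)
    · exact Or.inl h
    · have h6 : St.low 1 a = St.low 1 b := h5
      unfold St.low at h6
      split_ifs at h6 <;> omega
  · rintro (h | ⟨h1, h2⟩ | ⟨h1, h2⟩)
    · exact Or.inl h
    · subst h1 h2
      refine Or.inr ⟨by norm_num, by norm_num, by norm_num, by norm_num, ?_⟩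
      show St.low 1 1 = St.low 1 3
      rfl
    · subst h1 h2
      refine Or.inr ⟨by norm_num, by norm_num, by norm_num, by norm_num, ?_⟩
      show St.low 1 3 = St.low 1 1
      rfl

theorem J_ne_bot : J ≠ St.bot := by
  intro h
  have h1 : J.rel 1 3 := (rel_J 1 3).2 (Or.inr (Or.inl ⟨rfl, rfl⟩))
  rw [h] at h1
  have : (1 : ℕ) = 3 := h1
  omega

theorem bot_ne_J : St.bot ≠ J := fun h => J_ne_bot h.symm

theorem act1_J : St.act 1 J = J := St.act_ins_self 1 _

theorem act1_bot : St.act 1 St.bot = J := by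
  have h : St.act 1 (St.ins 0 St.bot) = St.ins 1 St.bot := St.act_succ_ins 0 St.bot
  rw [ins0_bot] at h
  exact h

theorem act0_bot : St.act 0 St.bot = St.bot := by
  have h := St.act_ins_self 0 St.bot
  rwa [ins0_bot] at h

theorem Phi_TF : Phi 1 [true, false] = St.bot := by
  show St.ins 0 St.bot = St.bot
  exact ins0_bot

theorem Phi_TTFF : Phi 2 [true, true, false, false] = J := by
  show St.ins 1 (St.ins 0 St.bot) = J
  rw [ins0_bot]; rfl

theorem Phi_TFTF : Phi 2 [true, false, true, false] = St.bot := by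
  show St.ins 0 (St.ins 0 St.bot) = St.bot
  rw [ins0_bot, ins0_bot]

theorem dyck_TF : Dyck [true, false] := Dyck.ins 0 [] (le_refl _) Dyck.nil
theorem dyck_TFTF : Dyck [true, false, true, false] := Dyck.ins 0 _ (Nat.zero_le _) dyck_TF
theorem dyck_TTFF : Dyck [true, true, false, false] := Dyck.ins 1 [true, false] (by simp) dyck_TF

theorem dyck_zero {w : Word} (_ : Dyck w) (hl : w.length = 0) : w = [] :=
  List.length_eq_zero_iff.1 hl

theorem dyck_two {w : Word} (hw : Dyck w) (hl : w.length = 2) : w = [true, false] := by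
  cases hw with
  | nil => simp at hl
  | ins i w' hi hw' =>
    have h0 : w'.length = 0 := by
      have : (ins i w').length = w'.length + 2 := length_ins i w'
      omega
    have h1 := dyck_zero hw' h0
    subst h1
    have : i = 0 := by simpa using hi
    subst this
    rfl

theorem dyck_four {w : Word} (hw : Dyck w) (hl : w.length = 4) :
    w = [true, true, false, false] ∨ w = [true, false, true, false] := by
  cases hw with
  | nil => simp at hl
  | ins i w' hi hw' =>
    have h0 : w'.length = 2 := by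
      have : (ins i w').length = w'.length + 2 := length_ins i w'
      omega
    have h1 := dyck_two hw' h0
    subst h1
    have h2 : i ≤ 2 := by simpa using hi
    interval_cases i
    · right; rfl
    · left; rfl
    · right; rfl

theorem LP_two : LP 2 = {[true, false]} := by
  ext w
  rw [mem_LP, Finset.mem_singleton]
  constructor
  · rintro ⟨h1, h2⟩
    exact dyck_two h2 h1
  · rintro rfl
    exact ⟨rfl, dyck_TF⟩

theorem LP_four : LP 4 = {[true, true, false, false], [true, false, true, false]} := by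
  ext w
  rw [mem_LP, Finset.mem_insert, Finset.mem_singleton]
  constructor
  · rintro ⟨h1, h2⟩
    exact dyck_four h2 h1
  · rintro (rfl | rfl)
    · exact ⟨rfl, dyck_TTFF⟩
    · exact ⟨rfl, dyck_TFTF⟩

/-- component of the rainbow -/
noncomputable def f (l : List ℂ) : ℂ := Fw [true, true, false, false] l
noncomputable def g (l : List ℂ) : ℂ := Fw [true, false, true, false] l

theorem Psi_four (l : List ℂ) (hl : l.length = 4) :
    Psi l = Finsupp.single J (f l) + Finsupp.single St.bot (g l) := by
  unfold Psi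
  rw [hl, LP_four, Finset.sum_insert (by simp), Finset.sum_singleton]
  show Finsupp.single (Phi 2 _) _ + Finsupp.single (Phi 2 _) _ = _
  rw [Phi_TTFF, Phi_TFTF]
  rfl

theorem f_eq_base (l : List ℂ) (hl : l.length = 4) : f l = base 2 l := by
  have hb := base_dual 2
  have h1 := V_expand (n := 2) (base_V 2) l hl
  rw [show 2 * 2 = 4 from rfl, LP_four, Finset.sum_insert (by simp), Finset.sum_singleton] at h1
  have e1 := hb.2.2.2 [true, true, false, false] dyck_TTFF rfl
  have e2 := hb.2.2.2 [true, false, true, false] dyck_TFTF rfl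
  have h3 : (rainbow 2).length / 2 = 2 := rfl
  rw [h3] at e1 e2
  rw [if_pos (by rfl)] at e1
  rw [if_neg (by simp [rainbow])] at e2
  rw [e1, e2] at h1
  rw [h1]; unfold f; ring

theorem f_formula (z0 z1 z2 z3 : ℂ) : f [z0, z1, z2, z3] =
    (z1 - q^2 * z0) * (z0 * z1 - q^2) * ((q * z2 - q^2 * z3) * (q * z2 * z3 - q^2)) := by
  rw [f_eq_base _ rfl]
  unfold base
  simp [Finset.prod_range_succ]

theorem mapDomain_four (a b : ℂ) :
    Finsupp.mapDomain (St.act 1) (Finsupp.single J a + Finsupp.single St.bot b) =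
      Finsupp.single J (a + b) := by
  rw [Finsupp.mapDomain_add, Finsupp.mapDomain_single, Finsupp.mapDomain_single, act1_J, act1_bot,
    ← Finsupp.single_add]

theorem coeff_J (a b : ℂ) : (Finsupp.single J a + Finsupp.single St.bot b : St →₀ ℂ) J = a := by
  rw [Finsupp.add_apply, Finsupp.single_eq_same, Finsupp.single_eq_of_ne J_ne_bot, add_zero]

theorem coeff_bot (a b : ℂ) :
    (Finsupp.single J a + Finsupp.single St.bot b : St →₀ ℂ) St.bot = b := by
  rw [Finsupp.add_apply, Finsupp.single_eq_same, Finsupp.single_eq_of_ne bot_ne_J, zero_add]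

theorem exch (z0 x y z3 : ℂ) :
    (q * x - q^2 * y) * f [z0, y, x, z3] = (q * y - q^2 * x) * f [z0, x, y, z3] +
      (y - x) * (f [z0, x, y, z3] + g [z0, x, y, z3]) := by
  have h := Psi_exch [z0] [z3] x y (by simp)
  have e1 : ([z0] ++ y :: x :: [z3] : List ℂ) = [z0, y, x, z3] := rfl
  have e2 : ([z0] ++ x :: y :: [z3] : List ℂ) = [z0, x, y, z3] := rfl
  have e3 : ([z0] : List ℂ).length = 1 := rfl
  rw [e1, e2, e3, Psi_four _ rfl, Psi_four _ rfl, mapDomain_four] at h
  have h2 := congrArg (fun F : St →₀ ℂ => F J) h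
  simp only [Finsupp.add_apply, Finsupp.smul_apply, smul_eq_mul, Finsupp.single_eq_same,
    Finsupp.single_eq_of_ne J_ne_bot, add_zero] at h2
  exact h2

/-- explicit second component -/
noncomputable def G (z0 z1 z2 z3 : ℂ) : ℂ :=
  (q * z1 - q^2 * z2) * (-(1 + z0^2) * z3 + q * z0 * (1 + z3^2) + (q - 1) * z0 * z3 * (z1 + z2) +
    (-z0 * (1 + z3^2) + q * (1 + z0^2) * z3) * z1 * z2)

theorem G_eq (z0 x y z3 : ℂ) : (q * x - q^2 * y) * f [z0, y, x, z3] =
      (q * y - q^2 * x) * f [z0, x, y, z3] +
      (y - x) * (f [z0, x, y, z3] + G z0 x y z3) := by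
  rw [f_formula, f_formula]
  unfold G
  have h := q_spec
  generalize q = q at *
  grind

theorem g_formula_ne (z0 x y z3 : ℂ) (hxy : x ≠ y) : g [z0, x, y, z3] = G z0 x y z3 := by
  have h1 := exch z0 x y z3
  have h2 := G_eq z0 x y z3
  have h3 : (y - x) * (g [z0, x, y, z3]) = (y - x) * G z0 x y z3 := by
    linear_combination h2 - h1
  exact mul_left_cancel₀ (sub_ne_zero.2 (Ne.symm hxy)) h3

theorem g_formula (z0 x y z3 : ℂ) : g [z0, x, y, z3] = G z0 x y z3 := by
  obtain ⟨P, -, hP⟩ := (Psi_pd 4 (by decide) St.bot).univ [z0] [y, z3] rfl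
  have hg : ∀ x, g [z0, x, y, z3] = P.eval x := by
    intro x
    have := hP x
    have e : ([z0] ++ x :: [y, z3] : List ℂ) = [z0, x, y, z3] := rfl
    simp only [e] at this
    rw [Psi_four _ rfl, coeff_bot] at this
    exact this
  have hc1 : Continuous (fun x => g [z0, x, y, z3]) := by
    have : (fun x => g [z0, x, y, z3]) = fun x => P.eval x := funext hg
    rw [this]; exact P.continuous
  have hc2 : Continuous (fun x => G z0 x y z3) := by
    unfold G; fun_prop
  have h3 : Set.EqOn (fun x => g [z0, x, y, z3]) (fun x => G z0 x y z3) {y}ᶜ := by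
    intro x hx
    exact g_formula_ne z0 x y z3 hx
  have h4 := Continuous.ext_on (dense_compl_singleton y) hc1 hc2 h3
  exact congrFun h4 x

theorem Psi_two (x y : ℂ) : Psi [x, y] = Finsupp.single St.bot 1 := by
  have h1 : Psi [x, y] = Finsupp.single St.bot (Fw [true, false] [x, y]) := by
    unfold Psi
    have : ([x, y] : List ℂ).length = 2 := rfl
    rw [this, LP_two, Finset.sum_singleton]
    show Finsupp.single (Phi 1 _) _ = _
    rw [Phi_TF]
  have h2 := Z_two x y
  have h3 : mass (Finsupp.single St.bot (Fw [true, false] [x, y])) = Fw [true, false] [x, y] := by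
    unfold mass
    rw [Finsupp.sum_single_index rfl]
  have h4 : Fw [true, false] [x, y] = 1 := by
    rw [← h3, ← h1]; exact h2
  rw [h1, h4]

theorem conn_J_left (R : St) : conn 3 J R :=
  Relation.EqvGen.rel _ _ (Or.inl ((rel_J 1 3).2 (Or.inr (Or.inl ⟨rfl, rfl⟩))))

theorem conn_J_right (R : St) : conn 3 R J :=
  Relation.EqvGen.rel _ _ (Or.inr ((rel_J 1 3).2 (Or.inr (Or.inl ⟨rfl, rfl⟩))))

theorem not_conn_bot : ¬ conn 3 St.bot St.bot := by
  intro h
  have key : ∀ a b, Relation.EqvGen (fun a b => St.bot.rel a b ∨ St.bot.rel a b) a b → a = b := by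
    intro a b hab
    induction hab with
    | rel a b h => rcases h with h | h <;> exact h
    | refl a => rfl
    | symm a b _ ih => exact ih.symm
    | trans a b c _ _ ih1 ih2 => exact ih1.trans ih2
  have := key 1 3 h
  omega

theorem pair_single (L : ℕ) (R R' : St) (a b : ℂ) [Decidable (conn L R R')] :
    pair L (Finsupp.single R a) (Finsupp.single R' b) =
      a * b * (if conn L R R' then 1 else 0) := by
  classical
  unfold pair
  rw [Finsupp.sum_single_index, Finsupp.sum_single_index]
  · congr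
  · simp
  · simp [Finsupp.sum]

theorem pair_four (a b c d : ℂ) :
    pair 3 (Finsupp.single J a + Finsupp.single St.bot b)
      (Finsupp.single J c + Finsupp.single St.bot d) = (a + b) * (c + d) - b * d := by
  classical
  have hadd : ∀ F G H : St →₀ ℂ, pair 3 (F + G) H = pair 3 F H + pair 3 G H := by
    intro F G H
    unfold pair
    apply Finsupp.sum_add_index'
    · intro R; simp [Finsupp.sum]
    · intro R x y
      rw [← Finsupp.sum_add]
      apply Finsupp.sum_congr
      intro R' _
      ring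
  have hadd' : ∀ F G H : St →₀ ℂ, pair 3 F (G + H) = pair 3 F G + pair 3 F H := by
    intro F G H
    unfold pair
    rw [← Finsupp.sum_add]
    apply Finsupp.sum_congr
    intro R _
    apply Finsupp.sum_add_index'
    · intro R; simp
    · intro R x y
      ring
  rw [hadd, hadd', hadd', pair_single, pair_single, pair_single, pair_single,
    if_pos (conn_J_left _), if_pos (conn_J_left _), if_pos (conn_J_right _), if_neg not_conn_bot]
  ring

theorem Z_four (z0 z1 z2 z3 : ℂ) : Z [z0, z1, z2, z3] = f [z0, z1, z2, z3] + g [z0, z1, z2, z3] := by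
  unfold Z
  rw [Psi_four _ rfl, mass_add]
  unfold mass
  rw [Finsupp.sum_single_index rfl, Finsupp.sum_single_index rfl]

end T18

open T18

theorem B_one (z : ℂ) : B [z] = 1 := by
  unfold B PsiInv
  have h1 : ([z] ++ [0] : List ℂ) = [z, 0] := rfl
  have h2 : (List.map (fun x => x⁻¹) [z] ++ [0] : List ℂ) = [z⁻¹, 0] := rfl
  rw [h1, h2, Psi_two, Psi_two]
  have h3 : ([z] : List ℂ).length = 1 := rfl
  rw [h3]
  classical
  rw [Nat.sub_self, pow_zero, one_smul, pair_single,
    if_pos (show conn 1 St.bot St.bot from Relation.EqvGen.refl 1)]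
  ring

theorem B_three (a x y : ℂ) (ha : a ≠ 0) (hx : x ≠ 0) (hy : y ≠ 0) :
    B [a, x, y] = q^2 * (x * y) * Z [a, a, x, y] := by
  unfold B PsiInv
  have h1 : ([a, x, y] ++ [0] : List ℂ) = [a, x, y, 0] := rfl
  have h2 : (List.map (fun x => x⁻¹) [a, x, y] ++ [0] : List ℂ) = [a⁻¹, x⁻¹, y⁻¹, 0] := rfl
  have h3 : ([a, x, y] : List ℂ).length = 3 := rfl
  have h4 : ([a, x, y] : List ℂ).prod = a * x * y := by simp [mul_assoc]
  rw [h1, h2, h3, h4, Psi_four _ rfl, Psi_four _ rfl, smul_add, Finsupp.smul_single,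
    Finsupp.smul_single, pair_four, Z_four, f_formula, f_formula, f_formula, g_formula, g_formula,
    g_formula, smul_eq_mul, smul_eq_mul]
  have e1 : (a * x * y)^(3-1) * ((x⁻¹ - q^2 * a⁻¹) * (a⁻¹ * x⁻¹ - q^2) *
      ((q * y⁻¹ - q^2 * 0) * (q * y⁻¹ * 0 - q^2))) =
      - q^3 * y * (a - q^2 * x) * (1 - q^2 * a * x) := by
    field_simp
    ring
  have e2 : (a * x * y)^(3-1) * G a⁻¹ x⁻¹ y⁻¹ 0 =
      a * (q * y - q^2 * x) * (q * x * y - 1) := by
    unfold G
    field_simp
    ring
  rw [e1, e2]
  unfold G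
  have h := q_spec
  clear e1 e2 h1 h2 h3 h4 ha hx hy
  generalize q = q at *
  grind

end Pool.Agent.H988R2.Perc
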