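import Pool.Agent.H988R2.Perc.T17
import Pool.Agent.H988R2.Perc.T18

/-! T19: the product formula for the bilinear form. -/

namespace Pool.Agent.H988R2.Perc

open Polynomial

namespace T19

theorem q3 : q * q * q = 1 := by
  have := q_cube
  rw [← this]; ring

theorem q_sq_ne_zero : q^2 ≠ 0 := pow_ne_zero 2 q_ne_zero

/-- `B_swap` without genericity conditions -/
theorem B_swap' (u v : List ℂ) (x y : ℂ) (hu : 1 ≤ u.length) (h : Odd (u.length + v.length))
    (hx : x ≠ 0) (hy : y ≠ 0) (h0 : ∀ z ∈ u ++ v, z ≠ 0) :
    B (u ++ y :: x :: v) = B (u ++ x :: y :: v) := by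
  have h01 : ∀ z ∈ u, z ≠ 0 := fun z hz => h0 z (List.mem_append_left _ hz)
  have h02 : ∀ z ∈ v, z ≠ 0 := fun z hz => h0 z (List.mem_append_right _ hz)
  obtain ⟨P, _, hP⟩ := B_poly u (x :: v) (by
    rw [List.length_cons]
    have := h.add_one
    rwa [← add_assoc]) (by
    intro z hz
    rw [List.mem_append, List.mem_cons] at hz
    rcases hz with hz | hz | hz
    · exact h01 z hz
    · rw [hz]; exact hx
    · exact h02 z hz)
  obtain ⟨Q, _, hQ⟩ := B_poly (u ++ [x]) v (by
    rw [List.length_append, List.length_singleton]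
    have := h.add_one
    have e : u.length + 1 + v.length = u.length + v.length + 1 := by ring
    rw [e]; exact this) (by
    intro z hz
    rw [List.mem_append, List.mem_append, List.mem_singleton] at hz
    rcases hz with (hz | hz) | hz
    · exact h01 z hz
    · rw [hz]; exact hx
    · exact h02 z hz)
  have hPQ : P = Q := by
    refine Polynomial.eq_of_infinite_eval_eq P Q ?_
    have hfin : ({0, q^2 * x, q * x} : Set ℂ).Finite := by
      exact (Set.finite_singleton _).insert _ |>.insert _
    refine Set.Infinite.mono ?_ hfin.infinite_compl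
    intro z hz
    simp only [Set.mem_compl_iff, Set.mem_insert_iff, Set.mem_singleton_iff, not_or] at hz
    obtain ⟨hz0, hz1, hz2⟩ := hz
    show P.eval z = Q.eval z
    rw [← hP z hz0, ← hQ z hz0, List.append_assoc, List.singleton_append]
    refine B_swap u v x z hu h hx hz0 h0 ?_ ?_
    · intro e
      apply hz1
      have h3 := q_cube
      have h4 : z = q * (q^2 * z) := by
        have : q * (q^2 * z) = q^3 * z := by ring
        rw [this, h3, one_mul]
      rw [h4, ← sub_eq_zero.1 e]
      ring
    · intro e
      apply hz2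
      have h3 := q_cube
      have h4 : z = q^2 * (q * z) := by
        have : q^2 * (q * z) = q^3 * z := by ring
        rw [this, h3, one_mul]
      rw [h4, sub_eq_zero.1 e]
      have : q^2 * (q^2 * x) = q^3 * (q * x) := by ring
      rw [this, h3, one_mul]
  have e1 := hP y hy
  have e2 := hQ y hy
  rw [List.append_assoc, List.singleton_append] at e2
  rw [e1, e2, hPQ]

theorem B_perm (a : ℂ) (ha : a ≠ 0) {t t' : List ℂ} (hp : t.Perm t') :
    ∀ w : List ℂ, Even (w.length + t.length) → (∀ z ∈ w ++ t, z ≠ 0) →
      B (a :: (w ++ t)) = B (a :: (w ++ t')) := by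
  induction hp with
  | nil => intro w _ _; rfl
  | cons x hp ih =>
    intro w hw h0
    have := ih (w ++ [x]) (by
      rw [List.length_append, List.length_singleton]
      rw [List.length_cons] at hw
      convert hw using 1
      ring) (by
      intro z hz
      apply h0 z
      rw [List.append_assoc, List.singleton_append] at hz
      exact hz)
    rwa [List.append_assoc, List.append_assoc, List.singleton_append, List.singleton_append] at this
  | swap x y l =>
    intro w hw h0
    refine B_swap' (a :: w) l x y (by simp) ?_ ?_ ?_ ?_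
    · rw [List.length_cons, List.length_cons] at hw
      rw [List.length_cons]
      have := hw.add_one
      obtain ⟨k, hk⟩ := hw
      exact ⟨k - 1, by omega⟩
    · exact h0 x (by simp)
    · exact h0 y (by simp)
    · intro z hz
      rw [List.cons_append, List.mem_cons, List.mem_append] at hz
      rcases hz with hz | hz | hz
      · rw [hz]; exact ha
      · exact h0 z (by simp [hz])
      · exact h0 z (by simp [hz])
  | trans hp1 hp2 ih1 ih2 =>
    intro w hw h0
    rw [ih1 w hw h0]
    refine ih2 w ?_ ?_
    · rwa [← hp1.length_eq]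
    · intro z hz
      apply h0 z
      rw [List.mem_append] at hz ⊢
      rcases hz with hz | hz
      · exact Or.inl hz
      · exact Or.inr (hp1.mem_iff.2 hz)

/-- the right side -/
noncomputable def RS (a : ℂ) (t : List ℂ) : ℂ := q^(t.length) * t.prod * Z t * Z (a :: a :: t)

/-- the difference -/
noncomputable def D (a : ℂ) (t : List ℂ) : ℂ := B (a :: t) - RS a t

theorem D_perm (a : ℂ) (ha : a ≠ 0) {t t' : List ℂ} (hp : t.Perm t') (ht : Even t.length)
    (h0 : ∀ z ∈ t, z ≠ 0) : D a t = D a t' := by
  unfold D RS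
  have h1 := B_perm a ha hp [] (by simpa using ht) (by simpa using h0)
  simp only [List.nil_append] at h1
  have ht' : Even (a :: a :: t).length := by
    rw [List.length_cons, List.length_cons]
    obtain ⟨k, hk⟩ := ht
    exact ⟨k + 1, by omega⟩
  rw [h1, hp.length_eq, hp.prod_eq, Z_perm ht hp, Z_perm ht' ((hp.cons a).cons a)]

/-- the points of agreement -/
noncomputable def pts (z : ℂ) : List ℂ := [q * z, q^2 * z, (q * z)⁻¹]

theorem fac_cons (x a : ℂ) (l : List ℂ) : fac x (a :: l) = ((x - q^2 * a) * (x * a - q^2)) * fac x l := by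
  simp [fac]

theorem D_pair (a : ℂ) (ha : a ≠ 0) (x : ℂ) (hx : x ≠ 0) (s : List ℂ) (hs : Even s.length)
    (h0 : ∀ z ∈ s, z ≠ 0) (ih : D a s = 0) : D a (x :: (q^2 * x) :: s) = 0 := by
  unfold D at ih ⊢
  rw [sub_eq_zero] at ih ⊢
  rw [B_rec a x s hs ha hx h0, ih]
  unfold RS
  have h1 := Z_rec [] s x (by simpa using hs)
  have h2 := Z_rec [a, a] s x (by
    obtain ⟨k, hk⟩ := hs
    exact ⟨k + 1, by simp; omega⟩)
  simp only [List.nil_append, List.cons_append] at h1 h2
  rw [h1, h2]
  rw [fac_cons, fac_cons, fac_cons]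
  simp only [List.length_cons, List.prod_cons]
  ring

theorem D_inv (a : ℂ) (ha : a ≠ 0) (x : ℂ) (hx : x ≠ 0) (s : List ℂ) (hs : Odd s.length)
    (h0 : ∀ z ∈ s, z ≠ 0) : D a (x :: s) = x^(2 * (s.length + 1)) * D a (x⁻¹ :: s) := by
  have hev : Even (x :: s).length := by rw [List.length_cons]; exact hs.add_one
  have hev' : Even (x⁻¹ :: s).length := by rw [List.length_cons]; exact hs.add_one
  have hxi : x⁻¹ ≠ 0 := inv_ne_zero hx
  have hperm : ∀ y : ℂ, (y :: s).Perm (s ++ [y]) := fun y => List.perm_append_comm (l₁ := [y]) (l₂ := s)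
  have hB : B (a :: x :: s) = x^(2 * (s.length + 1)) * B (a :: x⁻¹ :: s) := by
    have e1 := B_perm a ha (hperm x) [] (by simpa using hev) (by
      intro z hz
      simp only [List.nil_append, List.mem_cons] at hz
      rcases hz with hz | hz
      · rw [hz]; exact hx
      · exact h0 z hz)
    have e2 := B_perm a ha (hperm x⁻¹) [] (by simpa using hev') (by
      intro z hz
      simp only [List.nil_append, List.mem_cons] at hz
      rcases hz with hz | hz
      · rw [hz]; exact hxi
      · exact h0 z hz)
    simp only [List.nil_append] at e1 e2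
    rw [e1, e2]
    have e3 := B_inv_last (a :: s) x (by rw [List.length_cons]; exact hs.add_one) hx (by
      intro z hz
      rw [List.mem_cons] at hz
      rcases hz with hz | hz
      · rw [hz]; exact ha
      · exact h0 z hz)
    rw [List.length_cons] at e3
    exact e3
  have hZ1 : Z (x :: s) = x^(s.length - 1) * Z (x⁻¹ :: s) := Z_inv x s hx hs
  have hZ2 : Z (a :: a :: x :: s) = x^(s.length + 1) * Z (a :: a :: x⁻¹ :: s) := by
    have hl : ∀ y : ℂ, (a :: a :: y :: s).Perm (y :: a :: a :: s) := by
      intro y
      exact ((List.Perm.swap y a s).cons a).trans (List.Perm.swap y a (a :: s))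
    have hlen : ∀ y : ℂ, Even (a :: a :: y :: s).length := by
      intro y
      obtain ⟨k, hk⟩ := hs
      exact ⟨k + 2, by simp; omega⟩
    rw [Z_perm (hlen x) (hl x), Z_perm (hlen x⁻¹) (hl x⁻¹)]
    have := Z_inv x (a :: a :: s) hx (by
      obtain ⟨k, hk⟩ := hs
      exact ⟨k + 1, by simp; omega⟩)
    rw [this]
    simp
  unfold D RS
  rw [hB, hZ1, hZ2]
  simp only [List.length_cons, List.prod_cons]
  obtain ⟨k, hk⟩ := hs
  rw [hk]
  have e1 : 2 * k + 1 - 1 = 2 * k := by omega
  rw [e1, mul_sub]
  congr 1
  have hx2 : x^(2 * (2 * k + 1 + 1)) = x * x * x^(2 * k) * x^(2 * k + 1 + 1) := by ring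
  rw [hx2]
  field_simp

theorem D_poly (a : ℂ) (ha : a ≠ 0) (u v : List ℂ) (n : ℕ) (hn : 1 ≤ n)
    (h : u.length + v.length + 1 = 2 * n) (h0 : ∀ z ∈ u ++ v, z ≠ 0) :
    ∃ P : ℂ[X], P.natDegree ≤ 4 * n ∧ ∀ x, x ≠ 0 → D a (u ++ x :: v) = P.eval x := by
  obtain ⟨PB, hPB, hB⟩ := B_poly (a :: u) v (by
    rw [List.length_cons]
    exact ⟨n, by omega⟩) (by
    intro z hz
    rw [List.cons_append, List.mem_cons] at hz
    rcases hz with hz | hz
    · rw [hz]; exact ha
    · exact h0 z hz)
  obtain ⟨P1, hP1, h1⟩ := (Z_pd (2 * n) (even_two_mul n)).univ u v h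
  obtain ⟨P2, hP2, h2⟩ := (Z_pd (2 * n + 2) (by exact ⟨n + 1, by omega⟩)).univ (a :: a :: u) v (by
    simp only [List.length_cons]; omega)
  refine ⟨PB - C (q^(2 * n) * (u.prod * v.prod)) * (Polynomial.X : ℂ[X]) * P1 * P2, ?_, ?_⟩
  · refine (natDegree_sub_le _ _).trans (max_le ?_ ?_)
    · rw [List.length_cons] at hPB
      omega
    · refine (natDegree_mul_le).trans ?_
      have e1 : (C (q^(2 * n) * (u.prod * v.prod)) * (Polynomial.X : ℂ[X]) * P1).natDegree ≤ 1 + (2 * n - 2) := by
        refine (natDegree_mul_le).trans (add_le_add ?_ hP1)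
        exact (natDegree_C_mul_le _ _).trans natDegree_X_le
      omega
  · intro x hx
    unfold D RS
    have e1 := hB x hx
    have e2 := h1 x
    have e3 := h2 x
    simp only [List.cons_append] at e1 e3
    rw [e1, e2, e3]
    simp only [eval_sub, eval_mul, eval_C, eval_X, List.prod_append, List.prod_cons]
    have e4 : (u ++ x :: v).length = 2 * n := by
      rw [List.length_append, List.length_cons]; omega
    rw [e4]
    ring

/-- genericity -/
def G (u : List ℂ) : Prop := (∀ z ∈ u, z ≠ 0) ∧ (u.flatMap pts).Nodup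

noncomputable def bad (u : List ℂ) : List ℂ :=
  [0, 1, -1, q^2, -q^2] ++ (u.flatMap pts).flatMap (fun r => [q^2 * r, q * r, q^2 * r⁻¹])

theorem G_ext {u : List ℂ} (hu : G u) {y : ℂ} (hy : y ∉ bad u) : G (u ++ [y]) := by
  unfold bad at hy
  rw [List.mem_append, not_or] at hy
  obtain ⟨hy1, hy2⟩ := hy
  simp only [List.mem_cons, List.not_mem_nil, or_false, not_or] at hy1
  obtain ⟨hy0, hy11, hym1, hyq, hymq⟩ := hy1
  have h3 := q_cube
  refine ⟨?_, ?_⟩
  · intro z hz
    rw [List.mem_append, List.mem_singleton] at hz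
    rcases hz with hz | hz
    · exact hu.1 z hz
    · rw [hz]; exact hy0
  · rw [List.flatMap_append, List.nodup_append]
    have hqy : q * y ≠ 0 := mul_ne_zero q_ne_zero hy0
    refine ⟨hu.2, ?_, ?_⟩
    · simp only [List.flatMap_cons, List.flatMap_nil, List.append_nil, pts]
      rw [List.nodup_cons, List.nodup_cons]
      refine ⟨?_, ?_, List.nodup_singleton _⟩
      · simp only [List.mem_cons, List.not_mem_nil, or_false, not_or]
        constructor
        · intro e
          have : q = q^2 := mul_right_cancel₀ hy0 e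
          have h4 : q * 1 = q * q := by rw [mul_one]; exact this.trans (by ring)
          exact q_ne_one (mul_left_cancel₀ q_ne_zero h4).symm
        · intro e
          have h4 : (q * y) * (q * y) = 1 := by
            nth_rewrite 2 [e]
            exact mul_inv_cancel₀ hqy
          have h5 : (y - q^2) * (y + q^2) = 0 := by
            have : (y - q^2) * (y + q^2) = q * ((q * y) * (q * y)) - q * 1 + (y^2 * (1 - q^3) - q * (q^3 - 1)) := by ring
            rw [this, h4, h3]; ring
          rcases mul_eq_zero.1 h5 with h6 | h6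
          · exact hyq (sub_eq_zero.1 h6)
          · exact hymq (eq_neg_of_add_eq_zero_left h6)
      · simp only [List.mem_cons, List.not_mem_nil, or_false]
        intro e
        have h4 : (q^2 * y) * (q * y) = 1 := by
          rw [e]
          exact inv_mul_cancel₀ hqy
        have h5 : (y - 1) * (y + 1) = 0 := by
          have : (y - 1) * (y + 1) = (q^2 * y) * (q * y) - 1 - y^2 * (q^3 - 1) := by ring
          rw [this, h4, h3]; ring
        rcases mul_eq_zero.1 h5 with h6 | h6
        · exact hy11 (sub_eq_zero.1 h6)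
        · exact hym1 (eq_neg_of_add_eq_zero_left h6)
    · intro r hr r' hr' e
      subst e
      apply hy2
      rw [List.mem_flatMap]
      refine ⟨r, hr, ?_⟩
      simp only [List.flatMap_cons, List.flatMap_nil, List.append_nil, pts, List.mem_cons, List.not_mem_nil, or_false] at hr' ⊢
      rcases hr' with e | e | e
      · left
        rw [e]
        have : q^2 * (q * y) = q^3 * y := by ring
        rw [this, h3, one_mul]
      · right; left
        rw [e]
        have : q * (q^2 * y) = q^3 * y := by ring
        rw [this, h3, one_mul]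
      · right; right
        rw [e, inv_inv]
        have : q^2 * (q * y) = q^3 * y := by ring
        rw [this, h3, one_mul]

theorem length_flatMap_pts (u : List ℂ) : (u.flatMap pts).length = 3 * u.length := by
  induction u with
  | nil => simp
  | cons a u ih => rw [List.flatMap_cons, List.length_append, ih, List.length_cons]; simp [pts]; ring

theorem D_generic (a : ℂ) (ha : a ≠ 0) (n : ℕ) (hn : 2 ≤ n)
    (ih : ∀ s : List ℂ, s.length = 2 * (n - 1) → (∀ z ∈ s, z ≠ 0) → D a s = 0)
    (s : List ℂ) (hs : s.length = 2 * n - 1) (hG : G s) (x : ℂ) (hx : x ≠ 0) : D a (x :: s) = 0 := by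
  obtain ⟨h0, hnd⟩ := hG
  have h3 := q_cube
  have hodd : Odd s.length := ⟨n - 1, by omega⟩
  -- vanishing at the points
  have key : ∀ z ∈ s, ∀ y : ℂ, y ≠ 0 → (y = q * z ∨ y = q^2 * z) → D a (y :: s) = 0 := by
    intro z hz y hy hyz
    have hz0 := h0 z hz
    have hp : s.Perm (z :: s.erase z) := List.perm_cons_erase hz
    have hlen : (s.erase z).length = 2 * (n - 1) := by
      rw [List.length_erase_of_mem hz, hs]; omega
    have h0e : ∀ w ∈ s.erase z, w ≠ 0 := fun w hw => h0 w (List.mem_of_mem_erase hw)
    have hie := ih (s.erase z) hlen h0e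
    have hev : Even (s.erase z).length := by rw [hlen]; exact even_two_mul _
    have hevy : Even (y :: s).length := by rw [List.length_cons]; exact hodd.add_one
    have h0y : ∀ w ∈ y :: s, w ≠ 0 := by
      intro w hw
      rw [List.mem_cons] at hw
      rcases hw with hw | hw
      · rw [hw]; exact hy
      · exact h0 w hw
    rcases hyz with e | e
    · have e2 : z = q^2 * y := by
        rw [e]
        have : q^2 * (q * z) = q^3 * z := by ring
        rw [this, h3, one_mul]
      rw [D_perm a ha (hp.cons y) hevy h0y]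
      have := D_pair a ha y hy (s.erase z) hev h0e hie
      rwa [← e2] at this
    · rw [D_perm a ha ((hp.cons y).trans (List.Perm.swap z y _)) hevy h0y]
      have := D_pair a ha z hz0 (s.erase z) hev h0e hie
      rwa [← e] at this
  obtain ⟨P, hP, hPe⟩ := D_poly a ha [] s n (by omega) (by simp only [List.length_nil]; omega) (by simpa using h0)
  simp only [List.nil_append] at hPe
  have hP0 : P = 0 := by
    refine Polynomial.eq_zero_of_natDegree_lt_card_of_eval_eq_zero' P (s.flatMap pts).toFinset ?_ ?_
    · intro r hr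
      rw [List.mem_toFinset, List.mem_flatMap] at hr
      obtain ⟨z, hz, hr⟩ := hr
      have hz0 := h0 z hz
      simp only [pts, List.mem_cons, List.not_mem_nil, or_false] at hr
      rcases hr with e | e | e
      · have hr0 : r ≠ 0 := by rw [e]; exact mul_ne_zero q_ne_zero hz0
        rw [← hPe r hr0]
        exact key z hz r hr0 (Or.inl e)
      · have hr0 : r ≠ 0 := by rw [e]; exact mul_ne_zero q_sq_ne_zero hz0
        rw [← hPe r hr0]
        exact key z hz r hr0 (Or.inr e)
      · have hr0 : r ≠ 0 := by rw [e]; exact inv_ne_zero (mul_ne_zero q_ne_zero hz0)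
        rw [← hPe r hr0, D_inv a ha r hr0 s hodd h0]
        rw [key z hz r⁻¹ (inv_ne_zero hr0) (Or.inl (by rw [e, inv_inv])), mul_zero]
    · rw [List.toFinset_card_of_nodup hnd, length_flatMap_pts, hs]
      omega
  rw [hPe x hx, hP0, eval_zero]

theorem D_all (a : ℂ) (ha : a ≠ 0) (n : ℕ) (hn : 2 ≤ n)
    (ih : ∀ s : List ℂ, s.length = 2 * (n - 1) → (∀ z ∈ s, z ≠ 0) → D a s = 0) :
    ∀ (k : ℕ) (u v : List ℂ), v.length = k + 1 → u.length + v.length = 2 * n → G u → (∀ z ∈ v, z ≠ 0) →
      D a (u ++ v) = 0 := by
  intro k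
  induction k with
  | zero =>
    intro u v hv huv hG h0
    obtain ⟨x, rfl⟩ := List.length_eq_one_iff.1 hv
    have hx : x ≠ 0 := h0 x (by simp)
    rw [D_perm a ha (List.perm_append_comm (l₁ := u) (l₂ := [x])) (by
      rw [List.length_append, huv]; exact even_two_mul n) (by
      intro z hz
      rw [List.mem_append] at hz
      rcases hz with hz | hz
      · exact hG.1 z hz
      · exact h0 z hz)]
    exact D_generic a ha n hn ih u (by simp at huv; omega) hG x hx
  | succ k ihk =>
    intro u v hv huv hG h0
    obtain ⟨y, v', rfl⟩ : ∃ y v', v = y :: v' := by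
      cases v with
      | nil => simp at hv
      | cons y v' => exact ⟨y, v', rfl⟩
    have hy : y ≠ 0 := h0 y (by simp)
    have h0' : ∀ z ∈ v', z ≠ 0 := fun z hz => h0 z (List.mem_cons_of_mem _ hz)
    have hv' : v'.length = k + 1 := by simpa using hv
    obtain ⟨P, _, hPe⟩ := D_poly a ha u v' n (by omega) (by simp only [List.length_cons] at huv; omega) (by
      intro z hz
      rw [List.mem_append] at hz
      rcases hz with hz | hz
      · exact hG.1 z hz
      · exact h0' z hz)
    have hP0 : P = 0 := by
      refine Polynomial.eq_of_infinite_eval_eq P 0 ?_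
      have hfin : ({z | z ∈ bad u} : Set ℂ).Finite := (bad u).finite_toSet
      refine Set.Infinite.mono ?_ hfin.infinite_compl
      intro z hz
      rw [Set.mem_compl_iff, Set.mem_ofPred_eq] at hz
      have hz0 : z ≠ 0 := by
        intro e
        exact hz (by rw [e]; simp [bad])
      show P.eval z = (0 : ℂ[X]).eval z
      rw [eval_zero, ← hPe z hz0]
      have := ihk (u ++ [z]) v' hv' (by
        rw [List.length_append, List.length_singleton]
        simp only [List.length_cons] at huv
        omega) (G_ext hG hz) h0'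
      rwa [List.append_assoc, List.singleton_append] at this
    rw [hPe y hy, hP0, eval_zero]

theorem D_zero (n : ℕ) : ∀ (a : ℂ) (t : List ℂ), t.length = 2 * n → a ≠ 0 → (∀ z ∈ t, z ≠ 0) →
    D a t = 0 := by
  induction n with
  | zero =>
    intro a t ht _ _
    rw [List.length_eq_zero_iff.1 (by omega : t.length = 0)]
    unfold D RS
    rw [B_one, Z_nil, Z_two]
    simp
  | succ n ih =>
    intro a t ht ha h0
    rcases Nat.eq_zero_or_pos n with hn | hn
    · subst hn
      obtain ⟨x, y, rfl⟩ := List.length_eq_two.1 (by omega : t.length = 2)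
      unfold D RS
      rw [B_three a x y ha (h0 x (by simp)) (h0 y (by simp)), Z_two]
      simp
    · have := D_all a ha (n + 1) (by omega) (fun s hs hs0 => ih a s (by simpa using hs) ha hs0)
        (2 * n + 1) [] t (by omega) (by simp; omega) ⟨by simp, by simp⟩ h0
      simpa using this

end T19

theorem B_formula (a : ℂ) (t : List ℂ) (ht : Even t.length) (ha : a ≠ 0) (h0 : ∀ z ∈ t, z ≠ 0) :
    B (a :: t) = q^(t.length) * t.prod * Z t * Z (a :: a :: t) := by
  obtain ⟨n, hn⟩ := ht
  have := T19.D_zero n a t (by omega) ha h0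
  exact sub_eq_zero.1 this

end Pool.Agent.H988R2.Perc
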