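import Pool.Agent.H988R2.Perc.T03

/-! T06: the restriction operator `rho`. -/

namespace Pool.Agent.H988R2.Perc

open Polynomial

theorem fac_cons (x y : ℂ) (l : List ℂ) :
    fac x (y :: l) = (x - q^2 * y) * (x * y - q^2) * fac x l := by
  simp [fac]

theorem fac_nil (x : ℂ) : fac x [] = 1 := by simp [fac]

theorem fac_ne_zero_iff {x : ℂ} {m : List ℂ} :
    fac x m ≠ 0 ↔ ∀ y ∈ m, x ≠ q^2 * y ∧ x * y ≠ q^2 := by
  induction m with
  | nil => simp [fac]
  | cons a l ih =>
    rw [fac_cons, mul_ne_zero_iff, ih, mul_ne_zero_iff, sub_ne_zero, sub_ne_zero]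
    simp

theorem fac_gx (m : List ℂ) : fac (gx m) m ≠ 0 := by
  have hex : ∃ x, fac x m ≠ 0 := by
    classical
    obtain ⟨x, hx⟩ := Infinite.exists_notMem_finset
      ((m.map (fun y => q^2 * y) ++ m.map (fun y => q^2 / y)).toFinset ∪ {0})
    refine ⟨x, fac_ne_zero_iff.mpr fun y hy => ⟨?_, ?_⟩⟩
    · rintro rfl
      apply hx
      simp only [List.toFinset_append, Finset.mem_union, List.mem_toFinset, List.mem_map]
      exact Or.inl (Or.inl ⟨y, hy, rfl⟩)
    · intro h
      have hy0 : y ≠ 0 := by
        rintro rfl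
        rw [mul_zero] at h
        exact pow_ne_zero 2 q_ne_zero h.symm
      apply hx
      simp only [List.toFinset_append, Finset.mem_union, List.mem_toFinset, List.mem_map]
      refine Or.inl (Or.inr ⟨y, hy, ?_⟩)
      rw [← h]; field_simp
  exact Classical.epsilon_spec hex

theorem fac_append (x : ℂ) (u v : List ℂ) : fac x (u ++ v) = fac x u * fac x v := by
  simp [fac]

/-- `fac x` as a polynomial in the list entries -/
noncomputable def facM (N : ℕ) (x : ℂ) : MvPolynomial (Fin N) ℂ :=
  ∏ k : Fin N, ((MvPolynomial.C x - MvPolynomial.C (q^2) * MvPolynomial.X k) *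
    (MvPolynomial.C x * MvPolynomial.X k - MvPolynomial.C (q^2)))

theorem ofFn_getD {N : ℕ} {l : List ℂ} (hl : l.length = N) :
    List.ofFn (fun i : Fin N => l.getD i 0) = l := by
  apply List.ext_getElem
  · simp [hl]
  · intro n h1 h2
    simp [h2]

theorem eval_facM {N : ℕ} (x : ℂ) {l : List ℂ} (hl : l.length = N) :
    MvPolynomial.eval (fun i : Fin N => l.getD i 0) (facM N x) = fac x l := by
  have h1 : fac x l = ∏ k : Fin N, ((x - q^2 * l.getD k 0) * (x * l.getD k 0 - q^2)) := by
    conv_lhs => rw [← ofFn_getD hl]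
    unfold fac
    rw [List.map_ofFn, List.prod_ofFn]
    rfl
  rw [h1, facM, map_prod]
  apply Finset.prod_congr rfl
  intro k _
  simp

theorem PD_fac (N : ℕ) (x : ℂ) : ∃ d, PD N d (fac x) :=
  ⟨(Finset.univ : Finset (Fin N)).sup (fun i => (facM N x).degreeOf i), facM N x,
    fun i => Finset.le_sup (f := fun i => (facM N x).degreeOf i) (Finset.mem_univ i),
    fun _ hl => (eval_facM x hl).symm⟩

theorem take_aux {i : ℕ} (m : List ℂ) (hi : i ≤ m.length) (x : ℂ) :
    (m.take i ++ x :: m.drop i).take (i+1) = m.take i ++ [x] ∧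
    (m.take i ++ x :: m.drop i).drop (i+1) = m.drop i := by
  have h : (m.take i).length = i := by simp [hi]
  have h' : m.take i ++ x :: m.drop i = (m.take i ++ [x]) ++ m.drop i := by simp
  have h'' : (m.take i ++ [x]).length = i + 1 := by simp [hi]
  constructor
  · rw [h', ← h'', List.take_left]
  · rw [h', ← h'', List.drop_left]

theorem PD.slice2 {N d : ℕ} {F : List ℂ → ℂ} (hF : PD (N+2) d F) (i : ℕ) (hi : i ≤ N) (x y : ℂ) :
    PD N d (fun l => F (l.take i ++ x :: y :: l.drop i)) := by
  have h1 : PD (N+1) d (fun l => F (l.take (i+1) ++ y :: l.drop (i+1))) :=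
    PD.slice hF (i+1) (by omega) y
  have h2 := PD.slice h1 i hi x
  refine PD.congr h2 fun l hl => ?_
  obtain ⟨ha, hb⟩ := take_aux l (by omega : i ≤ l.length) x
  simp only [ha, hb, List.append_assoc, List.cons_append, List.nil_append]

/-- vanishing of `F` at the roots of `fac` -/
theorem wheel_pair {N : ℕ} {F : List ℂ → ℂ} (hF : V (N+2) F) (u v : List ℂ)
    (huv : u.length + v.length = N) (x : ℂ) (h : fac x (u ++ v) = 0) :
    F (u ++ x :: (q^2 * x) :: v) = 0 := by
  have h' : ¬ ∀ y ∈ u ++ v, x ≠ q^2 * y ∧ x * y ≠ q^2 := fun hh => fac_ne_zero_iff.mpr hh h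
  push Not at h'
  obtain ⟨y, hy, hxy⟩ := h'
  by_cases h1 : x = q^2 * y
  · have := hF.wheel2 u [] v x (by simp; omega) (by
      have : q * x = y := by
        rw [h1]
        calc q * (q^2 * y) = q^3 * y := by ring
          _ = y := by rw [q_cube, one_mul]
      rw [this]; exact hy)
    simpa using this
  · have := hF.wheel1 u [] v x (by simp; omega) ⟨y, by simpa using hy, by
      rw [mul_comm]; exact hxy h1⟩
    simpa using this

/-- `fac · m` as a univariate polynomial -/
noncomputable def facU (m : List ℂ) : ℂ[X] :=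
  (m.map (fun y => (Polynomial.X - C (q^2 * y)) * (Polynomial.X * C y - C (q^2)))).prod

theorem eval_facU (x : ℂ) (m : List ℂ) : (facU m).eval x = fac x m := by
  induction m with
  | nil => simp [facU, fac]
  | cons a l ih =>
    have : facU (a :: l) = ((Polynomial.X - C (q^2 * a)) * (Polynomial.X * C a - C (q^2))) * facU l := by simp [facU]
    rw [this, eval_mul, ih, fac_cons]
    simp only [eval_mul, eval_sub, eval_X, eval_C]

theorem natDegree_facU (m : List ℂ) : (facU m).natDegree ≤ 2 * m.length := by
  induction m with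
  | nil => simp [facU]
  | cons a l ih =>
    have : facU (a :: l) = ((Polynomial.X - C (q^2 * a)) * (Polynomial.X * C a - C (q^2))) * facU l := by simp [facU]
    rw [this]
    have h1 : ((Polynomial.X - C (q^2 * a)) * (Polynomial.X * C a - C (q^2)) : ℂ[X]).natDegree ≤ 2 := by
      compute_degree
    calc _ ≤ _ + _ := natDegree_mul_le
      _ ≤ 2 + 2 * l.length := by gcongr
      _ = 2 * (a :: l).length := by simp; ring

open Classical in
/-- forbidden values -/
noncomputable def badv (l : List ℂ) : Finset ℂ :=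
  {0, 1, -1} ∪ l.toFinset ∪ (l.map (fun y => y⁻¹)).toFinset

theorem generic_props (m : List ℂ) :
    (∀ k < m.length, m.getD k 0 ∉ badv (m.take k)) →
    (∀ y ∈ m, y ≠ 0) ∧ (∀ y ∈ m, ∀ z ∈ m, y * z ≠ 1) ∧ m.Nodup := by
  induction m using List.reverseRecOn with
  | nil => intro _; simp
  | append_singleton l t ih =>
    intro h
    have hl : ∀ k < l.length, l.getD k 0 ∉ badv (l.take k) := by
      intro k hk
      have := h k (by simp; omega)
      rw [List.getD_append _ _ _ _ hk, List.take_append_of_le_length hk.le] at this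
      exact this
    obtain ⟨h0, h1, h2⟩ := ih hl
    have ht := h l.length (by simp)
    rw [List.getD_append_right _ _ _ _ le_rfl, List.take_left] at ht
    simp only [Nat.sub_self, List.getD_cons_zero] at ht
    unfold badv at ht
    simp only [Finset.mem_union, Finset.mem_insert, Finset.mem_singleton, List.mem_toFinset,
      List.mem_map, not_or, not_exists, not_and] at ht
    obtain ⟨⟨⟨ht0, ht1, ht2⟩, ht3⟩, ht4⟩ := ht
    refine ⟨?_, ?_, ?_⟩
    · intro y hy
      rcases List.mem_append.mp hy with hy | hy
      · exact h0 y hy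
      · rw [List.mem_singleton.mp hy]; exact ht0
    · intro y hy z hz hyz
      rcases List.mem_append.mp hy with hy | hy <;> rcases List.mem_append.mp hz with hz | hz
      · exact h1 y hy z hz hyz
      · rw [List.mem_singleton.mp hz] at hyz
        exact ht4 y hy (inv_eq_of_mul_eq_one_right hyz)
      · rw [List.mem_singleton.mp hy] at hyz
        exact ht4 z hz (inv_eq_of_mul_eq_one_left hyz)
      · rw [List.mem_singleton.mp hy, List.mem_singleton.mp hz] at hyz
        rcases mul_self_eq_one_iff.mp hyz with h | h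
        · exact ht1 h
        · exact ht2 h
    · rw [List.nodup_append]
      refine ⟨h2, List.nodup_singleton _, ?_⟩
      intro a ha b hb hab
      rw [List.mem_singleton.mp hb] at hab
      exact ht3 (hab ▸ ha)

/-- the two point identity -/
theorem two_point {N : ℕ} {F : List ℂ → ℂ} (hF : V (N+2) F) (u v : List ℂ)
    (huv : u.length + v.length = N) (x x' : ℂ) :
    F (u ++ x :: (q^2 * x) :: v) * fac x' (u ++ v) =
      F (u ++ x' :: (q^2 * x') :: v) * fac x (u ++ v) := by
  classical
  set i := u.length with hi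
  have hiN : i ≤ N := by omega
  -- generic argument
  have hpd : PD (N+2) N F := by simpa using hF.pd
  obtain ⟨d1, hd1⟩ := PD_fac N x'
  obtain ⟨d2, hd2⟩ := PD_fac N x
  have hG : PD N (max (N + d1) (N + d2)) (fun m =>
      F (m.take i ++ x :: (q^2 * x) :: m.drop i) * fac x' m +
      (-1) * (F (m.take i ++ x' :: (q^2 * x') :: m.drop i) * fac x m)) :=
    PD.add (PD.le (PD.mul (PD.slice2 hpd i hiN x _) hd1) (le_max_left _ _))
      (PD.smul (-1) (PD.le (PD.mul (PD.slice2 hpd i hiN x' _) hd2) (le_max_right _ _)))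
  have key := PD.generic hG badv ?_ (u ++ v) (by simp; omega)
  · have e1 : (u ++ v).take i = u := List.take_left
    have e2 : (u ++ v).drop i = v := List.drop_left
    rw [e1, e2] at key
    linear_combination key
  · intro m hm hgen
    rw [← hm] at hgen
    obtain ⟨h0, h1, h2⟩ := generic_props m hgen
    have hsplit : m.take i ++ m.drop i = m := List.take_append_drop i m
    have hlen : (m.take i).length + (m.drop i).length = N := by
      rw [← List.length_append, hsplit, hm]
    have hvan : ∀ x, fac x m = 0 → F (m.take i ++ x :: (q^2 * x) :: m.drop i) = 0 := by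
      intro x hx
      exact wheel_pair hF _ _ hlen x (by rw [hsplit]; exact hx)
    obtain ⟨P, hP, hPe⟩ := PD.univ_pair hpd (m.take i) (m.drop i) (q^2) (by omega)
    by_cases hx' : fac x' m = 0
    · rw [hx', hvan x' hx']; ring
    · -- polynomial with too many roots
      have hq2 : q^2 ≠ 0 := pow_ne_zero 2 q_ne_zero
      let L : List ℂ := m.map (fun y => q^2 * y) ++ m.map (fun y => q^2 / y)
      have hL : L.Nodup := by
        rw [List.nodup_append]
        refine ⟨?_, ?_, ?_⟩
        · refine (List.nodup_map_iff_inj_on h2).mpr ?_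
          intro a _ b _ hab
          exact mul_left_cancel₀ hq2 hab
        · refine (List.nodup_map_iff_inj_on h2).mpr ?_
          intro a ha b hb hab
          have ha0 := h0 a ha
          have hb0 := h0 b hb
          field_simp at hab
          exact (mul_left_cancel₀ hq2 hab).symm
        · intro a ha b hb hab
          rw [List.mem_map] at ha hb
          obtain ⟨y, hy, rfl⟩ := ha
          obtain ⟨z, hz, rfl⟩ := hb
          have hz0 := h0 z hz
          apply h1 y hy z hz
          have : y = 1 / z := by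
            apply mul_left_cancel₀ hq2
            rw [hab]; ring
          rw [this]; field_simp
      let S : Finset ℂ := insert x' L.toFinset
      have hxL : x' ∉ L.toFinset := by
        intro hmem
        apply hx'
        by_contra hne
        have hne' := fac_ne_zero_iff.mp hne
        rw [List.mem_toFinset, List.mem_append, List.mem_map, List.mem_map] at hmem
        rcases hmem with ⟨y, hy, rfl⟩ | ⟨y, hy, rfl⟩
        · exact (hne' y hy).1 rfl
        · have hy0 := h0 y hy
          exact (hne' y hy).2 (by field_simp)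
      have hcard : S.card = 2 * N + 1 := by
        rw [Finset.card_insert_of_notMem hxL, List.toFinset_card_of_nodup hL]
        simp [L, hm]; ring
      let R : ℂ[X] := P * C (fac x' m) - C (P.eval x') * facU m
      have hR : R = 0 := by
        refine Polynomial.eq_zero_of_natDegree_lt_card_of_eval_eq_zero' R S ?_ ?_
        · intro z hz
          rcases Finset.mem_insert.mp hz with rfl | hz
          · simp only [R, eval_sub, eval_mul, eval_C, eval_facU]; ring
          · have hz0 : fac z m = 0 := by
              by_contra hne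
              have hne' := fac_ne_zero_iff.mp hne
              rw [List.mem_toFinset, List.mem_append, List.mem_map, List.mem_map] at hz
              rcases hz with ⟨y, hy, rfl⟩ | ⟨y, hy, rfl⟩
              · exact (hne' y hy).1 rfl
              · have hy0 := h0 y hy
                exact (hne' y hy).2 (by field_simp)
            simp only [R, eval_sub, eval_mul, eval_C, eval_facU, hz0]
            rw [← hPe, hvan z hz0]; ring
        · rw [hcard]
          have h1 : (P * C (fac x' m)).natDegree ≤ 2 * N :=
            (natDegree_mul_C_le _ _).trans hP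
          have h2 : (C (P.eval x') * facU m).natDegree ≤ 2 * N := by
            refine (natDegree_C_mul_le _ _).trans ?_
            have := natDegree_facU m
            rwa [hm] at this
          have h3 : R.natDegree ≤ 2 * N := (natDegree_sub_le _ _).trans (max_le h1 h2)
          omega
      have := congrArg (fun p => p.eval x) hR
      simp only [R, eval_sub, eval_mul, eval_C, eval_facU, eval_zero] at this
      rw [← hPe, ← hPe] at this
      linear_combination this

theorem rho_spec {N i : ℕ} {F : List ℂ → ℂ} (hF : V (N+2) F) (hN : N ≠ 1) (hi : i ≤ N)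
    (u v : List ℂ) (x : ℂ) (hu : u.length = i) (huv : u.length + v.length = N) :
    F (u ++ x :: (q^2 * x) :: v) = fac x (u ++ v) * rho i F (u ++ v) := by
  have h := two_point hF u v huv x (gx (u ++ v))
  have hg := fac_gx (u ++ v)
  subst hu
  unfold rho
  rw [List.take_left, List.drop_left]
  field_simp
  rw [h]
  ring

/-- a polynomial vanishing on the hyperplane `X k = 0` is divisible by `X k`. -/
theorem X_dvd_of_vanish {N : ℕ} (p : MvPolynomial (Fin N) ℂ) (k : Fin N)
    (h : ∀ f : Fin N → ℂ, f k = 0 → MvPolynomial.eval f p = 0) : MvPolynomial.X k ∣ p := by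
  classical
  let φ : MvPolynomial (Fin N) ℂ →+* MvPolynomial (Fin N) ℂ :=
    MvPolynomial.eval₂Hom MvPolynomial.C (fun j => if j = k then 0 else MvPolynomial.X j)
  have h1 : φ p = 0 := by
    apply MvPolynomial.funext
    intro f
    have h2 : MvPolynomial.eval f (φ p) =
        MvPolynomial.eval (fun j => if j = k then 0 else f j) p := by
      have : (MvPolynomial.eval f).comp φ =
          MvPolynomial.eval (fun j => if j = k then 0 else f j) := by
        apply MvPolynomial.ringHom_ext
        · intro r; simp [φ]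
        · intro j
          by_cases hj : j = k
          · simp [φ, hj]
          · simp [φ, hj]
      rw [← this]; rfl
    rw [h2, map_zero]
    exact h _ (by simp)
  have h3 : (Ideal.Quotient.mk (Ideal.span {(MvPolynomial.X k : MvPolynomial (Fin N) ℂ)})).comp φ =
      Ideal.Quotient.mk _ := by
    apply MvPolynomial.ringHom_ext
    · intro r; simp [φ]
    · intro j
      by_cases hj : j = k
      · subst hj
        simp only [φ, RingHom.comp_apply, MvPolynomial.coe_eval₂Hom, MvPolynomial.eval₂_X, if_true,
          map_zero]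
        symm
        rw [Ideal.Quotient.eq_zero_iff_mem]
        exact Ideal.subset_span rfl
      · simp [φ, hj]
  have h4 : Ideal.Quotient.mk (Ideal.span {(MvPolynomial.X k : MvPolynomial (Fin N) ℂ)}) p = 0 := by
    rw [← h3, RingHom.comp_apply, h1, map_zero]
  rw [Ideal.Quotient.eq_zero_iff_mem, Ideal.mem_span_singleton] at h4
  exact h4

theorem prod_X_dvd {N : ℕ} (p : MvPolynomial (Fin N) ℂ)
    (h : ∀ k, MvPolynomial.X k ∣ p) (s : Finset (Fin N)) :
    (∏ k ∈ s, (MvPolynomial.X k : MvPolynomial (Fin N) ℂ)) ∣ p := by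
  classical
  induction s using Finset.induction_on with
  | empty => simp
  | insert a s ha ih =>
    obtain ⟨r, hr⟩ := ih
    have h1 : MvPolynomial.X a ∣ (∏ k ∈ s, (MvPolynomial.X k : MvPolynomial (Fin N) ℂ)) * r :=
      hr ▸ h a
    have hp : Prime (MvPolynomial.X a : MvPolynomial (Fin N) ℂ) := MvPolynomial.X_prime
    rcases hp.dvd_or_dvd h1 with h2 | h2
    · exfalso
      rw [hp.dvd_finsetProd_iff] at h2
      obtain ⟨k, hk, hk2⟩ := h2
      rw [MvPolynomial.X_dvd_X] at hk2
      exact ha (hk2 ▸ hk)
    · obtain ⟨t, ht⟩ := h2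
      refine ⟨t, ?_⟩
      rw [Finset.prod_insert ha, hr, ht]; ring

theorem ofFn_getD' {N : ℕ} (f : Fin N → ℂ) : (fun i : Fin N => (List.ofFn f).getD i 0) = f := by
  funext i
  simp

theorem fac_zero' {N : ℕ} (f : Fin N → ℂ) : fac 0 (List.ofFn f) = (q^4)^N * ∏ k, f k := by
  have h := eval_facM (N := N) 0 (l := List.ofFn f) (by simp)
  rw [← h, ofFn_getD', facM, map_prod]
  have : ∀ k : Fin N, (MvPolynomial.eval f) ((MvPolynomial.C 0 - MvPolynomial.C (q^2) *
      MvPolynomial.X k) * (MvPolynomial.C 0 * MvPolynomial.X k - MvPolynomial.C (q^2))) =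
      q^4 * f k := by
    intro k
    simp
    ring
  simp only [this, Finset.prod_mul_distrib, Finset.prod_const, Finset.card_univ, Fintype.card_fin]

theorem degreeOf_facM {N : ℕ} (k : Fin N) : 2 ≤ (facM N 1).degreeOf k ∧ facM N 1 ≠ 0 := by
  classical
  have hq2 : q^2 ≠ 0 := pow_ne_zero 2 q_ne_zero
  have hs : (Finsupp.single k 1 : Fin N →₀ ℕ) ≠ 0 := by simp
  have A : ∀ j : Fin N, MvPolynomial.coeff (Finsupp.single j 1)
      (MvPolynomial.C 1 - MvPolynomial.C (q^2) * MvPolynomial.X j : MvPolynomial (Fin N) ℂ) =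
      - q^2 := by
    intro j
    have hj : (0 : Fin N →₀ ℕ) ≠ Finsupp.single j 1 := by
      intro h; have := DFunLike.congr_fun h j; simp at this
    rw [MvPolynomial.coeff_sub, MvPolynomial.coeff_C_mul, MvPolynomial.coeff_C,
      MvPolynomial.coeff_X, if_neg hj]
    simp
  have B : ∀ j : Fin N, MvPolynomial.coeff (Finsupp.single j 1)
      (MvPolynomial.C 1 * MvPolynomial.X j - MvPolynomial.C (q^2) : MvPolynomial (Fin N) ℂ) =
      1 := by
    intro j
    have hj : (0 : Fin N →₀ ℕ) ≠ Finsupp.single j 1 := by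
      intro h; have := DFunLike.congr_fun h j; simp at this
    rw [MvPolynomial.coeff_sub, MvPolynomial.coeff_C_mul, MvPolynomial.coeff_C,
      MvPolynomial.coeff_X, if_neg hj]
    simp
  have A0 : ∀ j : Fin N, (MvPolynomial.C 1 - MvPolynomial.C (q^2) * MvPolynomial.X j :
      MvPolynomial (Fin N) ℂ) ≠ 0 := by
    intro j h
    have := A j
    rw [h, MvPolynomial.coeff_zero] at this
    exact hq2 (by linear_combination this)
  have B0 : ∀ j : Fin N, (MvPolynomial.C 1 * MvPolynomial.X j - MvPolynomial.C (q^2) :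
      MvPolynomial (Fin N) ℂ) ≠ 0 := by
    intro j h
    have := B j
    rw [h, MvPolynomial.coeff_zero] at this
    exact zero_ne_one this
  constructor
  · rw [facM, MvPolynomial.degreeOf_prod_eq _ _ (fun j _ => mul_ne_zero (A0 j) (B0 j))]
    refine le_trans ?_ (Finset.single_le_sum (f := fun j => MvPolynomial.degreeOf k
      ((MvPolynomial.C 1 - MvPolynomial.C (q^2) * MvPolynomial.X j) *
      (MvPolynomial.C 1 * MvPolynomial.X j - MvPolynomial.C (q^2)) : MvPolynomial (Fin N) ℂ))
      (fun _ _ => Nat.zero_le _) (Finset.mem_univ k))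
    rw [MvPolynomial.degreeOf_mul_eq (A0 k) (B0 k)]
    have a1 : 1 ≤ MvPolynomial.degreeOf k (MvPolynomial.C 1 - MvPolynomial.C (q^2) *
        MvPolynomial.X k : MvPolynomial (Fin N) ℂ) := by
      have := MvPolynomial.monomial_le_degreeOf k (f := (MvPolynomial.C 1 -
        MvPolynomial.C (q^2) * MvPolynomial.X k : MvPolynomial (Fin N) ℂ))
        (m := Finsupp.single k 1) (by rw [MvPolynomial.mem_support_iff, A k]; simpa using hq2)
      simpa using this
    have b1 : 1 ≤ MvPolynomial.degreeOf k (MvPolynomial.C 1 * MvPolynomial.X k -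
        MvPolynomial.C (q^2) : MvPolynomial (Fin N) ℂ) := by
      have := MvPolynomial.monomial_le_degreeOf k (f := (MvPolynomial.C 1 * MvPolynomial.X k -
        MvPolynomial.C (q^2) : MvPolynomial (Fin N) ℂ))
        (m := Finsupp.single k 1) (by rw [MvPolynomial.mem_support_iff, B k]; exact one_ne_zero)
      simpa using this
    omega
  · rw [facM]
    exact Finset.prod_ne_zero_iff.mpr fun j _ => mul_ne_zero (A0 j) (B0 j)

theorem exists_g {N i : ℕ} {F : List ℂ → ℂ} (hF : V (N+2) F) (hi : i ≤ N) :
    ∃ g : MvPolynomial (Fin N) ℂ, (∀ k, g.degreeOf k ≤ N - 2) ∧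
      ∀ (x : ℂ) (m : List ℂ), m.length = N →
      F (m.take i ++ x :: (q^2 * x) :: m.drop i) =
        fac x m * MvPolynomial.eval (fun k : Fin N => m.getD k 0) g := by
  classical
  have hpd : PD (N+2) N F := by simpa using hF.pd
  obtain ⟨p0, hp0d, hp0⟩ := PD.slice2 hpd i hi 0 (q^2 * 0)
  have hdvd : ∀ k, MvPolynomial.X k ∣ p0 := by
    intro k
    apply X_dvd_of_vanish
    intro f hf
    have h1 := hp0 (List.ofFn f) (by simp)
    rw [ofFn_getD'] at h1
    rw [← h1]
    apply wheel_pair hF _ _ (by simp; omega)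
    rw [List.take_append_drop]
    by_contra hne
    have := (fac_ne_zero_iff.mp hne (f k) (by rw [List.mem_ofFn]; exact ⟨k, rfl⟩)).1
    rw [hf] at this
    simp at this
  obtain ⟨r, hr⟩ := prod_X_dvd p0 hdvd Finset.univ
  have hq : (q^4)^N ≠ 0 := pow_ne_zero _ (pow_ne_zero _ q_ne_zero)
  let g : MvPolynomial (Fin N) ℂ := MvPolynomial.C ((q^4)^N)⁻¹ * r
  have key : ∀ x : ℂ, ∀ p : MvPolynomial (Fin N) ℂ, (∀ l : List ℂ, l.length = N →
      F (l.take i ++ x :: (q^2 * x) :: l.drop i) =
        MvPolynomial.eval (fun k : Fin N => l.getD k 0) p) → p = facM N x * g := by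
    intro x p hp
    have hprod : (∏ k : Fin N, (MvPolynomial.X k : MvPolynomial (Fin N) ℂ)) ≠ 0 :=
      Finset.prod_ne_zero_iff.mpr fun j _ => MvPolynomial.X_ne_zero j
    apply mul_left_cancel₀ hprod
    apply MvPolynomial.funext
    intro f
    have h1 := hp (List.ofFn f) (by simp)
    have h2 := hp0 (List.ofFn f) (by simp)
    beta_reduce at h2
    rw [ofFn_getD'] at h1 h2
    have h3 := two_point hF ((List.ofFn f).take i) ((List.ofFn f).drop i)
      (by simp; omega) x 0
    rw [List.take_append_drop, h1, h2, fac_zero', hr] at h3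
    have h4 := eval_facM (N := N) x (l := List.ofFn f) (by simp)
    rw [ofFn_getD'] at h4
    simp only [map_mul, map_prod, MvPolynomial.eval_X, MvPolynomial.eval_C, h4, g] at h3 ⊢
    field_simp
    linear_combination h3
  refine ⟨g, ?_, ?_⟩
  · intro k
    obtain ⟨p1, hp1d, hp1⟩ := PD.slice2 hpd i hi 1 (q^2 * 1)
    have h1 := key 1 p1 hp1
    by_cases hg : g = 0
    · rw [hg]; simp
    · obtain ⟨ha, hb⟩ := degreeOf_facM k
      have h2 := hp1d k
      rw [h1, MvPolynomial.degreeOf_mul_eq hb hg] at h2
      omega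
  · intro x m hm
    obtain ⟨p, _, hp⟩ := PD.slice2 hpd i hi x (q^2 * x)
    have h1 := key x p hp
    have h2 := hp m hm
    beta_reduce at h2
    rw [h2, h1, map_mul, eval_facM x hm]

theorem insert_cases (u v w : List ℂ) (X Y a b : ℂ) (i : ℕ)
    (hi : i ≤ (u ++ X :: (v ++ Y :: w)).length) :
    ∃ u' v' w' : List ℂ, (u ++ X :: (v ++ Y :: w)).take i ++ a :: b ::
        (u ++ X :: (v ++ Y :: w)).drop i = u' ++ X :: (v' ++ Y :: w') ∧
      u'.length + v'.length + w'.length = u.length + v.length + w.length + 2 ∧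
      (∀ y ∈ u ++ v ++ w, y ∈ u' ++ v' ++ w') ∧ (∀ y ∈ u ++ w, y ∈ u' ++ w') := by
  have key : ∀ s t : List ℂ, s ++ t = u ++ X :: (v ++ Y :: w) → s.length = i →
      (u ++ X :: (v ++ Y :: w)).take i = s ∧ (u ++ X :: (v ++ Y :: w)).drop i = t := by
    intro s t hst hs
    rw [← hst, ← hs]
    exact ⟨List.take_left, List.drop_left⟩
  by_cases h1 : i ≤ u.length
  · obtain ⟨e1, e2⟩ := key (u.take i) (u.drop i ++ X :: (v ++ Y :: w))
      (by rw [← List.append_assoc, List.take_append_drop]) (by simp [h1])
    refine ⟨u.take i ++ a :: b :: u.drop i, v, w, ?_, ?_, ?_, ?_⟩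
    · rw [e1, e2]; simp
    · simp; omega
    · intro y hy
      rw [← List.take_append_drop i u] at hy
      simp only [List.mem_append, List.mem_cons] at hy ⊢
      tauto
    · intro y hy
      rw [← List.take_append_drop i u] at hy
      simp only [List.mem_append, List.mem_cons] at hy ⊢
      tauto
  by_cases h2 : i ≤ u.length + 1 + v.length
  · obtain ⟨j, rfl⟩ : ∃ j, i = u.length + 1 + j := ⟨i - u.length - 1, by omega⟩
    obtain ⟨e1, e2⟩ := key (u ++ X :: v.take j) (v.drop j ++ Y :: w)
      (by
        conv_rhs => rw [← List.take_append_drop j v]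
        simp only [List.append_assoc, List.cons_append]) (by simp; omega)
    refine ⟨u, v.take j ++ a :: b :: v.drop j, w, ?_, ?_, ?_, ?_⟩
    · rw [e1, e2]; simp
    · simp; omega
    · intro y hy
      rw [← List.take_append_drop j v] at hy
      simp only [List.mem_append, List.mem_cons] at hy ⊢
      tauto
    · intro y hy
      exact hy
  · obtain ⟨j, rfl⟩ : ∃ j, i = u.length + 1 + v.length + 1 + j :=
      ⟨i - u.length - 1 - v.length - 1, by omega⟩
    obtain ⟨e1, e2⟩ := key (u ++ X :: (v ++ Y :: w.take j)) (w.drop j)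
      (by simp) (by simp at hi ⊢; omega)
    refine ⟨u, v, w.take j ++ a :: b :: w.drop j, ?_, ?_, ?_, ?_⟩
    · rw [e1, e2]; simp
    · simp at hi ⊢; omega
    · intro y hy
      rw [← List.take_append_drop j w] at hy
      simp only [List.mem_append, List.mem_cons] at hy ⊢
      tauto
    · intro y hy
      rw [← List.take_append_drop j w] at hy
      simp only [List.mem_append, List.mem_cons] at hy ⊢
      tauto

theorem rho_V {N i : ℕ} {F : List ℂ → ℂ} (hF : V (N+2) F) (hN : N ≠ 1) (hi : i ≤ N) :
    V N (rho i F) := by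
  obtain ⟨g, hgd, hg⟩ := exists_g hF hi
  refine ⟨⟨g, hgd, ?_⟩, ?_, ?_⟩
  · intro l hl
    unfold rho
    rw [hg (gx l) l hl]
    have := fac_gx l
    field_simp
  · intro u v w X hlen hy
    obtain ⟨u', v', w', he, hl, hm1, hm2⟩ := insert_cases u v w X (q^2 * X)
      (gx (u ++ X :: (v ++ (q^2 * X) :: w))) (q^2 * gx (u ++ X :: (v ++ (q^2 * X) :: w))) i
      (by simp; omega)
    unfold rho
    rw [he, hF.wheel1 u' v' w' X (by omega) ?_, zero_div]
    obtain ⟨y, hy1, hy2⟩ := hy
    exact ⟨y, hm1 y hy1, hy2⟩
  · intro u v w X hlen hy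
    obtain ⟨u', v', w', he, hl, hm1, hm2⟩ := insert_cases u v w X (q^2 * X)
      (gx (u ++ X :: (v ++ (q^2 * X) :: w))) (q^2 * gx (u ++ X :: (v ++ (q^2 * X) :: w))) i
      (by simp; omega)
    unfold rho
    rw [he, hF.wheel2 u' v' w' X (by omega) (hm2 _ hy), zero_div]

end Pool.Agent.H988R2.Perc
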