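import Pool.Agent.H988R2.Perc.T15

/-! T16: evaluation of `Z` at `(1,…,1)` and `(1,…,1,0)`. -/

namespace Pool.Agent.H988R2.Perc

namespace T16

open Finset Polynomial

/-- Chebyshev polynomials: `(x - x⁻¹) U_n(x + x⁻¹) = x^(n+1) - x^(-n-1)` -/
noncomputable def U : ℕ → ℂ[X]
  | 0 => 1
  | 1 => Polynomial.X
  | n+2 => Polynomial.X * U (n+1) - U n

theorem U_spec (n : ℕ) : (U n).Monic ∧ (U n).natDegree = n ∧
    (U (n+1)).Monic ∧ (U (n+1)).natDegree = n + 1 := by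
  induction n with
  | zero => exact ⟨monic_one, natDegree_one, monic_X, natDegree_X⟩
  | succ n ih =>
    obtain ⟨h1, h2, h3, h4⟩ := ih
    refine ⟨h3, h4, ?_⟩
    have hm : (Polynomial.X * U (n+1)).Monic := monic_X.mul h3
    have hd : (Polynomial.X * U (n+1)).natDegree = n + 2 := by
      rw [monic_X.natDegree_mul h3, natDegree_X, h4]; omega
    have hlt : (U n).degree < (Polynomial.X * U (n+1)).degree := by
      rw [degree_eq_natDegree hm.ne_zero, degree_eq_natDegree h1.ne_zero, hd, h2]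
      exact_mod_cast (by omega : n < n + 2)
    constructor
    · exact hm.sub_of_left hlt
    · show (Polynomial.X * U (n+1) - U n).natDegree = n + 2
      rw [natDegree_sub_eq_left_of_natDegree_lt (by rw [h2, hd]; omega), hd]

theorem U_eval (x : ℂ) (hx : x ≠ 0) (n : ℕ) :
    (x - x⁻¹) * (U n).eval (x + x⁻¹) = x^(n+1) - x⁻¹^(n+1) ∧
    (x - x⁻¹) * (U (n+1)).eval (x + x⁻¹) = x^(n+2) - x⁻¹^(n+2) := by
  induction n with
  | zero =>
    constructor
    · simp [U]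
    · simp only [U, eval_X]
      ring
  | succ n ih =>
    obtain ⟨h1, h2⟩ := ih
    refine ⟨h2, ?_⟩
    show (x - x⁻¹) * (Polynomial.X * U (n+1) - U n).eval (x + x⁻¹) = _
    rw [eval_sub, eval_mul, eval_X]
    have hxx : x * x⁻¹ = 1 := mul_inv_cancel₀ hx
    calc (x - x⁻¹) * ((x + x⁻¹) * (U (n+1)).eval (x + x⁻¹) - (U n).eval (x + x⁻¹))
        = (x + x⁻¹) * ((x - x⁻¹) * (U (n+1)).eval (x + x⁻¹))
            - (x - x⁻¹) * (U n).eval (x + x⁻¹) := by ring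
      _ = (x + x⁻¹) * (x^(n+2) - x⁻¹^(n+2)) - (x^(n+1) - x⁻¹^(n+1)) := by rw [h1, h2]
      _ = x^(n+1+2) - x⁻¹^(n+1+2) + (x * x⁻¹ - 1) * (x^(n+1) - x⁻¹^(n+1)) := by ring
      _ = x^(n+1+2) - x⁻¹^(n+1+2) := by rw [hxx]; ring

/-- Weyl denominator formula of type `C`. -/
theorem weyl (M : ℕ) (x : Fin M → ℂ) (hx : ∀ j, x j ≠ 0) :
    Matrix.det (Matrix.of fun i j : Fin M => (x j)^((i:ℕ)+1) - (x j)⁻¹^((i:ℕ)+1)) =
    (∏ j, (x j - (x j)⁻¹)) *
      ∏ i : Fin M, ∏ j ∈ Ioi i, ((x j + (x j)⁻¹) - (x i + (x i)⁻¹)) := by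
  rw [← Matrix.det_transpose]
  have h1 : (Matrix.of fun i j : Fin M => (x j)^((i:ℕ)+1) - (x j)⁻¹^((i:ℕ)+1)).transpose =
      Matrix.of fun i j : Fin M => (x i - (x i)⁻¹) *
        (Matrix.of fun i j : Fin M => (U (j:ℕ)).eval (x i + (x i)⁻¹)) i j := by
    ext i j
    simp only [Matrix.transpose_apply, Matrix.of_apply]
    rw [(U_eval (x i) (hx i) j).1]
  rw [h1, Matrix.det_mul_column,
    ← Matrix.det_eval_matrixOfPolynomials_eq_det_vandermonde (fun i => x i + (x i)⁻¹)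
      (fun j => U (j:ℕ)) (fun i => (U_spec i).2.1) (fun i => (U_spec i).1),
    Matrix.det_vandermonde]

/-- geometric sum -/
noncomputable def G (m : ℕ) (t : ℂ) : ℂ := ∑ i ∈ range m, t^i

theorem G_mul (m : ℕ) (t : ℂ) : (t - 1) * G m t = t^m - 1 := by
  unfold G; exact mul_geom_sum t m

theorem G_one (m : ℕ) : G m 1 = m := by simp [G]

theorem G_cont (m : ℕ) : Continuous (G m) := by unfold G; fun_prop

/-- the renormalised Weyl product at `x_j = t^(m_j)`. -/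
noncomputable def W (M : ℕ) (m : ℕ → ℕ) (t : ℂ) : ℂ :=
  (∏ j : Fin M, G (2 * m j) t / t^(m j)) *
    ∏ i : Fin M, ∏ j ∈ Ioi i, ((G (m j) t)^2 / t^(m j) - (G (m i) t)^2 / t^(m i))

theorem W_one (M : ℕ) (m : ℕ → ℕ) :
    W M m 1 = (∏ j : Fin M, (2 * (m j : ℂ))) *
      ∏ i : Fin M, ∏ j ∈ Ioi i, ((m j : ℂ)^2 - (m i : ℂ)^2) := by
  simp [W, G_one]

theorem W_cont (M : ℕ) (m : ℕ → ℕ) : ContinuousAt (W M m) 1 := by
  unfold W
  have h1 : ∀ k : ℕ, (1:ℂ)^k ≠ 0 := fun k => by simp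
  refine ContinuousAt.mul ?_ ?_
  · refine tendsto_finsetProd _ fun j _ => ?_
    exact ((G_cont _).continuousAt).div ((continuous_pow _).continuousAt) (h1 _)
  · refine tendsto_finsetProd _ fun i _ => ?_
    refine tendsto_finsetProd _ fun j _ => ?_
    refine ContinuousAt.sub ?_ ?_
    · exact (((G_cont _).pow 2).continuousAt).div ((continuous_pow _).continuousAt) (h1 _)
    · exact (((G_cont _).pow 2).continuousAt).div ((continuous_pow _).continuousAt) (h1 _)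

/-- number of factors `(t-1)` -/
def cnt (M : ℕ) : ℕ := M + ∑ i : Fin M, 2 * (Ioi i).card

theorem weylT (M : ℕ) (m : ℕ → ℕ) (t : ℂ) (ht : t ≠ 0) :
    Matrix.det (Matrix.of fun i j : Fin M =>
      (t^(m j))^((i:ℕ)+1) - (t^(m j))⁻¹^((i:ℕ)+1)) = (t-1)^(cnt M) * W M m t := by
  rw [weyl M (fun j => t^(m j)) (fun j => pow_ne_zero _ ht)]
  have e1 : ∀ j : Fin M, t^(m j) - (t^(m j))⁻¹ = (t-1) * (G (2 * m j) t / t^(m j)) := by
    intro j
    have h0 : t^(m j) ≠ 0 := pow_ne_zero _ ht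
    rw [← mul_div_assoc, G_mul]
    field_simp
    ring
  have e2 : ∀ k : ℕ, t^k + (t^k)⁻¹ = 2 + (t-1)^2 * ((G k t)^2 / t^k) := by
    intro k
    have h0 : t^k ≠ 0 := pow_ne_zero _ ht
    rw [← mul_div_assoc, ← mul_pow, G_mul]
    field_simp
    ring
  have e3 : ∀ i j : Fin M, (t^(m j) + (t^(m j))⁻¹) - (t^(m i) + (t^(m i))⁻¹) =
      (t-1)^2 * ((G (m j) t)^2 / t^(m j) - (G (m i) t)^2 / t^(m i)) := by
    intro i j
    rw [e2, e2]; ring
  simp only [e1, e3, Finset.prod_mul_distrib, Finset.prod_const, Finset.card_univ, Fintype.card_fin]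
  unfold W cnt
  have e4 : ∏ x : Fin M, ((t-1)^2)^((Ioi x).card) = (t-1)^(∑ i : Fin M, 2 * (Ioi i).card) := by
    rw [← Finset.prod_pow_eq_pow_sum]
    refine Finset.prod_congr rfl fun i _ => ?_
    rw [← pow_mul]
  rw [e4, pow_add]
  ring

theorem detT (M a : ℕ) (m : ℕ → ℕ) (hm : ∀ j < M, m j ≤ a) (t : ℂ) (ht : t ≠ 0) :
    Matrix.det (Matrix.of fun i j : Fin M =>
      (t^((i:ℕ)+1))^(a + m j) - (t^((i:ℕ)+1))^(a - m j)) =
    (∏ i : Fin M, (t^((i:ℕ)+1))^a) * ((t-1)^(cnt M) * W M m t) := by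
  rw [← weylT M m t ht, ← Matrix.det_mul_column]
  congr 1
  ext i j
  simp only [Matrix.of_apply]
  have h0 : t^((i:ℕ)+1) ≠ 0 := pow_ne_zero _ ht
  have e : (t^((i:ℕ)+1))^(a - m j) = (t^((i:ℕ)+1))^a * ((t^(m j))⁻¹^((i:ℕ)+1)) := by
    have hle := hm j j.2
    have : (t^((i:ℕ)+1))^a = (t^((i:ℕ)+1))^(a - m j) * (t^((i:ℕ)+1))^(m j) := by
      rw [← pow_add]; congr 1; omega
    rw [this, mul_assoc]
    have : (t^((i:ℕ)+1))^(m j) * ((t^(m j))⁻¹^((i:ℕ)+1)) = 1 := by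
      rw [inv_pow, ← pow_mul, ← pow_mul, mul_comm]
      rw [mul_comm ((i:ℕ)+1)]
      exact inv_mul_cancel₀ (pow_ne_zero _ ht)
    rw [this, mul_one]
  rw [e, pow_add, mul_sub]
  congr 2
  rw [← pow_mul, ← pow_mul, mul_comm]

/-- last row expansion -/
theorem det_last (M a : ℕ) (m : ℕ → ℕ) (hm : ∀ j < M, m j < a) (ha : m M = a) (z : ℕ → ℂ)
    (hz : z M = 0) (ha0 : 0 < a) :
    Matrix.det (Matrix.of fun i j : Fin (M+1) => (z i)^(a + m j) - (z i)^(a - m j)) =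
      - Matrix.det (Matrix.of fun i j : Fin M => (z i)^(a + m j) - (z i)^(a - m j)) := by
  rw [Matrix.det_succ_row _ (Fin.last M), Fin.sum_univ_castSucc]
  have h0 : ∀ j : Fin M, (Matrix.of fun i j : Fin (M+1) => (z i)^(a + m j) - (z i)^(a - m j))
      (Fin.last M) j.castSucc = 0 := by
    intro j
    have := hm j j.2
    simp only [Matrix.of_apply, Fin.val_last, hz, Fin.val_castSucc]
    rw [zero_pow (by omega), zero_pow (by omega), sub_zero]
  have h1 : (Matrix.of fun i j : Fin (M+1) => (z i)^(a + m j) - (z i)^(a - m j))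
      (Fin.last M) (Fin.last M) = -1 := by
    simp only [Matrix.of_apply, Fin.val_last, hz, ha]
    rw [zero_pow (by omega), Nat.sub_self, pow_zero, zero_sub]
  rw [Finset.sum_eq_zero (fun j _ => by rw [h0]; ring), zero_add, h1]
  have h2 : (-1:ℂ)^((Fin.last M : ℕ) + (Fin.last M : ℕ)) = 1 := by
    rw [← two_mul, pow_mul]; simp
  rw [h2, one_mul, neg_one_mul]
  congr 2
  ext i j
  simp [Matrix.submatrix_apply, Fin.succAbove_last]

theorem mu_lt {i j : ℕ} (h : i < j) : mu i < mu j := by unfold mu; omega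

theorem mu_le {i j : ℕ} (h : i ≤ j) : mu i ≤ mu j := by unfold mu; omega

theorem prod_pairs (M : ℕ) (f : ℕ → ℕ → ℂ) :
    ∏ i : Fin M, ∏ j ∈ Ioi i, f i j = ∏ j ∈ range M, ∏ i ∈ range j, f i j := by
  rw [Finset.prod_comm' (s' := fun j : Fin M => Iio j) (t' := Finset.univ)
    (by intro i j; simp [and_comm])]
  rw [← Fin.prod_univ_eq_prod_range (fun j => ∏ i ∈ range j, f i j) M]
  refine Finset.prod_congr rfl fun j _ => ?_
  have h : range (j:ℕ) = (Iio j).map Fin.valEmbedding := by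
    rw [Fin.map_valEmbedding_Iio]; ext x; simp
  rw [h, Finset.prod_map]
  rfl

theorem prod_fin (M : ℕ) (f : ℕ → ℂ) : ∏ j : Fin M, f j = ∏ j ∈ range M, f j :=
  Fin.prod_univ_eq_prod_range f M

theorem W_one' (M : ℕ) (m : ℕ → ℕ) :
    W M m 1 = (∏ j ∈ range M, (2 * (m j : ℂ))) *
      ∏ j ∈ range M, ∏ i ∈ range j, ((m j : ℂ)^2 - (m i : ℂ)^2) := by
  rw [W_one, prod_pairs M (fun i j => (m j : ℂ)^2 - (m i : ℂ)^2),
    prod_fin M (fun j => 2 * (m j : ℂ))]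

theorem chi_rel (M : ℕ) : W M mu 1 = (chi M : ℂ) * W M (fun j => j + 1) 1 := by
  rw [W_one', W_one']
  unfold chi
  push_cast
  have e1 : ∏ j ∈ range M, (2 * (mu j : ℂ)) =
      (∏ j ∈ range M, (mu j : ℂ) / (j + 1)) * ∏ j ∈ range M, (2 * ((j:ℂ) + 1)) := by
    rw [← Finset.prod_mul_distrib]
    refine Finset.prod_congr rfl fun j _ => ?_
    have : (j:ℂ) + 1 ≠ 0 := by exact_mod_cast (by omega : j + 1 ≠ 0)
    field_simp
  have e2 : ∏ j ∈ range M, ∏ i ∈ range j, ((mu j : ℂ)^2 - (mu i : ℂ)^2) =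
      (∏ j ∈ range M, ∏ i ∈ range j, ((mu j : ℂ)^2 - (mu i : ℂ)^2) / (((j:ℂ)+1)^2 - ((i:ℂ)+1)^2))
      * ∏ j ∈ range M, ∏ i ∈ range j, (((j:ℂ)+1)^2 - ((i:ℂ)+1)^2) := by
    rw [← Finset.prod_mul_distrib]
    refine Finset.prod_congr rfl fun j _ => ?_
    rw [← Finset.prod_mul_distrib]
    refine Finset.prod_congr rfl fun i hi => ?_
    have hij : i < j := by simpa using hi
    have hne : ((j:ℂ)+1)^2 - ((i:ℂ)+1)^2 ≠ 0 := by
      have hlt : (i+1)^2 < (j+1)^2 := by gcongr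
      intro h
      have h' : (((j+1)^2 : ℕ) : ℂ) = (((i+1)^2 : ℕ) : ℂ) := by
        push_cast; exact sub_eq_zero.mp h
      exact absurd (Nat.cast_injective h') (by omega)
    field_simp
  rw [e1, e2]
  ring

theorem getD_ofFn (M : ℕ) (f : ℕ → ℂ) (l : List ℂ) (i : ℕ) (hi : i < M) :
    ((List.ofFn fun i : Fin M => f i) ++ l).getD i 0 = f i := by
  rw [List.getD_eq_getElem _ _ (by simp; omega), List.getElem_append_left (by simpa using hi)]
  simp

theorem getD_ofFn_last (M : ℕ) (f : ℕ → ℂ) :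
    ((List.ofFn fun i : Fin M => f i) ++ [0]).getD M 0 = 0 := by
  rw [List.getD_eq_getElem _ _ (by simp), List.getElem_append_right (by simp)]
  simp

theorem rep_ofFn (M : ℕ) :
    List.replicate M (1:ℂ) = List.ofFn fun i : Fin M => (1:ℂ)^((i:ℕ)+1) := by
  simp [List.ofFn_const]

theorem W_ne (M : ℕ) : W M (fun j => j + 1) 1 ≠ 0 := by
  rw [W_one]
  refine mul_ne_zero ?_ ?_
  · refine Finset.prod_ne_zero_iff.2 fun j _ => ?_
    exact_mod_cast (by omega : 2 * ((j:ℕ) + 1) ≠ 0)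
  · refine Finset.prod_ne_zero_iff.2 fun i _ => Finset.prod_ne_zero_iff.2 fun j hj => ?_
    have hij : (i:ℕ) < j := by simpa using hj
    have : ((i:ℕ)+1)^2 < ((j:ℕ)+1)^2 := by gcongr
    intro h
    have h' : ((((j:ℕ)+1)^2 : ℕ) : ℂ) = ((((i:ℕ)+1)^2 : ℕ) : ℂ) := by
      push_cast; push_cast at h; exact sub_eq_zero.mp h
    exact absurd (Nat.cast_injective h') (by omega)

/-- the limit `t → 1`. -/
theorem lim_arg (M a b : ℕ) (c : ℂ) (F : ℂ → ℂ) (hF : ContinuousAt F 1)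
    (h : ∀ t : ℂ, t ≠ 0 → F t * ((∏ i : Fin M, (t^((i:ℕ)+1))^a) *
        ((t-1)^(cnt M) * W M (fun j => j+1) t)) =
      c * ((∏ i : Fin M, (t^((i:ℕ)+1))^b) * ((t-1)^(cnt M) * W M mu t))) :
    F 1 = c * (chi M : ℂ) := by
  have hc1 : ∀ a : ℕ, ContinuousAt (fun t : ℂ => ∏ i : Fin M, (t^((i:ℕ)+1))^a) 1 := by
    intro a
    refine (continuous_finsetProd _ fun i _ => ?_).continuousAt
    fun_prop
  have hL : ContinuousAt (fun t => F t * ((∏ i : Fin M, (t^((i:ℕ)+1))^a) *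
        (W M (fun j => j+1) t))) 1 := hF.mul ((hc1 a).mul (W_cont _ _))
  have hR : ContinuousAt (fun t => c * ((∏ i : Fin M, (t^((i:ℕ)+1))^b) *
        (W M mu t))) 1 := continuousAt_const.mul ((hc1 b).mul (W_cont _ _))
  have hne : ∀ᶠ t in nhdsWithin (1:ℂ) {1}ᶜ, t ≠ 0 := by
    apply nhdsWithin_le_nhds
    exact isOpen_ne.mem_nhds (by norm_num)
  have heq : (fun t => F t * ((∏ i : Fin M, (t^((i:ℕ)+1))^a) * (W M (fun j => j+1) t)))
      =ᶠ[nhdsWithin (1:ℂ) {1}ᶜ]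
      (fun t => c * ((∏ i : Fin M, (t^((i:ℕ)+1))^b) * (W M mu t))) := by
    filter_upwards [hne, self_mem_nhdsWithin] with t h0 h1
    have h1' : (t-1)^(cnt M) ≠ 0 := pow_ne_zero _ (sub_ne_zero.2 h1)
    apply mul_left_cancel₀ h1'
    linear_combination h t h0
  have key := tendsto_nhds_unique_of_eventuallyEq
    (hL.tendsto.mono_left nhdsWithin_le_nhds) (hR.tendsto.mono_left nhdsWithin_le_nhds) heq
  simp only [one_pow, Finset.prod_const_one, one_mul] at key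
  rw [chi_rel] at key
  apply mul_right_cancel₀ (W_ne M)
  linear_combination key

end T16

open T16

theorem Z_ones (n : ℕ) : Z (List.replicate (2*n) 1) = q^(n*(n-1)) * (chi (2*n) : ℂ) := by
  have hl : ∀ t : ℂ, (List.ofFn fun i : Fin (2*n) => t^((i:ℕ)+1)).length = 2*n := by
    intro t; simp
  have hg : ∀ (t : ℂ) (i : Fin (2*n)),
      (List.ofFn fun i : Fin (2*n) => t^((i:ℕ)+1)).getD i 0 = t^((i:ℕ)+1) := by
    intro t i
    rw [List.getD_eq_getElem _ _ (by simp)]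
    simp
  have hF : ContinuousAt (fun t : ℂ => Z (List.ofFn fun i : Fin (2*n) => t^((i:ℕ)+1))) 1 :=
    (Z_pd (2*n) ⟨n, by ring⟩).cont (fun i t => t^((i:ℕ)+1)) 1
      (fun i => (continuous_pow _).continuousAt)
  have h1 : Z (List.replicate (2*n) 1) = Z (List.ofFn fun i : Fin (2*n) => (1:ℂ)^((i:ℕ)+1)) := by
    congr 1
    simp [List.ofFn_const]
  rw [h1]
  refine lim_arg (2*n) (2*n) (mu (2*n-1)) (q^(n*(n-1))) _ hF ?_
  intro t ht
  have h := Z_det n (List.ofFn fun i : Fin (2*n) => t^((i:ℕ)+1)) (hl t)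
  unfold ddl dmu at h
  simp only [hg] at h
  rw [detT (2*n) (2*n) (fun j => j+1) (fun j hj => by omega) t ht,
    detT (2*n) (mu (2*n-1)) mu (fun j hj => mu_le (by omega)) t ht] at h
  exact h

theorem Z_ones_zero (n : ℕ) :
    Z (List.replicate (2*n+1) 1 ++ [0]) = q^((n+1)*n) * (chi (2*n+1) : ℂ) := by
  have hF : ContinuousAt (fun t : ℂ => Z ((List.ofFn fun i : Fin (2*n+1) => t^((i:ℕ)+1)) ++ [0]))
      1 := by
    have := (Z_pd (2*n+1+1) ⟨n+1, by ring⟩).sliceRight (M := 2*n+1) [0]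
    exact this.cont (fun i t => t^((i:ℕ)+1)) 1 (fun i => (continuous_pow _).continuousAt)
  rw [rep_ofFn (2*n+1)]
  refine lim_arg (2*n+1) (2*n+2) (mu (2*n+1)) (q^((n+1)*n)) _ hF ?_
  intro t ht
  have h := Z_det (n+1) ((List.ofFn fun i : Fin (2*n+1) => t^((i:ℕ)+1)) ++ [0])
    (by rw [List.length_append, List.length_ofFn, List.length_singleton]; ring)
  rw [show (n+1)*(n+1-1) = (n+1)*n by rw [Nat.add_sub_cancel]] at h
  have hg := getD_ofFn (2*n+1) (fun i => t^(i+1)) [0]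
  have hg0 := getD_ofFn_last (2*n+1) (fun i => t^(i+1))
  have hd : ddl (2*n+1+1) ((List.ofFn fun i : Fin (2*n+1) => t^((i:ℕ)+1)) ++ [0]) =
      - ((∏ i : Fin (2*n+1), (t^((i:ℕ)+1))^(2*n+2)) *
        ((t-1)^(cnt (2*n+1)) * W (2*n+1) (fun j => j+1) t)) := by
    unfold ddl
    refine (det_last (2*n+1) (2*n+1+1) (fun j => j+1) (fun j hj => by simpa using hj) rfl
      (fun i => ((List.ofFn fun i : Fin (2*n+1) => t^((i:ℕ)+1)) ++ [0]).getD i 0) hg0
      (by omega)).trans ?_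
    rw [← detT (2*n+1) (2*n+2) (fun j => j+1) (fun j hj => by omega) t ht]
    congr 2
    ext i j
    simp only [Matrix.of_apply]
    rw [hg i i.2]
  have hm : dmu (2*n+1+1) ((List.ofFn fun i : Fin (2*n+1) => t^((i:ℕ)+1)) ++ [0]) =
      - ((∏ i : Fin (2*n+1), (t^((i:ℕ)+1))^(mu (2*n+1))) *
        ((t-1)^(cnt (2*n+1)) * W (2*n+1) mu t)) := by
    unfold dmu
    refine (det_last (2*n+1) (mu (2*n+1+1-1)) mu (fun j hj => mu_lt (by omega)) rfl
      (fun i => ((List.ofFn fun i : Fin (2*n+1) => t^((i:ℕ)+1)) ++ [0]).getD i 0) hg0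
      (by unfold mu; omega)).trans ?_
    rw [← detT (2*n+1) (mu (2*n+1)) mu (fun j hj => mu_le (by omega)) t ht]
    congr 2
    ext i j
    simp only [Matrix.of_apply]
    rw [hg i i.2]
    rfl
  rw [show 2*(n+1) = 2*n+1+1 by ring, hd, hm] at h
  linear_combination -h

end Pool.Agent.H988R2.Perc
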