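import Pool.Agent.H988R2.Perc.Defs

/-! T25: product formulas and asymptotics (real analysis, elementary). -/

namespace Pool.Agent.H988R2.Perc

open Filter Topology

theorem t25_mu_even (k : ℕ) : mu (2 * k) = 3 * k + 1 := by unfold mu; omega

theorem t25_mu_odd (k : ℕ) : mu (2 * k + 1) = 3 * k + 2 := by unfold mu; omega

theorem t25_mu_pos (k : ℕ) : 0 < mu k := by unfold mu; omega

theorem t25_mu_lt {i j : ℕ} (h : i < j) : mu i < mu j := by unfold mu; omega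

theorem chi_pos (N : ℕ) : 0 < chi N := by
  unfold chi
  apply mul_pos
  · apply Finset.prod_pos
    intro j _
    have : (0 : ℝ) < (mu j : ℝ) := by exact_mod_cast t25_mu_pos j
    positivity
  · apply Finset.prod_pos
    intro j _
    apply Finset.prod_pos
    intro i hi
    rw [Finset.mem_range] at hi
    have h1 : (mu i : ℝ) < mu j := by exact_mod_cast t25_mu_lt hi
    have h2 : (i : ℝ) < j := by exact_mod_cast hi
    have h3 : (0 : ℝ) < mu i := by exact_mod_cast t25_mu_pos i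
    have h4 : (0 : ℝ) ≤ i := Nat.cast_nonneg i
    apply div_pos
    · nlinarith
    · nlinarith

/-- the factor `chi (N+1) / chi N` -/
noncomputable def t25r (N : ℕ) : ℝ :=
  (mu N : ℝ) / (N + 1) * ∏ i ∈ Finset.range N,
    ((mu N : ℝ)^2 - (mu i : ℝ)^2) / (((N:ℝ)+1)^2 - ((i:ℝ)+1)^2)

theorem t25_succ (N : ℕ) : chi (N + 1) = chi N * t25r N := by
  unfold chi t25r
  rw [Finset.prod_range_succ, Finset.prod_range_succ]
  ring

theorem t25_den (N : ℕ) : ((N : ℝ) + 1) * ∏ i ∈ Finset.range N, (((N:ℝ)+1)^2 - ((i:ℝ)+1)^2) =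
    ∏ j ∈ Finset.range (2 * N + 1), ((j : ℝ) + 1) := by
  have h1 : ∏ i ∈ Finset.range N, (((N:ℝ)+1)^2 - ((i:ℝ)+1)^2) =
      (∏ i ∈ Finset.range N, ((((N - 1 - i : ℕ) : ℝ)) + 1)) *
        ∏ i ∈ Finset.range N, (((N + 1 + i : ℕ) : ℝ) + 1) := by
    rw [← Finset.prod_mul_distrib]
    refine Finset.prod_congr rfl fun i hi => ?_
    rw [Finset.mem_range] at hi
    have : ((N - 1 - i : ℕ) : ℝ) = (N : ℝ) - 1 - i := by
      rw [Nat.cast_sub (by omega), Nat.cast_sub (by omega)]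
      simp
    rw [this]
    push_cast
    ring
  rw [h1, Finset.prod_range_reflect (fun j : ℕ => (j : ℝ) + 1) N,
    show 2 * N + 1 = (N + 1) + N by ring, Finset.prod_range_add, Finset.prod_range_succ]
  ring

theorem t25_split (x : ℝ) (m : ℕ) : ∏ i ∈ Finset.range (2 * m), (x ^ 2 - (mu i : ℝ) ^ 2) =
    ∏ k ∈ Finset.range m, ((x ^ 2 - (3 * (k : ℝ) + 1) ^ 2) * (x ^ 2 - (3 * (k : ℝ) + 2) ^ 2)) := by
  induction m with
  | zero => simp
  | succ m ih =>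
    rw [show 2 * (m + 1) = 2 * m + 1 + 1 by ring, Finset.prod_range_succ, Finset.prod_range_succ,
      ih, Finset.prod_range_succ, t25_mu_even, t25_mu_odd]
    push_cast
    ring

theorem t25_num_even (n : ℕ) :
    ∏ i ∈ Finset.range (2 * n), ((mu (2 * n) : ℝ) ^ 2 - (mu i : ℝ) ^ 2) =
      ∏ j ∈ Finset.range (2 * n), (3 * ((j : ℝ) + 1) * (3 * j + 2)) := by
  rw [t25_split, t25_mu_even]
  have h1 : ∏ k ∈ Finset.range n, ((((3 * n + 1 : ℕ) : ℝ) ^ 2 - (3 * (k : ℝ) + 1) ^ 2) *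
      (((3 * n + 1 : ℕ) : ℝ) ^ 2 - (3 * (k : ℝ) + 2) ^ 2)) =
      (∏ k ∈ Finset.range n, (3 * (((n - 1 - k : ℕ) : ℝ) + 1) * (3 * ((n - 1 - k : ℕ) : ℝ) + 2))) *
      ∏ k ∈ Finset.range n, (3 * (((n + k : ℕ) : ℝ) + 1) * (3 * ((n + k : ℕ) : ℝ) + 2)) := by
    rw [← Finset.prod_mul_distrib]
    refine Finset.prod_congr rfl fun k hk => ?_
    rw [Finset.mem_range] at hk
    have : ((n - 1 - k : ℕ) : ℝ) = (n : ℝ) - 1 - k := by
      rw [Nat.cast_sub (by omega), Nat.cast_sub (by omega)]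
      simp
    rw [this]
    push_cast
    ring
  rw [h1, Finset.prod_range_reflect (fun j : ℕ => 3 * ((j : ℝ) + 1) * (3 * (j : ℝ) + 2)) n,
    show 2 * n = n + n by ring, Finset.prod_range_add]

theorem t25_num_odd (n : ℕ) :
    ∏ i ∈ Finset.range (2 * n + 1), ((mu (2 * n + 1) : ℝ) ^ 2 - (mu i : ℝ) ^ 2) =
      ∏ j ∈ Finset.range (2 * n + 1), ((3 * (j : ℝ) + 1) * (3 * ((j : ℝ) + 1))) := by
  rw [Finset.prod_range_succ, t25_split, t25_mu_even, t25_mu_odd]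
  have h1 : ∏ k ∈ Finset.range n, ((((3 * n + 2 : ℕ) : ℝ) ^ 2 - (3 * (k : ℝ) + 1) ^ 2) *
      (((3 * n + 2 : ℕ) : ℝ) ^ 2 - (3 * (k : ℝ) + 2) ^ 2)) =
      (∏ k ∈ Finset.range n, (3 * (((n - 1 - k : ℕ) : ℝ) + 1) *
        (3 * (((n - 1 - k : ℕ) : ℝ) + 1) + 1))) *
      ∏ k ∈ Finset.range n, (3 * (((n + k : ℕ) : ℝ) + 1) * (3 * (((n + k : ℕ) : ℝ) + 1) + 1)) := by
    rw [← Finset.prod_mul_distrib]
    refine Finset.prod_congr rfl fun k hk => ?_
    rw [Finset.mem_range] at hk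
    have : ((n - 1 - k : ℕ) : ℝ) = (n : ℝ) - 1 - k := by
      rw [Nat.cast_sub (by omega), Nat.cast_sub (by omega)]
      simp
    rw [this]
    push_cast
    ring
  rw [h1, Finset.prod_range_reflect
    (fun j : ℕ => 3 * ((j : ℝ) + 1) * (3 * ((j : ℝ) + 1) + 1)) n, ← Finset.prod_range_add
    (fun j : ℕ => 3 * ((j : ℝ) + 1) * (3 * ((j : ℝ) + 1) + 1)) n n, ← two_mul]
  have h2 : ∏ j ∈ Finset.range (2 * n + 1), ((3 * (j : ℝ) + 1) * (3 * ((j : ℝ) + 1))) =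
      (∏ j ∈ Finset.range (2 * n), (3 * (((j + 1 : ℕ) : ℝ)) + 1)) *
      ((∏ j ∈ Finset.range (2 * n), (3 * ((j : ℝ) + 1))) * (3 * (((2 * n : ℕ) : ℝ) + 1))) := by
    rw [Finset.prod_mul_distrib, Finset.prod_range_succ' (fun j : ℕ => 3 * (j : ℝ) + 1),
      Finset.prod_range_succ (fun j : ℕ => 3 * ((j : ℝ) + 1))]
    simp
  rw [h2, Finset.prod_mul_distrib]
  push_cast
  ring

theorem t25_r (N : ℕ) : t25r N =
    (mu N : ℝ) * (∏ i ∈ Finset.range N, ((mu N : ℝ)^2 - (mu i : ℝ)^2)) /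
      ∏ j ∈ Finset.range (2 * N + 1), ((j : ℝ) + 1) := by
  unfold t25r
  rw [Finset.prod_div_distrib, div_mul_div_comm, t25_den]

theorem t25_F_pos (N : ℕ) : 0 < ∏ j ∈ Finset.range N, ((j : ℝ) + 1) :=
  Finset.prod_pos fun j _ => by positivity

theorem t25_r_pos (N : ℕ) : 0 < t25r N := by
  have h1 := chi_pos N
  have h2 := chi_pos (N + 1)
  rw [t25_succ] at h2
  exact (pos_iff_pos_of_mul_pos h2).1 h1

theorem chi_ratio (L : ℕ) (hL : Odd L) :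
    chi (L-1) * chi (L+1) / (chi L)^2 = armFormula L := by
  obtain ⟨n, rfl⟩ := hL
  have e1 : 2 * n + 1 - 1 = 2 * n := by omega
  rw [e1, t25_succ (2 * n + 1), t25_succ (2 * n)]
  have hc := chi_pos (2 * n)
  have hr := t25_r_pos (2 * n)
  have h1 : chi (2 * n) * (chi (2 * n) * t25r (2 * n) * t25r (2 * n + 1)) /
      (chi (2 * n) * t25r (2 * n)) ^ 2 = t25r (2 * n + 1) / t25r (2 * n) := by
    field_simp
  rw [h1, t25_r, t25_r, t25_num_even, t25_num_odd, t25_mu_even, t25_mu_odd]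
  unfold armFormula
  have hF := t25_F_pos (2 * (2 * n) + 1)
  have h2 : ∏ j ∈ Finset.range (2 * (2 * n + 1) + 1), ((j : ℝ) + 1) =
      (∏ j ∈ Finset.range (2 * (2 * n) + 1), ((j : ℝ) + 1)) *
        (((2 * (2 * n) + 1 : ℕ) : ℝ) + 1) * (((2 * (2 * n) + 2 : ℕ) : ℝ) + 1) := by
    rw [show 2 * (2 * n + 1) + 1 = 2 * (2 * n) + 1 + 1 + 1 by ring, Finset.prod_range_succ,
      Finset.prod_range_succ]
  rw [h2, Finset.prod_mul_distrib (f := fun j : ℕ => 3 * ((j : ℝ) + 1)),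
    Finset.prod_mul_distrib (f := fun j : ℕ => 3 * (j : ℝ) + 1), Finset.prod_div_distrib]
  rw [Finset.prod_range_succ (fun j : ℕ => 3 * ((j : ℝ) + 1)) (2 * n),
    Finset.prod_range_succ (fun j : ℕ => 3 * (j : ℝ) + 2) (2 * n)]
  have hA : 0 < ∏ j ∈ Finset.range (2 * n), (3 * ((j : ℝ) + 1)) :=
    Finset.prod_pos fun j _ => by positivity
  have hB : 0 < ∏ j ∈ Finset.range (2 * n), (3 * (j : ℝ) + 2) :=
    Finset.prod_pos fun j _ => by positivity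
  set F := ∏ j ∈ Finset.range (2 * (2 * n) + 1), ((j : ℝ) + 1)
  set A := ∏ j ∈ Finset.range (2 * n), (3 * ((j : ℝ) + 1))
  set B' := ∏ j ∈ Finset.range (2 * n), (3 * (j : ℝ) + 2)
  set Cc := ∏ j ∈ Finset.range (2 * n + 1), (3 * (j : ℝ) + 1)
  push_cast
  field_simp
  ring

theorem armFormula_tendsto :
    Tendsto (fun L : ℕ => (L:ℝ)^((1:ℝ)/3) * armFormula L) atTop
      (𝓝 (9 / 4 * Real.Gamma (2/3) / Real.Gamma (1/3))) := by
  have h1 : Tendsto (fun n : ℕ => Real.GammaSeq (2/3) n / Real.GammaSeq (1/3) n) atTop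
      (𝓝 (Real.Gamma (2/3) / Real.Gamma (1/3))) :=
    (Real.GammaSeq_tendsto_Gamma (2/3)).div (Real.GammaSeq_tendsto_Gamma (1/3))
      (Real.Gamma_pos_of_pos (by norm_num)).ne'
  have h2 : Tendsto (fun n : ℕ => 3 * (3 * (n : ℝ) + 2) / (2 * (2 * (n : ℝ) + 1))) atTop
      (𝓝 (9 / 4)) := by
    have h3 : Tendsto (fun n : ℕ => (n : ℝ)⁻¹) atTop (𝓝 0) :=
      tendsto_inv_atTop_nhds_zero_nat
    have h4 : Tendsto (fun n : ℕ => (9 + 6 * (n : ℝ)⁻¹) / (4 + 2 * (n : ℝ)⁻¹)) atTop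
        (𝓝 ((9 + 6 * 0) / (4 + 2 * 0))) :=
      (tendsto_const_nhds.add (h3.const_mul 6)).div (tendsto_const_nhds.add (h3.const_mul 2))
        (by norm_num)
    have h5 : ((9 : ℝ) + 6 * 0) / (4 + 2 * 0) = 9 / 4 := by norm_num
    rw [h5] at h4
    refine h4.congr' ?_
    filter_upwards [eventually_gt_atTop 0] with n hn
    have hn' : (0 : ℝ) < n := by exact_mod_cast hn
    field_simp
    ring
  have h6 := h2.mul h1
  have h7 : 9 / 4 * (Real.Gamma (2/3) / Real.Gamma (1/3)) =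
      9 / 4 * Real.Gamma (2/3) / Real.Gamma (1/3) := by ring
  rw [h7] at h6
  refine h6.congr' ?_
  filter_upwards [eventually_gt_atTop 0] with n hn
  have hn' : (0 : ℝ) < n := by exact_mod_cast hn
  unfold Real.GammaSeq armFormula
  have hA : 0 < ∏ j ∈ Finset.range (n + 1), ((1:ℝ)/3 + j) :=
    Finset.prod_pos fun j _ => by positivity
  have hB : 0 < ∏ j ∈ Finset.range (n + 1), ((2:ℝ)/3 + j) :=
    Finset.prod_pos fun j _ => by positivity
  have hf : (0 : ℝ) < n.factorial := by exact_mod_cast n.factorial_pos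
  have h8 : ((n : ℝ) ^ ((2:ℝ)/3) * n.factorial / ∏ j ∈ Finset.range (n + 1), ((2:ℝ)/3 + j)) /
      ((n : ℝ) ^ ((1:ℝ)/3) * n.factorial / ∏ j ∈ Finset.range (n + 1), ((1:ℝ)/3 + j)) =
      (n : ℝ) ^ ((1:ℝ)/3) * ∏ j ∈ Finset.range (n + 1), (((1:ℝ)/3 + j) / ((2:ℝ)/3 + j)) := by
    rw [Finset.prod_div_distrib]
    have h9 : (n : ℝ) ^ ((2:ℝ)/3) = (n : ℝ) ^ ((1:ℝ)/3) * (n : ℝ) ^ ((1:ℝ)/3) := by
      rw [← Real.rpow_add hn']
      norm_num
    rw [h9]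
    have h10 : 0 < (n : ℝ) ^ ((1:ℝ)/3) := Real.rpow_pos_of_pos hn' _
    field_simp
  rw [h8, Finset.prod_range_succ]
  have h11 : ∏ j ∈ Finset.range n, (((1:ℝ)/3 + j) / ((2:ℝ)/3 + j)) =
      ∏ j ∈ Finset.range n, (3 * (j:ℝ) + 1) / (3 * (j:ℝ) + 2) := by
    refine Finset.prod_congr rfl fun j _ => ?_
    have : (0 : ℝ) ≤ j := Nat.cast_nonneg j
    field_simp
    ring
  rw [h11]
  set P := ∏ j ∈ Finset.range n, (3 * (j:ℝ) + 1) / (3 * (j:ℝ) + 2)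
  set X := (n : ℝ) ^ ((1:ℝ)/3)
  field_simp
  ring

end Pool.Agent.H988R2.Perc
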