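import Pool.Agent.H988R2.Perc.T14

/-! T20: stationarity of the homogeneous vector under the double-row transfer matrix. -/

namespace Pool.Agent.H988R2.Perc

namespace T20

theorem q4 : q^4 = q := by
  have h := q_cube
  calc q^4 = q^3 * q := by ring
    _ = q := by rw [h, one_mul]

theorem q2 : q^2 = -q - 1 := by
  have h := q_spec
  linear_combination h

theorem mapDomain_lin (φ : St → St) (c : ℂ) (f : St →₀ ℂ) :
    Finsupp.mapDomain φ (c • f) = c • Finsupp.mapDomain φ f :=
  Finsupp.mapDomain_smul c f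

theorem tile_smul (i : ℕ) (c : ℂ) (f : St →₀ ℂ) : tile i (c • f) = c • tile i f := by
  unfold tile
  rw [mapDomain_lin, ← smul_add, smul_comm]

theorem fwd_smul (L : ℕ) (c : ℂ) (f : St →₀ ℂ) : fwd L (c • f) = c • fwd L f := by
  induction L with
  | zero => rfl
  | succ L ih => simp only [fwd]; rw [ih, tile_smul]

theorem bwd_smul (L : ℕ) (c : ℂ) (f : St →₀ ℂ) : bwd L (c • f) = c • bwd L f := by
  induction L generalizing f with
  | zero => rfl
  | succ L ih => simp only [bwd]; rw [tile_smul, ih]

theorem Tvec_smul (L : ℕ) (c : ℂ) (f : St →₀ ℂ) : Tvec L (c • f) = c • Tvec L f := by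
  unfold Tvec
  rw [mapDomain_lin, fwd_smul, bwd_smul, mapDomain_lin]

/-- moving `-q` to the right through a `1` is a tile -/
theorem move_right (u v : List ℂ) (h : Even (u.length + v.length)) :
    Psi (u ++ 1 :: (-q) :: v) = tile u.length (Psi (u ++ (-q) :: 1 :: v)) := by
  have h1 := Psi_exch u v (-q) 1 h
  have e1 : q * (-q) - q^2 * 1 = -2 * q^2 := by ring
  have e2 : q * 1 - q^2 * (-q) = -q^2 := by
    have := q_cube; have h2 := q_spec
    linear_combination this + h2
  have e3 : (1 : ℂ) - (-q) = -q^2 := by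
    have h2 := q_spec
    linear_combination h2
  rw [e1, e2, e3, ← smul_add] at h1
  have hq : (-2 * q^2) ≠ 0 := mul_ne_zero (by norm_num) (pow_ne_zero _ q_ne_zero)
  unfold tile
  have h3 : Psi (u ++ 1 :: (-q) :: v) = (-2 * q^2)⁻¹ • ((-2 * q^2) • Psi (u ++ 1 :: (-q) :: v)) := by
    rw [smul_smul, inv_mul_cancel₀ hq, one_smul]
  rw [h3, h1, smul_smul]
  congr 1
  have hq1 : q ≠ 0 := q_ne_zero
  have hq2 : q^2 ≠ 0 := pow_ne_zero _ q_ne_zero
  field_simp

/-- moving `-q^2` to the left through a `1` is a tile -/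
theorem move_left (u v : List ℂ) (h : Even (u.length + v.length)) :
    Psi (u ++ (-q^2) :: 1 :: v) = tile u.length (Psi (u ++ 1 :: (-q^2) :: v)) := by
  have h1 := Psi_exch u v 1 (-q^2) h
  have e1 : q * 1 - q^2 * (-q^2) = 2 * q := by
    have := q4
    linear_combination this
  have e2 : q * (-q^2) - q^2 * 1 = q := by
    have := q_cube; have h2 := q_spec
    linear_combination -this - h2
  have e3 : (-q^2 : ℂ) - 1 = q := by
    have h2 := q_spec
    linear_combination -h2
  rw [e1, e2, e3, ← smul_add] at h1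
  have hq : (2 * q) ≠ 0 := mul_ne_zero (by norm_num) q_ne_zero
  unfold tile
  have h3 : Psi (u ++ (-q^2) :: 1 :: v) = (2 * q)⁻¹ • ((2 * q) • Psi (u ++ (-q^2) :: 1 :: v)) := by
    rw [smul_smul, inv_mul_cancel₀ hq, one_smul]
  rw [h3, h1, smul_smul]
  congr 1
  have hq2 := q_ne_zero
  field_simp

theorem fwd_eq (L : ℕ) (hL : Odd L) (k : ℕ) (hk : k ≤ L) :
    Psi ((-q^2) :: List.replicate k 1 ++ (-q) :: (List.replicate (L-k) 1 ++ [0])) =
      fwd k (Psi ((-q^2) :: (-q) :: (List.replicate L 1 ++ [0]))) := by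
  induction k with
  | zero => simp [fwd]
  | succ k ih =>
    have ih' := ih (by omega)
    simp only [fwd]
    rw [← ih']
    obtain ⟨m, hm⟩ : ∃ m, L - k = m + 1 := ⟨L - k - 1, by omega⟩
    have hm' : L - (k+1) = m := by omega
    rw [hm, hm']
    have hu : ((-q^2) :: List.replicate k (1:ℂ)).length = k + 1 := by simp
    have key := move_right ((-q^2) :: List.replicate k (1:ℂ)) (List.replicate m 1 ++ [0]) (by
      simp only [List.length_cons, List.length_replicate, List.length_append, List.length_nil]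
      obtain ⟨t, ht⟩ := hL
      exact ⟨t + 1, by omega⟩)
    rw [hu] at key
    have e1 : (-q^2) :: List.replicate (k+1) (1:ℂ) ++ (-q) :: (List.replicate m 1 ++ [0])
        = ((-q^2) :: List.replicate k (1:ℂ)) ++ 1 :: (-q) :: (List.replicate m 1 ++ [0]) := by
      rw [List.replicate_succ']; simp
    have e2 : (-q^2) :: List.replicate k (1:ℂ) ++ (-q) :: (List.replicate (m+1) 1 ++ [0])
        = ((-q^2) :: List.replicate k (1:ℂ)) ++ (-q) :: 1 :: (List.replicate m 1 ++ [0]) := by
      rw [List.replicate_succ]; simp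
    rw [e1, e2]
    exact key

theorem bwd_eq (L : ℕ) (hL : Odd L) (k : ℕ) (hk : k ≤ L) :
    bwd k (Psi ((-q^2) :: List.replicate k 1 ++ (-q^2) :: (List.replicate (L-k) 1 ++ [0]))) =
      Psi ((-q^2) :: (-q^2) :: (List.replicate L 1 ++ [0])) := by
  induction k with
  | zero => simp [bwd]
  | succ k ih =>
    have ih' := ih (by omega)
    simp only [bwd]
    rw [← ih']
    obtain ⟨m, hm⟩ : ∃ m, L - k = m + 1 := ⟨L - k - 1, by omega⟩
    have hm' : L - (k+1) = m := by omega
    rw [hm, hm']
    have hu : ((-q^2) :: List.replicate k (1:ℂ)).length = k + 1 := by simp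
    have key := move_left ((-q^2) :: List.replicate k (1:ℂ)) (List.replicate m 1 ++ [0]) (by
      simp only [List.length_cons, List.length_replicate, List.length_append, List.length_nil]
      obtain ⟨t, ht⟩ := hL
      exact ⟨t + 1, by omega⟩)
    rw [hu] at key
    have e1 : (-q^2) :: List.replicate (k+1) (1:ℂ) ++ (-q^2) :: (List.replicate m 1 ++ [0])
        = ((-q^2) :: List.replicate k (1:ℂ)) ++ 1 :: (-q^2) :: (List.replicate m 1 ++ [0]) := by
      rw [List.replicate_succ']; simp
    have e2 : (-q^2) :: List.replicate k (1:ℂ) ++ (-q^2) :: (List.replicate (m+1) 1 ++ [0])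
        = ((-q^2) :: List.replicate k (1:ℂ)) ++ (-q^2) :: 1 :: (List.replicate m 1 ++ [0]) := by
      rw [List.replicate_succ]; simp
    rw [e1, e2]
    rw [key]

theorem fac_ne (L : ℕ) : fac (-q^2) (List.replicate L 1 ++ [0]) ≠ 0 := by
  unfold fac
  rw [List.map_append, List.prod_append, List.map_replicate, List.prod_replicate]
  have h4 := q4
  have hq := q_ne_zero
  apply mul_ne_zero
  · apply pow_ne_zero
    have : (-q^2 - q^2 * 1) * (-q^2 * 1 - q^2) = 4 * q := by
      linear_combination 4 * h4
    rw [this]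
    exact mul_ne_zero (by norm_num) hq
  · simp only [List.map_cons, List.map_nil, List.prod_cons, List.prod_nil, mul_one, mul_zero,
      sub_zero, zero_sub]
    have : -q^2 * -q^2 = q := by linear_combination h4
    rw [this]
    exact hq

end T20

open T20 in
theorem stationary (L : ℕ) (hL : Odd L) :
    Tvec L (Psi (List.replicate L 1 ++ [0])) = Psi (List.replicate L 1 ++ [0]) := by
  have hLe : Even (L + 1) := hL.add_one
  set v0 := Psi (List.replicate L 1 ++ [0]) with hv0
  set l0 : List ℂ := List.replicate L 1 ++ [0] with hl0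
  have hlen : l0.length = L + 1 := by simp [hl0]
  have h4 := q4
  have h3 := q_cube
  have hqs := q_spec
  have hq := q_ne_zero
  -- recursion at the start
  have hrec : Psi ((-q^2) :: (-q) :: l0) = fac (-q^2) l0 • Finsupp.mapDomain (St.ins 0) v0 := by
    have := Psi_rec [] l0 (-q^2) (by simpa [hlen] using hLe)
    have e : q^2 * (-q^2) = -q := by linear_combination -h4
    rw [e] at this
    simpa using this
  -- forward
  have hf := fwd_eq L hL L le_rfl
  rw [Nat.sub_self] at hf
  simp only [List.replicate_zero, List.nil_append] at hf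
  -- inversion of the last nonzero variable
  have hinv : Psi ((-q^2) :: List.replicate L 1 ++ [(-q), 0]) =
      (-q)^(L+1) • Psi ((-q^2) :: List.replicate L 1 ++ [(-q^2), 0]) := by
    have := Psi_inv0 (-q) ((-q^2) :: List.replicate L 1) (neg_ne_zero.mpr hq)
      (by simpa using hLe)
    have e : (-q)⁻¹ = -q^2 := by
      rw [inv_eq_iff_eq_inv]
      have : (-q^2) ≠ 0 := neg_ne_zero.mpr (pow_ne_zero _ hq)
      apply mul_right_cancel₀ this
      rw [inv_mul_cancel₀ this]
      linear_combination h3
    rw [e] at this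
    simpa using this
  have hb := bwd_eq L hL L le_rfl
  rw [Nat.sub_self] at hb
  simp only [List.replicate_zero, List.nil_append] at hb
  -- inversion of the first variable
  have hinv1 : Psi ((-q^2) :: (-q^2) :: l0) = (-q^2)^(L+1) • Psi ((-q) :: (-q^2) :: l0) := by
    have := Psi_inv1 (-q^2) ((-q^2) :: l0) (neg_ne_zero.mpr (pow_ne_zero _ hq))
      (by simp only [List.length_cons, hlen]; exact hLe.add_one)
    have e : (-q^2)⁻¹ = -q := by
      rw [inv_eq_iff_eq_inv]
      have : (-q) ≠ 0 := neg_ne_zero.mpr hq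
      apply mul_right_cancel₀ this
      rw [inv_mul_cancel₀ this]
      linear_combination h3
    rw [e] at this
    simpa [hlen] using this
  -- exchange
  have hexch : Psi ((-q^2) :: (-q) :: l0) =
      Finsupp.mapDomain (St.act 0) (Psi ((-q) :: (-q^2) :: l0)) := by
    have := Psi_exch [] l0 (-q) (-q^2) (by simpa [hlen] using hLe)
    have e1 : q * (-q) - q^2 * (-q^2) = -q^2 + q := by linear_combination h4
    have e2 : q * (-q^2) - q^2 * (-q) = 0 := by ring
    have e3 : (-q^2) - (-q) = -q^2 + q := by ring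
    rw [e1, e2, e3, zero_smul, zero_add] at this
    have hne : -q^2 + q ≠ 0 := by
      intro h
      have h1 : q * (1 - q) = 0 := by linear_combination h
      rcases mul_eq_zero.mp h1 with h2 | h2
      · exact hq h2
      · exact q_ne_one (by linear_combination -h2)
    have h5 := congrArg (fun f => (-q^2 + q)⁻¹ • f) this
    simp only [smul_smul, inv_mul_cancel₀ hne, one_smul] at h5
    simpa using h5
  -- cancel ins 0
  have hact : ∀ g : St →₀ ℂ, Finsupp.mapDomain (St.act 0) g =
      Finsupp.mapDomain (St.ins 0) (Finsupp.mapDomain (St.cap 0) g) := by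
    intro g
    rw [← Finsupp.mapDomain_comp]
    congr 1
    funext R
    exact St.act_eq 0 R
  have hcap : Finsupp.mapDomain (St.cap 0) (Psi ((-q) :: (-q^2) :: l0)) = fac (-q^2) l0 • v0 := by
    apply Finsupp.mapDomain_injective (St.ins_inj 0)
    rw [← hact, ← hexch, hrec, mapDomain_lin]
  -- conclusion
  have hmain : fac (-q^2) l0 • Tvec L v0 = fac (-q^2) l0 • v0 := by
    rw [← Tvec_smul]
    unfold Tvec
    rw [mapDomain_lin, ← hrec]
    rw [← hf]
    have e1 : (-q^2) :: List.replicate L (1:ℂ) ++ (-q) :: [0] =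
      (-q^2) :: List.replicate L 1 ++ [(-q), 0] := rfl
    rw [e1, hinv, bwd_smul]
    have e2 : (-q^2) :: List.replicate L (1:ℂ) ++ [(-q^2), 0] =
      (-q^2) :: List.replicate L 1 ++ (-q^2) :: [0] := rfl
    rw [e2, hb, hinv1, smul_smul, mapDomain_lin, hcap]
    have e3 : (-q)^(L+1) * (-q^2)^(L+1) = 1 := by
      rw [← mul_pow]
      have : -q * -q^2 = 1 := by linear_combination h3
      rw [this, one_pow]
    rw [e3, one_smul]
  have hne : fac (-q^2) l0 ≠ 0 := fac_ne L
  have h5 := congrArg (fun f => (fac (-q^2) l0)⁻¹ • f) hmain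
  simp only [smul_smul, inv_mul_cancel₀ hne, one_smul] at h5
  exact h5

end Pool.Agent.H988R2.Perc
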