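import Pool.Agent.H988R2.Perc.T21

/-! T22: gluing past and future; dictionary with `ℤ²`. -/

namespace Pool.Agent.H988R2.Perc

/-- adjacency in the window `-2M ≤ r < 2M` of the strip, coordinates (column, time) -/
def GAdj (L M : ℕ) (ω : Conf) (a b : ℤ × ℤ) : Prop :=
  ∃ i r : ℤ, 1 ≤ i ∧ i ≤ L ∧ -(2 * (M : ℤ)) ≤ r ∧ r < 2 * M ∧ ω (edgeOf i r) = true ∧
    (((i + r) % 2 = 1 ∧ a = (i, r) ∧ b = (i-1, r+1)) ∨
     ((i + r) % 2 = 0 ∧ a = (i-1, r) ∧ b = (i, r+1)))

/-! ### auxiliary facts -/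

theorem T22.eqvGen_iff {α : Type*} {E : α → α → Prop} (P : α → Prop)
    (h : ∀ a b, E a b → (P a ↔ P b)) {a b : α} (hab : Relation.EqvGen E a b) : P a ↔ P b := by
  induction hab with
  | rel a b h1 => exact h a b h1
  | refl a => exact Iff.rfl
  | symm a b _ ih => exact ih.symm
  | trans a b c _ _ i1 i2 => exact i1.trans i2

theorem T22.eqvGen_map {α β : Type*} {E : α → α → Prop} {F : β → β → Prop} (f : α → β)
    (h : ∀ a b, E a b → Relation.EqvGen F (f a) (f b)) {a b : α}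
    (hab : Relation.EqvGen E a b) : Relation.EqvGen F (f a) (f b) := by
  induction hab with
  | rel a b h1 => exact h a b h1
  | refl a => exact Relation.EqvGen.refl _
  | symm a b _ ih => exact ih.symm
  | trans a b c _ _ i1 i2 => exact i1.trans _ _ _ i2

/-- the part of `GAdj` with `lo ≤ r < hi` -/
def T22.GPart (L : ℕ) (lo hi : ℤ) (ω : Conf) (a b : ℤ × ℤ) : Prop :=
  ∃ i r : ℤ, 1 ≤ i ∧ i ≤ L ∧ lo ≤ r ∧ r < hi ∧ ω (edgeOf i r) = true ∧
    (((i + r) % 2 = 1 ∧ a = (i, r) ∧ b = (i-1, r+1)) ∨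
     ((i + r) % 2 = 0 ∧ a = (i-1, r) ∧ b = (i, r+1)))

theorem T22.gadj_iff (L M : ℕ) (ω : Conf) (a b : ℤ × ℤ) :
    GAdj L M ω a b ↔ T22.GPart L (-(2 * (M : ℤ))) 0 ω a b ∨ T22.GPart L 0 (2 * M) ω a b := by
  constructor
  · rintro ⟨i, r, h1, h2, h3, h4, h5, h6⟩
    by_cases h : r < 0
    · exact Or.inl ⟨i, r, h1, h2, h3, h, h5, h6⟩
    · exact Or.inr ⟨i, r, h1, h2, by omega, h4, h5, h6⟩
  · rintro (⟨i, r, h1, h2, h3, h4, h5, h6⟩ | ⟨i, r, h1, h2, h3, h4, h5, h6⟩)
    · exact ⟨i, r, h1, h2, h3, by omega, h5, h6⟩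
    · exact ⟨i, r, h1, h2, by omega, h4, h5, h6⟩

/-- wired version -/
def T22.EP (L : ℕ) (lo hi : ℤ) (ω : Conf) (a b : ℤ × ℤ) : Prop :=
  T22.GPart L lo hi ω a b ∨ (a.1 = L ∧ b.1 = L)

theorem T22.past_iff (L : ℕ) (hL : Odd L) (M : ℕ) (ω : Conf) (a b : ℕ) (ha : a % 2 = 1)
    (hb : b % 2 = 1) (haL : a ≤ L) (hbL : b ≤ L) :
    (X L (actBit (oPast ω M)) M).rel a b ↔
      Relation.EqvGen (T22.EP L (-(2 * (M : ℤ))) 0 ω) ((a : ℤ), 0) ((b : ℤ), 0) := by
  rw [X_sem L hL M (oPast ω M) a b ha hb haL hbL]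
  constructor
  · intro h
    have := T22.eqvGen_map (F := T22.EP L (-(2 * (M : ℤ))) 0 ω)
      (fun p : ℕ × ℕ => (((p.1 : ℤ), (p.2 : ℤ) - 2 * M) : ℤ × ℤ)) ?_ h
    · simpa using this
    · rintro p p' (⟨i, k, h1, h2, h3, h4, h5⟩ | ⟨h1, h2⟩)
      · refine Relation.EqvGen.rel _ _ (Or.inl ⟨i, (k : ℤ) - 2 * M, by omega, by omega, by omega,
          by omega, h4, ?_⟩)
        rcases h5 with ⟨e1, e2, e3⟩ | ⟨e1, e2, e3⟩
        · left
          subst e2 e3
          refine ⟨by omega, by simp, ?_⟩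
          apply Prod.ext <;> simp <;> omega
        · right
          subst e2 e3
          refine ⟨by omega, ?_, ?_⟩
          · apply Prod.ext
            · simp; omega
            · simp
          · apply Prod.ext <;> simp <;> omega
      · exact Relation.EqvGen.rel _ _ (Or.inr ⟨by simp [h1], by simp [h2]⟩)
  · intro h
    have := T22.eqvGen_map (F := fun a b => StripAdj L (2*M) (oPast ω M) a b ∨ (a.1 = L ∧ b.1 = L))
      (fun p : ℤ × ℤ => ((p.1.toNat, (p.2 + 2 * M).toNat) : ℕ × ℕ)) ?_ h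
    · have e : ((0 : ℤ) + 2 * M).toNat = 2 * M := by omega
      simp only [Int.toNat_natCast, e] at this
      exact this
    · rintro p p' (⟨i, r, h1, h2, h3, h4, h5, h6⟩ | ⟨h1, h2⟩)
      · refine Relation.EqvGen.rel _ _ (Or.inl ⟨i.toNat, (r + 2 * M).toNat, by omega, by omega,
          by omega, ?_, ?_⟩)
        · unfold oPast
          have e1 : ((i.toNat : ℕ) : ℤ) = i := by omega
          have e2 : (((r + 2 * M).toNat : ℕ) : ℤ) - 2 * M = r := by omega
          rw [e1, e2]; exact h5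
        · rcases h6 with ⟨e1, e2, e3⟩ | ⟨e1, e2, e3⟩
          · left
            subst e2 e3
            refine ⟨by omega, by simp, ?_⟩
            apply Prod.ext <;> simp <;> omega
          · right
            subst e2 e3
            refine ⟨by omega, ?_, ?_⟩
            · apply Prod.ext
              · simp
              · simp
            · apply Prod.ext <;> simp <;> omega
      · exact Relation.EqvGen.rel _ _ (Or.inr ⟨by simp [h1], by simp [h2]⟩)

theorem T22.future_iff (L : ℕ) (hL : Odd L) (M : ℕ) (ω : Conf) (a b : ℕ) (ha : a % 2 = 1)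
    (hb : b % 2 = 1) (haL : a ≤ L) (hbL : b ≤ L) :
    (X L (actBit (oFut ω M)) M).rel a b ↔
      Relation.EqvGen (T22.EP L 0 (2 * M) ω) ((a : ℤ), 0) ((b : ℤ), 0) := by
  rw [X_sem L hL M (oFut ω M) a b ha hb haL hbL]
  constructor
  · intro h
    have := T22.eqvGen_map (F := T22.EP L 0 (2 * M) ω)
      (fun p : ℕ × ℕ => (((p.1 : ℤ), 2 * M - (p.2 : ℤ)) : ℤ × ℤ)) ?_ h
    · simpa using this
    · rintro p p' (⟨i, k, h1, h2, h3, h4, h5⟩ | ⟨h1, h2⟩)
      · apply Relation.EqvGen.symm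
        refine Relation.EqvGen.rel _ _ (Or.inl ⟨i, 2 * M - 1 - k, by omega, by omega, by omega,
          by omega, h4, ?_⟩)
        rcases h5 with ⟨e1, e2, e3⟩ | ⟨e1, e2, e3⟩
        · right
          subst e2 e3
          refine ⟨by omega, ?_, ?_⟩
          · apply Prod.ext <;> simp <;> omega
          · apply Prod.ext <;> simp <;> omega
        · left
          subst e2 e3
          refine ⟨by omega, ?_, ?_⟩
          · apply Prod.ext <;> simp <;> omega
          · apply Prod.ext <;> simp <;> omega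
      · exact Relation.EqvGen.rel _ _ (Or.inr ⟨by simp [h1], by simp [h2]⟩)
  · intro h
    have := T22.eqvGen_map (F := fun a b => StripAdj L (2*M) (oFut ω M) a b ∨ (a.1 = L ∧ b.1 = L))
      (fun p : ℤ × ℤ => ((p.1.toNat, (2 * M - p.2).toNat) : ℕ × ℕ)) ?_ h
    · have e : (2 * (M : ℤ) - 0).toNat = 2 * M := by omega
      simp only [Int.toNat_natCast, e] at this
      exact this
    · rintro p p' (⟨i, r, h1, h2, h3, h4, h5, h6⟩ | ⟨h1, h2⟩)
      · apply Relation.EqvGen.symm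
        refine Relation.EqvGen.rel _ _ (Or.inl ⟨i.toNat, (2 * M - 1 - r).toNat, by omega, by omega,
          by omega, ?_, ?_⟩)
        · unfold oFut
          have e1 : ((i.toNat : ℕ) : ℤ) = i := by omega
          have e2 : 2 * (M : ℤ) - 1 - (((2 * (M : ℤ) - 1 - r).toNat : ℕ) : ℤ) = r := by omega
          rw [e1, e2]; exact h5
        · rcases h6 with ⟨e1, e2, e3⟩ | ⟨e1, e2, e3⟩
          · right
            subst e2 e3
            refine ⟨by omega, ?_, ?_⟩
            · apply Prod.ext <;> simp <;> omega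
            · apply Prod.ext <;> simp <;> omega
          · left
            subst e2 e3
            refine ⟨by omega, ?_, ?_⟩
            · apply Prod.ext <;> simp <;> omega
            · apply Prod.ext <;> simp <;> omega
      · exact Relation.EqvGen.rel _ _ (Or.inr ⟨by simp [h1], by simp [h2]⟩)

theorem T22.gpart_facts {L : ℕ} {lo hi : ℤ} {ω : Conf} {a b : ℤ × ℤ}
    (h : T22.GPart L lo hi ω a b) :
    lo ≤ a.2 ∧ a.2 < hi ∧ b.2 = a.2 + 1 ∧ (a.1 + a.2) % 2 = 1 ∧ (b.1 + b.2) % 2 = 1 ∧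
    0 ≤ a.1 ∧ a.1 ≤ L ∧ 0 ≤ b.1 ∧ b.1 ≤ L := by
  obtain ⟨i, r, h1, h2, h3, h4, h5, ⟨h6, rfl, rfl⟩ | ⟨h6, rfl, rfl⟩⟩ := h
  · refine ⟨h3, h4, rfl, ?_, ?_, ?_, ?_, ?_, ?_⟩ <;> dsimp only <;> omega
  · refine ⟨h3, h4, rfl, ?_, ?_, ?_, ?_, ?_, ?_⟩ <;> dsimp only <;> omega

theorem T22.gadj_mono {L M M' : ℕ} (hM : M ≤ M') {ω : Conf} {a b : ℤ × ℤ}
    (h : GAdj L M ω a b) : GAdj L M' ω a b := by
  obtain ⟨i, r, h1, h2, h3, h4, h5, h6⟩ := h
  exact ⟨i, r, h1, h2, by omega, by omega, h5, h6⟩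

theorem win_iff (L : ℕ) (hL : Odd L) (M : ℕ) (ω : Conf) :
    ω ∈ Win L M ↔
      Relation.EqvGen (fun a b => GAdj L M ω a b ∨ (a.1 = L ∧ b.1 = L)) (1, 0) ((L : ℤ), 0) := by
  have hL1 : L % 2 = 1 := Nat.odd_iff.mp hL
  have mp : ∀ a b, T22.EP L (-(2 * (M : ℤ))) 0 ω a b →
      (GAdj L M ω a b ∨ (a.1 = L ∧ b.1 = L)) := by
    rintro a b (h | h)
    · exact Or.inl ((T22.gadj_iff L M ω a b).2 (Or.inl h))
    · exact Or.inr h
  have mf : ∀ a b, T22.EP L 0 (2 * M) ω a b → (GAdj L M ω a b ∨ (a.1 = L ∧ b.1 = L)) := by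
    rintro a b (h | h)
    · exact Or.inl ((T22.gadj_iff L M ω a b).2 (Or.inr h))
    · exact Or.inr h
  constructor
  · intro h
    have h' : Relation.EqvGen (fun a b => (X L (actBit (oPast ω M)) M).rel a b ∨
      (X L (actBit (oFut ω M)) M).rel a b) 1 L := h
    have := T22.eqvGen_map
      (F := fun a b => GAdj L M ω a b ∨ (a.1 = L ∧ b.1 = L))
      (fun a : ℕ => ((a : ℤ), (0 : ℤ))) ?_ h'
    · simpa using this
    · rintro a b (h | h)
      · rcases (X L (actBit (oPast ω M)) M).odd a b h with e | ⟨ha, hb⟩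
        · subst e; exact Relation.EqvGen.refl _
        · rcases X_supp L hL M _ a b h with e | ⟨haL, hbL⟩
          · subst e; exact Relation.EqvGen.refl _
          · exact ((T22.past_iff L hL M ω a b ha hb haL hbL).1 h).mono mp
      · rcases (X L (actBit (oFut ω M)) M).odd a b h with e | ⟨ha, hb⟩
        · subst e; exact Relation.EqvGen.refl _
        · rcases X_supp L hL M _ a b h with e | ⟨haL, hbL⟩
          · subst e; exact Relation.EqvGen.refl _
          · exact ((T22.future_iff L hL M ω a b ha hb haL hbL).1 h).mono mf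
  · intro h
    by_contra hc
    have hc' : ¬ Relation.EqvGen (fun a b => (X L (actBit (oPast ω M)) M).rel a b ∨
      (X L (actBit (oFut ω M)) M).rel a b) 1 L := hc
    set R := X L (actBit (oPast ω M)) M with hR
    set R' := X L (actBit (oFut ω M)) M with hR'
    set C : ℕ → Prop := fun a => Relation.EqvGen (fun a b => R.rel a b ∨ R'.rel a b) 1 a with hC
    let P : ℤ × ℤ → Prop := fun p => ∃ a : ℕ, a % 2 = 1 ∧ a ≤ L ∧ C a ∧
      ((p.2 ≤ 0 ∧ Relation.EqvGen (T22.EP L (-(2 * (M : ℤ))) 0 ω) p ((a : ℤ), 0)) ∨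
       (0 ≤ p.2 ∧ Relation.EqvGen (T22.EP L 0 (2 * M) ω) p ((a : ℤ), 0)))
    -- slice vertices
    have slice : ∀ g : ℕ, g % 2 = 1 → g ≤ L → P ((g : ℤ), 0) → C g := by
      rintro g hg hgL ⟨a, ha, haL, hCa, ⟨_, h1⟩ | ⟨_, h1⟩⟩
      · have h2 := (T22.past_iff L hL M ω g a hg ha hgL haL).2 h1
        exact Relation.EqvGen.trans _ _ _ hCa (Relation.EqvGen.symm _ _
          (Relation.EqvGen.rel _ _ (Or.inl h2)))
      · have h2 := (T22.future_iff L hL M ω g a hg ha hgL haL).2 h1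
        exact Relation.EqvGen.trans _ _ _ hCa (Relation.EqvGen.symm _ _
          (Relation.EqvGen.rel _ _ (Or.inr h2)))
    -- wired vertices are impossible
    have wired : ∀ p : ℤ × ℤ, p.1 = L → ¬ P p := by
      rintro p hp ⟨a, ha, haL, hCa, h1⟩
      apply hc'
      apply slice L hL1 le_rfl
      refine ⟨a, ha, haL, hCa, ?_⟩
      rcases h1 with ⟨_, h1⟩ | ⟨_, h1⟩
      · exact Or.inl ⟨le_rfl, Relation.EqvGen.trans _ _ _
          (Relation.EqvGen.rel _ _ (Or.inr ⟨rfl, hp⟩)) h1⟩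
      · exact Or.inr ⟨le_rfl, Relation.EqvGen.trans _ _ _
          (Relation.EqvGen.rel _ _ (Or.inr ⟨rfl, hp⟩)) h1⟩
    -- steps
    have pastStep : ∀ p p' : ℤ × ℤ, p.2 ≤ 0 → p'.2 ≤ 0 → (p.1 + p.2) % 2 = 1 → 0 ≤ p.1 →
        p.1 ≤ L → Relation.EqvGen (T22.EP L (-(2 * (M : ℤ))) 0 ω) p p' → P p → P p' := by
      intro p p' hp hp' h1 h2 h3 h4 hP
      obtain ⟨a, ha, haL, hCa, ⟨h5, h6⟩ | ⟨h5, h6⟩⟩ := id hP
      · exact ⟨a, ha, haL, hCa, Or.inl ⟨hp', Relation.EqvGen.trans _ _ _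
          (Relation.EqvGen.symm _ _ h4) h6⟩⟩
      · have hp0 : p.2 = 0 := le_antisymm hp h5
        have e : p = (((p.1.toNat : ℕ) : ℤ), 0) := by
          apply Prod.ext
          · dsimp only; omega
          · exact hp0
        rw [e] at hP h4
        have hg := slice p.1.toNat (by omega) (by omega) hP
        exact ⟨p.1.toNat, by omega, by omega, hg, Or.inl ⟨hp', Relation.EqvGen.symm _ _ h4⟩⟩
    have futStep : ∀ p p' : ℤ × ℤ, 0 ≤ p.2 → 0 ≤ p'.2 → (p.1 + p.2) % 2 = 1 → 0 ≤ p.1 →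
        p.1 ≤ L → Relation.EqvGen (T22.EP L 0 (2 * M) ω) p p' → P p → P p' := by
      intro p p' hp hp' h1 h2 h3 h4 hP
      obtain ⟨a, ha, haL, hCa, ⟨h5, h6⟩ | ⟨h5, h6⟩⟩ := id hP
      · have hp0 : p.2 = 0 := le_antisymm h5 hp
        have e : p = (((p.1.toNat : ℕ) : ℤ), 0) := by
          apply Prod.ext
          · dsimp only; omega
          · exact hp0
        rw [e] at hP h4
        have hg := slice p.1.toNat (by omega) (by omega) hP
        exact ⟨p.1.toNat, by omega, by omega, hg, Or.inr ⟨hp', Relation.EqvGen.symm _ _ h4⟩⟩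
      · exact ⟨a, ha, haL, hCa, Or.inr ⟨hp', Relation.EqvGen.trans _ _ _
          (Relation.EqvGen.symm _ _ h4) h6⟩⟩
    have key : P (1, 0) ↔ P ((L : ℤ), 0) := by
      refine T22.eqvGen_iff P ?_ h
      rintro p p' (h1 | ⟨h1, h2⟩)
      · rcases (T22.gadj_iff L M ω p p').1 h1 with h2 | h2
        · obtain ⟨f1, f2, f3, f4, f5, f6, f7, f8, f9⟩ := T22.gpart_facts h2
          have e : Relation.EqvGen (T22.EP L (-(2 * (M : ℤ))) 0 ω) p p' :=
            Relation.EqvGen.rel _ _ (Or.inl h2)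
          exact ⟨pastStep p p' (by omega) (by omega) f4 f6 f7 e,
            pastStep p' p (by omega) (by omega) f5 f8 f9 (Relation.EqvGen.symm _ _ e)⟩
        · obtain ⟨f1, f2, f3, f4, f5, f6, f7, f8, f9⟩ := T22.gpart_facts h2
          have e : Relation.EqvGen (T22.EP L 0 (2 * M) ω) p p' :=
            Relation.EqvGen.rel _ _ (Or.inl h2)
          exact ⟨futStep p p' (by omega) (by omega) f4 f6 f7 e,
            futStep p' p (by omega) (by omega) f5 f8 f9 (Relation.EqvGen.symm _ _ e)⟩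
      · exact ⟨fun h => absurd h (wired p h1), fun h => absurd h (wired p' h2)⟩
    have hP1 : P (1, 0) := by
      refine ⟨1, rfl, by omega, Relation.EqvGen.refl _, Or.inl ⟨le_rfl, ?_⟩⟩
      simpa using Relation.EqvGen.refl _
    exact wired _ rfl (key.1 hP1)

theorem win_mono (L : ℕ) (hL : Odd L) : Monotone (Win L) := by
  intro M M' hM ω h
  rw [win_iff L hL] at h ⊢
  refine h.mono ?_
  rintro a b (h | h)
  · exact Or.inl (T22.gadj_mono hM h)
  · exact Or.inr h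

/-! ### dictionary -/

/-- from (column, time) to `ℤ²` -/
def T22.toZ (p : ℤ × ℤ) : ℤ × ℤ := ((p.1 + p.2 + 1) / 2, (p.2 + 1 - p.1) / 2)

theorem T22.toZ_diff (p : ℤ × ℤ) (h : (p.1 + p.2) % 2 = 1) :
    (T22.toZ p).1 - (T22.toZ p).2 = p.1 := by
  unfold T22.toZ; dsimp only; omega

theorem T22.gadj_open {L M : ℕ} {ω : Conf} {a b : ℤ × ℤ} (h : GAdj L M ω a b) :
    OpenAdj ω (T22.toZ a) (T22.toZ b) := by
  obtain ⟨i, r, h1, h2, h3, h4, h5, ⟨h6, rfl, rfl⟩ | ⟨h6, rfl, rfl⟩⟩ := h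
  · right; right; left
    unfold edgeOf at h5
    rw [if_pos h6] at h5
    unfold T22.toZ
    constructor
    · apply Prod.ext <;> dsimp only <;> omega
    · exact h5
  · left
    unfold edgeOf at h5
    rw [if_neg (by omega)] at h5
    unfold T22.toZ
    have e1 : (i - 1 + r + 1) / 2 = (i + r) / 2 := by omega
    have e2 : (r + 1 - (i - 1)) / 2 = (r + 2 - i) / 2 := by omega
    constructor
    · apply Prod.ext <;> dsimp only <;> omega
    · dsimp only
      rw [e1, e2]; exact h5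

theorem T22.openAdj_symm {ω : Conf} {a b : ℤ × ℤ} (h : OpenAdj ω a b) : OpenAdj ω b a := by
  rcases h with h | h | h | h
  · exact Or.inr (Or.inl h)
  · exact Or.inl h
  · exact Or.inr (Or.inr (Or.inr h))
  · exact Or.inr (Or.inr (Or.inl h))

theorem T22.gadj_h (L M : ℕ) (ω : Conf) (u v : ℤ) (h : ω (u, v, false) = true) (h0 : 0 ≤ u - v)
    (h1 : u + 1 - v ≤ L) (h2 : -(2 * (M : ℤ)) ≤ u + v - 1) (h3 : u + v - 1 < 2 * M) :
    GAdj L M ω (u - v, u + v - 1) (u + 1 - v, u + 1 + v - 1) := by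
  refine ⟨u - v + 1, u + v - 1, by omega, by omega, h2, h3, ?_, Or.inr ⟨by omega, ?_, ?_⟩⟩
  · unfold edgeOf
    rw [if_neg (by omega)]
    have e1 : (u - v + 1 + (u + v - 1)) / 2 = u := by omega
    have e2 : (u + v - 1 + 2 - (u - v + 1)) / 2 = v := by omega
    rw [e1, e2]; exact h
  · apply Prod.ext <;> dsimp only; omega
  · apply Prod.ext <;> dsimp only <;> omega

theorem T22.gadj_v (L M : ℕ) (ω : Conf) (u v : ℤ) (h : ω (u, v, true) = true)
    (h0 : 0 ≤ u - (v + 1))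
    (h1 : u - v ≤ L) (h2 : -(2 * (M : ℤ)) ≤ u + v - 1) (h3 : u + v - 1 < 2 * M) :
    GAdj L M ω (u - v, u + v - 1) (u - (v + 1), u + (v + 1) - 1) := by
  refine ⟨u - v, u + v - 1, by omega, by omega, h2, h3, ?_, Or.inl ⟨by omega, rfl, ?_⟩⟩
  · unfold edgeOf
    rw [if_pos (by omega)]
    have e1 : (u - v + (u + v - 1) + 1) / 2 = u := by omega
    have e2 : (u + v - 1 + 1 - (u - v)) / 2 = v := by omega
    rw [e1, e2]; exact h
  · apply Prod.ext <;> dsimp only <;> omega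

/-- an open edge inside the strip belongs to a large window -/
theorem T22.open_gadj (L : ℕ) (ω : Conf) (x y : ℤ × ℤ) (h : OpenAdj ω x y)
    (hx0 : 0 ≤ x.1 - x.2) (hy0 : 0 ≤ y.1 - y.2) (hx : x.1 - x.2 ≤ L) (hy : y.1 - y.2 ≤ L) (M : ℕ)
    (hM : |x.1 + x.2| + |y.1 + y.2| + 1 ≤ M) :
    Relation.EqvGen (fun a b => GAdj L M ω a b ∨ (a.1 = L ∧ b.1 = L))
      (x.1 - x.2, x.1 + x.2 - 1) (y.1 - y.2, y.1 + y.2 - 1) := by
  have hb1 := abs_le.mp (le_refl |x.1 + x.2|)
  have hb2 := abs_le.mp (le_refl |y.1 + y.2|)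
  obtain ⟨x1, x2⟩ := x
  obtain ⟨y1, y2⟩ := y
  dsimp only at *
  rcases h with ⟨e, h⟩ | ⟨e, h⟩ | ⟨e, h⟩ | ⟨e, h⟩
  · simp only [Prod.mk.injEq] at e
    obtain ⟨rfl, rfl⟩ := e
    exact Relation.EqvGen.rel _ _ (Or.inl (T22.gadj_h L M ω _ _ h (by omega) (by omega) (by omega)
      (by omega)))
  · simp only [Prod.mk.injEq] at e
    obtain ⟨rfl, rfl⟩ := e
    exact Relation.EqvGen.symm _ _ (Relation.EqvGen.rel _ _ (Or.inl (T22.gadj_h L M ω _ _ h
      (by omega) (by omega) (by omega) (by omega))))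
  · simp only [Prod.mk.injEq] at e
    obtain ⟨rfl, rfl⟩ := e
    exact Relation.EqvGen.rel _ _ (Or.inl (T22.gadj_v L M ω _ _ h (by omega) (by omega) (by omega)
      (by omega)))
  · simp only [Prod.mk.injEq] at e
    obtain ⟨rfl, rfl⟩ := e
    exact Relation.EqvGen.symm _ _ (Relation.EqvGen.rel _ _ (Or.inl (T22.gadj_v L M ω _ _ h
      (by omega) (by omega) (by omega) (by omega))))

theorem T22.openAdj_step {ω : Conf} {x y : ℤ × ℤ} (h : OpenAdj ω x y) :
    y.1 - y.2 ≤ x.1 - x.2 + 1 := by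
  rcases h with ⟨e, _⟩ | ⟨e, _⟩ | ⟨e, _⟩ | ⟨e, _⟩ <;> rw [e] <;> dsimp only <;> omega

theorem iUnion_win (L : ℕ) (hL : Odd L) : ⋃ M, Win L M = Arm L := by
  have hL1 : L % 2 = 1 := Nat.odd_iff.mp hL
  ext ω
  rw [Set.mem_iUnion]
  constructor
  · rintro ⟨M, h⟩
    rw [win_iff L hL] at h
    by_contra hc
    let P : ℤ × ℤ → Prop := fun p => (p.1 + p.2) % 2 = 1 ∧
      Relation.ReflTransGen (fun a b => OpenAdj ω a b ∧ a.2 ≤ a.1 ∧ b.2 ≤ b.1) (1, 0) (T22.toZ p)
    have wired : ∀ p : ℤ × ℤ, p.1 = L → ¬ P p := by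
      rintro p hp ⟨h1, h2⟩
      exact hc ⟨T22.toZ p, by rw [T22.toZ_diff p h1, hp], h2⟩
    have key : P (1, 0) ↔ P ((L : ℤ), 0) := by
      refine T22.eqvGen_iff P ?_ h
      rintro p p' (h1 | ⟨h1, h2⟩)
      · have ho := T22.gadj_open h1
        have f : (p.1 + p.2) % 2 = 1 ∧ (p'.1 + p'.2) % 2 = 1 ∧ 0 ≤ p.1 ∧ 0 ≤ p'.1 := by
          rcases (T22.gadj_iff L M ω p p').1 h1 with h2 | h2
          · obtain ⟨f1, f2, f3, f4, f5, f6, f7, f8, f9⟩ := T22.gpart_facts h2
            exact ⟨f4, f5, f6, f8⟩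
          · obtain ⟨f1, f2, f3, f4, f5, f6, f7, f8, f9⟩ := T22.gpart_facts h2
            exact ⟨f4, f5, f6, f8⟩
        obtain ⟨f1, f2, f3, f4⟩ := f
        have d1 := T22.toZ_diff p f1
        have d2 := T22.toZ_diff p' f2
        constructor
        · rintro ⟨_, h3⟩
          exact ⟨f2, h3.tail ⟨ho, by omega, by omega⟩⟩
        · rintro ⟨_, h3⟩
          exact ⟨f1, h3.tail ⟨T22.openAdj_symm ho, by omega, by omega⟩⟩
      · exact ⟨fun h => absurd h (wired p h1), fun h => absurd h (wired p' h2)⟩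
    have hP1 : P (1, 0) := ⟨rfl, Relation.ReflTransGen.refl⟩
    exact wired _ rfl (key.1 hP1)
  · rintro ⟨x, hx, h⟩
    have hQ : (∃ M, ω ∈ Win L M) ∨ (0 ≤ x.1 - x.2 ∧ x.1 - x.2 < L ∧ ∃ M : ℕ,
        Relation.EqvGen (fun a b => GAdj L M ω a b ∨ (a.1 = L ∧ b.1 = L)) (1, 0)
          (x.1 - x.2, x.1 + x.2 - 1)) := by
      clear hx
      induction h with
      | refl =>
        by_cases hL' : L = 1
        · left
          refine ⟨0, ?_⟩
          rw [win_iff L hL, hL']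
          exact Relation.EqvGen.refl _
        · right
          refine ⟨by norm_num, by dsimp only; omega, 0, Relation.EqvGen.refl _⟩
      | tail _ hs ih =>
        rename_i y z _
        rcases ih with ih | ⟨i1, i2, M, ih⟩
        · exact Or.inl ih
        · obtain ⟨ho, s1, s2⟩ := hs
          have st := T22.openAdj_step ho
          obtain ⟨M', hM'⟩ : ∃ M' : ℕ, M ≤ M' ∧ |y.1 + y.2| + |z.1 + z.2| + 1 ≤ (M' : ℤ) := by
            refine ⟨M + (|y.1 + y.2| + |z.1 + z.2| + 1).toNat, by omega, ?_⟩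
            have := Int.self_le_toNat (|y.1 + y.2| + |z.1 + z.2| + 1)
            push_cast
            push_cast at this
            omega
          have hz : Relation.EqvGen (fun a b => GAdj L M' ω a b ∨ (a.1 = L ∧ b.1 = L)) (1, 0)
              (z.1 - z.2, z.1 + z.2 - 1) := by
            refine Relation.EqvGen.trans _ _ _ (ih.mono ?_)
              (T22.open_gadj L ω y z ho (by omega) (by omega) (by omega) (by omega) M' hM'.2)
            rintro a b (h | h)
            · exact Or.inl (T22.gadj_mono hM'.1 h)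
            · exact Or.inr h
          by_cases hzL : z.1 - z.2 = L
          · left
            refine ⟨M', ?_⟩
            rw [win_iff L hL]
            exact Relation.EqvGen.trans _ _ _ hz (Relation.EqvGen.rel _ _ (Or.inr ⟨hzL, rfl⟩))
          · right
            exact ⟨by omega, by omega, M', hz⟩
    rcases hQ with hQ | ⟨_, hQ, _⟩
    · exact hQ
    · omega

end Pool.Agent.H988R2.Perc
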