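import Pool.Agent.H988R2.Perc.Defs

/-! T23: probability of the window event. -/

namespace Pool.Agent.H988R2.Perc

open MeasureTheory Finset

/-! ### dependence on finitely many bits -/

namespace T23

theorem fwdS_congr (n : ℕ) (c c' : ℕ → Bool) (R : St)
    (h : ∀ i, 1 ≤ i → i ≤ n → c i = c' i) : fwdS n c R = fwdS n c' R := by
  induction n with
  | zero => rfl
  | succ n ih =>
    simp only [fwdS]
    rw [ih (fun i h1 h2 => h i h1 (by omega)), h (n+1) (by omega) le_rfl]

theorem bwdS_congr (n : ℕ) (c c' : ℕ → Bool) (R : St)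
    (h : ∀ i, 1 ≤ i → i ≤ n → c i = c' i) : bwdS n c R = bwdS n c' R := by
  induction n generalizing R with
  | zero => rfl
  | succ n ih =>
    simp only [bwdS]
    rw [h (n+1) (by omega) le_rfl, ih _ (fun i h1 h2 => h i h1 (by omega))]

theorem X_congr (L : ℕ) (c c' : ℕ → ℕ → Bool) (M : ℕ)
    (h : ∀ k i, k < 2*M → 1 ≤ i → i ≤ L → c k i = c' k i) : X L c M = X L c' M := by
  induction M with
  | zero => rfl
  | succ M ih =>
    simp only [X]
    rw [ih (fun k i hk h1 h2 => h k i (by omega) h1 h2),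
      fwdS_congr L (c (2*M)) (c' (2*M)) _ (fun i h1 h2 => h _ i (by omega) h1 h2),
      bwdS_congr L (c (2*M+1)) (c' (2*M+1)) _ (fun i h1 h2 => h _ i (by omega) h1 h2)]

/-- the bits of a finite set -/
def bits (t : Finset (ℕ × ℕ)) (k i : ℕ) : Bool := decide ((k, i) ∈ t)

/-- the coordinates of a window -/
def SS (L M : ℕ) : Finset (ℕ × ℕ) := range (2*M) ×ˢ Icc 1 L

/-- the first `n` coordinates of the row `k` -/
def row (k n : ℕ) : Finset (ℕ × ℕ) := {k} ×ˢ Icc 1 n

theorem mem_row {k n : ℕ} {j : ℕ × ℕ} : j ∈ row k n ↔ j.1 = k ∧ 1 ≤ j.2 ∧ j.2 ≤ n := by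
  rw [row, Finset.mem_product, Finset.mem_singleton, Finset.mem_Icc]

theorem mem_SS {L M : ℕ} {j : ℕ × ℕ} : j ∈ SS L M ↔ j.1 < 2*M ∧ 1 ≤ j.2 ∧ j.2 ≤ L := by
  rw [SS, Finset.mem_product, Finset.mem_range, Finset.mem_Icc]

theorem SS_succ (L M : ℕ) : SS L (M+1) = SS L M ∪ row (2*M) L ∪ row (2*M+1) L := by
  ext j
  simp only [mem_union, mem_SS, mem_row]
  omega

theorem row_succ (S : Finset (ℕ × ℕ)) (k n : ℕ) :
    S ∪ row k (n+1) = insert (k, n+1) (S ∪ row k n) := by
  ext ⟨a, b⟩
  simp only [mem_union, mem_insert, mem_row, Prod.mk.injEq]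
  by_cases h : (a, b) ∈ S
  · simp [h]
  · simp only [h, false_or]
    omega

theorem row_succ' (S : Finset (ℕ × ℕ)) (k n : ℕ) :
    S ∪ row k (n+1) = (insert (k, n+1) S) ∪ row k n := by
  rw [row_succ, insert_union]

theorem bits_insert (t : Finset (ℕ × ℕ)) (k i i' : ℕ) (h : i ≠ i') :
    bits (insert (k, i') t) k i = bits t k i := by
  simp [bits, h]

theorem bits_insert_self (t : Finset (ℕ × ℕ)) (k i : ℕ) :
    bits (insert (k, i) t) k i = true := by
  simp [bits]

theorem bits_not_mem (t : Finset (ℕ × ℕ)) (k i : ℕ) (h : (k, i) ∉ t) :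
    bits t k i = false := by
  simp [bits, h]

theorem actBit_insert (t : Finset (ℕ × ℕ)) (k i i' : ℕ) (h : i ≠ i') :
    actBit (bits (insert (k, i') t)) k i = actBit (bits t) k i := by
  simp [actBit, bits_insert t k i i' h]

theorem tile_single_sum {ι : Type*} (i : ℕ) (P : Finset ι) (R : ι → St) :
    tile i (∑ t ∈ P, Finsupp.single (R t) (1:ℂ)) =
      (1/2 : ℂ) • (∑ t ∈ P, (Finsupp.single (R t) (1:ℂ) + Finsupp.single (St.act i (R t)) 1)) := by
  unfold tile
  rw [Finsupp.mapDomain_finsetSum, ← Finset.sum_add_distrib]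
  simp only [Finsupp.mapDomain_single]

theorem tile_smul (i : ℕ) (a : ℂ) (f : St →₀ ℂ) : tile i (a • f) = a • tile i f := by
  unfold tile
  rw [Finsupp.mapDomain_smul, ← smul_add, smul_comm]

theorem fwd_smul (n : ℕ) (a : ℂ) (f : St →₀ ℂ) : fwd n (a • f) = a • fwd n f := by
  induction n with
  | zero => rfl
  | succ n ih => simp only [fwd]; rw [ih, tile_smul]

theorem bwd_smul (n : ℕ) (a : ℂ) (f : St →₀ ℂ) : bwd n (a • f) = a • bwd n f := by
  induction n generalizing f with
  | zero => rfl
  | succ n ih => simp only [bwd]; rw [tile_smul, ih]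

/-- one tile doubles the sum -/
theorem tile_step (S : Finset (ℕ × ℕ)) (k i : ℕ) (hS : (k, i) ∉ S)
    (Y : Finset (ℕ × ℕ) → St) (hY : ∀ t, Y (insert (k, i) t) = Y t) :
    tile i (∑ t ∈ S.powerset, Finsupp.single (Y t) (1:ℂ)) =
      (1/2 : ℂ) • ∑ t ∈ (insert (k, i) S).powerset,
        Finsupp.single (if actBit (bits t) k i then St.act i (Y t) else Y t) (1:ℂ) := by
  rw [tile_single_sum, Finset.sum_powerset_insert hS, ← Finset.sum_add_distrib]
  congr 1
  apply Finset.sum_congr rfl
  intro t ht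
  have hnt : (k, i) ∉ t := fun h => hS (Finset.mem_powerset.mp ht h)
  rw [hY]
  have h1 : actBit (bits t) k i = if i % 2 = 1 then false else true := by
    simp [actBit, bits_not_mem t k i hnt]
  have h2 : actBit (bits (insert (k, i) t)) k i = if i % 2 = 1 then true else false := by
    simp [actBit, bits_insert_self t k i]
  rw [h1, h2]
  by_cases h : i % 2 = 1
  · simp [h]
  · simp only [h, if_false, Bool.false_eq_true, if_true]
    rw [add_comm]

theorem fwd_step (n : ℕ) (S : Finset (ℕ × ℕ)) (k : ℕ) (hS : ∀ i, 1 ≤ i → i ≤ n → (k, i) ∉ S)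
    (Y : Finset (ℕ × ℕ) → St) (hY : ∀ i t, 1 ≤ i → i ≤ n → Y (insert (k, i) t) = Y t) :
    fwd n (∑ t ∈ S.powerset, Finsupp.single (Y t) (1:ℂ)) =
      ((1/2 : ℂ))^n • ∑ t ∈ (S ∪ row k n).powerset,
        Finsupp.single (fwdS n (actBit (bits t) k) (Y t)) (1:ℂ) := by
  induction n with
  | zero =>
    have : S ∪ row k 0 = S := by
      ext j; simp only [mem_union, mem_row]; constructor
      · rintro (h | h)
        · exact h
        · omega
      · exact Or.inl
    simp [fwd, fwdS, this]
  | succ n ih =>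
    simp only [fwd]
    rw [ih (fun i h1 h2 => hS i h1 (by omega)) (fun i t h1 h2 => hY i t h1 (by omega)),
      tile_smul, row_succ]
    have hn : (k, n+1) ∉ S ∪ row k n := by
      simp only [mem_union, mem_row, not_or]
      exact ⟨hS (n+1) (by omega) le_rfl, by omega⟩
    rw [tile_step (S ∪ row k n) k (n+1) hn
      (fun t => fwdS n (actBit (bits t) k) (Y t)) (by
        intro t
        rw [hY (n+1) t (by omega) le_rfl]
        exact fwdS_congr n _ _ _ (fun i _ h2 => actBit_insert t k i (n+1) (by omega)))]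
    rw [smul_smul, pow_succ]
    rfl

theorem bwd_step (n : ℕ) (S : Finset (ℕ × ℕ)) (k : ℕ) (hS : ∀ i, 1 ≤ i → i ≤ n → (k, i) ∉ S)
    (Y : Finset (ℕ × ℕ) → St) (hY : ∀ i t, 1 ≤ i → i ≤ n → Y (insert (k, i) t) = Y t) :
    bwd n (∑ t ∈ S.powerset, Finsupp.single (Y t) (1:ℂ)) =
      ((1/2 : ℂ))^n • ∑ t ∈ (S ∪ row k n).powerset,
        Finsupp.single (bwdS n (actBit (bits t) k) (Y t)) (1:ℂ) := by
  induction n generalizing S Y with
  | zero =>
    have : S ∪ row k 0 = S := by
      ext j; simp only [mem_union, mem_row]; constructor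
      · rintro (h | h)
        · exact h
        · omega
      · exact Or.inl
    simp [bwd, bwdS, this]
  | succ n ih =>
    simp only [bwd]
    rw [tile_step S k (n+1) (hS (n+1) (by omega) le_rfl) Y
      (fun t => hY (n+1) t (by omega) le_rfl), bwd_smul]
    rw [ih (insert (k, n+1) S) ?_
      (fun t => if actBit (bits t) k (n+1) then St.act (n+1) (Y t) else Y t) ?_]
    · rw [smul_smul, row_succ', pow_succ']
      rfl
    · intro i h1 h2 h
      rw [mem_insert] at h
      rcases h with h | h
      · simp only [Prod.mk.injEq] at h; omega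
      · exact hS i h1 (by omega) h
    · intro i t h1 h2
      rw [hY i t h1 (by omega), actBit_insert t k (n+1) i (by omega)]

theorem mapDomain_sum_single {ι : Type*} (g : St → St) (P : Finset ι) (R : ι → St) :
    Finsupp.mapDomain g (∑ t ∈ P, Finsupp.single (R t) (1:ℂ)) =
      ∑ t ∈ P, Finsupp.single (g (R t)) (1:ℂ) := by
  rw [Finsupp.mapDomain_finsetSum]
  simp only [Finsupp.mapDomain_single]

theorem law_eq (L M : ℕ) : law L M =
    ((1/2 : ℂ))^(2*M*L) • ∑ t ∈ (SS L M).powerset,
      Finsupp.single (X L (actBit (bits t)) M) (1:ℂ) := by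
  induction M with
  | zero =>
    have : SS L 0 = ∅ := by simp [SS]
    simp [law, this, X]
  | succ M ih =>
    have h1 : law L (M+1) = Tvec L (law L M) := by
      unfold law; rw [Function.iterate_succ_apply']
    rw [h1, ih]
    unfold Tvec
    rw [Finsupp.mapDomain_smul, mapDomain_sum_single, fwd_smul,
      fwd_step L (SS L M) (2*M) (fun i _ _ h => by rw [mem_SS] at h; simp at h)
        (fun t => St.ins 0 (X L (actBit (bits t)) M)) ?_, bwd_smul, bwd_smul,
      bwd_step L (SS L M ∪ row (2*M) L) (2*M+1)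
        (fun i _ _ h => by
          rw [mem_union, mem_SS, mem_row] at h
          simp only at h
          omega)
        (fun t => fwdS L (actBit (bits t) (2*M)) (St.ins 0 (X L (actBit (bits t)) M))) ?_,
      Finsupp.mapDomain_smul, Finsupp.mapDomain_smul, Finsupp.mapDomain_smul,
      mapDomain_sum_single, ← SS_succ, smul_smul, smul_smul]
    · congr 1
      rw [← pow_add, ← pow_add]
      congr 1
      ring
    · intro i t _ _
      have e1 : ∀ k i', k ≠ 2*M+1 → actBit (bits (insert (2*M+1, i) t)) k i' =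
          actBit (bits t) k i' := by
        intro k i' hk
        simp [actBit, bits, hk]
      rw [X_congr L _ (actBit (bits t)) M (fun k i' hk _ _ => e1 k i' (by omega)),
        fwdS_congr L _ (actBit (bits t) (2*M)) _ (fun i' _ _ => e1 _ i' (by omega))]
    · intro i t _ _
      have e1 : ∀ k i', k ≠ 2*M → actBit (bits (insert (2*M, i) t)) k i' =
          actBit (bits t) k i' := by
        intro k i' hk
        simp [actBit, bits, hk]
      rw [X_congr L _ (actBit (bits t)) M (fun k i' hk _ _ => e1 k i' (by omega))]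

open Classical in
theorem pair_sum (L : ℕ) (a : ℂ) {ι : Type*} (P : Finset ι) (R R' : ι → St) :
    pair L (a • ∑ t ∈ P, Finsupp.single (R t) (1:ℂ)) (a • ∑ t ∈ P, Finsupp.single (R' t) (1:ℂ)) =
      a * a * ∑ t ∈ P, ∑ t' ∈ P, (if conn L (R t) (R' t') then 1 else 0) := by
  have key : ∀ f g : St →₀ ℂ, pair L f g =
      Finsupp.linearCombination ℂ (fun R => Finsupp.linearCombination ℂ
        (fun R' => if conn L R R' then (1:ℂ) else 0) g) f := by
    intro f g
    unfold pair
    rw [Finsupp.linearCombination_apply]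
    apply Finsupp.sum_congr
    intro x _
    rw [Finsupp.linearCombination_apply, Finsupp.sum, Finsupp.sum, Finset.smul_sum]
    apply Finset.sum_congr rfl
    intro y _
    simp only [smul_eq_mul]
    ring
  rw [key, map_smul, map_sum]
  simp only [Finsupp.linearCombination_single, one_smul, map_smul, map_sum, smul_eq_mul]
  rw [mul_assoc]
  congr 1
  rw [Finset.mul_sum]
  simp only [one_mul]

/-! ### the measure -/

theorem edgeOf_inj {i r i' r' : ℤ} (h : edgeOf i r = edgeOf i' r') : i = i' ∧ r = r' := by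
  unfold edgeOf at h
  split_ifs at h with h1 h2 h2
  · simp only [Prod.mk.injEq, and_true] at h
    omega
  · simp at h
  · simp at h
  · simp only [Prod.mk.injEq, and_true] at h
    omega

/-- past edge of a coordinate -/
def eP (M : ℕ) (j : ℕ × ℕ) : Edge := edgeOf j.2 ((j.1 : ℤ) - 2 * M)
/-- future edge of a coordinate -/
def eF (M : ℕ) (j : ℕ × ℕ) : Edge := edgeOf j.2 (2 * (M : ℤ) - 1 - j.1)

/-- past bits as a set -/
def tP (L M : ℕ) (ω : Conf) : Finset (ℕ × ℕ) := (SS L M).filter (fun j => ω (eP M j) = true)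
/-- future bits as a set -/
def tF (L M : ℕ) (ω : Conf) : Finset (ℕ × ℕ) := (SS L M).filter (fun j => ω (eF M j) = true)

theorem X_past (L M : ℕ) (ω : Conf) :
    X L (actBit (oPast ω M)) M = X L (actBit (bits (tP L M ω))) M := by
  apply X_congr
  intro k i hk h1 h2
  have : oPast ω M k i = bits (tP L M ω) k i := by
    have hm : (k, i) ∈ SS L M := by rw [mem_SS]; exact ⟨hk, h1, h2⟩
    simp only [oPast, bits, tP, mem_filter, hm, true_and, eP]
    cases ω (edgeOf i ((k:ℤ) - 2 * M)) <;> simp
  simp only [actBit, this]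

theorem X_fut (L M : ℕ) (ω : Conf) :
    X L (actBit (oFut ω M)) M = X L (actBit (bits (tF L M ω))) M := by
  apply X_congr
  intro k i hk h1 h2
  have : oFut ω M k i = bits (tF L M ω) k i := by
    have hm : (k, i) ∈ SS L M := by rw [mem_SS]; exact ⟨hk, h1, h2⟩
    simp only [oFut, bits, tF, mem_filter, hm, true_and, eF]
    cases ω (edgeOf i (2 * (M:ℤ) - 1 - k)) <;> simp
  simp only [actBit, this]

/-- cell of the partition of the configurations by the values of the bits -/
def cell (L M : ℕ) (p : Finset (ℕ × ℕ) × Finset (ℕ × ℕ)) : Set Conf :=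
  {ω | tP L M ω = p.1 ∧ tF L M ω = p.2}

/-- index set of the coordinates -/
abbrev J (L M : ℕ) := ↥(SS L M) ⊕ ↥(SS L M)

/-- the edges -/
def ee (L M : ℕ) : J L M → Edge
  | Sum.inl j => eP M j
  | Sum.inr j => eF M j

theorem ee_inj (L M : ℕ) : Function.Injective (ee L M) := by
  rintro (⟨⟨k, i⟩, h⟩ | ⟨⟨k, i⟩, h⟩) (⟨⟨k', i'⟩, h'⟩ | ⟨⟨k', i'⟩, h'⟩) hh
  · simp only [ee, eP] at hh
    have := edgeOf_inj hh
    simp only [Sum.inl.injEq, Subtype.mk.injEq, Prod.mk.injEq]
    omega
  · simp only [ee, eP, eF] at hh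
    have := edgeOf_inj hh
    rw [mem_SS] at h h'
    simp only at h h'
    omega
  · simp only [ee, eP, eF] at hh
    have := edgeOf_inj hh
    rw [mem_SS] at h h'
    simp only at h h'
    omega
  · simp only [ee, eF] at hh
    have := edgeOf_inj hh
    simp only [Sum.inr.injEq, Subtype.mk.injEq, Prod.mk.injEq]
    omega

/-- the bit prescribed by a pair of sets -/
def bb (L M : ℕ) (p : Finset (ℕ × ℕ) × Finset (ℕ × ℕ)) : J L M → Bool
  | Sum.inl j => decide (j.1 ∈ p.1)
  | Sum.inr j => decide (j.1 ∈ p.2)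

theorem cell_eq (L M : ℕ) (p : Finset (ℕ × ℕ) × Finset (ℕ × ℕ)) (h1 : p.1 ⊆ SS L M)
    (h2 : p.2 ⊆ SS L M) :
    cell L M p = ⋂ j : J L M, (fun ω : Conf => ω (ee L M j)) ⁻¹' {bb L M p j} := by
  ext ω
  simp only [cell, Set.mem_ofPred_eq, Set.mem_iInter, Set.mem_preimage, Set.mem_singleton_iff]
  constructor
  · rintro ⟨e1, e2⟩ (⟨j, hj⟩ | ⟨j, hj⟩)
    · simp only [ee, bb]
      rw [← e1]
      simp only [tP, mem_filter, hj, true_and]
      cases ω (eP M j) <;> simp
    · simp only [ee, bb]
      rw [← e2]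
      simp only [tF, mem_filter, hj, true_and]
      cases ω (eF M j) <;> simp
  · intro h
    constructor
    · ext j
      simp only [tP, mem_filter]
      constructor
      · rintro ⟨hj, ho⟩
        have := h (Sum.inl ⟨j, hj⟩)
        simp only [ee, bb, ho] at this
        simpa using this.symm
      · intro hj
        refine ⟨h1 hj, ?_⟩
        have := h (Sum.inl ⟨j, h1 hj⟩)
        simp only [ee, bb, hj, decide_true] at this
        exact this
    · ext j
      simp only [tF, mem_filter]
      constructor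
      · rintro ⟨hj, ho⟩
        have := h (Sum.inr ⟨j, hj⟩)
        simp only [ee, bb, ho] at this
        simpa using this.symm
      · intro hj
        refine ⟨h2 hj, ?_⟩
        have := h (Sum.inr ⟨j, h2 hj⟩)
        simp only [ee, bb, hj, decide_true] at this
        exact this

theorem coin_singleton (b : Bool) : coin {b} = 1/2 := by
  unfold coin
  rw [PMF.toMeasure_apply_singleton _ _ (measurableSet_singleton b)]
  simp

theorem perc_cell (L M : ℕ) (p : Finset (ℕ × ℕ) × Finset (ℕ × ℕ)) (h1 : p.1 ⊆ SS L M)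
    (h2 : p.2 ⊆ SS L M) : perc (cell L M p) = (1/2) ^ (2 * (2*M*L)) := by
  rw [cell_eq L M p h1 h2]
  have hind : ProbabilityTheory.iIndepFun (fun (e : Edge) (ω : Conf) => ω e) perc := by
    unfold perc
    exact ProbabilityTheory.iIndepFun_infinitePi (X := fun _ b => b) (fun _ => measurable_id)
  have hind2 := hind.precomp (ee_inj L M)
  have h3 := hind2.measure_inter_preimage_eq_mul (Finset.univ : Finset (J L M))
    (sets := fun j => {bb L M p j}) (fun j _ => measurableSet_singleton _)
  simp only [Finset.mem_univ, Set.iInter_true, Function.comp_def] at h3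
  have h4 : ∀ j : J L M, perc ((fun ω : Conf => ω (ee L M j)) ⁻¹' {bb L M p j}) = 1/2 := by
    intro j
    have := (measurePreserving_eval_infinitePi (fun _ : Edge => coin) (ee L M j)).measure_preimage
      (measurableSet_singleton (bb L M p j)).nullMeasurableSet
    unfold perc
    rw [← coin_singleton (bb L M p j), ← this]
  rw [h3]
  simp only [h4]
  rw [Finset.prod_const, Finset.card_univ]
  congr 1
  simp only [Fintype.card_sum, Fintype.card_coe, SS, card_product, card_range, Nat.card_Icc]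
  simp only [Nat.add_sub_cancel]
  ring

theorem measurableSet_cell (L M : ℕ) (p : Finset (ℕ × ℕ) × Finset (ℕ × ℕ)) (h1 : p.1 ⊆ SS L M)
    (h2 : p.2 ⊆ SS L M) : MeasurableSet (cell L M p) := by
  rw [cell_eq L M p h1 h2]
  exact MeasurableSet.iInter (fun j => (measurable_pi_apply (ee L M j)) (measurableSet_singleton _))

open Classical in
/-- the good cells -/
noncomputable def good (L M : ℕ) : Finset (Finset (ℕ × ℕ) × Finset (ℕ × ℕ)) :=
  ((SS L M).powerset ×ˢ (SS L M).powerset).filter
    (fun p => conn L (X L (actBit (bits p.1)) M) (X L (actBit (bits p.2)) M))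

theorem mem_good {L M : ℕ} {p : Finset (ℕ × ℕ) × Finset (ℕ × ℕ)} :
    p ∈ good L M ↔ (p.1 ⊆ SS L M ∧ p.2 ⊆ SS L M) ∧
      conn L (X L (actBit (bits p.1)) M) (X L (actBit (bits p.2)) M) := by
  classical
  unfold good
  rw [Finset.mem_filter, Finset.mem_product, Finset.mem_powerset, Finset.mem_powerset]

theorem win_eq (L M : ℕ) : Win L M = ⋃ p ∈ good L M, cell L M p := by
  ext ω
  simp only [Win, Set.mem_ofPred_eq, Set.mem_iUnion, exists_prop]
  rw [X_past, X_fut]
  constructor
  · intro h
    refine ⟨(tP L M ω, tF L M ω), ?_, rfl, rfl⟩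
    rw [mem_good]
    exact ⟨⟨filter_subset _ _, filter_subset _ _⟩, h⟩
  · rintro ⟨⟨p1, p2⟩, hp, h1, h2⟩
    simp only at h1 h2
    subst h1 h2
    rw [mem_good] at hp
    exact hp.2

theorem good_sub {L M : ℕ} {p : Finset (ℕ × ℕ) × Finset (ℕ × ℕ)} (h : p ∈ good L M) :
    p.1 ⊆ SS L M ∧ p.2 ⊆ SS L M := by
  rw [mem_good] at h
  exact h.1

end T23

open T23

theorem measurableSet_win (L M : ℕ) : MeasurableSet (Win L M) := by
  rw [win_eq]
  exact Finset.measurableSet_biUnion _ (fun p hp =>
    measurableSet_cell L M p (good_sub hp).1 (good_sub hp).2)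

theorem perc_win (L M : ℕ) :
    ((perc.real (Win L M) : ℝ) : ℂ) = pair L (law L M) (law L M) := by
  rw [law_eq, pair_sum, win_eq, measureReal_biUnion_finset]
  · have h1 : ∀ p ∈ good L M, perc.real (cell L M p) = (1/2 : ℝ)^(2 * (2*M*L)) := by
      intro p hp
      rw [measureReal_def, perc_cell L M p (good_sub hp).1 (good_sub hp).2]
      simp
    rw [Finset.sum_congr rfl h1, Finset.sum_const, nsmul_eq_mul, good,
      ← Finset.sum_product', Finset.sum_boole]
    push_cast
    rw [← pow_add, ← two_mul, mul_comm]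
  · intro p _ p' _ hne
    rw [Function.onFun, Set.disjoint_left]
    rintro ω ⟨h1, h2⟩ ⟨h3, h4⟩
    exact hne (Prod.ext (h1.symm.trans h3) (h2.symm.trans h4))
  · intro p hp
    exact measurableSet_cell L M p (good_sub hp).1 (good_sub hp).2

end Pool.Agent.H988R2.Perc
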