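import Pool.Agent.H988R2.Perc.Defs

/-! T24: convergence to the stationary vector (Doeblin). -/

namespace Pool.Agent.H988R2.Perc

open Filter Topology

namespace T24

/-! ### the `ℓ¹` norm and the mass -/

/-- the `ℓ¹` norm -/
noncomputable def nrm (f : St →₀ ℂ) : ℝ := f.sum fun _ a => ‖a‖

theorem nrm_eq (f : St →₀ ℂ) (s : Finset St) (h : f.support ⊆ s) : nrm f = ∑ R ∈ s, ‖f R‖ :=
  Finsupp.sum_of_support_subset f h _ (by simp)

theorem nrm_nonneg (f : St →₀ ℂ) : 0 ≤ nrm f :=
  Finset.sum_nonneg fun _ _ => norm_nonneg _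

theorem nrm_add_le (f g : St →₀ ℂ) : nrm (f + g) ≤ nrm f + nrm g := by
  classical
  rw [nrm_eq (f + g) (f.support ∪ g.support) Finsupp.support_add,
    nrm_eq f _ Finset.subset_union_left, nrm_eq g _ Finset.subset_union_right,
    ← Finset.sum_add_distrib]
  exact Finset.sum_le_sum fun R _ => norm_add_le _ _

theorem nrm_smul (c : ℂ) (f : St →₀ ℂ) : nrm (c • f) = ‖c‖ * nrm f := by
  rw [nrm_eq (c • f) f.support Finsupp.support_smul, nrm_eq f f.support (Finset.Subset.refl _),
    Finset.mul_sum]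
  simp

theorem nrm_zero : nrm 0 = 0 := by simp [nrm]

theorem nrm_single (R : St) (c : ℂ) : nrm (Finsupp.single R c) = ‖c‖ := by
  unfold nrm
  exact Finsupp.sum_single_index (by simp)

theorem nrm_sum_le {ι : Type*} (s : Finset ι) (F : ι → (St →₀ ℂ)) :
    nrm (∑ i ∈ s, F i) ≤ ∑ i ∈ s, nrm (F i) := by
  classical
  induction s using Finset.induction_on with
  | empty => simp [nrm_zero]
  | insert a s ha ih =>
    rw [Finset.sum_insert ha, Finset.sum_insert ha]
    exact (nrm_add_le _ _).trans (by linarith)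

theorem nrm_mapDomain_le (φ : St → St) (f : St →₀ ℂ) : nrm (Finsupp.mapDomain φ f) ≤ nrm f := by
  unfold Finsupp.mapDomain Finsupp.sum
  refine (nrm_sum_le _ _).trans ?_
  rw [nrm_eq f f.support (Finset.Subset.refl _)]
  exact Finset.sum_le_sum fun R _ => (nrm_single _ _).le

theorem mass_add (f g : St →₀ ℂ) : mass (f + g) = mass f + mass g := by
  unfold mass
  exact Finsupp.sum_add_index' (fun _ => rfl) (fun _ _ _ => rfl)

theorem mass_smul (c : ℂ) (f : St →₀ ℂ) : mass (c • f) = c * mass f := by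
  unfold mass
  rw [Finsupp.sum_smul_index' (fun _ => rfl), Finsupp.sum, Finsupp.sum, Finset.mul_sum]
  rfl

theorem mass_mapDomain (φ : St → St) (f : St →₀ ℂ) : mass (Finsupp.mapDomain φ f) = mass f := by
  unfold mass
  exact Finsupp.sum_mapDomain_index (fun _ => rfl) (fun _ _ _ => rfl)

theorem mass_single (R : St) (c : ℂ) : mass (Finsupp.single R c) = c := by
  unfold mass
  exact Finsupp.sum_single_index rfl

/-! ### the pairing -/

theorem pair_add_left (L : ℕ) (f g h : St →₀ ℂ) :
    pair L (f + g) h = pair L f h + pair L g h := by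
  classical
  unfold pair
  refine Finsupp.sum_add_index' (fun R => ?_) (fun R a b => ?_)
  · simp
  · rw [← Finsupp.sum_add]
    refine Finsupp.sum_congr fun R' _ => ?_
    ring

theorem pair_add_right (L : ℕ) (f g h : St →₀ ℂ) :
    pair L f (g + h) = pair L f g + pair L f h := by
  classical
  unfold pair
  rw [← Finsupp.sum_add]
  refine Finsupp.sum_congr fun R _ => ?_
  refine Finsupp.sum_add_index' (fun R' => ?_) (fun R' a b => ?_)
  · simp
  · ring

theorem pair_smul_left (L : ℕ) (c : ℂ) (f g : St →₀ ℂ) :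
    pair L (c • f) g = c * pair L f g := by
  classical
  unfold pair
  rw [Finsupp.sum_smul_index' (fun R => by simp), Finsupp.sum, Finsupp.sum, Finset.mul_sum]
  refine Finset.sum_congr rfl fun R _ => ?_
  rw [Finsupp.sum, Finsupp.sum, Finset.mul_sum]
  refine Finset.sum_congr rfl fun R' _ => ?_
  simp only [smul_eq_mul]
  ring

theorem pair_smul_right (L : ℕ) (c : ℂ) (f g : St →₀ ℂ) :
    pair L f (c • g) = c * pair L f g := by
  classical
  unfold pair
  rw [Finsupp.sum, Finsupp.sum, Finset.mul_sum]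
  refine Finset.sum_congr rfl fun R _ => ?_
  rw [Finsupp.sum_smul_index' (fun R => by simp), Finsupp.sum, Finsupp.sum, Finset.mul_sum]
  refine Finset.sum_congr rfl fun R' _ => ?_
  simp only [smul_eq_mul]
  ring

theorem norm_pair_le (L : ℕ) (f g : St →₀ ℂ) : ‖pair L f g‖ ≤ nrm f * nrm g := by
  classical
  unfold pair nrm
  rw [Finsupp.sum, Finsupp.sum, Finset.sum_mul]
  refine (norm_sum_le _ _).trans (Finset.sum_le_sum fun R _ => ?_)
  rw [Finsupp.sum, Finsupp.sum, Finset.mul_sum]
  refine (norm_sum_le _ _).trans (Finset.sum_le_sum fun R' _ => ?_)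
  rw [norm_mul, norm_mul]
  have : ‖(if conn L R R' then (1:ℂ) else 0)‖ ≤ 1 := by
    split_ifs <;> simp
  calc ‖f R‖ * ‖g R'‖ * ‖(if conn L R R' then (1:ℂ) else 0)‖ ≤ ‖f R‖ * ‖g R'‖ * 1 :=
        mul_le_mul_of_nonneg_left this (by positivity)
    _ = _ := mul_one _

/-! ### Doeblin decompositions -/

/-- `T` is linear, mass preserving and `T f = ε φ_* f + r f` with `‖r f‖ ≤ (1-ε) ‖f‖`. -/
structure Dob (T : (St →₀ ℂ) → (St →₀ ℂ)) (φ : St → St) (ε : ℝ) : Prop where
  pos : 0 ≤ ε
  le : ε ≤ 1
  add : ∀ f g, T (f + g) = T f + T g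
  smul : ∀ (c : ℂ) f, T (c • f) = c • T f
  mass : ∀ f, mass (T f) = mass f
  dec : ∀ f, nrm (T f - (ε : ℂ) • Finsupp.mapDomain φ f) ≤ (1 - ε) * nrm f

theorem Dob.nrm_le {T : (St →₀ ℂ) → (St →₀ ℂ)} {φ : St → St} {ε : ℝ} (h : Dob T φ ε)
    (f : St →₀ ℂ) : nrm (T f) ≤ nrm f := by
  have h1 : T f = (T f - (ε : ℂ) • Finsupp.mapDomain φ f) + (ε : ℂ) • Finsupp.mapDomain φ f := by
    abel
  rw [h1]
  refine (nrm_add_le _ _).trans ?_
  rw [nrm_smul, Complex.norm_real, Real.norm_eq_abs, abs_of_nonneg h.pos]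
  have h2 := h.dec f
  have h3 := mul_le_mul_of_nonneg_left (nrm_mapDomain_le φ f) h.pos
  linarith

theorem dob_map (φ : St → St) : Dob (Finsupp.mapDomain φ) φ 1 where
  pos := zero_le_one
  le := le_rfl
  add f g := Finsupp.mapDomain_add
  smul c f := Finsupp.mapDomain_smul c f
  mass := mass_mapDomain φ
  dec f := by simp [nrm_zero]

theorem Dob.comp {T₂ T₁ : (St →₀ ℂ) → (St →₀ ℂ)} {φ₂ φ₁ : St → St} {ε₂ ε₁ : ℝ}
    (h₂ : Dob T₂ φ₂ ε₂) (h₁ : Dob T₁ φ₁ ε₁) :
    Dob (fun f => T₂ (T₁ f)) (fun R => φ₂ (φ₁ R)) (ε₂ * ε₁) where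
  pos := mul_nonneg h₂.pos h₁.pos
  le := by nlinarith [h₂.pos, h₁.pos, h₂.le, h₁.le]
  add f g := by rw [h₁.add, h₂.add]
  smul c f := by rw [h₁.smul, h₂.smul]
  mass f := by rw [h₂.mass, h₁.mass]
  dec f := by
    set r := T₁ f - (ε₁ : ℂ) • Finsupp.mapDomain φ₁ f with hr
    have e1 : T₁ f = r + (ε₁ : ℂ) • Finsupp.mapDomain φ₁ f := by rw [hr]; abel
    have e2 : T₂ (T₁ f) - ((ε₂ * ε₁ : ℝ) : ℂ) • Finsupp.mapDomain (fun R => φ₂ (φ₁ R)) f
        = T₂ r + (ε₁ : ℂ) • (T₂ (Finsupp.mapDomain φ₁ f) -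
            (ε₂ : ℂ) • Finsupp.mapDomain φ₂ (Finsupp.mapDomain φ₁ f)) := by
      have e3 : Finsupp.mapDomain (fun R => φ₂ (φ₁ R)) f =
          Finsupp.mapDomain φ₂ (Finsupp.mapDomain φ₁ f) := Finsupp.mapDomain_comp
      rw [e3, e1, h₂.add, h₂.smul, smul_sub, smul_smul]
      push_cast
      rw [mul_comm (ε₂ : ℂ) (ε₁ : ℂ)]
      abel
    rw [e2]
    refine (nrm_add_le _ _).trans ?_
    rw [nrm_smul, Complex.norm_real, Real.norm_eq_abs, abs_of_nonneg h₁.pos]
    have a1 := h₂.nrm_le r
    have a2 := h₁.dec f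
    have a3 := h₂.dec (Finsupp.mapDomain φ₁ f)
    have a4 := nrm_mapDomain_le φ₁ f
    have a5 : (1 - ε₂) * nrm (Finsupp.mapDomain φ₁ f) ≤ (1 - ε₂) * nrm f :=
      mul_le_mul_of_nonneg_left a4 (by linarith [h₂.le])
    have a6 := mul_le_mul_of_nonneg_left (a3.trans a5) h₁.pos
    rw [← hr] at a2
    nlinarith

/-- the good branch of a tile -/
def good (i : ℕ) (R : St) : St := if i % 2 = 0 then St.act i R else R

theorem dob_tile (i : ℕ) : Dob (tile i) (good i) (1/2) where
  pos := by norm_num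
  le := by norm_num
  add f g := by
    unfold tile
    rw [Finsupp.mapDomain_add, ← smul_add]
    congr 1
    abel
  smul c f := by
    unfold tile
    rw [Finsupp.mapDomain_smul, ← smul_add, smul_comm]
  mass f := by
    unfold tile
    rw [mass_smul, mass_add, mass_mapDomain]
    ring
  dec f := by
    have hh : ((1/2 : ℝ) : ℂ) = (1/2 : ℂ) := by push_cast; rfl
    have hn : ‖(1/2 : ℂ)‖ = 1/2 := by norm_num
    by_cases hi : i % 2 = 0
    · have e : tile i f - ((1/2 : ℝ) : ℂ) • Finsupp.mapDomain (good i) f = (1/2 : ℂ) • f := by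
        have : good i = St.act i := by funext R; simp [good, hi]
        rw [this, hh]
        unfold tile
        rw [smul_add]
        abel
      rw [e, nrm_smul, hn]
      linarith
    · have e : tile i f - ((1/2 : ℝ) : ℂ) • Finsupp.mapDomain (good i) f =
          (1/2 : ℂ) • Finsupp.mapDomain (St.act i) f := by
        have : good i = id := by funext R; simp [good, hi]
        rw [this, hh, Finsupp.mapDomain_id]
        unfold tile
        rw [smul_add]
        abel
      rw [e, nrm_smul, hn]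
      have := nrm_mapDomain_le (St.act i) f
      linarith

/-- the good branch of a forward row -/
def gfwd : ℕ → St → St
  | 0, R => R
  | L+1, R => good (L+1) (gfwd L R)

/-- the good branch of a backward row -/
def gbwd : ℕ → St → St
  | 0, R => R
  | L+1, R => gbwd L (good (L+1) R)

theorem dob_fwd (L : ℕ) : Dob (fwd L) (gfwd L) ((1/2)^L) := by
  induction L with
  | zero =>
    have h := dob_map (fun R => R)
    have e : (Finsupp.mapDomain (fun R : St => R) : (St →₀ ℂ) → (St →₀ ℂ)) = fwd 0 := by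
      funext f
      exact Finsupp.mapDomain_id
    rw [e] at h
    have e2 : gfwd 0 = (fun R => R) := rfl
    rw [e2, pow_zero]
    exact h
  | succ L ih =>
    have h := (dob_tile (L+1)).comp ih
    rw [pow_succ, mul_comm]
    exact h

theorem dob_bwd (L : ℕ) : Dob (bwd L) (gbwd L) ((1/2)^L) := by
  induction L with
  | zero =>
    have h := dob_map (fun R => R)
    have e : (Finsupp.mapDomain (fun R : St => R) : (St →₀ ℂ) → (St →₀ ℂ)) = bwd 0 := by
      funext f
      exact Finsupp.mapDomain_id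
    rw [e] at h
    have e2 : gbwd 0 = (fun R => R) := rfl
    rw [e2, pow_zero]
    exact h
  | succ L ih =>
    have h := ih.comp (dob_tile (L+1))
    rw [pow_succ]
    exact h

/-- the good branch of the double row -/
def gT (L : ℕ) (R : St) : St := St.cap 0 (gbwd L (gfwd L (St.ins 0 R)))

theorem dob_Tvec (L : ℕ) : Dob (Tvec L) (gT L) ((1/2)^L * (1/2)^L) := by
  have h := (dob_map (St.cap 0)).comp ((dob_bwd L).comp ((dob_fwd L).comp (dob_map (St.ins 0))))
  rw [one_mul, mul_one] at h
  exact h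

/-! ### the good branch ends in `bot` -/

theorem act_even {i : ℕ} (hi : i % 2 = 0) (R : St) (a b : ℕ) (h : (St.act i R).rel a b) :
    a = b ∨ (a ≠ i + 1 ∧ b ≠ i + 1 ∧ R.rel a b) := by
  rcases h with h | ⟨h1, h2, h3, h4, h5⟩
  · exact Or.inl h
  · right
    refine ⟨h3, h4, ?_⟩
    rcases h5 with h | ⟨h, h'⟩ | ⟨h, h'⟩
    · exact h
    · rcases R.odd _ _ h with h | ⟨h, h''⟩ <;> omega
    · rcases R.odd _ _ h with h | ⟨h, h''⟩ <;> omega

theorem act_even_bot {i : ℕ} (hi : i % 2 = 0) : St.act i St.bot = St.bot := by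
  apply St.ext
  funext a b
  apply propext
  constructor
  · intro h
    rcases act_even hi _ a b h with h | ⟨_, _, h⟩
    · exact h
    · exact h
  · intro h
    exact Or.inl h

theorem good_bot (i : ℕ) : good i St.bot = St.bot := by
  unfold good
  split_ifs with h
  · exact act_even_bot h
  · rfl

theorem gbwd_bot (L : ℕ) : gbwd L St.bot = St.bot := by
  induction L with
  | zero => rfl
  | succ L ih => rw [gbwd, good_bot, ih]

theorem gfwd_rel (L : ℕ) (R : St) (a b : ℕ) (h : (gfwd L R).rel a b) :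
    a = b ∨ (R.rel a b ∧ ∀ i, 1 ≤ i → i ≤ L → i % 2 = 0 → a ≠ i + 1 ∧ b ≠ i + 1) := by
  induction L generalizing a b with
  | zero =>
    right
    exact ⟨h, fun i h1 h2 => by omega⟩
  | succ L ih =>
    rw [gfwd] at h
    unfold good at h
    split_ifs at h with hp
    · rcases act_even hp _ a b h with h | ⟨h1, h2, h3⟩
      · exact Or.inl h
      · rcases ih a b h3 with h | ⟨h4, h5⟩
        · exact Or.inl h
        · right
          refine ⟨h4, fun i hi1 hi2 hi3 => ?_⟩
          rcases Nat.lt_or_ge i (L+1) with hlt | hge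
          · exact h5 i hi1 (by omega) hi3
          · have : i = L + 1 := by omega
            subst this
            exact ⟨h1, h2⟩
    · rcases ih a b h with h | ⟨h4, h5⟩
      · exact Or.inl h
      · right
        refine ⟨h4, fun i hi1 hi2 hi3 => ?_⟩
        rcases Nat.lt_or_ge i (L+1) with hlt | hge
        · exact h5 i hi1 (by omega) hi3
        · have : i = L + 1 := by omega
          subst this
          exact absurd hi3 hp

/-- states without relations beyond `K` -/
def Bd (K : ℕ) (R : St) : Prop := ∀ a b, R.rel a b → a = b ∨ (a < K ∧ b < K)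

theorem gT_bot {L : ℕ} (hL : Odd L) {R : St} (hR : Bd (L+1) R) : gT L R = St.bot := by
  have hL2 : L % 2 = 1 := Nat.odd_iff.mp hL
  have h1 : gfwd L (St.ins 0 R) = St.bot := by
    apply St.ext
    funext a b
    apply propext
    constructor
    · intro h
      change a = b
      rcases gfwd_rel L _ a b h with h | ⟨h1, h2⟩
      · exact h
      · rcases h1 with h | ⟨o1, o2, n1, n2, h⟩
        · exact h
        · rcases hR _ _ h with h | ⟨l1, l2⟩
          · unfold St.low at h
            split_ifs at h <;> omega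
          · have ha : a = L + 2 := by
              by_contra hne
              unfold St.low at l1
              have := (h2 (a - 1) (by omega) (by split_ifs at l1 <;> omega) (by omega)).1
              omega
            have hb : b = L + 2 := by
              by_contra hne
              unfold St.low at l2
              have := (h2 (b - 1) (by omega) (by split_ifs at l2 <;> omega) (by omega)).2
              omega
            omega
    · intro h
      change a = b at h
      subst h
      exact (gfwd L (St.ins 0 R)).eqv.refl a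
  unfold gT
  rw [h1, gbwd_bot]
  apply St.ext
  funext a b
  apply propext
  constructor
  · intro h
    change (St.act 0 St.bot).rel (St.up 0 a) (St.up 0 b) at h
    rw [act_even_bot (by norm_num)] at h
    change St.up 0 a = St.up 0 b at h
    change a = b
    unfold St.up at h
    split_ifs at h <;> omega
  · intro h
    change a = b at h
    subst h
    exact (St.cap 0 St.bot).eqv.refl a

/-! ### supports -/

theorem bd_act {K i : ℕ} (hi : i + 2 < K) {R : St} (hR : Bd K R) : Bd K (St.act i R) := by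
  intro a b h
  rcases h with h | ⟨h1, h2, h3, h4, h5⟩
  · exact Or.inl h
  · rcases h5 with h | ⟨h, h'⟩ | ⟨h, h'⟩
    · exact hR _ _ h
    · right
      rcases hR _ _ h with k | k <;> rcases hR _ _ h' with k' | k' <;> omega
    · right
      rcases hR _ _ h with k | k <;> rcases hR _ _ h' with k' | k' <;> omega

theorem bd_ins {K : ℕ} {R : St} (hR : Bd K R) : Bd (K+2) (St.ins 0 R) := by
  intro a b h
  rcases h with h | ⟨h1, h2, h3, h4, h5⟩
  · exact Or.inl h
  · unfold St.low at h5
    rcases hR _ _ h5 with k | k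
    · split_ifs at k <;> omega
    · split_ifs at k <;> omega

theorem bd_cap {K : ℕ} (hK : 0 < K) {R : St} (hR : Bd (K+2) R) : Bd K (St.cap 0 R) := by
  intro a b h
  change (St.act 0 R).rel (St.up 0 a) (St.up 0 b) at h
  have h' := bd_act (K := K + 2) (i := 0) (by omega) hR _ _ h
  unfold St.up at h'
  split_ifs at h' <;> omega

/-- vectors supported on states without relations beyond `K` -/
def BdV (K : ℕ) (f : St →₀ ℂ) : Prop := ∀ R ∈ f.support, Bd K R

theorem BdV.add {K : ℕ} {f g : St →₀ ℂ} (hf : BdV K f) (hg : BdV K g) : BdV K (f + g) := by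
  classical
  intro R hR
  rcases Finset.mem_union.mp (Finsupp.support_add hR) with h | h
  · exact hf R h
  · exact hg R h

theorem BdV.smul {K : ℕ} {f : St →₀ ℂ} (hf : BdV K f) (c : ℂ) : BdV K (c • f) :=
  fun R hR => hf R (Finsupp.support_smul hR)

theorem BdV.map {K K' : ℕ} {f : St →₀ ℂ} (hf : BdV K f) {φ : St → St}
    (hφ : ∀ R, Bd K R → Bd K' (φ R)) : BdV K' (Finsupp.mapDomain φ f) := by
  classical
  intro R hR
  obtain ⟨R', hR', rfl⟩ := Finset.mem_image.mp (Finsupp.mapDomain_support hR)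
  exact hφ _ (hf _ hR')

theorem BdV.tile {K i : ℕ} (hi : i + 2 < K) {f : St →₀ ℂ} (hf : BdV K f) :
    BdV K (Perc.tile i f) :=
  (hf.add (hf.map fun _ h => bd_act hi h)).smul _

theorem BdV.fwd {K L : ℕ} (hi : L + 2 < K) {f : St →₀ ℂ} (hf : BdV K f) :
    BdV K (Perc.fwd L f) := by
  induction L with
  | zero => exact hf
  | succ L ih => exact (ih (by omega)).tile hi

theorem BdV.bwd {K L : ℕ} (hi : L + 2 < K) {f : St →₀ ℂ} (hf : BdV K f) :
    BdV K (Perc.bwd L f) := by
  induction L generalizing f with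
  | zero => exact hf
  | succ L ih => exact ih (by omega) (hf.tile hi)

theorem BdV.Tvec {L : ℕ} {f : St →₀ ℂ} (hf : BdV (L+1) f) : BdV (L+1) (Perc.Tvec L f) :=
  (((hf.map fun _ h => bd_ins h).fwd (by omega)).bwd (by omega)).map
    fun _ h => bd_cap (by omega) h

/-! ### contraction -/

theorem mapDomain_gT {L : ℕ} (hL : Odd L) {f : St →₀ ℂ} (hf : BdV (L+1) f) :
    Finsupp.mapDomain (gT L) f = Finsupp.single St.bot (mass f) := by
  unfold Finsupp.mapDomain mass
  rw [Finsupp.sum, Finsupp.sum, Finsupp.single_finsetSum]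
  refine Finset.sum_congr rfl fun R hR => ?_
  rw [gT_bot hL (hf R hR)]

theorem contract {L : ℕ} (hL : Odd L) {f : St →₀ ℂ} (hf : BdV (L+1) f) (hm : mass f = 0) :
    nrm (Tvec L f) ≤ (1 - (1/2)^L * (1/2)^L) * nrm f := by
  have h := (dob_Tvec L).dec f
  rw [mapDomain_gT hL hf, hm, Finsupp.single_zero, smul_zero, sub_zero] at h
  exact h

theorem iter_bound {L : ℕ} (hL : Odd L) {f : St →₀ ℂ} (hf : BdV (L+1) f) (hm : mass f = 0)
    (M : ℕ) : nrm ((Tvec L)^[M] f) ≤ (1 - (1/2)^L * (1/2)^L)^M * nrm f ∧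
      BdV (L+1) ((Tvec L)^[M] f) ∧ mass ((Tvec L)^[M] f) = 0 := by
  induction M with
  | zero => simp [hf, hm]
  | succ M ih =>
    obtain ⟨h1, h2, h3⟩ := ih
    rw [Function.iterate_succ_apply']
    refine ⟨(contract hL h2 h3).trans ?_, h2.Tvec, by rw [(dob_Tvec L).mass, h3]⟩
    rw [pow_succ, mul_comm ((1 - (1/2)^L * (1/2)^L)^M) (1 - (1/2)^L * (1/2)^L), mul_assoc]
    exact mul_le_mul_of_nonneg_left h1 (by linarith [(dob_Tvec L).le])

theorem iter_add (L M : ℕ) (f g : St →₀ ℂ) :
    (Tvec L)^[M] (f + g) = (Tvec L)^[M] f + (Tvec L)^[M] g := by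
  induction M with
  | zero => rfl
  | succ M ih =>
    rw [Function.iterate_succ_apply', Function.iterate_succ_apply',
      Function.iterate_succ_apply', ih, (dob_Tvec L).add]

theorem iter_fix (L M : ℕ) (f : St →₀ ℂ) (h : Tvec L f = f) : (Tvec L)^[M] f = f :=
  Function.iterate_fixed h M

end T24

open T24

theorem pair_law_tendsto (L : ℕ) (hL : Odd L) (v : St →₀ ℂ) (hT : Tvec L v = v)
    (hs : ∀ R ∈ v.support, ∀ a b, R.rel a b → a = b ∨ (a < L + 1 ∧ b < L + 1))
    (hm : mass v ≠ 0) :
    Tendsto (fun M => pair L (law L M) (law L M)) atTop (𝓝 (pair L v v / (mass v)^2)) := by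
  set w : St →₀ ℂ := (mass v)⁻¹ • v with hw
  have hwT : Tvec L w = w := by rw [hw, (dob_Tvec L).smul, hT]
  have hwm : mass w = 1 := by rw [hw, mass_smul, inv_mul_cancel₀ hm]
  have hwB : BdV (L+1) w := BdV.smul (fun R hR => hs R hR) _
  set u : St →₀ ℂ := Finsupp.single St.bot 1 + (-1 : ℂ) • w with hu
  have huB : BdV (L+1) u := by
    refine BdV.add ?_ (hwB.smul _)
    intro R hR a b h
    have : R = St.bot := by
      have := Finsupp.support_single_subset hR
      simpa using this
    subst this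
    exact Or.inl h
  have hum : mass u = 0 := by
    rw [hu, mass_add, mass_smul, mass_single, hwm]; ring
  have hlaw : ∀ M, law L M = (Tvec L)^[M] u + w := by
    intro M
    have e : (Finsupp.single St.bot 1 : St →₀ ℂ) = u + w := by
      rw [hu]; simp
    rw [law, e, iter_add, iter_fix L M w hwT]
  have hw2 : pair L w w = pair L v v / (mass v)^2 := by
    rw [hw, pair_smul_left, pair_smul_right]
    field_simp
  rw [← hw2]
  set ρ : ℝ := 1 - (1/2)^L * (1/2)^L with hρ
  have hρ0 : 0 ≤ ρ := by have := (dob_Tvec L).le; linarith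
  have hρ1 : ρ < 1 := by
    have : (0:ℝ) < (1/2)^L * (1/2)^L := by positivity
    linarith
  have hlim : Tendsto (fun M : ℕ => ρ^M * nrm u * (nrm u + 2 * nrm w)) atTop (𝓝 0) := by
    have := (tendsto_pow_atTop_nhds_zero_of_lt_one hρ0 hρ1).mul_const (nrm u)
    have := this.mul_const (nrm u + 2 * nrm w)
    simpa using this
  rw [tendsto_iff_norm_sub_tendsto_zero]
  refine squeeze_zero (fun _ => norm_nonneg _) (fun M => ?_) hlim
  obtain ⟨h1, h2, h3⟩ := iter_bound hL huB hum M
  set x := (Tvec L)^[M] u with hx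
  have e : pair L (law L M) (law L M) - pair L w w =
      pair L x x + pair L x w + pair L w x := by
    rw [hlaw M, ← hx, pair_add_left, pair_add_right, pair_add_right]
    ring
  rw [e]
  have n1 := norm_pair_le L x x
  have n2 := norm_pair_le L x w
  have n3 := norm_pair_le L w x
  have hx0 := nrm_nonneg x
  have hu0 := nrm_nonneg u
  have hw0 := nrm_nonneg w
  have hpow : ρ^M ≤ 1 := pow_le_one₀ hρ0 hρ1.le
  have hxu : nrm x ≤ nrm u := by
    refine h1.trans ?_
    have := mul_le_mul_of_nonneg_right hpow hu0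
    rwa [one_mul] at this
  calc ‖pair L x x + pair L x w + pair L w x‖
      ≤ ‖pair L x x‖ + ‖pair L x w‖ + ‖pair L w x‖ := norm_add₃_le
    _ ≤ nrm x * nrm x + nrm x * nrm w + nrm w * nrm x := by linarith
    _ = nrm x * (nrm x + 2 * nrm w) := by ring
    _ ≤ (ρ^M * nrm u) * (nrm u + 2 * nrm w) := by
        apply mul_le_mul h1 (by linarith) (by positivity)
        exact mul_nonneg (pow_nonneg hρ0 M) hu0

end Pool.Agent.H988R2.Perc
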