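import Pool.Agent.H988R2.Perc.T16
import Pool.Agent.H988R2.Perc.T19
import Pool.Agent.H988R2.Perc.T20
import Pool.Agent.H988R2.Perc.T22
import Pool.Agent.H988R2.Perc.T23
import Pool.Agent.H988R2.Perc.T24
import Pool.Agent.H988R2.Perc.T25

/-! T26: final assembly. -/

namespace Pool.Agent.H988R2.Perc

open Filter Topology MeasureTheory

/-- the window probabilities converge to the arm probability -/
lemma t26_win_tendsto (L : ℕ) (hL : Odd L) :
    Tendsto (fun M => perc.real (Win L M)) atTop (𝓝 (perc.real (Arm L))) := by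
  have h1 : Tendsto (fun M => perc (Win L M)) atTop (𝓝 (perc (⋃ M, Win L M))) :=
    tendsto_measure_iUnion_atTop (win_mono L hL)
  rw [iUnion_win L hL] at h1
  have h2 := (ENNReal.tendsto_toReal (measure_ne_top perc (Arm L))).comp h1
  exact h2

/-- `B` of the vector of ones -/
lemma t26_B_ones (m : ℕ) : B (List.replicate (2*m+1) 1) =
    pair (2*m+1) (Psi (List.replicate (2*m+1) 1 ++ [0])) (Psi (List.replicate (2*m+1) 1 ++ [0])) := by
  unfold B PsiInv
  simp only [List.length_replicate, List.prod_replicate, one_pow, one_smul, List.map_replicate,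
    inv_one]

lemma t26_B_value (m : ℕ) : B (List.replicate (2*m+1) 1) =
    q^(2*m*m + 2*m) * ((chi (2*m) : ℂ) * (chi (2*m+2) : ℂ)) := by
  have h := B_formula 1 (List.replicate (2*m) 1) (by simp) one_ne_zero (by
    intro z hz
    rw [List.eq_of_mem_replicate hz]
    exact one_ne_zero)
  have e1 : (1 : ℂ) :: List.replicate (2*m) 1 = List.replicate (2*m+1) 1 := rfl
  have e2 : (1 : ℂ) :: List.replicate (2*m+1) 1 = List.replicate (2*(m+1)) 1 := rfl
  rw [e1, e2, Z_ones, Z_ones] at h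
  rw [h]
  simp only [List.length_replicate, List.prod_replicate, one_pow, mul_one]
  have e3 : 2 * (m+1) = 2*m+2 := by ring
  rw [e3]
  have e4 : (m+1) * (m+1-1) = m*m + m := by
    rw [Nat.add_sub_cancel]; ring
  rw [e4]
  have e5 : q^(2*m) * (q^(m*(m-1)) * (chi (2*m) : ℂ)) * (q^(m*m+m) * (chi (2*m+2) : ℂ)) =
      q^(2*m + m*(m-1) + (m*m+m)) * ((chi (2*m) : ℂ) * (chi (2*m+2) : ℂ)) := by
    rw [pow_add, pow_add]; ring
  rw [e5]
  congr 2
  rcases m with _ | k
  · simp
  · rw [Nat.add_sub_cancel]; ring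

theorem arm_prob (L : ℕ) (hL : Odd L) : perc.real (Arm L) = armFormula L := by
  obtain ⟨m, rfl⟩ := hL
  have hL : Odd (2*m+1) := ⟨m, rfl⟩
  set v := Psi (List.replicate (2*m+1) 1 ++ [0]) with hv
  have hlen : (List.replicate (2*m+1) (1:ℂ) ++ [0]).length = 2*m+1+1 := by simp
  have hmass : mass v = q^((m+1)*m) * (chi (2*m+1) : ℂ) := Z_ones_zero m
  have hchi : (chi (2*m+1) : ℂ) ≠ 0 := by
    exact_mod_cast (chi_pos (2*m+1)).ne'
  have hq : ∀ k : ℕ, q^k ≠ 0 := fun k => pow_ne_zero k q_ne_zero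
  have hmass0 : mass v ≠ 0 := by
    rw [hmass]
    exact mul_ne_zero (hq _) hchi
  have hlim := pair_law_tendsto (2*m+1) hL v (stationary (2*m+1) hL) (by
    intro R hR a b hab
    have := Psi_supp (List.replicate (2*m+1) 1 ++ [0]) (by rw [hlen]; exact ⟨m+1, by ring⟩) R hR a b
      hab
    rw [hlen] at this
    exact this) hmass0
  have hlim2 : Tendsto (fun M => ((perc.real (Win (2*m+1) M) : ℝ) : ℂ)) atTop
      (𝓝 ((perc.real (Arm (2*m+1)) : ℝ) : ℂ)) :=
    (Complex.continuous_ofReal.tendsto _).comp (t26_win_tendsto (2*m+1) hL)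
  have hlim3 : Tendsto (fun M => ((perc.real (Win (2*m+1) M) : ℝ) : ℂ)) atTop
      (𝓝 (pair (2*m+1) v v / (mass v)^2)) := by
    refine hlim.congr fun M => ?_
    rw [perc_win]
  have heq := tendsto_nhds_unique hlim2 hlim3
  have hB : pair (2*m+1) v v = q^(2*m*m + 2*m) * ((chi (2*m) : ℂ) * (chi (2*m+2) : ℂ)) := by
    rw [← t26_B_value, t26_B_ones]
  have hval : ((perc.real (Arm (2*m+1)) : ℝ) : ℂ) =
      ((chi (2*m) * chi (2*m+2) / (chi (2*m+1))^2 : ℝ) : ℂ) := by
    rw [heq, hB, hmass]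
    have e : (q^((m+1)*m) * (chi (2*m+1) : ℂ))^2 = q^(2*m*m+2*m) * (chi (2*m+1) : ℂ)^2 := by
      rw [mul_pow, ← pow_mul]
      congr 2
      ring
    rw [e, mul_div_mul_left _ _ (hq _)]
    push_cast
    rfl
  have hreal : perc.real (Arm (2*m+1)) = chi (2*m) * chi (2*m+2) / (chi (2*m+1))^2 := by
    exact_mod_cast hval
  rw [hreal, ← chi_ratio (2*m+1) hL]
  rfl

/-- the arm events decrease with `L` -/
theorem arm_anti {L L' : ℕ} (h1 : 1 ≤ L) (h : L ≤ L') : Arm L' ⊆ Arm L := by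
  rintro ω ⟨x, hx, hpath⟩
  have key : ∀ y : ℤ × ℤ,
      Relation.ReflTransGen (fun a b => OpenAdj ω a b ∧ a.2 ≤ a.1 ∧ b.2 ≤ b.1) (1, 0) y →
      (L : ℤ) ≤ y.1 - y.2 → ∃ z : ℤ × ℤ, z.1 - z.2 = L ∧
        Relation.ReflTransGen (fun a b => OpenAdj ω a b ∧ a.2 ≤ a.1 ∧ b.2 ≤ b.1) (1, 0) z := by
    intro y hy
    induction hy with
    | refl =>
      intro hL
      refine ⟨(1, 0), ?_, Relation.ReflTransGen.refl⟩
      have : (L : ℤ) ≤ 1 := by simpa using hL
      have h1' : (1 : ℤ) ≤ L := by exact_mod_cast h1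
      show (1 : ℤ) - 0 = L
      omega
    | tail hab hbc ih =>
      rename_i b c
      intro hL
      by_cases hb : (L : ℤ) ≤ b.1 - b.2
      · exact ih hb
      · refine ⟨c, ?_, Relation.ReflTransGen.tail hab hbc⟩
        have hstep : c.1 - c.2 ≤ b.1 - b.2 + 1 := by
          obtain ⟨hadj, -, -⟩ := hbc
          rcases hadj with ⟨h, -⟩ | ⟨h, -⟩ | ⟨h, -⟩ | ⟨h, -⟩
          · rw [h]; simp; omega
          · rw [h]; simp; omega
          · rw [h]; simp; omega
          · rw [h]; simp; omega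
        omega
  obtain ⟨z, hz, hp⟩ := key x hpath (by rw [hx]; exact_mod_cast h)
  exact ⟨z, hz, hp⟩

lemma t26_asymp (g : ℕ → ℕ) (hg1 : ∀ L, 2 ≤ L → L ≤ g L + 1) (hg2 : ∀ L, 2 ≤ L → g L ≤ L + 1) :
    Tendsto (fun L : ℕ => (L:ℝ)^((1:ℝ)/3) * armFormula (g L)) atTop
      (𝓝 (9 / 4 * Real.Gamma (2/3) / Real.Gamma (1/3))) ∨
    ¬ (∀ L, 2 ≤ L → Odd (g L)) := by
  by_cases hodd : ∀ L, 2 ≤ L → Odd (g L)
  · left
    have hgt : Tendsto g atTop atTop := by
      rw [tendsto_atTop]
      intro b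
      filter_upwards [eventually_ge_atTop (max 2 (b+1))] with L hL
      have h2 : 2 ≤ L := le_trans (le_max_left _ _) hL
      have hb : b + 1 ≤ L := le_trans (le_max_right _ _) hL
      have := hg1 L h2
      omega
    have hmain := armFormula_tendsto.comp hgt
    have hratio : Tendsto (fun L : ℕ => (L : ℝ) / (g L : ℝ)) atTop (𝓝 1) := by
      have hinv : Tendsto (fun L : ℕ => (1 : ℝ) / (g L : ℝ)) atTop (𝓝 0) :=
        tendsto_one_div_atTop_nhds_zero_nat.comp hgt
      have hlo : Tendsto (fun L : ℕ => 1 - (1 : ℝ) / (g L : ℝ)) atTop (𝓝 1) := by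
        simpa using hinv.const_sub 1
      have hhi : Tendsto (fun L : ℕ => 1 + (1 : ℝ) / (g L : ℝ)) atTop (𝓝 1) := by
        simpa using hinv.const_add 1
      refine tendsto_of_tendsto_of_tendsto_of_le_of_le' hlo hhi ?_ ?_
      · filter_upwards [eventually_ge_atTop 2] with L hL
        have h2 := hg2 L hL
        have hpos : (0 : ℝ) < g L := by
          have := hg1 L hL
          have : 1 ≤ g L := by omega
          exact_mod_cast this
        rw [le_div_iff₀ hpos, sub_mul, one_div, inv_mul_cancel₀ hpos.ne']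
        have : (g L : ℝ) ≤ L + 1 := by exact_mod_cast h2
        linarith
      · filter_upwards [eventually_ge_atTop 2] with L hL
        have h1 := hg1 L hL
        have hpos : (0 : ℝ) < g L := by
          have : 1 ≤ g L := by omega
          exact_mod_cast this
        rw [div_le_iff₀ hpos, add_mul, one_div, inv_mul_cancel₀ hpos.ne']
        have : (L : ℝ) ≤ g L + 1 := by exact_mod_cast h1
        linarith
    have hpow : Tendsto (fun L : ℕ => ((L : ℝ) / (g L : ℝ))^((1:ℝ)/3)) atTop (𝓝 1) := by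
      have := hratio.rpow_const (p := (1:ℝ)/3) (Or.inl one_ne_zero)
      simpa using this
    have hprod := hpow.mul hmain
    rw [one_mul] at hprod
    refine hprod.congr' ?_
    filter_upwards [eventually_ge_atTop 2] with L hL
    have h1 := hg1 L hL
    have hpos : (0 : ℝ) < g L := by
      have : 1 ≤ g L := by omega
      exact_mod_cast this
    simp only [Function.comp_apply]
    rw [Real.div_rpow (Nat.cast_nonneg L) hpos.le, ← mul_assoc,
      div_mul_cancel₀ _ (Real.rpow_pos_of_pos hpos _).ne']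
  · right
    exact hodd

theorem arm_asymptotics :
    Tendsto (fun L : ℕ => (L:ℝ)^((1:ℝ)/3) * perc.real (Arm L)) atTop
      (𝓝 (9 / 4 * Real.Gamma (2/3) / Real.Gamma (1/3))) := by
  have hlo : Tendsto (fun L : ℕ => (L:ℝ)^((1:ℝ)/3) * armFormula (2*(L/2)+1)) atTop
      (𝓝 (9 / 4 * Real.Gamma (2/3) / Real.Gamma (1/3))) := by
    rcases t26_asymp (fun L => 2*(L/2)+1) (fun L hL => by show L ≤ 2*(L/2)+1+1; omega)
      (fun L hL => by show 2*(L/2)+1 ≤ L+1; omega) with h | h
    · exact h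
    · exact absurd (fun L _ => ⟨L/2, rfl⟩) h
  have hhi : Tendsto (fun L : ℕ => (L:ℝ)^((1:ℝ)/3) * armFormula (2*((L-1)/2)+1)) atTop
      (𝓝 (9 / 4 * Real.Gamma (2/3) / Real.Gamma (1/3))) := by
    rcases t26_asymp (fun L => 2*((L-1)/2)+1) (fun L hL => by show L ≤ 2*((L-1)/2)+1+1; omega)
      (fun L hL => by show 2*((L-1)/2)+1 ≤ L+1; omega) with h | h
    · exact h
    · exact absurd (fun L _ => ⟨(L-1)/2, rfl⟩) h
  refine tendsto_of_tendsto_of_tendsto_of_le_of_le' hlo hhi ?_ ?_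
  · filter_upwards [eventually_ge_atTop 1] with L hL
    apply mul_le_mul_of_nonneg_left _ (Real.rpow_nonneg (Nat.cast_nonneg L) _)
    rw [← arm_prob _ ⟨L/2, rfl⟩]
    exact measureReal_mono (arm_anti hL (by omega))
  · filter_upwards [eventually_ge_atTop 1] with L hL
    apply mul_le_mul_of_nonneg_left _ (Real.rpow_nonneg (Nat.cast_nonneg L) _)
    rw [← arm_prob _ ⟨(L-1)/2, rfl⟩]
    exact measureReal_mono (arm_anti (by omega) (by omega))

end Pool.Agent.H988R2.Perc
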