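import Pool.Agent.H988R2.Perc.T01

/-! T02: order on words (lexicographic order of lists of Booleans, `false < true`), rainbow. -/

namespace Pool.Agent.H988R2.Perc

/-- first difference `false < true` -/
theorem lt_of_flip (p r s : Word) : p ++ false :: r < p ++ true :: s := by
  induction p with
  | nil => 
    rw [List.nil_append, List.nil_append, List.cons_lt_cons_iff]
    exact Or.inl (by decide)
  | cons a p ih =>
    rw [List.cons_append, List.cons_append, List.cons_lt_cons_iff]
    exact Or.inr ⟨rfl, ih⟩

theorem ins_length_append (u v : Word) : ins u.length (u ++ v) = u ++ true :: false :: v := by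
  simp [ins]

theorem ins_append_of_length {i : ℕ} (u v : Word) (h : u.length = i) :
    ins i (u ++ v) = u ++ true :: false :: v := by
  subst h; exact ins_length_append u v

theorem rainbow_succ (n : ℕ) : rainbow (n+1) = ins n (rainbow n) := by
  unfold rainbow
  rw [ins_append_of_length _ _ (by simp), List.replicate_succ', List.replicate_succ]
  simp

theorem length_rainbow (n : ℕ) : (rainbow n).length = 2 * n := by
  simp [rainbow]; ring

theorem dyck_rainbow (n : ℕ) : Dyck (rainbow n) := by
  induction n with
  | zero => simpa [rainbow] using Dyck.nil
  | succ n ih =>
    rw [rainbow_succ]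
    exact Dyck.ins n _ (by rw [length_rainbow]; omega) ih

theorem ins_getElem? {i : ℕ} {w : Word} (hi : i ≤ w.length) :
    (ins i w)[i]? = some true ∧ (ins i w)[i+1]? = some false := by
  have h1 : (w.take i).length = i := by simp [hi]
  constructor
  · unfold ins
    rw [List.getElem?_append_right (by omega), h1]
    simp
  · unfold ins
    rw [List.getElem?_append_right (by omega), h1]
    simp

theorem rainbow_getElem? (n k : ℕ) (h : k < 2 * n) :
    (rainbow n)[k]? = some (decide (k < n)) := by
  unfold rainbow
  by_cases hk : k < n
  · rw [List.getElem?_append_left (by simpa using hk)]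
    simp [hk]
  · rw [List.getElem?_append_right (by simpa using hk)]
    simp only [List.length_replicate, List.getElem?_replicate, hk, decide_false]
    rw [if_pos (by omega)]

theorem ins_eq_rainbow {i n : ℕ} {w : Word} (hi : i ≤ w.length) (h : ins i w = rainbow (n+1)) :
    i = n ∧ w = rainbow n := by
  have hl : w.length + 2 = 2 * (n+1) := by
    rw [← length_ins i w, h, length_rainbow]
  obtain ⟨h1, h2⟩ := ins_getElem? hi
  rw [h, rainbow_getElem? _ _ (by omega)] at h1
  rw [h, rainbow_getElem? _ _ (by omega)] at h2
  simp at h1 h2
  have hin : i = n := by omega
  subst hin
  refine ⟨rfl, ?_⟩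
  rw [rainbow_succ] at h
  exact ins_inj hi (by rw [length_rainbow]; omega) h

/-- letter counts -/
theorem dyck_count {w : Word} (hw : Dyck w) : w.count true = w.count false := by
  induction hw with
  | nil => rfl
  | ins i w hi _ ih =>
    unfold ins
    have h := congrArg (List.count true) (List.take_append_drop i w)
    have h' := congrArg (List.count false) (List.take_append_drop i w)
    simp only [List.count_append, List.count_cons] at h h' ⊢
    simp
    omega

theorem dyck_prefix {w : Word} (hw : Dyck w) :
    ∀ k, (w.take k).count false ≤ (w.take k).count true := by
  induction hw with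
  | nil => simp
  | ins i w hi _ ih =>
    intro k
    have h1 : (w.take i).length = i := by simp [hi]
    unfold ins
    by_cases hk : k ≤ i
    · rw [List.take_append_of_le_length (by omega), List.take_take, min_eq_left hk]
      exact ih k
    · have hk' : k = (w.take i).length + (k - i) := by omega
      rw [hk', List.take_length_add_append]
      obtain ⟨m, hm⟩ : ∃ m, k - i = m + 1 := ⟨k - i - 1, by omega⟩
      rw [hm, List.take_succ_cons]
      cases m with
      | zero =>
        have := ih i
        simp only [List.take_zero, List.count_append, List.count_cons, List.count_nil]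
        simp
        omega
      | succ m =>
        rw [List.take_succ_cons]
        have h2 : (w.take (i + m)) = w.take i ++ (w.drop i).take m := by
          rw [List.take_add]
        have := ih (i + m)
        rw [h2] at this
        simp only [List.count_append, List.count_cons] at this ⊢
        simp
        omega

theorem dichotomy (w : Word) :
    (∃ a b, w = List.replicate a true ++ List.replicate b false) ∨
    (∃ u v : Word, w = u ++ false :: true :: v) := by
  induction w with
  | nil => exact Or.inl ⟨0, 0, rfl⟩
  | cons x w ih =>
    rcases ih with ⟨a, b, rfl⟩ | ⟨u, v, rfl⟩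
    · cases x with
      | true => exact Or.inl ⟨a+1, b, by simp [List.replicate_succ]⟩
      | false =>
        cases a with
        | zero => exact Or.inl ⟨0, b+1, by simp [List.replicate_succ]⟩
        | succ a =>
          exact Or.inr ⟨[], List.replicate a true ++ List.replicate b false,
            by simp [List.replicate_succ]⟩
    · exact Or.inr ⟨x :: u, v, by simp⟩

/-- a well-formed word which is not a rainbow has a valley; its position is neither the first
nor the last. -/
theorem valley_exists {w : Word} (hw : Dyck w) (h : w ≠ rainbow (w.length / 2)) :
    ∃ u v : Word, w = u ++ false :: true :: v ∧ 1 ≤ u.length ∧ 1 ≤ v.length := by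
  rcases dichotomy w with ⟨a, b, hab⟩ | ⟨u, v, huv⟩
  · exfalso
    apply h
    have hc := dyck_count hw
    rw [hab] at hc
    simp [List.count_replicate] at hc
    have hl : w.length = a + b := by rw [hab]; simp
    rw [hl, hc]
    have : (b + b) / 2 = b := by omega
    rw [this, hab, hc]
    rfl
  · refine ⟨u, v, huv, ?_, ?_⟩
    · by_contra hu
      have hu0 : u = [] := by
        cases u with
        | nil => rfl
        | cons a u => simp at hu
      have := dyck_prefix hw 1
      rw [huv, hu0] at this
      simp at this
    · by_contra hv
      have hv0 : v = [] := by
        cases v with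
        | nil => rfl
        | cons a v => simp at hv
      have h1 := dyck_prefix hw (u.length + 1)
      have h2 := dyck_count hw
      rw [huv, hv0] at h1 h2
      rw [List.take_length_add_append] at h1
      simp only [List.take_succ_cons, List.take_zero, List.count_append, List.count_cons,
        List.count_nil] at h1 h2
      simp at h1 h2
      omega

theorem cap_valley (u v : Word) : cap u.length (u ++ false :: true :: v) = u ++ v := by
  unfold cap
  rw [List.drop_left, List.take_left]

theorem act_valley (u v : Word) :
    act u.length (u ++ false :: true :: v) = u ++ true :: false :: v := by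
  unfold act
  rw [cap_valley, ins_length_append]

theorem dyck_valley {u v : Word} (hw : Dyck (u ++ false :: true :: v)) :
    Dyck (u ++ true :: false :: v) := by
  rw [← act_valley]
  exact dyck_act hw (by simp)

theorem valley_lt (u v : Word) : u ++ false :: true :: v < u ++ true :: false :: v :=
  lt_of_flip u _ _

theorem flipL_spec (l : Word) : ∀ d, d + l.count false < l.count true →
    ∃ x y : Word, l = x ++ true :: y ∧ flipL d l = x ++ false :: y := by
  induction l with
  | nil => intro d h; simp at h
  | cons a l ih =>
    intro d h
    cases a with
    | false =>
      obtain ⟨x, y, h1, h2⟩ := ih (d+1) (by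
        simp only [List.count_cons] at h
        simp at h
        omega)
      exact ⟨false :: x, y, by rw [h1]; rfl, by rw [flipL, h2]; rfl⟩
    | true =>
      cases d with
      | zero => exact ⟨[], l, rfl, by rw [flipL]; rfl⟩
      | succ d =>
        obtain ⟨x, y, h1, h2⟩ := ih d (by
          simp only [List.count_cons] at h
          simp at h
          omega)
        exact ⟨true :: x, y, by rw [h1]; rfl, by rw [flipL, h2]; rfl⟩

/-- all other preimages are larger (lexicographically) -/
theorem act_eq_valley {u v w : Word} (hw : Dyck w) (hl : w.length = u.length + v.length + 2)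
    (h : act u.length w = u ++ true :: false :: v) :
    w = u ++ false :: true :: v ∨ u ++ false :: true :: v < w := by
  obtain ⟨u0, a, b, v0, hu0, hw0⟩ : ∃ (u0 : Word) (a b : Bool) (v0 : Word),
      u0.length = u.length ∧ w = u0 ++ a :: b :: v0 := by
    have hd : (w.drop u.length).length = v.length + 2 := by
      rw [List.length_drop]; omega
    match hm : w.drop u.length, hd with
    | a :: b :: v0, _ =>
      refine ⟨w.take u.length, a, b, v0, ?_, ?_⟩
      · rw [List.length_take]; omega
      · rw [← hm, List.take_append_drop]
  have hdrop : w.drop u.length = a :: b :: v0 := by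
    rw [hw0, ← hu0, List.drop_left]
  have htake : w.take u.length = u0 := by
    rw [hw0, ← hu0, List.take_left]
  unfold act at h
  cases a <;> cases b
  · -- F F
    have hcap : cap u.length w = (flipL 0 u0.reverse).reverse ++ v0 := by
      unfold cap
      rw [hdrop, htake]
    have hcnt : 0 + u0.reverse.count false < u0.reverse.count true := by
      have h1 := dyck_prefix hw (u0.length + 1)
      rw [hw0, List.take_length_add_append] at h1
      simp only [List.take_succ_cons, List.take_zero, List.count_append, List.count_cons,
        List.count_nil] at h1
      simp at h1
      rw [List.count_reverse, List.count_reverse]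
      omega
    obtain ⟨x, y, hx, hy⟩ := flipL_spec _ 0 hcnt
    rw [hcap, hy] at h
    have hlen : (x ++ false :: y).reverse.length = u.length := by
      have := congrArg List.length hx
      rw [List.length_reverse, hu0] at this
      rw [List.length_reverse, this]
      simp
    rw [ins_append_of_length _ _ hlen] at h
    obtain ⟨e1, e2⟩ := List.append_inj h hlen
    right
    have hu0' : u0 = y.reverse ++ true :: x.reverse := by
      have := congrArg List.reverse hx
      rw [List.reverse_reverse] at this
      rw [this]; simp
    rw [hw0, hu0', ← e1]
    have e3 : (x ++ false :: y).reverse ++ false :: true :: v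
        = y.reverse ++ false :: (x.reverse ++ false :: true :: v) := by simp
    have e4 : (y.reverse ++ true :: x.reverse) ++ false :: false :: v0
        = y.reverse ++ true :: (x.reverse ++ false :: false :: v0) := by simp
    rw [e3, e4]
    exact lt_of_flip _ _ _
  · -- F T
    have hcap : cap u.length w = u0 ++ v0 := by
      rw [hw0, ← hu0, cap_valley]
    rw [hcap, ins_append_of_length _ _ hu0] at h
    obtain ⟨e1, e2⟩ := List.append_inj h hu0
    left
    rw [hw0, e1]
    simp at e2
    rw [e2]
  · -- T F
    have hcap : cap u.length w = u0 ++ v0 := by
      unfold cap
      rw [hdrop, htake]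
    rw [hcap, ins_append_of_length _ _ hu0] at h
    obtain ⟨e1, e2⟩ := List.append_inj h hu0
    right
    rw [hw0, e1]
    exact lt_of_flip _ _ _
  · -- T T
    have hcap : cap u.length w = u0 ++ flipR 0 v0 := by
      unfold cap
      rw [hdrop, htake]
    rw [hcap, ins_append_of_length _ _ hu0] at h
    obtain ⟨e1, e2⟩ := List.append_inj h hu0
    right
    rw [hw0, e1]
    exact lt_of_flip _ _ _

end Pool.Agent.H988R2.Perc
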