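import Pool.Agent.H988R2.Perc.Defs

/-! T21: the state `X` describes the connectivity of the strip. -/

namespace Pool.Agent.H988R2.Perc

namespace T21

open Relation

theorem eqvGen_add {α : Type*} (E : α → α → Prop) (c : Prop) (p p' x y : α) :
    EqvGen (fun a b => E a b ∨ (c ∧ a = p ∧ b = p')) x y ↔
      EqvGen E x y ∨ (c ∧ ((EqvGen E x p ∧ EqvGen E p' y) ∨
        (EqvGen E x p' ∧ EqvGen E p y))) := by
  constructor
  · intro h
    induction h with
    | rel a b h =>
      rcases h with h | ⟨hc, rfl, rfl⟩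
      · exact Or.inl (EqvGen.rel _ _ h)
      · exact Or.inr ⟨hc, Or.inl ⟨EqvGen.refl _, EqvGen.refl _⟩⟩
    | refl a => exact Or.inl (EqvGen.refl _)
    | symm a b _ ih =>
      rcases ih with h | ⟨hc, ⟨h1, h2⟩ | ⟨h1, h2⟩⟩
      · exact Or.inl (h.symm _ _)
      · exact Or.inr ⟨hc, Or.inr ⟨h2.symm _ _, h1.symm _ _⟩⟩
      · exact Or.inr ⟨hc, Or.inl ⟨h2.symm _ _, h1.symm _ _⟩⟩
    | trans a b d _ _ ih1 ih2 =>
      rcases ih1 with h | ⟨hc, ⟨h1, h2⟩ | ⟨h1, h2⟩⟩ <;>
        rcases ih2 with k | ⟨kc, ⟨k1, k2⟩ | ⟨k1, k2⟩⟩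
      · exact Or.inl (h.trans _ _ _ k)
      · exact Or.inr ⟨kc, Or.inl ⟨h.trans _ _ _ k1, k2⟩⟩
      · exact Or.inr ⟨kc, Or.inr ⟨h.trans _ _ _ k1, k2⟩⟩
      · exact Or.inr ⟨hc, Or.inl ⟨h1, h2.trans _ _ _ k⟩⟩
      · exact Or.inr ⟨hc, Or.inl ⟨h1, k2⟩⟩
      · exact Or.inl (h1.trans _ _ _ k2)
      · exact Or.inr ⟨hc, Or.inr ⟨h1, h2.trans _ _ _ k⟩⟩
      · exact Or.inl (h1.trans _ _ _ k2)
      · exact Or.inr ⟨hc, Or.inr ⟨h1, k2⟩⟩
  · intro h
    have hmono : ∀ a b, EqvGen E a b →
        EqvGen (fun a b => E a b ∨ (c ∧ a = p ∧ b = p')) a b := by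
      intro a b h
      induction h with
      | rel a b h => exact EqvGen.rel _ _ (Or.inl h)
      | refl a => exact EqvGen.refl _
      | symm a b _ ih => exact EqvGen.symm _ _ ih
      | trans a b d _ _ ih1 ih2 => exact EqvGen.trans _ _ _ ih1 ih2
    rcases h with h | ⟨hc, ⟨h1, h2⟩ | ⟨h1, h2⟩⟩
    · exact hmono _ _ h
    · exact ((hmono _ _ h1).trans _ _ _ (EqvGen.rel _ _ (Or.inr ⟨hc, rfl, rfl⟩))).trans _ _ _
        (hmono _ _ h2)
    · have h3 : EqvGen (fun a b => E a b ∨ (c ∧ a = p ∧ b = p')) p p' :=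
        EqvGen.rel _ _ (Or.inr ⟨hc, rfl, rfl⟩)
      exact ((hmono _ _ h1).trans _ _ _ (h3.symm _ _)).trans _ _ _ (hmono _ _ h2)

theorem eqvGen_iso {α : Type*} (E : α → α → Prop) (v : α)
    (h1 : ∀ a, ¬ E v a) (h2 : ∀ a, ¬ E a v) {x y : α} (h : EqvGen E x y) :
    x = y ∨ (x ≠ v ∧ y ≠ v) := by
  induction h with
  | rel a b h =>
    refine Or.inr ⟨?_, ?_⟩
    · rintro rfl; exact h1 _ h
    · rintro rfl; exact h2 _ h
  | refl a => exact Or.inl rfl
  | symm a b _ ih =>
    rcases ih with h | ⟨h, h'⟩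
    · exact Or.inl h.symm
    · exact Or.inr ⟨h', h⟩
  | trans a b d _ _ ih1 ih2 =>
    rcases ih1 with h | ⟨h, h'⟩ <;> rcases ih2 with k | ⟨k, k'⟩
    · exact Or.inl (h.trans k)
    · subst h; exact Or.inr ⟨k, k'⟩
    · subst k; exact Or.inr ⟨h, h'⟩
    · exact Or.inr ⟨h, k'⟩

/-- the state `R` describes the connectivity of the frontier `α` -/
def Rep (n : ℕ) (R : St) (E : ℕ × ℕ → ℕ × ℕ → Prop) (α : ℕ → ℕ × ℕ) : Prop :=
  ∀ a b, a % 2 = 1 → b % 2 = 1 → a ≤ n → b ≤ n →
    (R.rel a b ↔ EqvGen E (α a) (α b))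

theorem eqvGen_congr {α : Type*} {E E' : α → α → Prop} (h : ∀ a b, E a b ↔ E' a b) (x y : α) :
    EqvGen E x y ↔ EqvGen E' x y := by
  have : E = E' := by
    funext a b; exact propext (h a b)
  rw [this]

theorem Rep.congr {n : ℕ} {R : St} {E E' : ℕ × ℕ → ℕ × ℕ → Prop} {α α' : ℕ → ℕ × ℕ}
    (h : Rep n R E α) (hE : ∀ a b, E a b ↔ E' a b)
    (hα : ∀ a, a % 2 = 1 → a ≤ n → α a = α' a) : Rep n R E' α' := by
  intro a b ha hb han hbn
  rw [h a b ha hb han hbn, hα a ha han, hα b hb hbn, eqvGen_congr hE]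

theorem rel_refl (R : St) (a : ℕ) : R.rel a a := R.eqv.refl a

theorem act_rel_odd (R : St) (i a b : ℕ) (hi : i % 2 = 1) (ha : a % 2 = 1) (hb : b % 2 = 1) :
    (R.act i).rel a b ↔
      (R.rel a b ∨ (R.rel a i ∧ R.rel (i+2) b) ∨ (R.rel a (i+2) ∧ R.rel i b)) := by
  constructor
  · rintro (h | ⟨_, _, _, _, h⟩)
    · subst h; exact Or.inl (rel_refl R _)
    · exact h
  · intro h
    exact Or.inr ⟨ha, hb, by omega, by omega, h⟩

theorem act_rel_even (R : St) (i a b : ℕ) (hi : i % 2 = 0) (ha : a % 2 = 1) (hb : b % 2 = 1) :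
    (R.act i).rel a b ↔ (a = b ∨ (a ≠ i+1 ∧ b ≠ i+1 ∧ R.rel a b)) := by
  constructor
  · rintro (h | ⟨_, _, h1, h2, h⟩)
    · exact Or.inl h
    · rcases h with h | ⟨h, h'⟩ | ⟨h, h'⟩
      · exact Or.inr ⟨h1, h2, h⟩
      · exfalso
        rcases R.odd _ _ h with h | ⟨_, h⟩ <;> omega
      · exfalso
        rcases R.odd _ _ h with h | ⟨_, h⟩ <;> omega
  · rintro (h | ⟨h1, h2, h⟩)
    · exact Or.inl h
    · exact Or.inr ⟨ha, hb, h1, h2, Or.inl h⟩

theorem Rep.join {n i : ℕ} {R : St} {E : ℕ × ℕ → ℕ × ℕ → Prop} {α : ℕ → ℕ × ℕ}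
    (h : Rep n R E α) (hi : i % 2 = 1) (hin : i + 2 ≤ n) (c : Bool) (p p' : ℕ × ℕ)
    (hp : (p = α i ∧ p' = α (i+2)) ∨ (p = α (i+2) ∧ p' = α i)) :
    Rep n (if c then R.act i else R)
      (fun a b => E a b ∨ (c = true ∧ a = p ∧ b = p')) α := by
  intro a b ha hb han hbn
  rw [eqvGen_add]
  cases c with
  | false => simpa using h a b ha hb han hbn
  | true =>
    simp only [if_true, true_and]
    rw [act_rel_odd R i a b hi ha hb, h a b ha hb han hbn, h a i ha hi han (by omega),
      h (i+2) b (by omega) hb (by omega) hbn, h a (i+2) ha (by omega) han (by omega),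
      h i b hi hb (by omega) hbn]
    rcases hp with ⟨rfl, rfl⟩ | ⟨rfl, rfl⟩
    · rfl
    · constructor
      · rintro (h | ⟨h1, h2⟩ | ⟨h1, h2⟩)
        · exact Or.inl h
        · exact Or.inr (Or.inr ⟨h1, h2⟩)
        · exact Or.inr (Or.inl ⟨h1, h2⟩)
      · rintro (h | ⟨h1, h2⟩ | ⟨h1, h2⟩)
        · exact Or.inl h
        · exact Or.inr (Or.inr ⟨h1, h2⟩)
        · exact Or.inr (Or.inl ⟨h1, h2⟩)

theorem Rep.move {n i : ℕ} {R : St} {E : ℕ × ℕ → ℕ × ℕ → Prop} {α α' : ℕ → ℕ × ℕ}
    (h : Rep n R E α) (hi : i % 2 = 0) (c : Bool) (v : ℕ × ℕ)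
    (h1 : ∀ a, ¬ E v a) (h2 : ∀ a, ¬ E a v)
    (hv : α' (i+1) = v) (hα : ∀ a, a % 2 = 1 → a ≤ n → a ≠ i+1 → α' a = α a)
    (hne : ∀ a, a % 2 = 1 → a ≤ n → α a ≠ v) :
    Rep n (if !c then R.act i else R)
      (fun a b => E a b ∨ (c = true ∧ a = α (i+1) ∧ b = v)) α' := by
  have hiso : ∀ x, x ≠ v → ¬ EqvGen E x v := by
    intro x hx hxv
    rcases eqvGen_iso E v h1 h2 hxv with h | ⟨_, h⟩
    · exact hx h
    · exact h rfl
  have hiso' : ∀ x, x ≠ v → ¬ EqvGen E v x := fun x hx hxv => hiso x hx (hxv.symm _ _)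
  intro a b ha hb han hbn
  rw [eqvGen_add]
  cases c with
  | false =>
    simp only [Bool.not_false, if_true, Bool.false_eq_true, false_and, or_false]
    rw [act_rel_even R i a b hi ha hb]
    by_cases hai : a = i+1
    · by_cases hbi : b = i+1
      · subst hai; subst hbi
        simp [EqvGen.refl]
      · have : ¬ EqvGen E (α' a) (α' b) := by
          rw [hai, hv, hα b hb hbn hbi]
          exact hiso' _ (hne b hb hbn)
        constructor
        · rintro (h | ⟨h, _⟩)
          · omega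
          · exact absurd hai h
        · intro h; exact absurd h this
    · by_cases hbi : b = i+1
      · have : ¬ EqvGen E (α' a) (α' b) := by
          rw [hbi, hv, hα a ha han hai]
          exact hiso _ (hne a ha han)
        constructor
        · rintro (h | ⟨_, h, _⟩)
          · omega
          · exact absurd hbi h
        · intro h; exact absurd h this
      · rw [hα a ha han hai, hα b hb hbn hbi, ← h a b ha hb han hbn]
        constructor
        · rintro (h | ⟨_, _, h⟩)
          · subst h; exact rel_refl R _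
          · exact h
        · intro h; exact Or.inr ⟨hai, hbi, h⟩
  | true =>
    simp only [Bool.not_true, Bool.false_eq_true, if_false, true_and]
    by_cases hai : a = i+1
    · by_cases hbi : b = i+1
      · subst hai; subst hbi
        simp [EqvGen.refl, rel_refl]
      · rw [h a b ha hb han hbn, hai, hv, hα b hb hbn hbi]
        have hb' := hiso' _ (hne b hb hbn)
        constructor
        · intro h; exact Or.inr (Or.inr ⟨EqvGen.refl _, h⟩)
        · rintro (h | ⟨_, h⟩ | ⟨_, h⟩)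
          · exact absurd h hb'
          · exact absurd h hb'
          · exact h
    · by_cases hbi : b = i+1
      · rw [h a b ha hb han hbn, hbi, hv, hα a ha han hai]
        have ha' := hiso _ (hne a ha han)
        constructor
        · intro h; exact Or.inr (Or.inl ⟨h, EqvGen.refl _⟩)
        · rintro (h | ⟨h, _⟩ | ⟨h, _⟩)
          · exact absurd h ha'
          · exact h
          · exact absurd h ha'
      · rw [hα a ha han hai, hα b hb hbn hbi, ← h a b ha hb han hbn]
        have hb' := hiso' _ (hne b hb hbn)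
        have ha' := hiso _ (hne a ha han)
        constructor
        · intro h; exact Or.inl h
        · rintro (h | ⟨_, h⟩ | ⟨h, _⟩)
          · exact h
          · exact absurd h hb'
          · exact absurd h ha'

/-- adjacency by the open tiles of a set `S` of tiles, plus the wiring -/
def SA (L : ℕ) (o : ℕ → ℕ → Bool) (S : ℕ → ℕ → Prop) (a b : ℕ × ℕ) : Prop :=
  (∃ i k, S i k ∧ o k i = true ∧
    (((i + k) % 2 = 1 ∧ a = (i, k) ∧ b = (i-1, k+1)) ∨
     ((i + k) % 2 = 0 ∧ a = (i-1, k) ∧ b = (i, k+1)))) ∨ (a.1 = L ∧ b.1 = L)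

theorem SA_add (L : ℕ) (o : ℕ → ℕ → Bool) (S S' : ℕ → ℕ → Prop) (i k : ℕ) (p p' : ℕ × ℕ)
    (hS : ∀ i' k', S' i' k' ↔ (S i' k' ∨ (i' = i ∧ k' = k)))
    (hp : ((i + k) % 2 = 1 ∧ p = (i, k) ∧ p' = (i-1, k+1)) ∨
      ((i + k) % 2 = 0 ∧ p = (i-1, k) ∧ p' = (i, k+1))) (a b : ℕ × ℕ) :
    (SA L o S a b ∨ (o k i = true ∧ a = p ∧ b = p')) ↔ SA L o S' a b := by
  unfold SA
  constructor
  · rintro ((⟨i', k', h1, h2, h3⟩ | h) | ⟨h1, h2, h3⟩)
    · exact Or.inl ⟨i', k', (hS _ _).2 (Or.inl h1), h2, h3⟩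
    · exact Or.inr h
    · refine Or.inl ⟨i, k, (hS _ _).2 (Or.inr ⟨rfl, rfl⟩), h1, ?_⟩
      subst h2; subst h3; exact hp
  · rintro (⟨i', k', h1, h2, h3⟩ | h)
    · rcases (hS _ _).1 h1 with h1 | ⟨rfl, rfl⟩
      · exact Or.inl (Or.inl ⟨i', k', h1, h2, h3⟩)
      · refine Or.inr ⟨h2, ?_⟩
        rcases hp with ⟨hp, rfl, rfl⟩ | ⟨hp, rfl, rfl⟩ <;>
          rcases h3 with ⟨h3, h4, h5⟩ | ⟨h3, h4, h5⟩ <;>
          first
          | exact ⟨h4, h5⟩
          | (exfalso; omega)
    · exact Or.inl (Or.inr h)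

/-- a vertex outside the column `L` without tile in `S` is isolated -/
theorem SA_iso (L : ℕ) (o : ℕ → ℕ → Bool) (S : ℕ → ℕ → Prop) (v : ℕ × ℕ) (hv : v.1 ≠ L)
    (hS : ∀ i k, 1 ≤ i → S i k →
      ((i + k) % 2 = 1 → v ≠ (i, k) ∧ v ≠ (i-1, k+1)) ∧
      ((i + k) % 2 = 0 → v ≠ (i-1, k) ∧ v ≠ (i, k+1)))
    (hS1 : ∀ i k, S i k → 1 ≤ i) :
    (∀ a, ¬ SA L o S v a) ∧ (∀ a, ¬ SA L o S a v) := by
  constructor
  · rintro a (⟨i, k, h1, _, ⟨h3, h4, h5⟩ | ⟨h3, h4, h5⟩⟩ | ⟨h, _⟩)
    · exact ((hS i k (hS1 i k h1) h1).1 h3).1 h4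
    · exact ((hS i k (hS1 i k h1) h1).2 h3).1 h4
    · exact hv h
  · rintro a (⟨i, k, h1, _, ⟨h3, h4, h5⟩ | ⟨h3, h4, h5⟩⟩ | ⟨_, h⟩)
    · exact ((hS i k (hS1 i k h1) h1).1 h3).2 h5
    · exact ((hS i k (hS1 i k h1) h1).2 h3).2 h5
    · exact hv h

/-- tiles processed at stage `i` of the forward sweep of row `t` -/
def SF (L t i : ℕ) (j k : ℕ) : Prop := 1 ≤ j ∧ j ≤ L ∧ (k < t ∨ (k = t ∧ j ≤ i))

/-- tiles processed at stage `i` of the backward sweep of row `t+1` -/
def SB (L t i : ℕ) (j k : ℕ) : Prop := 1 ≤ j ∧ j ≤ L ∧ (k < t+1 ∨ (k = t+1 ∧ i < j))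

def fF (t i j : ℕ) : ℕ × ℕ := if j ≤ i + 1 then (j-1, t+1) else (j-2, t)

def fB (t i j : ℕ) : ℕ × ℕ := if j ≤ i + 1 then (j-1, t+1) else (j-2, t+2)

theorem rep_ins {L t : ℕ} (ht : t % 2 = 0) (hL : L % 2 = 1) {o : ℕ → ℕ → Bool} {R : St}
    (h : Rep L R (SA L o (fun j k => 1 ≤ j ∧ j ≤ L ∧ k < t)) (fun a => (a, t))) :
    Rep (L+2) (R.ins 0) (SA L o (SF L t 0)) (fF t 0) := by
  have hE : ∀ a b, SA L o (fun j k => 1 ≤ j ∧ j ≤ L ∧ k < t) a b ↔ SA L o (SF L t 0) a b := by
    intro a b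
    have : (fun j k => 1 ≤ j ∧ j ≤ L ∧ k < t) = SF L t 0 := by
      funext j k
      apply propext
      unfold SF
      constructor
      · rintro ⟨h1, h2, h3⟩; exact ⟨h1, h2, Or.inl h3⟩
      · rintro ⟨h1, h2, h3 | ⟨_, h3⟩⟩
        · exact ⟨h1, h2, h3⟩
        · omega
    rw [this]
  have hv := SA_iso L o (SF L t 0) (0, t+1) (by simp only; omega)
    (by
      rintro i k hi ⟨h1, h2, h3⟩
      refine ⟨fun _ => ⟨?_, ?_⟩, fun _ => ⟨?_, ?_⟩⟩ <;>
      · intro h
        simp only [Prod.mk.injEq] at h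
        omega)
    (by rintro i k ⟨h, _⟩; exact h)
  intro a b ha hb haL hbL
  by_cases ha1 : a = 1
  · by_cases hb1 : b = 1
    · subst ha1; subst hb1
      simp [EqvGen.refl, rel_refl]
    · constructor
      · rintro (h | ⟨_, _, h, _⟩)
        · omega
        · exact absurd ha1 h
      · intro h
        exfalso
        rcases eqvGen_iso _ _ hv.1 hv.2 h with h | ⟨h, _⟩
        · simp only [fF] at h
          split_ifs at h <;> simp only [Prod.mk.injEq] at h <;> omega
        · apply h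
          simp [fF, ha1]
  · by_cases hb1 : b = 1
    · constructor
      · rintro (h | ⟨_, _, _, h, _⟩)
        · omega
        · exact absurd hb1 h
      · intro h
        exfalso
        rcases eqvGen_iso _ _ hv.1 hv.2 h with h | ⟨_, h⟩
        · simp only [fF] at h
          split_ifs at h <;> simp only [Prod.mk.injEq] at h <;> omega
        · apply h
          simp [fF, hb1]
    · have e1 : fF t 0 a = (a-2, t) := by
        unfold fF; rw [if_neg (by omega)]
      have e2 : fF t 0 b = (b-2, t) := by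
        unfold fF; rw [if_neg (by omega)]
      rw [e1, e2]
      have := h (a-2) (b-2) (by omega) (by omega) (by omega) (by omega)
      simp only at this
      rw [← eqvGen_congr hE, ← this]
      have e3 : St.low 0 a = a - 2 := by
        unfold St.low; rw [if_neg (by omega)]
      have e4 : St.low 0 b = b - 2 := by
        unfold St.low; rw [if_neg (by omega)]
      constructor
      · rintro (h | ⟨_, _, _, _, h⟩)
        · subst h; exact rel_refl R _
        · rw [e3, e4] at h; exact h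
      · intro h
        refine Or.inr ⟨ha, hb, by omega, by omega, ?_⟩
        rw [e3, e4]; exact h

theorem rep_fwd {L t : ℕ} (ht : t % 2 = 0) (hL : L % 2 = 1) {o : ℕ → ℕ → Bool} {R : St}
    (h : Rep (L+2) R (SA L o (SF L t 0)) (fF t 0)) (i : ℕ) (hi : i ≤ L) :
    Rep (L+2) (fwdS i (actBit o t) R) (SA L o (SF L t i)) (fF t i) := by
  induction i with
  | zero => simpa [fwdS] using h
  | succ i ih =>
    have ih := ih (by omega)
    simp only [fwdS]
    have hSadd : ∀ i' k', SF L t (i+1) i' k' ↔ (SF L t i i' k' ∨ (i' = i+1 ∧ k' = t)) := by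
      intro i' k'; unfold SF; omega
    by_cases hodd : (i+1) % 2 = 1
    · have hact : actBit o t (i+1) = o t (i+1) := by
        unfold actBit; rw [if_pos hodd]
      rw [hact]
      have key := ih.join (i := i+1) hodd (by omega) (o t (i+1)) (i+1, t) (i+1-1, t+1)
        (by
          right
          constructor
          · unfold fF; rw [if_neg (by omega)]; simp
          · unfold fF; rw [if_pos (by omega)])
      refine key.congr ?_ ?_
      · intro a b
        exact SA_add L o (SF L t i) (SF L t (i+1)) (i+1) t _ _ hSadd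
          (Or.inl ⟨by omega, rfl, rfl⟩) a b
      · intro a ha haL
        unfold fF
        by_cases h1 : a ≤ i + 1
        · rw [if_pos h1, if_pos (by omega)]
        · rw [if_neg h1, if_neg (by omega)]
    · have hact : actBit o t (i+1) = !(o t (i+1)) := by
        unfold actBit; rw [if_neg hodd]
      rw [hact]
      have hv := SA_iso L o (SF L t i) (i+1, t+1) (by simp only; omega)
        (by
          rintro i' k hi ⟨h1, h2, h3⟩
          refine ⟨fun _ => ⟨?_, ?_⟩, fun _ => ⟨?_, ?_⟩⟩ <;>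
          · intro h
            simp only [Prod.mk.injEq] at h
            omega)
        (by rintro i k ⟨h, _⟩; exact h)
      have key := ih.move (i := i+1) (α' := fF t (i+1)) (by omega) (o t (i+1))
        (i+1, t+1) hv.1 hv.2
        (by unfold fF; rw [if_pos (by omega)]; simp)
        (by
          intro a ha haL hai
          unfold fF
          by_cases h1 : a ≤ i + 1
          · rw [if_pos h1, if_pos (by omega)]
          · rw [if_neg h1, if_neg (by omega)])
        (by
          intro a ha haL h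
          unfold fF at h
          split_ifs at h <;> simp only [Prod.mk.injEq] at h <;> omega)
      refine key.congr ?_ ?_
      · intro a b
        have e : fF t i (i+1+1) = (i+1-1, t) := by
          unfold fF; rw [if_neg (by omega)]; simp
        rw [e]
        exact SA_add L o (SF L t i) (SF L t (i+1)) (i+1) t _ _ hSadd
          (Or.inr ⟨by omega, rfl, rfl⟩) a b
      · intro a ha haL; rfl

theorem rep_turn {L t : ℕ} (ht : t % 2 = 0) (hL : L % 2 = 1) {o : ℕ → ℕ → Bool} {R : St}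
    (h : Rep (L+2) R (SA L o (SF L t L)) (fF t L)) :
    Rep (L+2) R (SA L o (SB L t L)) (fB t L) := by
  have hE : SF L t L = SB L t L := by
    funext j k
    apply propext
    unfold SF SB
    omega
  rw [hE] at h
  have hα : ∀ a, a % 2 = 1 → a ≤ L+2 →
      EqvGen (SA L o (SB L t L)) (fF t L a) (fB t L a) := by
    intro a ha haL
    by_cases h1 : a ≤ L + 1
    · have : fF t L a = fB t L a := by
        unfold fF fB; rw [if_pos h1, if_pos h1]
      rw [this]; exact EqvGen.refl _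
    · have ea : a = L + 2 := by omega
      subst ea
      apply EqvGen.rel
      right
      unfold fF fB
      rw [if_neg h1, if_neg h1]
      simp
  intro a b ha hb haL hbL
  rw [h a b ha hb haL hbL]
  constructor
  · intro h'
    exact (((hα a ha haL).symm _ _).trans _ _ _ h').trans _ _ _ (hα b hb hbL)
  · intro h'
    exact ((hα a ha haL).trans _ _ _ h').trans _ _ _ ((hα b hb hbL).symm _ _)

theorem rep_bwd {L t : ℕ} (ht : t % 2 = 0) (hL : L % 2 = 1) {o : ℕ → ℕ → Bool} (i : ℕ)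
    (hi : i ≤ L) : ∀ {R : St}
    (_ : Rep (L+2) R (SA L o (SB L t i)) (fB t i)),
    Rep (L+2) (bwdS i (actBit o (t+1)) R) (SA L o (SB L t 0)) (fB t 0) := by
  induction i with
  | zero => intro R h; simpa [bwdS] using h
  | succ i ih =>
    intro R h
    simp only [bwdS]
    apply ih (by omega)
    have hSadd : ∀ i' k', SB L t i i' k' ↔ (SB L t (i+1) i' k' ∨ (i' = i+1 ∧ k' = t+1)) := by
      intro i' k'; unfold SB; omega
    by_cases hodd : (i+1) % 2 = 1
    · have hact : actBit o (t+1) (i+1) = o (t+1) (i+1) := by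
        unfold actBit; rw [if_pos hodd]
      rw [hact]
      have key := h.join (i := i+1) hodd (by omega) (o (t+1) (i+1)) (i+1-1, t+1) (i+1, t+1+1)
        (by
          left
          constructor
          · unfold fB; rw [if_pos (by omega)]
          · unfold fB; rw [if_neg (by omega)]; simp)
      refine key.congr ?_ ?_
      · intro a b
        exact SA_add L o (SB L t (i+1)) (SB L t i) (i+1) (t+1) _ _ hSadd
          (Or.inr ⟨by omega, rfl, rfl⟩) a b
      · intro a ha haL
        unfold fB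
        by_cases h1 : a ≤ i + 1
        · rw [if_pos (by omega), if_pos (by omega)]
        · rw [if_neg (by omega), if_neg (by omega)]
    · have hact : actBit o (t+1) (i+1) = !(o (t+1) (i+1)) := by
        unfold actBit; rw [if_neg hodd]
      rw [hact]
      have hv := SA_iso L o (SB L t (i+1)) (i, t+2) (by simp only; omega)
        (by
          rintro i' k hi ⟨h1, h2, h3⟩
          refine ⟨fun _ => ⟨?_, ?_⟩, fun _ => ⟨?_, ?_⟩⟩ <;>
          · intro h
            simp only [Prod.mk.injEq] at h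
            omega)
        (by rintro i k ⟨h, _⟩; exact h)
      have key := h.move (i := i+1) (α' := fB t i) (by omega) (o (t+1) (i+1))
        (i, t+2) hv.1 hv.2
        (by unfold fB; rw [if_neg (by omega)]; simp)
        (by
          intro a ha haL hai
          unfold fB
          by_cases h1 : a ≤ i + 1
          · rw [if_pos h1, if_pos (by omega)]
          · rw [if_neg h1, if_neg (by omega)])
        (by
          intro a ha haL h
          unfold fB at h
          split_ifs at h <;> simp only [Prod.mk.injEq] at h <;> omega)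
      refine key.congr ?_ ?_
      · intro a b
        have e : fB t (i+1) (i+1+1) = (i+1, t+1) := by
          unfold fB; rw [if_pos (by omega)]; simp
        rw [e]
        exact SA_add L o (SB L t (i+1)) (SB L t i) (i+1) (t+1) _ _ hSadd
          (Or.inl ⟨by omega, rfl, by simp⟩) a b
      · intro a ha haL; rfl

theorem up_zero (a : ℕ) (ha : a % 2 = 1) : St.up 0 a = a + 2 := by
  unfold St.up; rw [if_neg (by omega)]

theorem rep_cap {L t : ℕ} {o : ℕ → ℕ → Bool} {R : St}
    (h : Rep (L+2) R (SA L o (SB L t 0)) (fB t 0)) :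
    Rep L (R.cap 0) (SA L o (fun j k => 1 ≤ j ∧ j ≤ L ∧ k < t+2)) (fun a => (a, t+2)) := by
  intro a b ha hb haL hbL
  have hE : SB L t 0 = (fun j k => 1 ≤ j ∧ j ≤ L ∧ k < t+2) := by
    funext j k
    apply propext
    unfold SB
    omega
  rw [hE] at h
  have h1 := h (a+2) (b+2) (by omega) (by omega) (by omega) (by omega)
  have e1 : fB t 0 (a+2) = (a, t+2) := by
    unfold fB; rw [if_neg (by omega)]; simp
  have e2 : fB t 0 (b+2) = (b, t+2) := by
    unfold fB; rw [if_neg (by omega)]; simp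
  rw [e1, e2] at h1
  rw [← h1]
  change (R.act 0).rel (St.up 0 a) (St.up 0 b) ↔ _
  rw [up_zero a ha, up_zero b hb, act_rel_even R 0 _ _ rfl (by omega) (by omega)]
  constructor
  · rintro (h | ⟨_, _, h⟩)
    · rw [h]; exact rel_refl R _
    · exact h
  · intro h
    exact Or.inr ⟨by omega, by omega, h⟩

theorem rep_X (L : ℕ) (hL : L % 2 = 1) (o : ℕ → ℕ → Bool) (M : ℕ) :
    Rep L (X L (actBit o) M) (SA L o (fun j k => 1 ≤ j ∧ j ≤ L ∧ k < 2*M))
      (fun a => (a, 2*M)) := by
  induction M with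
  | zero =>
    intro a b ha hb haL hbL
    change a = b ↔ _
    constructor
    · rintro rfl; exact EqvGen.refl _
    · intro h
      have key : ∀ x y : ℕ × ℕ, EqvGen (SA L o (fun j k => 1 ≤ j ∧ j ≤ L ∧ k < 2*0)) x y →
          x = y ∨ (x.1 = L ∧ y.1 = L) := by
        intro x y h
        induction h with
        | rel a b h =>
          rcases h with ⟨i, k, ⟨_, _, h⟩, _⟩ | h
          · omega
          · exact Or.inr h
        | refl a => exact Or.inl rfl
        | symm a b _ ih =>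
          rcases ih with h | ⟨h, h'⟩
          · exact Or.inl h.symm
          · exact Or.inr ⟨h', h⟩
        | trans a b d _ _ ih1 ih2 =>
          rcases ih1 with h | ⟨h, h'⟩ <;> rcases ih2 with k | ⟨k, k'⟩
          · exact Or.inl (h.trans k)
          · subst h; exact Or.inr ⟨k, k'⟩
          · subst k; exact Or.inr ⟨h, h'⟩
          · exact Or.inr ⟨h, k'⟩
      rcases key _ _ h with h | ⟨h, h'⟩
      · simpa using h
      · simp only at h h'
        omega
  | succ M ih =>
    simp only [X]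
    have h1 := rep_ins (t := 2*M) (by omega) hL ih
    have h2 := rep_fwd (t := 2*M) (by omega) hL h1 L le_rfl
    have h3 := rep_turn (t := 2*M) (by omega) hL h2
    have h4 := rep_bwd (t := 2*M) (by omega) hL L le_rfl h3
    have h5 := rep_cap h4
    exact h5

theorem supp_act {n i : ℕ} {R : St} (hin : i + 2 ≤ n)
    (h : ∀ a b, R.rel a b → a = b ∨ (a ≤ n ∧ b ≤ n)) :
    ∀ a b, (R.act i).rel a b → a = b ∨ (a ≤ n ∧ b ≤ n) := by
  rintro a b (h1 | ⟨_, _, _, _, h1⟩)
  · exact Or.inl h1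
  · rcases h1 with h1 | ⟨h1, h2⟩ | ⟨h1, h2⟩
    · exact h _ _ h1
    · right
      have k1 := h _ _ h1
      have k2 := h _ _ h2
      omega
    · right
      have k1 := h _ _ h1
      have k2 := h _ _ h2
      omega

theorem supp_fwd {n : ℕ} (c : ℕ → Bool) (i : ℕ) {R : St} (hin : i + 2 ≤ n)
    (h : ∀ a b, R.rel a b → a = b ∨ (a ≤ n ∧ b ≤ n)) :
    ∀ a b, (fwdS i c R).rel a b → a = b ∨ (a ≤ n ∧ b ≤ n) := by
  induction i with
  | zero => simpa [fwdS] using h
  | succ i ih =>
    have ih := ih (by omega)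
    simp only [fwdS]
    split_ifs
    · exact supp_act hin ih
    · exact ih

theorem supp_bwd {n : ℕ} (c : ℕ → Bool) (i : ℕ) (hin : i + 2 ≤ n) : ∀ {R : St}
    (_ : ∀ a b, R.rel a b → a = b ∨ (a ≤ n ∧ b ≤ n)),
    ∀ a b, (bwdS i c R).rel a b → a = b ∨ (a ≤ n ∧ b ≤ n) := by
  induction i with
  | zero => intro R h; simpa [bwdS] using h
  | succ i ih =>
    intro R h
    simp only [bwdS]
    apply ih (by omega)
    split_ifs
    · exact supp_act hin h
    · exact h

end T21

theorem X_sem (L : ℕ) (hL : Odd L) (M : ℕ) (o : ℕ → ℕ → Bool) (a b : ℕ) (ha : a % 2 = 1)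
    (hb : b % 2 = 1) (haL : a ≤ L) (hbL : b ≤ L) :
    (X L (actBit o) M).rel a b ↔ StripConn L (2*M) o (a, 2*M) (b, 2*M) := by
  have h := T21.rep_X L (Nat.odd_iff.mp hL) o M a b ha hb haL hbL
  rw [h]
  unfold StripConn
  apply T21.eqvGen_congr
  intro x y
  unfold T21.SA StripAdj
  constructor
  · rintro (⟨i, k, ⟨h1, h2, h3⟩, h4, h5⟩ | h)
    · exact Or.inl ⟨i, k, h1, h2, h3, h4, h5⟩
    · exact Or.inr h
  · rintro (⟨i, k, h1, h2, h3, h4, h5⟩ | h)
    · exact Or.inl ⟨i, k, ⟨h1, h2, h3⟩, h4, h5⟩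
    · exact Or.inr h

/-- faces beyond `L` are isolated -/
theorem X_supp (L : ℕ) (hL : Odd L) (M : ℕ) (c : ℕ → ℕ → Bool) (a b : ℕ)
    (h : (X L c M).rel a b) : a = b ∨ (a ≤ L ∧ b ≤ L) := by
  induction M generalizing a b with
  | zero => exact Or.inl h
  | succ M ih =>
    simp only [X] at h
    have h1 : ∀ a b, ((X L c M).ins 0).rel a b → a = b ∨ (a ≤ L+2 ∧ b ≤ L+2) := by
      rintro a b (h | ⟨ha, hb, _, _, h⟩)
      · exact Or.inl h
      · have := ih _ _ h
        unfold St.low at this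
        rw [if_neg (by omega), if_neg (by omega)] at this
        omega
    have h2 := T21.supp_fwd (c (2*M)) L le_rfl h1
    have h3 := T21.supp_bwd (c (2*M+1)) L le_rfl h2
    have h4 := T21.supp_act (i := 0) (by omega) h3
    have h5 := h4 _ _ h
    unfold St.up at h5
    split_ifs at h5 <;> omega

end Pool.Agent.H988R2.Perc
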