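import Pool.Agent.H988R2.Perc.Defs

/-! T15: auxiliary determinant lemmas. -/

namespace Pool.Agent.H988R2.Perc

open Finset

/-- unitriangular change of columns -/
theorem det_unitri {N : ℕ} (a b : Fin N → ℕ → ℂ) (c : ℕ → ℕ → ℂ)
    (h : ∀ i (j : ℕ), j < N → b i j = a i j + ∑ k ∈ range j, c k j * a i k) :
    (Matrix.of fun i j : Fin N => b i j).det = (Matrix.of fun i j : Fin N => a i j).det := by
  have key : (Matrix.of fun i j : Fin N => b i j) =
      (Matrix.of fun i j : Fin N => a i j) *
        (Matrix.of fun k j : Fin N => if (k:ℕ) = j then (1:ℂ) else if (k:ℕ) < j then c k j else 0) := by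
    ext i j
    rw [Matrix.mul_apply, Matrix.of_apply, h i j j.2]
    simp only [Matrix.of_apply]
    rw [Fin.sum_univ_eq_sum_range
      (fun k => a i k * (if k = (j:ℕ) then (1:ℂ) else if k < (j:ℕ) then c k j else 0)) N] 
    rw [← Finset.sum_subset (s₁ := range ((j:ℕ)+1)) (s₂ := range N)]
    · rw [Finset.sum_range_succ, add_comm]
      congr 1
      · apply Finset.sum_congr rfl
        intro k hk
        rw [mem_range] at hk
        rw [if_neg (by omega), if_pos hk, mul_comm]
      · simp
    · intro k hk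
      rw [mem_range] at *
      omega
    · intro k _ hk
      rw [mem_range] at hk
      rw [if_neg (by omega), if_neg (by omega), mul_zero]
  rw [key, Matrix.det_mul]
  have h1 : (Matrix.of fun k j : Fin N => if (k:ℕ) = j then (1:ℂ) else if (k:ℕ) < j then c k j else 0).det
      = 1 := by
    rw [Matrix.det_of_isUpperTriangular]
    · simp
    · intro i j hij
      simp only [id] at hij
      have : (j:ℕ) < (i:ℕ) := hij
      simp only [Matrix.of_apply]
      rw [if_neg (by omega), if_neg (by omega)]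
  rw [h1, mul_one]

theorem det_one_block {k : ℕ} (M : Matrix (Fin (k+1)) (Fin (k+1)) ℂ)
    (h0 : ∀ j : Fin k, M 0 j.succ = 0) :
    M.det = M 0 0 * (Matrix.of fun i j : Fin k => M i.succ j.succ).det := by
  rw [Matrix.det_succ_row_zero, Fin.sum_univ_succ, Finset.sum_eq_zero]
  · simp
    left
    rfl
  · intro j _
    rw [h0 j]; simp

/-- block triangular determinant with a `2 × 2` upper left block -/
theorem det_two_block {k : ℕ} (M : Matrix (Fin (k+2)) (Fin (k+2)) ℂ)
    (h0 : ∀ j : Fin k, M 0 j.succ.succ = 0) (h1 : ∀ j : Fin k, M 1 j.succ.succ = 0) :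
    M.det = (M 0 0 * M 1 1 - M 0 1 * M 1 0) *
      (Matrix.of fun i j : Fin k => M i.succ.succ j.succ.succ).det := by
  have e1 : ∀ j : Fin k, Fin.succAbove (1 : Fin (k+2)) j.succ = j.succ.succ := by
    intro j; simp [Fin.succAbove, Fin.lt_def]
  have a1 : (M.submatrix Fin.succ (Fin.succAbove 0)).det = M 1 1 * 
      (Matrix.of fun i j : Fin k => M i.succ.succ j.succ.succ).det := by
    rw [det_one_block _ (fun j => by simpa using h1 j)]
    simp
  have a2 : (M.submatrix Fin.succ (Fin.succAbove 1)).det = M 1 0 * 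
      (Matrix.of fun i j : Fin k => M i.succ.succ j.succ.succ).det := by
    rw [det_one_block _ (fun j => by simp only [Matrix.submatrix_apply, e1]; simpa using h1 j)]
    simp only [Matrix.submatrix_apply, e1]
    simp
  rw [Matrix.det_succ_row_zero, Fin.sum_univ_succ, Fin.sum_univ_succ, Finset.sum_eq_zero]
  · have e2 : (Fin.succ 0 : Fin (k+2)) = 1 := rfl
    rw [e2, a1, a2]
    simp
    ring
  · intro j _
    rw [h0 j]; simp

/-- elimination for the rows `0, 1` at which the function `φ` vanishes -/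
theorem det_elim (f : ℕ → ℂ → ℂ) (φ : ℂ → ℂ)
    (hφ : ∀ j, ∃ c : ℕ → ℂ, ∀ z : ℂ, z ≠ 0 →
      φ z * f j z = f (j+2) z + ∑ k ∈ range (j+2), c k * f k z)
    (k : ℕ) (z : Fin (k+2) → ℂ) (hz : ∀ i, z i ≠ 0) (h0 : φ (z 0) = 0) (h1 : φ (z 1) = 0) :
    (Matrix.of fun i j : Fin (k+2) => f j (z i)).det =
      (f 0 (z 0) * f 1 (z 1) - f 1 (z 0) * f 0 (z 1)) *
        ((∏ i : Fin k, φ (z i.succ.succ)) *
          (Matrix.of fun i j : Fin k => f j (z i.succ.succ)).det) := by
  choose c hc using hφ
  have e := det_unitri (fun i j => f j (z i))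
    (fun (i : Fin (k+2)) j => if j < 2 then f j (z i) else φ (z i) * f (j-2) (z i))
    (fun k j => if j < 2 then 0 else c (j-2) k) (by
      intro i j _
      by_cases hj : j < 2
      · simp [hj]
      · obtain ⟨j', rfl⟩ : ∃ j', j = j' + 2 := ⟨j-2, by omega⟩
        simp only [if_neg hj, Nat.add_sub_cancel]
        exact hc j' (z i) (hz i))
  rw [← e, det_two_block]
  · congr 1
    exact Matrix.det_mul_column (fun i : Fin k => φ (z i.succ.succ)) _
  · intro j
    simp [h0]
  · intro j
    simp [h1]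

/-- Laurent functions -/
noncomputable def sL (a : ℕ) (z : ℂ) : ℂ := z^a - (z⁻¹)^a

theorem mu_add_two (j : ℕ) : mu (j+2) = mu j + 3 := by
  unfold mu; omega

theorem mu_zero : mu 0 = 1 := rfl
theorem mu_one : mu 1 = 2 := rfl

theorem det_mu_rec (k : ℕ) (z : Fin (k+2) → ℂ) (hz : ∀ i, z i ≠ 0) (h : (z 1)^3 = (z 0)^3) :
    (Matrix.of fun i j : Fin (k+2) => sL (mu j) (z i)).det =
      (sL 1 (z 0) * sL 2 (z 1) - sL 2 (z 0) * sL 1 (z 1)) *
        ((∏ i : Fin k, ((z i.succ.succ)^3 + ((z i.succ.succ)⁻¹)^3 - ((z 0)^3 + ((z 0)⁻¹)^3))) *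
          (Matrix.of fun i j : Fin k => sL (mu j) (z i.succ.succ)).det) := by
  set τ := (z 0)^3 + ((z 0)⁻¹)^3 with hτ
  refine det_elim (fun j z => sL (mu j) z) (fun z => z^3 + (z⁻¹)^3 - τ) ?_ k z hz ?_ ?_
  · intro j
    rcases j with _ | _ | j
    · refine ⟨fun k => if k = 0 then -τ else -1, fun z hz => ?_⟩
      have hz' : z * z⁻¹ = 1 := mul_inv_cancel₀ hz
      simp only [mu_add_two, mu_zero, Finset.sum_range_succ, Finset.sum_range_zero, mu_one, sL]
      simp
      field_simp
      ring
    · refine ⟨fun k => if k = 0 then -1 else if k = 1 then -τ else 0, fun z hz => ?_⟩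
      have h3 : mu 3 = 5 := rfl
      simp only [Finset.sum_range_succ, Finset.sum_range_zero, sL]
      simp [mu_zero, mu_one, h3]
      field_simp
      ring
    · refine ⟨fun k => if k < j then 0 else if k = j then 1 else if k = j + 1 then 0 else
        if k = j+2 then -τ else 0, fun z hz => ?_⟩
      simp only [Finset.sum_range_succ]
      rw [Finset.sum_eq_zero]
      · simp [mu_add_two, sL]
        field_simp
        ring
      · intro k hk
        rw [mem_range] at hk
        simp [hk]
  · simp [hτ]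
  · simp only [hτ, inv_pow, h]; ring

theorem det_succ_rec (k : ℕ) (z : Fin (k+2) → ℂ) (hz : ∀ i, z i ≠ 0) :
    (Matrix.of fun i j : Fin (k+2) => sL (j+1) (z i)).det =
      (sL 1 (z 0) * sL 2 (z 1) - sL 2 (z 0) * sL 1 (z 1)) *
        ((∏ i : Fin k, ((z i.succ.succ + (z i.succ.succ)⁻¹ - (z 0 + (z 0)⁻¹)) *
            (z i.succ.succ + (z i.succ.succ)⁻¹ - (z 1 + (z 1)⁻¹)))) *
          (Matrix.of fun i j : Fin k => sL (j+1) (z i.succ.succ)).det) := by
  set α := z 0 + (z 0)⁻¹ with hα
  set β := z 1 + (z 1)⁻¹ with hβ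
  refine det_elim (fun j z => sL (j+1) z) (fun z => (z + z⁻¹ - α) * (z + z⁻¹ - β)) ?_ k z hz ?_ ?_
  · intro j
    rcases j with _ | _ | j
    · refine ⟨fun k => if k = 0 then 1 + α * β else -(α+β), fun z hz => ?_⟩
      simp only [Finset.sum_range_succ, Finset.sum_range_zero, sL]
      simp
      field_simp
      ring
    · refine ⟨fun k => if k = 0 then -(α+β) else if k = 1 then 2 + α*β else -(α+β),
        fun z hz => ?_⟩
      simp only [Finset.sum_range_succ, Finset.sum_range_zero, sL]
      simp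
      field_simp
      ring
    · refine ⟨fun k => if k < j then 0 else if k = j then 1 else if k = j + 1 then -(α+β) else
        if k = j+2 then 2 + α*β else -(α+β), fun z hz => ?_⟩
      simp only [Finset.sum_range_succ]
      rw [Finset.sum_eq_zero]
      · simp [sL]
        field_simp
        ring
      · intro k hk
        rw [mem_range] at hk
        simp [hk]
  · simp [hα]
  · simp [hβ]

end Pool.Agent.H988R2.Perc
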