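import Pool.Agent.H988R2.Perc.T14
import Pool.Agent.H988R2.Perc.T15Aux

/-! T15: determinant formula for `Z`. -/

namespace Pool.Agent.H988R2.Perc

noncomputable def dmu (N : ℕ) (l : List ℂ) : ℂ :=
  Matrix.det (Matrix.of fun i j : Fin N =>
    (l.getD i 0)^(mu (N-1) + mu j) - (l.getD i 0)^(mu (N-1) - mu j))

noncomputable def ddl (N : ℕ) (l : List ℂ) : ℂ :=
  Matrix.det (Matrix.of fun i j : Fin N =>
    (l.getD i 0)^(N + ((j:ℕ)+1)) - (l.getD i 0)^(N - ((j:ℕ)+1)))

open Finset MvPolynomial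

/-- determinants of this kind are polynomial functions -/
theorem pd_det (N d : ℕ) (a b : ℕ → ℕ) (ha : ∀ j < N, a j ≤ d) (hb : ∀ j < N, b j ≤ d) :
    PD N d (fun l => Matrix.det (Matrix.of fun i j : Fin N =>
      (l.getD i 0)^(a j) - (l.getD i 0)^(b j))) := by
  classical
  refine ⟨Matrix.det (Matrix.of fun i j : Fin N =>
      ((MvPolynomial.X i : MvPolynomial (Fin N) ℂ))^(a j) - (MvPolynomial.X i)^(b j)), ?_, ?_⟩
  · intro i
    rw [Matrix.det_apply]
    refine (degreeOf_sum_le _ _ _).trans (Finset.sup_le fun σ _ => ?_)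
    have h1 : degreeOf i (∏ i_1, Matrix.of (fun i j : Fin N =>
      ((MvPolynomial.X i : MvPolynomial (Fin N) ℂ))^(a j) - (MvPolynomial.X i)^(b j)) (σ i_1) i_1) ≤ d := by
      refine (degreeOf_prod_le _ _ _).trans ?_
      rw [Finset.sum_eq_single (σ.symm i)]
      · simp only [Matrix.of_apply, Equiv.apply_symm_apply]
        rw [sub_eq_add_neg]
        refine (degreeOf_add_le _ _ _).trans (max_le ?_ ?_)
        · refine (degreeOf_pow_le _ _ _).trans ?_
          rw [degreeOf_X_self, mul_one]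
          exact ha _ (Fin.is_lt _)
        · rw [degreeOf_neg]
          refine (degreeOf_pow_le _ _ _).trans ?_
          rw [degreeOf_X_self, mul_one]
          exact hb _ (Fin.is_lt _)
      · intro k _ hk
        have hne : i ≠ σ k := fun h => hk (by rw [h]; simp)
        simp only [Matrix.of_apply]
        rw [sub_eq_add_neg]
        refine Nat.le_zero.mp ((degreeOf_add_le _ _ _).trans (max_le ?_ ?_))
        · refine (degreeOf_pow_le _ _ _).trans ?_
          rw [MvPolynomial.degreeOf_X, if_neg hne, mul_zero]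
        · rw [degreeOf_neg]
          refine (degreeOf_pow_le _ _ _).trans ?_
          rw [MvPolynomial.degreeOf_X, if_neg hne, mul_zero]
      · simp
    rcases Int.units_eq_one_or (Equiv.Perm.sign σ) with h | h
    · rw [h, one_smul]; exact h1
    · rw [h, Units.neg_smul, one_smul, degreeOf_neg]; exact h1
  · intro l _
    rw [RingHom.map_det]
    refine congrArg Matrix.det ?_
    ext i j
    simp

theorem det_zero_of_prop {N : ℕ} (M : Matrix (Fin N) (Fin N) ℂ) (a b : Fin N) (hab : a ≠ b) (c : ℂ)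
    (h : ∀ j, M a j = c * M b j) : M.det = 0 := by
  rw [← Matrix.det_updateRow_add_smul_self M hab (-c)]
  apply Matrix.det_eq_zero_of_row_eq_zero a
  intro j
  simp [h j]

theorem mu_le {j k : ℕ} (h : j ≤ k) : mu j ≤ mu k := by
  unfold mu; omega

theorem mu_odd (n : ℕ) : mu (2*n+1) = 3*n+2 := by
  unfold mu; omega

/-- vector versions -/
noncomputable def dV {N : ℕ} (K : ℕ) (e : ℕ → ℕ) (z : Fin N → ℂ) : ℂ :=
  Matrix.det (Matrix.of fun i j : Fin N => (z i)^(K + e j) - (z i)^(K - e j))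

theorem dmu_eq (N : ℕ) (l : List ℂ) : dmu N l = dV (mu (N-1)) mu (fun i : Fin N => l.getD i 0) := rfl

theorem ddl_eq (N : ℕ) (l : List ℂ) : ddl N l = dV N (fun j => j+1) (fun i : Fin N => l.getD i 0) := rfl

theorem dV_eq {N : ℕ} (K : ℕ) (e : ℕ → ℕ) (he : ∀ j < N, e j ≤ K) (z : Fin N → ℂ)
    (hz : ∀ i, z i ≠ 0) :
    dV K e z = (∏ i, z i)^K * (Matrix.of fun i j : Fin N => sL (e j) (z i)).det := by
  unfold dV
  rw [← Finset.prod_pow, ← Matrix.det_mul_column]
  congr 1
  ext i j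
  simp only [Matrix.of_apply, sL]
  have h1 := he j j.2
  have h2 : z i ^ K = z i ^ (K - e j) * z i ^ (e j) := by
    rw [← pow_add]; congr 1; omega
  rw [mul_sub, pow_add, h2]
  congr 1
  rw [mul_assoc, ← mul_pow, mul_inv_cancel₀ (hz i), one_pow, mul_one]

theorem dV_perm {N : ℕ} (K : ℕ) (e : ℕ → ℕ) (z : Fin N → ℂ) (σ : Equiv.Perm (Fin N)) :
    dV K e (z ∘ σ) = Equiv.Perm.sign σ * dV K e z :=
  Matrix.det_permute σ (Matrix.of fun i j : Fin N => (z i)^(K + e j) - (z i)^(K - e j))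

theorem dV_zero_of_sq {N : ℕ} (K : ℕ) (e : ℕ → ℕ) (he : ∀ j < N, e j ≤ K) (z : Fin N → ℂ)
    (a : Fin N) (h : (z a)^2 = 1) : dV K e z = 0 := by
  apply Matrix.det_eq_zero_of_row_eq_zero a
  intro j
  simp only [Matrix.of_apply]
  have h1 := he j j.2
  rw [show K + e j = (K - e j) + 2 * e j by omega, pow_add, pow_mul, h]
  simp

theorem dV_zero_of_eq {N : ℕ} (K : ℕ) (e : ℕ → ℕ) (z : Fin N → ℂ)
    (a b : Fin N) (hab : a ≠ b) (h : z a = z b) : dV K e z = 0 := by
  apply det_zero_of_prop _ a b hab 1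
  intro j
  simp [h]

theorem dV_zero_of_inv {N : ℕ} (K : ℕ) (e : ℕ → ℕ) (he : ∀ j < N, e j ≤ K) (z : Fin N → ℂ)
    (a b : Fin N) (hab : a ≠ b) (hb : z b ≠ 0) (h : z a = (z b)⁻¹) : dV K e z = 0 := by
  apply det_zero_of_prop _ a b hab (-((z b)⁻¹)^(2*K))
  intro j
  have h1 := he j j.2
  simp only [Matrix.of_apply, h]
  have h2 : (z b)⁻¹ * z b = 1 := inv_mul_cancel₀ hb
  have e1 : (z b)⁻¹ ^ (2*K) * (z b)^(K - e j) = (z b)⁻¹ ^ (K + e j) := by
    rw [show 2 * K = (K + e j) + (K - e j) by omega, pow_add, mul_assoc, ← mul_pow, h2, one_pow,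
      mul_one]
  have e2 : (z b)⁻¹ ^ (2*K) * (z b)^(K + e j) = (z b)⁻¹ ^ (K - e j) := by
    rw [show 2 * K = (K - e j) + (K + e j) by omega, pow_add, mul_assoc, ← mul_pow, h2, one_pow,
      mul_one]
  rw [neg_mul, mul_sub, e1, e2]
  ring

theorem fac_ofFn {k : ℕ} (x : ℂ) (m : Fin k → ℂ) :
    fac x (List.ofFn m) = ∏ i, ((x - q^2 * m i) * (x * m i - q^2)) := by
  unfold fac
  rw [List.map_ofFn, List.prod_ofFn]
  rfl

theorem q_inv : q⁻¹ = q^2 := by
  have hq := q_ne_zero
  field_simp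
  exact q_cube.symm

theorem q_sq_inv : (q^2)⁻¹ = q := by
  rw [← q_inv, inv_inv]

/-- key factorisation -/
theorem fac_key (x y : ℂ) (hx : x ≠ 0) (hy : y ≠ 0) :
    (x - q^2 * y) * (x * y - q^2) = -(q^2 * x) * y * (y + y⁻¹ - (q * x + (q*x)⁻¹)) := by
  have h3 := q_cube
  rw [mul_inv, q_inv]
  have h1 : x * x⁻¹ = 1 := mul_inv_cancel₀ hx
  have h2 : y * y⁻¹ = 1 := mul_inv_cancel₀ hy
  linear_combination (-x^2 * y) * h3 + q^2 * x * h2 - q^4 * y * h1

theorem cube_key (x y : ℂ) (hx : x ≠ 0) (hy : y ≠ 0) :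
    y^3 + (y⁻¹)^3 - (x^3 + (x⁻¹)^3) =
      (y + y⁻¹ - (x + x⁻¹)) * (y + y⁻¹ - (q^2 * x + (q^2 * x)⁻¹)) * (y + y⁻¹ - (q * x + (q*x)⁻¹)) := by
  have hs := q_spec
  have h1 : x * x⁻¹ = 1 := mul_inv_cancel₀ hx
  have h2 : y * y⁻¹ = 1 := mul_inv_cancel₀ hy
  rw [mul_inv, mul_inv, q_inv, q_sq_inv]
  generalize x⁻¹ = xi at *
  generalize y⁻¹ = yi at *
  have hA : ∀ W : ℂ, (W - (x + xi)) * (W - (q^2 * x + q * xi)) * (W - (q * x + q^2 * xi)) =
      W^3 - 3 * (x * xi) * W - (x^3 + xi^3) := by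
    intro W
    linear_combination (-(x+xi)*W^2 + W*((x+xi)^2 + (q-1)*(x^2+xi^2) + (1+q*(q-1)) * (x*xi))
      - (x+xi)*((q-1)*(x^2+xi^2) + (1+q*(q-1)) * (x * xi))) * hs
  rw [hA]
  linear_combination 3 * (y + yi) * h1 - 3 * (y+yi) * h2

/-- the recursion step for vectors -/
theorem step_rec (n : ℕ) (z : Fin (2*n+2) → ℂ) (hz : ∀ i, z i ≠ 0) (h : z 1 = q^2 * z 0)
    (ih : Z (List.ofFn fun i : Fin (2*n) => z i.succ.succ) *
      dV (2*n) (fun j => j+1) (fun i : Fin (2*n) => z i.succ.succ) =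
      q^(n*(n-1)) * dV (mu (2*n-1)) mu (fun i : Fin (2*n) => z i.succ.succ)) :
    Z (List.ofFn z) * dV (2*n+2) (fun j => j+1) z =
      q^((n+1)*n) * dV (mu (2*n+1)) mu z := by
  set m : Fin (2*n) → ℂ := fun i => z i.succ.succ with hm
  have hmz : ∀ i, m i ≠ 0 := fun i => hz _
  have hl : List.ofFn z = z 0 :: (q^2 * z 0) :: List.ofFn m := by
    rw [List.ofFn_succ, List.ofFn_succ]
    rw [← h]
    rfl
  have hZ : Z (List.ofFn z) = fac (z 0) (List.ofFn m) * Z (List.ofFn m) := by
    rw [hl]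
    have := Z_rec [] (List.ofFn m) (z 0) (by simp)
    simpa using this
  have hfac : fac (z 0) (List.ofFn m) = (q^2 * z 0)^(2*n) * (∏ i, m i) *
      ∏ i, (m i + (m i)⁻¹ - (q * z 0 + (q * z 0)⁻¹)) := by
    rw [fac_ofFn, Finset.prod_congr rfl (fun i _ => fac_key (z 0) (m i) (hz 0) (hmz i)),
      Finset.prod_mul_distrib, Finset.prod_mul_distrib]
    congr 2
    rw [Finset.prod_const, Finset.card_univ, Fintype.card_fin, Even.neg_pow (by simp)]
  have hcube : (z 1)^3 = (z 0)^3 := by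
    rw [h, mul_pow, ← pow_mul, show 2 * 3 = 3 * 2 from rfl, pow_mul, q_cube]; ring
  have hP : (∏ i, z i) = (z 0) * (q^2 * z 0) * ∏ i, m i := by
    rw [Fin.prod_univ_succ, Fin.prod_univ_succ, ← h]
    simp [hm, mul_assoc]
  have hD1 := det_mu_rec (2*n) z hz hcube
  have hD2 := det_succ_rec (2*n) z hz
  have hT : (∏ i : Fin (2*n), ((z i.succ.succ)^3 + ((z i.succ.succ)⁻¹)^3 - ((z 0)^3 + ((z 0)⁻¹)^3)))
      = (∏ i : Fin (2*n), ((z i.succ.succ + (z i.succ.succ)⁻¹ - (z 0 + (z 0)⁻¹)) *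
            (z i.succ.succ + (z i.succ.succ)⁻¹ - (z 1 + (z 1)⁻¹)))) *
        ∏ i, (m i + (m i)⁻¹ - (q * z 0 + (q * z 0)⁻¹)) := by
    rw [← Finset.prod_mul_distrib]
    apply Finset.prod_congr rfl
    intro i _
    rw [h]
    exact cube_key (z 0) (m i) (hz 0) (hmz i)
  rw [hT] at hD1
  rw [dV_eq (2*n+2) (fun j => j+1) (by intro j hj; omega) z hz,
    dV_eq (mu (2*n+1)) mu (by intro j hj; exact mu_le (by omega)) z hz, hD1, hD2, hZ, hfac, hP]
  rw [dV_eq (2*n) (fun j => j+1) (by intro j hj; omega) m hmz,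
    dV_eq (mu (2*n-1)) mu (by intro j hj; exact mu_le (by omega)) m hmz] at ih
  change _ * (_ * (Matrix.of fun i j : Fin (2*n) => sL (j+1) (m i)).det) =
    _ * (_ * (Matrix.of fun i j : Fin (2*n) => sL (mu j) (m i)).det) at ih
  change _ * (_ * (_ * (_ * (Matrix.of fun i j : Fin (2*n) => sL (j+1) (m i)).det))) =
    _ * (_ * (_ * (_ * (Matrix.of fun i j : Fin (2*n) => sL (mu j) (m i)).det)))
  generalize (Matrix.of fun i j : Fin (2*n) => sL (j+1) (m i)).det = D2 at *
  generalize (Matrix.of fun i j : Fin (2*n) => sL (mu j) (m i)).det = D1 at *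
  generalize (∏ i, (m i + (m i)⁻¹ - (q * z 0 + (q * z 0)⁻¹))) = W1 at *
  generalize (∏ i : Fin (2*n), ((z i.succ.succ + (z i.succ.succ)⁻¹ - (z 0 + (z 0)⁻¹)) *
            (z i.succ.succ + (z i.succ.succ)⁻¹ - (z 1 + (z 1)⁻¹)))) = W2 at *
  generalize (sL 1 (z 0) * sL 2 (z 1) - sL 2 (z 0) * sL 1 (z 1)) = A at *
  have hPm : (∏ i, m i)^(mu (2*n+1)) = (∏ i, m i)^3 * (∏ i, m i)^(mu (2*n-1)) := by
    rcases n with _ | n
    · simp
    · rw [← pow_add]
      congr 1
      rw [show 2*(n+1)-1 = 2*n+1 by omega, mu_odd, mu_odd]; ring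
  generalize (∏ i, m i) = P at *
  generalize Z (List.ofFn m) = Zm at *
  rw [mul_pow (z 0 * (q^2 * z 0)) P (mu (2*n+1)), hPm, mu_odd]
  have e1 : (q^2 * z 0)^(2*n) * (z 0 * (q^2 * z 0))^(2*n+2) * q^(n*(n-1)) =
      q^((n+1)*n) * (z 0 * (q^2 * z 0))^(3*n+2) := by
    rcases n with _ | n
    · simp
    · rw [show n + 1 - 1 = n by omega]
      ring
  calc (q^2 * z 0)^(2*n) * P * W1 * Zm * ((z 0 * (q^2 * z 0) * P)^(2*n+2) * (A * (W2 * D2)))
      = (q^2 * z 0)^(2*n) * (z 0 * (q^2 * z 0))^(2*n+2) * P^3 * W1 * A * W2 *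
        (Zm * (P^(2*n) * D2)) := by ring
    _ = (q^2 * z 0)^(2*n) * (z 0 * (q^2 * z 0))^(2*n+2) * P^3 * W1 * A * W2 *
        (q^(n*(n-1)) * (P^(mu (2*n-1)) * D1)) := by rw [ih]
    _ = ((q^2 * z 0)^(2*n) * (z 0 * (q^2 * z 0))^(2*n+2) * q^(n*(n-1))) * (P^3 * W1 * A * W2 *
        (P^(mu (2*n-1)) * D1)) := by ring
    _ = _ := by rw [e1]; ring

/-- generic values -/
noncomputable def badSet (p : List ℂ) : Finset ℂ :=
  insert 0 ((insert 1 ((p.map (fun z => z^6)).toFinset ∪
    (p.map (fun z => (z⁻¹)^6)).toFinset)).biUnion fun a => (Polynomial.nthRoots 6 a).toFinset)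

theorem notMem_badSet {p : List ℂ} {y : ℂ} (h : y ∉ badSet p) :
    y ≠ 0 ∧ y^6 ≠ 1 ∧ ∀ z ∈ p, y^6 ≠ z^6 ∧ y^6 ≠ (z⁻¹)^6 := by
  unfold badSet at h
  rw [Finset.mem_insert, not_or] at h
  obtain ⟨h0, h1⟩ := h
  rw [Finset.mem_biUnion] at h1
  push Not at h1
  have key : ∀ a ∈ (insert 1 ((p.map (fun z => z^6)).toFinset ∪
    (p.map (fun z => (z⁻¹)^6)).toFinset) : Finset ℂ), y^6 ≠ a := by
    intro a ha hya
    apply h1 a ha
    rw [Multiset.mem_toFinset, Polynomial.mem_nthRoots (by norm_num)]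
    exact hya
  refine ⟨h0, key 1 (by simp), fun z hz => ⟨key _ ?_, key _ ?_⟩⟩
  · rw [Finset.mem_insert, Finset.mem_union, List.mem_toFinset, List.mem_map]
    exact Or.inr (Or.inl ⟨z, hz, rfl⟩)
  · rw [Finset.mem_insert, Finset.mem_union, List.mem_toFinset, List.mem_toFinset, List.mem_map,
      List.mem_map]
    exact Or.inr (Or.inr ⟨z, hz, rfl⟩)

/-- the roots -/
noncomputable def rootSet {k : ℕ} (y : Fin k → ℂ) : Finset ℂ :=
  {1, -1} ∪ (Finset.univ : Finset (Fin k)).biUnion (fun i => {y i, (y i)⁻¹, q * y i})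

theorem card_rootSet {k : ℕ} (y : Fin k → ℂ) (h0 : ∀ i, y i ≠ 0) (h1 : ∀ i, (y i)^6 ≠ 1)
    (h2 : ∀ i j, i ≠ j → (y i)^6 ≠ (y j)^6 ∧ (y i)^6 ≠ ((y j)⁻¹)^6) :
    (rootSet y).card = 2 + k * 3 := by
  have hq6 : q^6 = 1 := by
    rw [show 6 = 3 * 2 from rfl, pow_mul, q_cube]; ring
  have six : ∀ i, ∀ s ∈ ({y i, (y i)⁻¹, q * y i} : Finset ℂ), s^6 = (y i)^6 ∨ s^6 = ((y i)⁻¹)^6 := by
    intro i s hs
    simp only [Finset.mem_insert, Finset.mem_singleton] at hs
    rcases hs with rfl | rfl | rfl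
    · exact Or.inl rfl
    · exact Or.inr rfl
    · left; rw [mul_pow, hq6, one_mul]
  unfold rootSet
  rw [Finset.card_union_of_disjoint, Finset.card_biUnion]
  · congr 1
    · rw [Finset.card_pair]
      intro h
      have : (2:ℂ) = 0 := by linear_combination h
      norm_num at this
    · rw [Finset.sum_congr rfl (g := fun _ => 3)]
      · simp
      · intro i _
        rw [Finset.card_eq_three]
        refine ⟨_, _, _, ?_, ?_, ?_, rfl⟩
        · intro h
          apply h1 i
          have : y i * y i = 1 := by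
            nth_rw 1 [h]; exact inv_mul_cancel₀ (h0 i)
          calc (y i)^6 = (y i * y i)^3 := by ring
            _ = 1 := by rw [this]; ring
        · intro h
          apply q_ne_one
          have : (q - 1) * y i = 0 := by linear_combination -h
          rcases mul_eq_zero.mp this with h' | h'
          · exact sub_eq_zero.mp h'
          · exact absurd h' (h0 i)
        · intro h
          apply h1 i
          have : q * y i * y i = 1 := by
            rw [← h]; exact inv_mul_cancel₀ (h0 i)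
          calc (y i)^6 = q^3 * (y i)^6 := by rw [q_cube, one_mul]
            _ = (q * y i * y i)^3 := by ring
            _ = 1 := by rw [this]; ring
  · intro i _ j _ hij
    rw [Function.onFun, Finset.disjoint_left]
    intro s hs hs'
    have a1 := six i s hs
    have a2 := six j s hs'
    obtain ⟨b1, b2⟩ := h2 i j hij
    obtain ⟨b3, b4⟩ := h2 j i hij.symm
    rcases a1 with a1 | a1 <;> rcases a2 with a2 | a2
    · exact b1 (a1.symm.trans a2)
    · exact b2 (a1.symm.trans a2)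
    · exact b4 (a2.symm.trans a1)
    · apply b1
      have := a1.symm.trans a2
      rw [inv_pow, inv_pow] at this
      exact inv_injective this
  · rw [Finset.disjoint_left]
    intro s hs hs'
    rw [Finset.mem_biUnion] at hs'
    obtain ⟨i, _, hs'⟩ := hs'
    have hs1 : s^6 = 1 := by
      simp only [Finset.mem_insert, Finset.mem_singleton] at hs
      rcases hs with rfl | rfl <;> norm_num
    rcases six i s hs' with h | h
    · exact h1 i (h.symm.trans hs1)
    · apply h1 i
      have := h.symm.trans hs1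
      rw [inv_pow] at this
      exact inv_eq_one.mp this

theorem root_vanish (n : ℕ) (IH : ∀ l : List ℂ, l.length = 2*n →
      Z l * ddl (2*n) l = q^(n*(n-1)) * dmu (2*n) l) (y : Fin (2*n+1) → ℂ) (h0 : ∀ i, y i ≠ 0)
    (s : ℂ) (hs : s ∈ rootSet y) (z : Fin (2*n+2) → ℂ) (hzl : z (Fin.last _) = s)
    (hzc : ∀ i : Fin (2*n+1), z i.castSucc = y i) :
    Z (List.ofFn z) * dV (2*n+2) (fun j => j+1) z =
      q^((n+1)*n) * dV (mu (2*n+1)) mu z := by
  have he1 : ∀ j < 2*n+2, (fun j => j+1) j ≤ 2*n+2 := by intro j hj; simp only; omega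
  have he2 : ∀ j < 2*n+2, mu j ≤ mu (2*n+1) := by intro j hj; exact mu_le (by omega)
  unfold rootSet at hs
  rw [Finset.mem_union, Finset.mem_biUnion] at hs
  rcases hs with hs | ⟨k, _, hs⟩
  · have : (z (Fin.last _))^2 = 1 := by
      rw [hzl]
      simp only [Finset.mem_insert, Finset.mem_singleton] at hs
      rcases hs with rfl | rfl <;> norm_num
    rw [dV_zero_of_sq _ _ he1 z _ this, dV_zero_of_sq _ _ he2 z _ this]
    ring
  · have hne : Fin.last (2*n+1) ≠ k.castSucc := (Fin.castSucc_lt_last k).ne'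
    simp only [Finset.mem_insert, Finset.mem_singleton] at hs
    rcases hs with hs | hs | hs
    · have : z (Fin.last _) = z k.castSucc := by rw [hzl, hzc, hs]
      rw [dV_zero_of_eq _ _ z _ _ hne this, dV_zero_of_eq _ _ z _ _ hne this]
      ring
    · have : z (Fin.last _) = (z k.castSucc)⁻¹ := by rw [hzl, hzc, hs]
      have hb : z k.castSucc ≠ 0 := by rw [hzc]; exact h0 k
      rw [dV_zero_of_inv _ _ he1 z _ _ hne hb this, dV_zero_of_inv _ _ he2 z _ _ hne hb this]
      ring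
    · -- permutation
      have hzne : ∀ i, z i ≠ 0 := by
        intro i
        refine Fin.lastCases ?_ (fun j => ?_) i
        · rw [hzl, hs]; exact mul_ne_zero q_ne_zero (h0 k)
        · rw [hzc]; exact h0 j
      obtain ⟨σ, hσ0, hσ1⟩ : ∃ σ : Equiv.Perm (Fin (2*n+2)), σ 0 = Fin.last _ ∧
          σ 1 = k.castSucc := by
        set a : Fin (2*n+2) := Fin.last _
        set b : Fin (2*n+2) := k.castSucc
        have h01 : (0 : Fin (2*n+2)) ≠ 1 := by
          intro h; have := congrArg Fin.val h; simp at this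
        have hc0 : Equiv.swap 0 a b ≠ 0 := by
          intro h
          have : b = a := by
            have h' := congrArg (Equiv.swap 0 a) h
            simpa using h'
          exact hne this.symm
        refine ⟨(Equiv.swap 0 a) * (Equiv.swap 1 (Equiv.swap 0 a b)), ?_, ?_⟩
        · rw [Equiv.Perm.mul_apply, Equiv.swap_apply_of_ne_of_ne h01 hc0.symm]
          simp
        · rw [Equiv.Perm.mul_apply, Equiv.swap_apply_left]
          simp
      have hrec : (z ∘ σ) 1 = q^2 * (z ∘ σ) 0 := by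
        simp only [Function.comp, hσ0, hσ1]
        rw [hzl, hzc, hs, ← mul_assoc]
        rw [show q^2 * q = q^3 by ring, q_cube, one_mul]
      have hst := step_rec n (z ∘ σ) (fun i => hzne _) hrec (by
        have := IH (List.ofFn fun i : Fin (2*n) => (z ∘ σ) i.succ.succ) (by simp)
        rw [ddl_eq, dmu_eq] at this
        simpa using this)
      rw [dV_perm, dV_perm] at hst
      have hZ : Z (List.ofFn (z ∘ σ)) = Z (List.ofFn z) :=
        Z_perm (by rw [List.length_ofFn]; exact ⟨n+1, by ring⟩) (σ.ofFn_comp_perm z)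
      rw [hZ] at hst
      have hsg : ((Equiv.Perm.sign σ : ℤ) : ℂ) ≠ 0 := by
        rcases Int.units_eq_one_or (Equiv.Perm.sign σ) with h | h <;> simp [h]
      apply mul_left_cancel₀ hsg
      linear_combination hst

theorem Z_det (n : ℕ) (l : List ℂ) (h : l.length = 2*n) :
    Z l * ddl (2*n) l = q^(n*(n-1)) * dmu (2*n) l := by
  induction n generalizing l with
  | zero =>
    have : l = [] := List.length_eq_zero_iff.mp h
    subst this
    rw [Z_nil]
    simp [ddl, dmu]
  | succ n ih =>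
    have hF : PD (2*n+2) (6*n+4) (fun l => Z l * ddl (2*n+2) l +
        (-(q^((n+1)*n))) * dmu (2*n+2) l) := by
      apply PD.add
      · have h1 := (Z_pd (2*n+2) ⟨n+1, by ring⟩).mul (pd_det (2*n+2) (2*(2*n+2))
          (fun j => 2*n+2 + (j+1)) (fun j => 2*n+2 - (j+1)) (by intro j hj; omega)
          (by intro j hj; omega))
        refine h1.le (by omega)
      · apply PD.smul
        have h1 := (pd_det (2*n+2) (2*(mu (2*n+1)))
          (fun j => mu (2*n+1) + mu j) (fun j => mu (2*n+1) - mu j)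
          (by intro j hj; have := mu_le (show j ≤ 2*n+1 by omega); omega)
          (by intro j hj; omega))
        refine PD.le h1 ?_
        rw [mu_odd]; omega
    have key := PD.generic hF badSet (by
      intro l hl hgen
      set y : Fin (2*n+1) → ℂ := fun i => l.getD i 0 with hy
      have hy0 : ∀ i, y i ≠ 0 := fun i => (notMem_badSet (hgen i (by omega))).1
      have hy1 : ∀ i, (y i)^6 ≠ 1 := fun i => (notMem_badSet (hgen i (by omega))).2.1
      have hy2 : ∀ i j : Fin (2*n+1), (j:ℕ) < i → (y i)^6 ≠ (y j)^6 ∧ (y i)^6 ≠ ((y j)⁻¹)^6 := by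
        intro i j hij
        apply (notMem_badSet (hgen i (by omega))).2.2
        rw [hy]
        simp only
        rw [List.getD_eq_getElem l 0 (by omega)]
        rw [List.mem_take_iff_getElem]
        exact ⟨j, by omega, rfl⟩
      have hy3 : ∀ i j, i ≠ j → (y i)^6 ≠ (y j)^6 ∧ (y i)^6 ≠ ((y j)⁻¹)^6 := by
        intro i j hij
        rcases lt_or_gt_of_ne (fun h => hij (Fin.ext h) : (i:ℕ) ≠ j) with h | h
        · obtain ⟨h1, h2⟩ := hy2 j i h
          refine ⟨h1.symm, fun h3 => h2 ?_⟩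
          rw [inv_pow] at h3 ⊢
          rw [h3, inv_inv]
        · exact hy2 i j h
      have hl' : l = List.ofFn y ++ [l.getD (2*n+1) 0] := by
        apply List.ext_getElem
        · simp [hl]
        · intro i h1 h2
          by_cases hi : i < 2*n+1
          · rw [List.getElem_append_left (by simpa using hi)]
            rw [List.getElem_ofFn, hy]
            simp only
            rw [List.getD_eq_getElem l 0 h1]
          · have : i = 2*n+1 := by omega
            subst this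
            rw [List.getElem_append_right (by simp)]
            rw [List.getElem_singleton, List.getD_eq_getElem l 0 h1]
      have hr := PD.roots hF (List.ofFn y) [] (by simp) (rootSet y) (by
        rw [card_rootSet y hy0 hy1 hy3]; omega) (by
        intro s hs
        set z : Fin (2*n+2) → ℂ := Fin.snoc y s with hz
        have hzl : z (Fin.last _) = s := by simp [hz]
        have hzc : ∀ i : Fin (2*n+1), z i.castSucc = y i := by intro i; simp [hz]
        have hlz : List.ofFn y ++ [s] = List.ofFn z := by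
          rw [List.ofFn_succ' z, List.concat_eq_append, hzl]
          simp only [hzc]
        have hv := root_vanish n ih y hy0 s hs z hzl hzc
        rw [hlz, ddl_eq, dmu_eq]
        have hzz : (fun i : Fin (2*n+2) => (List.ofFn z).getD i 0) = z := by
          funext i
          rw [List.getD_eq_getElem _ _ (by rw [List.length_ofFn]; exact i.2), List.getElem_ofFn]
        rw [hzz]
        rw [show 2*n+2-1 = 2*n+1 from rfl]
        linear_combination hv) (l.getD (2*n+1) 0)
      rw [← hl'] at hr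
      exact hr) l (by omega)
    rw [show 2*(n+1) = 2*n+2 by ring, show n+1-1 = n by omega]
    linear_combination key

end Pool.Agent.H988R2.Perc
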