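import Pool.Agent.H988R2.Perc.T03

/-! T04: the exchange operator (divided difference) preserves polynomials of degree `≤ d` in each
variable. -/

namespace Pool.Agent.H988R2.Perc

open MvPolynomial in
theorem swap_sub_dvd {N : ℕ} (a b : Fin N) (p : MvPolynomial (Fin N) ℂ) :
    (MvPolynomial.X b - MvPolynomial.X a : MvPolynomial (Fin N) ℂ) ∣ rename (Equiv.swap a b) p - p := by
  induction p using MvPolynomial.induction_on with
  | C c => simp
  | add p r hp hr =>
    have : rename (Equiv.swap a b) (p + r) - (p + r) =
        (rename (Equiv.swap a b) p - p) + (rename (Equiv.swap a b) r - r) := by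
      rw [map_add]; ring
    rw [this]
    exact dvd_add hp hr
  | mul_X p k hp =>
    have h1 : rename (Equiv.swap a b) (p * MvPolynomial.X k) - p * MvPolynomial.X k =
        (rename (Equiv.swap a b) p - p) * MvPolynomial.X (Equiv.swap a b k) +
          p * (MvPolynomial.X (Equiv.swap a b k) - MvPolynomial.X k) := by
      rw [map_mul, rename_X]; ring
    rw [h1]
    refine dvd_add (Dvd.dvd.mul_right hp _) (Dvd.dvd.mul_left ?_ _)
    by_cases hka : k = a
    · subst hka; simp
    · by_cases hkb : k = b
      · subst hkb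
        rw [Equiv.swap_apply_right]
        exact ⟨-1, by ring⟩
      · rw [Equiv.swap_apply_of_ne_of_ne hka hkb]; simp

open MvPolynomial in
theorem degreeOf_X_sub {N : ℕ} {a b : Fin N} (hab : a ≠ b) :
    degreeOf a (MvPolynomial.X b - MvPolynomial.X a : MvPolynomial (Fin N) ℂ) = 1 := by
  have h1 : (MvPolynomial.X b - MvPolynomial.X a : MvPolynomial (Fin N) ℂ) = -(MvPolynomial.X a - MvPolynomial.X b) := by ring
  apply le_antisymm
  · refine (degreeOf_sub_le _ _ _).trans ?_
    rw [degreeOf_X, degreeOf_X]
    simp [hab]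
  · by_contra h
    push Not at h
    have h0 : degreeOf a (MvPolynomial.X b - MvPolynomial.X a : MvPolynomial (Fin N) ℂ) = 0 := by omega
    have h2 : degreeOf a (MvPolynomial.X b - (MvPolynomial.X b - MvPolynomial.X a) : MvPolynomial (Fin N) ℂ) ≤ 0 := by
      refine (degreeOf_sub_le _ _ _).trans ?_
      rw [h0, degreeOf_X]
      simp [hab]
    have h3 : (MvPolynomial.X b - (MvPolynomial.X b - MvPolynomial.X a) : MvPolynomial (Fin N) ℂ) = MvPolynomial.X a := by ring
    rw [h3, degreeOf_X] at h2
    simp at h2

theorem exists_E {N d i : ℕ} {F : List ℂ → ℂ} (hF : PD N d F) (hi : i + 2 ≤ N) :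
    ∃ E : List ℂ → ℂ, PD N d E ∧ IsE N i F E := by
  classical
  obtain ⟨p, hp, hpe⟩ := hF
  set a : Fin N := ⟨i, by omega⟩ with ha
  set b : Fin N := ⟨i+1, by omega⟩ with hb
  have hab : a ≠ b := by
    intro h; have := congrArg Fin.val h; simp [ha, hb] at this
  obtain ⟨D, hD⟩ := swap_sub_dvd a b p
  set ps := MvPolynomial.rename (Equiv.swap a b) p with hps
  have hdps : ∀ k, ps.degreeOf k ≤ d := by
    intro k
    have h := MvPolynomial.degreeOf_rename_of_injective (p := p) (Equiv.swap a b).injective
      (Equiv.swap a b k)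
    rw [Equiv.swap_apply_self] at h
    rw [hps, h]
    exact hp _
  have hdsub : ∀ k, (ps - p).degreeOf k ≤ d := fun k =>
    (MvPolynomial.degreeOf_sub_le _ _ _).trans (max_le (hdps k) (hp k))
  have hX : (MvPolynomial.X b - MvPolynomial.X a : MvPolynomial (Fin N) ℂ) ≠ 0 := by
    intro h
    exact hab ((MvPolynomial.X_injective (R := ℂ)) (sub_eq_zero.mp h)).symm
  set M : MvPolynomial (Fin N) ℂ :=
    MvPolynomial.C q * MvPolynomial.X b - MvPolynomial.C (q^2) * MvPolynomial.X a with hM
  have hdM : ∀ k, M.degreeOf k ≤ if k = a ∨ k = b then 1 else 0 := by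
    intro k
    rw [hM]
    refine (MvPolynomial.degreeOf_sub_le _ _ _).trans (max_le ?_ ?_)
    · refine (MvPolynomial.degreeOf_C_mul_le _ _ _).trans ?_
      rw [MvPolynomial.degreeOf_X]
      split_ifs <;> simp_all
    · refine (MvPolynomial.degreeOf_C_mul_le _ _ _).trans ?_
      rw [MvPolynomial.degreeOf_X]
      split_ifs <;> simp_all
  have hMD : ∀ k, (M * D).degreeOf k ≤ d := by
    intro k
    by_cases hD0 : D = 0
    · rw [hD0, mul_zero]; simp
    have h1 := hdsub k
    rw [hD, MvPolynomial.degreeOf_mul_eq hX hD0] at h1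
    refine (MvPolynomial.degreeOf_mul_le _ _ _).trans ?_
    have h2 := hdM k
    by_cases hk : k = a ∨ k = b
    · rw [if_pos hk] at h2
      have h3 : (MvPolynomial.X b - MvPolynomial.X a : MvPolynomial (Fin N) ℂ).degreeOf k = 1 := by
        rcases hk with rfl | rfl
        · exact degreeOf_X_sub hab
        · have := degreeOf_X_sub (Ne.symm hab)
          rw [← MvPolynomial.degreeOf_neg]
          rwa [neg_sub]
      omega
    · rw [if_neg hk] at h2
      omega
  refine ⟨fun l => MvPolynomial.eval (fun k : Fin N => l.getD k 0) (ps + M * D),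
    ⟨ps + M * D, fun k => ?_, fun l _ => rfl⟩, ?_⟩
  · exact (MvPolynomial.degreeOf_add_le _ _ _).trans (max_le (hdps k) (hMD k))
  · intro u v x y hu huv
    have hl1 : (u ++ x :: y :: v).length = N := by simp; omega
    have hl2 : (u ++ y :: x :: v).length = N := by simp; omega
    have hga : (u ++ x :: y :: v).getD (a : ℕ) 0 = x := by
      simp [ha, ← hu, List.getD_eq_getElem?_getD]
    have hgb : (u ++ x :: y :: v).getD (b : ℕ) 0 = y := by
      simp [hb, ← hu, List.getD_eq_getElem?_getD]
    have hps_e : MvPolynomial.eval (fun k : Fin N => (u ++ x :: y :: v).getD k 0) ps =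
        F (u ++ y :: x :: v) := by
      rw [hps, MvPolynomial.eval_rename, hpe _ hl2]
      congr 1
      congr 1
      funext k
      simp only [Function.comp]
      by_cases hka : k = a
      · subst hka
        rw [Equiv.swap_apply_left, hgb]
        simp [ha, ← hu, List.getD_eq_getElem?_getD]
      · by_cases hkb : k = b
        · subst hkb
          rw [Equiv.swap_apply_right, hga]
          simp [hb, ← hu, List.getD_eq_getElem?_getD]
        · rw [Equiv.swap_apply_of_ne_of_ne hka hkb]
          have h1 : (k : ℕ) ≠ i := fun h => hka (Fin.ext h)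
          have h2 : (k : ℕ) ≠ i + 1 := fun h => hkb (Fin.ext h)
          rw [List.getD_eq_getElem?_getD, List.getD_eq_getElem?_getD]
          by_cases hlt : (k : ℕ) < i
          · rw [List.getElem?_append_left (by omega), List.getElem?_append_left (by omega)]
          · rw [List.getElem?_append_right (by omega), List.getElem?_append_right (by omega)]
            obtain ⟨m, hm⟩ : ∃ m, (k : ℕ) - u.length = m + 2 := ⟨(k : ℕ) - u.length - 2, by omega⟩
            rw [hm]
            simp
    have hp_e : MvPolynomial.eval (fun k : Fin N => (u ++ x :: y :: v).getD k 0) p =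
        F (u ++ x :: y :: v) := (hpe _ hl1).symm
    have hDe := congrArg (MvPolynomial.eval (fun k : Fin N => (u ++ x :: y :: v).getD k 0)) hD
    rw [map_sub, hps_e, hp_e, map_mul, map_sub, MvPolynomial.eval_X, MvPolynomial.eval_X, hga,
      hgb] at hDe
    show (y - x) * MvPolynomial.eval (fun k : Fin N => (u ++ x :: y :: v).getD k 0) (ps + M * D) = _
    rw [map_add, hps_e, map_mul, hM, map_sub, map_mul, map_mul, MvPolynomial.eval_X,
      MvPolynomial.eval_X, MvPolynomial.eval_C, MvPolynomial.eval_C, hga, hgb]
    set De := MvPolynomial.eval (fun k : Fin N => (u ++ x :: y :: v).getD k 0) D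
    have hq := q_spec
    linear_combination (-(q * y - q^2 * x)) * hDe + (y - x) * F (u ++ y :: x :: v) * hq

end Pool.Agent.H988R2.Perc
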