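import Pool.Agent.H988R2.Perc.T03

/-! T05: the exchange operator preserves the wheel conditions. -/

namespace Pool.Agent.H988R2.Perc

open Filter Topology

namespace T05

/-- the list of the first `N` values of a sequence -/
noncomputable def L (N : ℕ) (z : ℕ → ℂ) : List ℂ := List.ofFn (fun k : Fin N => z k)

theorem length_L (N : ℕ) (z : ℕ → ℂ) : (L N z).length = N := by simp [L]

theorem getD_L {N : ℕ} (z : ℕ → ℂ) {k : ℕ} (hk : k < N) : (L N z).getD k 0 = z k := by
  simp [L, List.getD_eq_getElem?_getD, hk]

theorem L_of_list (N : ℕ) (l : List ℂ) (hl : l.length = N) : l = L N (fun k => l.getD k 0) := by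
  apply List.ext_getElem
  · simp [L, hl]
  · intro k h1 h2
    simp [L, List.getD_eq_getElem?_getD, h1]

theorem split (l : List ℂ) (I J : ℕ) (hIJ : I < J) (hJ : J < l.length) :
    l = l.take I ++ l[I]'(by omega) ::
      ((l.drop (I+1)).take (J-I-1) ++ l[J] :: l.drop (J+1)) := by
  have h2 : l.drop I = l[I]'(by omega) :: l.drop (I+1) := List.drop_eq_getElem_cons (by omega)
  have h4 : (l.drop (I+1)).drop (J-I-1) = l.drop J := by
    rw [List.drop_drop]; congr 1; omega
  have h5 : l.drop J = l[J] :: l.drop (J+1) := List.drop_eq_getElem_cons hJ
  have h3 : l.drop (I+1) = (l.drop (I+1)).take (J-I-1) ++ l[J] :: l.drop (J+1) := by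
    rw [← h5, ← h4]; exact (List.take_append_drop _ _).symm
  rw [← h3, ← h2]
  exact (List.take_append_drop I l).symm

theorem w1 {N : ℕ} {F : List ℂ → ℂ} (hF : V N F) (z : ℕ → ℂ) (I J K : ℕ)
    (hIJ : I < J) (hJ : J < N) (hK : K < N) (hKI : K ≠ I) (hKJ : K ≠ J)
    (h1 : z J = q^2 * z I) (h2 : z K * z I = q^2) : F (L N z) = 0 := by
  have hlen := length_L N z
  have hg : ∀ k (hk : k < (L N z).length), (L N z)[k] = z k := by
    intro k hk; simp [L]
  have hs := split (L N z) I J hIJ (by rw [hlen]; exact hJ)
  rw [hg, hg, h1] at hs
  rw [hs]
  apply hF.wheel1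
  · simp only [List.length_take, List.length_drop, hlen]; omega
  · refine ⟨z K, ?_, h2⟩
    simp only [List.mem_append]
    have hKl : K < (L N z).length := by rw [hlen]; exact hK
    rcases lt_trichotomy K I with h | h | h
    · left; left
      rw [← hg K hKl]
      exact List.mem_take_iff_getElem.mpr ⟨K, by rw [lt_min_iff]; exact ⟨h, hKl⟩, rfl⟩
    · exact absurd h hKI
    · rcases lt_trichotomy K J with h' | h' | h'
      · left; right
        apply List.mem_take_iff_getElem.mpr
        refine ⟨K - I - 1, ?_, ?_⟩
        · rw [lt_min_iff, List.length_drop, hlen]; omega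
        · rw [List.getElem_drop, ← hg K hKl]; congr 1; omega
      · exact absurd h' hKJ
      · right
        apply List.mem_drop_iff_getElem.mpr
        refine ⟨K - J - 1, by rw [hlen]; omega, ?_⟩
        rw [← hg K hKl]; congr 1; omega

theorem w2 {N : ℕ} {F : List ℂ → ℂ} (hF : V N F) (z : ℕ → ℂ) (I J K : ℕ)
    (hIJ : I < J) (hJ : J < N) (hK : K < N) (hK' : K < I ∨ J < K)
    (h1 : z J = q^2 * z I) (h2 : z K = q * z I) : F (L N z) = 0 := by
  have hlen := length_L N z
  have hg : ∀ k (hk : k < (L N z).length), (L N z)[k] = z k := by
    intro k hk; simp [L]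
  have hs := split (L N z) I J hIJ (by rw [hlen]; exact hJ)
  rw [hg, hg, h1] at hs
  rw [hs]
  apply hF.wheel2
  · simp only [List.length_take, List.length_drop, hlen]; omega
  · rw [← h2]
    simp only [List.mem_append]
    have hKl : K < (L N z).length := by rw [hlen]; exact hK
    rcases hK' with h | h
    · left
      rw [← hg K hKl]
      exact List.mem_take_iff_getElem.mpr ⟨K, by rw [lt_min_iff]; exact ⟨h, hKl⟩, rfl⟩
    · right
      apply List.mem_drop_iff_getElem.mpr
      refine ⟨K - J - 1, by rw [hlen]; omega, ?_⟩
      rw [← hg K hKl]; congr 1; omega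

theorem mkV {N : ℕ} {F : List ℂ → ℂ} (hpd : PD N (N-2) F)
    (h1 : ∀ (z : ℕ → ℂ) (I J K : ℕ), I < J → J < N → K < N → K ≠ I → K ≠ J →
      z J = q^2 * z I → z K * z I = q^2 → F (L N z) = 0)
    (h2 : ∀ (z : ℕ → ℂ) (I J K : ℕ), I < J → J < N → K < N → (K < I ∨ J < K) →
      z J = q^2 * z I → z K = q * z I → F (L N z) = 0) : V N F := by
  refine ⟨hpd, ?_, ?_⟩
  · intro u v w x hlen hy
    obtain ⟨y, hy, hyx⟩ := hy
    set l := u ++ x :: (v ++ (q^2 * x) :: w) with hl
    have hll : l.length = N := by rw [hl]; simp; omega
    rw [L_of_list N l hll]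
    have hI : l.getD u.length 0 = x := by rw [hl]; simp [List.getD_eq_getElem?_getD]
    have hJ : l.getD (u.length + 1 + v.length) 0 = q^2 * x := by
      rw [hl, List.getD_append_right _ _ _ _ (by omega)]
      rw [show u.length + 1 + v.length - u.length = v.length + 1 by omega]
      simp [List.getD_eq_getElem?_getD]
    have hK : ∃ K, K < N ∧ K ≠ u.length ∧ K ≠ u.length + 1 + v.length ∧ l.getD K 0 = y := by
      simp only [List.mem_append] at hy
      rcases hy with (h | h) | h
      · obtain ⟨k, hk, hke⟩ := List.getElem_of_mem h
        refine ⟨k, by omega, by omega, by omega, ?_⟩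
        rw [hl, List.getD_append _ _ _ _ hk, ← hke]
        simp [List.getD_eq_getElem?_getD, hk]
      · obtain ⟨k, hk, hke⟩ := List.getElem_of_mem h
        refine ⟨u.length + 1 + k, by omega, by omega, by omega, ?_⟩
        rw [hl, List.getD_append_right _ _ _ _ (by omega)]
        rw [show u.length + 1 + k - u.length = k + 1 by omega]
        rw [List.getD_cons_succ, List.getD_append _ _ _ _ hk, ← hke]
        simp [List.getD_eq_getElem?_getD, hk]
      · obtain ⟨k, hk, hke⟩ := List.getElem_of_mem h
        refine ⟨u.length + 1 + (v.length + 1 + k), by omega, by omega, by omega, ?_⟩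
        rw [hl, List.getD_append_right _ _ _ _ (by omega)]
        rw [show u.length + 1 + (v.length + 1 + k) - u.length = (v.length + 1 + k) + 1 by omega]
        rw [List.getD_cons_succ, List.getD_append_right _ _ _ _ (by omega)]
        rw [show v.length + 1 + k - v.length = k + 1 by omega]
        rw [List.getD_cons_succ, ← hke]
        simp [List.getD_eq_getElem?_getD, hk]
    obtain ⟨K, hKN, hK1, hK2, hKe⟩ := hK
    apply h1 _ u.length (u.length + 1 + v.length) K (by omega) (by omega) hKN hK1 hK2
    · simp only [hI, hJ]
    · simp only [hKe, hI, hyx]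
  · intro u v w x hlen hy
    set l := u ++ x :: (v ++ (q^2 * x) :: w) with hl
    have hll : l.length = N := by rw [hl]; simp; omega
    rw [L_of_list N l hll]
    have hI : l.getD u.length 0 = x := by rw [hl]; simp [List.getD_eq_getElem?_getD]
    have hJ : l.getD (u.length + 1 + v.length) 0 = q^2 * x := by
      rw [hl, List.getD_append_right _ _ _ _ (by omega)]
      rw [show u.length + 1 + v.length - u.length = v.length + 1 by omega]
      simp [List.getD_eq_getElem?_getD]
    have hK : ∃ K, K < N ∧ (K < u.length ∨ u.length + 1 + v.length < K) ∧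
        l.getD K 0 = q * x := by
      simp only [List.mem_append] at hy
      rcases hy with h | h
      · obtain ⟨k, hk, hke⟩ := List.getElem_of_mem h
        refine ⟨k, by omega, by omega, ?_⟩
        rw [hl, List.getD_append _ _ _ _ hk, ← hke]
        simp [List.getD_eq_getElem?_getD, hk]
      · obtain ⟨k, hk, hke⟩ := List.getElem_of_mem h
        refine ⟨u.length + 1 + (v.length + 1 + k), by omega, by omega, ?_⟩
        rw [hl, List.getD_append_right _ _ _ _ (by omega)]
        rw [show u.length + 1 + (v.length + 1 + k) - u.length = (v.length + 1 + k) + 1 by omega]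
        rw [List.getD_cons_succ, List.getD_append_right _ _ _ _ (by omega)]
        rw [show v.length + 1 + k - v.length = k + 1 by omega]
        rw [List.getD_cons_succ, ← hke]
        simp [List.getD_eq_getElem?_getD, hk]
    obtain ⟨K, hKN, hK1, hKe⟩ := hK
    apply h2 _ u.length (u.length + 1 + v.length) K (by omega) (by omega) hKN hK1
    · simp only [hI, hJ]
    · simp only [hKe, hI]

theorem isE {N i : ℕ} {F E : List ℂ → ℂ} (hE : IsE N i F E) (hi : i + 2 ≤ N) (z : ℕ → ℂ) :
    (z (i+1) - z i) * E (L N z) =
      (q * z i - q^2 * z (i+1)) * F (L N (z ∘ Equiv.swap i (i+1)))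
        - (q * z (i+1) - q^2 * z i) * F (L N z) := by
  obtain ⟨M, rfl⟩ : ∃ M, N = i + 2 + M := ⟨N - (i+2), by omega⟩
  have e1 : L (i+2+M) z = L i z ++ z i :: z (i+1) :: L M (fun k => z (k + (i + 2))) := by
    apply List.ext_getElem
    · simp [L]; omega
    · intro k h1 h2
      simp only [L, List.getElem_ofFn]
      rcases lt_trichotomy k i with h | h | h
      · rw [List.getElem_append_left (by simpa using h)]; simp
      · subst h
        rw [List.getElem_append_right (by simp)]; simp
      · rcases Nat.lt_or_ge k (i+2) with h' | h'
        · obtain rfl : k = i + 1 := by omega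
          rw [List.getElem_append_right (by simp)]; simp
        · obtain ⟨j, rfl⟩ : ∃ j, k = j + (i+2) := ⟨k - (i+2), by omega⟩
          rw [List.getElem_append_right (by simp; omega)]
          simp only [List.length_ofFn, show j + (i + 2) - i = j + 2 by omega,
            List.getElem_cons_succ, List.getElem_ofFn]
  have e2 : L (i+2+M) (z ∘ Equiv.swap i (i+1)) =
      L i z ++ z (i+1) :: z i :: L M (fun k => z (k + (i + 2))) := by
    apply List.ext_getElem
    · simp [L]; omega
    · intro k h1 h2
      simp only [L, List.getElem_ofFn, Function.comp]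
      rcases lt_trichotomy k i with h | h | h
      · rw [List.getElem_append_left (by simpa using h)]
        rw [Equiv.swap_apply_of_ne_of_ne (by omega) (by omega)]; simp
      · subst h
        rw [List.getElem_append_right (by simp)]; simp
      · rcases Nat.lt_or_ge k (i+2) with h' | h'
        · obtain rfl : k = i + 1 := by omega
          rw [List.getElem_append_right (by simp)]; simp
        · obtain ⟨j, rfl⟩ : ∃ j, k = j + (i+2) := ⟨k - (i+2), by omega⟩
          rw [List.getElem_append_right (by simp; omega)]
          rw [Equiv.swap_apply_of_ne_of_ne (by omega) (by omega)]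
          simp only [List.length_ofFn, show j + (i + 2) - i = j + 2 by omega,
            List.getElem_cons_succ, List.getElem_ofFn]
  rw [e1, e2]
  apply hE
  · simp [L]
  · simp [L]; omega

theorem q4 : q^4 = q := by
  have := q_cube
  calc q^4 = q^3 * q := by ring
    _ = q := by rw [this, one_mul]

theorem off1 {N i : ℕ} {F E : List ℂ → ℂ} (hF : V N F) (hE : IsE N i F E) (hi : i + 2 ≤ N)
    (z : ℕ → ℂ) (I J K : ℕ) (hIJ : I < J) (hJ : J < N) (hK : K < N) (hKI : K ≠ I) (hKJ : K ≠ J)
    (h1 : z J = q^2 * z I) (h2 : z K * z I = q^2) : (z (i+1) - z i) * E (L N z) = 0 := by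
  rw [isE hE hi, w1 hF z I J K hIJ hJ hK hKI hKJ h1 h2, mul_zero, sub_zero]
  by_cases hc : I = i ∧ J = i + 1
  · obtain ⟨rfl, rfl⟩ := hc
    rw [h1]
    have : q * z I - q^2 * (q^2 * z I) = 0 := by
      have := q4; linear_combination (-z I) * this
    rw [this, zero_mul]
  · have : F (L N (z ∘ Equiv.swap i (i+1))) = 0 := by
      apply w1 hF _ (Equiv.swap i (i+1) I) (Equiv.swap i (i+1) J) (Equiv.swap i (i+1) K)
      · simp only [Equiv.swap_apply_def]; split_ifs <;> omega
      · simp only [Equiv.swap_apply_def]; split_ifs <;> omega
      · simp only [Equiv.swap_apply_def]; split_ifs <;> omega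
      · exact fun h => hKI ((Equiv.swap i (i+1)).injective h)
      · exact fun h => hKJ ((Equiv.swap i (i+1)).injective h)
      · simpa using h1
      · simpa using h2
    rw [this, mul_zero]

theorem off2 {N i : ℕ} {F E : List ℂ → ℂ} (hF : V N F) (hE : IsE N i F E) (hi : i + 2 ≤ N)
    (z : ℕ → ℂ) (I J K : ℕ) (hIJ : I < J) (hJ : J < N) (hK : K < N) (hK' : K < I ∨ J < K)
    (h1 : z J = q^2 * z I) (h2 : z K = q * z I) : (z (i+1) - z i) * E (L N z) = 0 := by
  rw [isE hE hi, w2 hF z I J K hIJ hJ hK hK' h1 h2, mul_zero, sub_zero]
  by_cases hc : I = i ∧ J = i + 1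
  · obtain ⟨rfl, rfl⟩ := hc
    rw [h1]
    have : q * z I - q^2 * (q^2 * z I) = 0 := by
      have := q4; linear_combination (-z I) * this
    rw [this, zero_mul]
  by_cases hc2 : K = i ∧ I = i + 1
  · obtain ⟨rfl, rfl⟩ := hc2
    rw [h2]
    have : q * (q * z (K+1)) - q^2 * z (K+1) = 0 := by ring
    rw [this, zero_mul]
  by_cases hc3 : J = i ∧ K = i + 1
  · obtain ⟨rfl, rfl⟩ := hc3
    rw [h1, h2]
    have : q * (q^2 * z I) - q^2 * (q * z I) = 0 := by ring
    rw [this, zero_mul]
  have : F (L N (z ∘ Equiv.swap i (i+1))) = 0 := by
    apply w2 hF _ (Equiv.swap i (i+1) I) (Equiv.swap i (i+1) J) (Equiv.swap i (i+1) K)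
    · simp only [Equiv.swap_apply_def]; split_ifs <;> omega
    · simp only [Equiv.swap_apply_def]; split_ifs <;> omega
    · simp only [Equiv.swap_apply_def]; split_ifs <;> omega
    · simp only [Equiv.swap_apply_def]; split_ifs <;> omega
    · simpa using h1
    · simpa using h2
  rw [this, mul_zero]

theorem ev_ne (t c : ℂ) : ∀ᶠ s in 𝓝[≠] t, s ≠ c := by
  by_cases h : t = c
  · subst h; exact self_mem_nhdsWithin
  · exact (isOpen_ne.mem_nhds h : {s | s ≠ c} ∈ 𝓝 t) |> fun h => mem_nhdsWithin_of_mem_nhds h

theorem lim {N d : ℕ} {E : List ℂ → ℂ} (hpd : PD N d E) (f : ℕ → ℂ → ℂ) (t : ℂ)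
    (hf : ∀ k, ContinuousAt (f k) t)
    (h : ∀ᶠ s in 𝓝[≠] t, E (L N (fun k => f k s)) = 0) : E (L N (fun k => f k t)) = 0 := by
  have hc := PD.cont hpd (fun k : Fin N => f k) t (fun k => hf k)
  have h1 : Tendsto (fun s => E (L N (fun k => f k s))) (𝓝[≠] t) (𝓝 (E (L N (fun k => f k t)))) :=
    hc.tendsto.mono_left nhdsWithin_le_nhds
  have h2 : Tendsto (fun s => E (L N (fun k => f k s))) (𝓝[≠] t) (𝓝 0) := by
    apply tendsto_const_nhds.congr'
    filter_upwards [h] with s hs using hs.symm
  exact tendsto_nhds_unique h1 h2

end T05

open T05 in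
theorem V.exch {N i : ℕ} {F E : List ℂ → ℂ} (hF : V N F) (hi : i + 2 ≤ N) (hE : IsE N i F E)
    (hpd : PD N (N-2) E) : V N E := by
  apply mkV hpd
  · intro z I J K hIJ hJ hK hKI hKJ h1 h2
    by_cases hne : z (i+1) - z i ≠ 0
    · exact (mul_eq_zero.mp (off1 hF hE hi z I J K hIJ hJ hK hKI hKJ h1 h2)).resolve_left hne
    push Not at hne
    have hzi : z (i+1) = z i := by linear_combination hne
    have hx : z I ≠ 0 := by
      intro h; rw [h, mul_zero] at h2
      exact pow_ne_zero 2 q_ne_zero h2.symm
    by_cases hA : i ≠ I ∧ i ≠ J ∧ i ≠ K
    · obtain ⟨a1, a2, a3⟩ := hA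
      have := lim hpd (fun k s => if k = i then s else z k) (z i)
        (fun k => by by_cases hk : k = i <;> simp only [hk, if_true, if_false] <;> fun_prop) ?_
      · convert this using 3 with k
        funext k; by_cases hk : k = i <;> simp [hk]
      · filter_upwards [ev_ne (z i) (z i)] with s hs
        have h := off1 hF hE hi (fun k => if k = i then s else z k) I J K hIJ hJ hK hKI hKJ
          (by simp only [a1.symm, a2.symm, if_false]; exact h1)
          (by simp only [a1.symm, a3.symm, if_false]; exact h2)
        refine (mul_eq_zero.mp h).resolve_left ?_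
        simp only [if_true, Nat.succ_ne_self, if_false, hzi]
        exact fun h => hs (by linear_combination -h)
    by_cases hB : i + 1 ≠ I ∧ i + 1 ≠ J ∧ i + 1 ≠ K
    · obtain ⟨a1, a2, a3⟩ := hB
      have := lim hpd (fun k s => if k = i + 1 then s else z k) (z (i+1))
        (fun k => by by_cases hk : k = i + 1 <;> simp only [hk, if_true, if_false] <;> fun_prop) ?_
      · convert this using 3 with k
        funext k; by_cases hk : k = i + 1 <;> simp [hk]
      · filter_upwards [ev_ne (z (i+1)) (z (i+1))] with s hs
        have h := off1 hF hE hi (fun k => if k = i + 1 then s else z k) I J K hIJ hJ hK hKI hKJ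
          (by simp only [a1.symm, a2.symm, if_false]; exact h1)
          (by simp only [a1.symm, a3.symm, if_false]; exact h2)
        refine (mul_eq_zero.mp h).resolve_left ?_
        have : i ≠ i + 1 := by omega
        simp only [if_true, this, if_false, ← hzi]
        exact fun h => hs (by linear_combination h)
    have := lim hpd (fun k s => if k = I then s else if k = J then q^2 * s else
        if k = K then q^2 * s⁻¹ else z k) (z I)
        (fun k => by
          by_cases hk : k = I
          · simp only [hk, if_true]; fun_prop
          by_cases hk2 : k = J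
          · simp only [hk2, hIJ.ne', if_true, if_false]; fun_prop
          by_cases hk3 : k = K
          · simp only [hk3, hKI, hKJ, if_true, if_false]
            exact continuousAt_const.mul (continuousAt_inv₀ hx)
          simp only [hk, hk2, hk3, if_false]; fun_prop) ?_
    · convert this using 3 with k
      funext k
      by_cases hk : k = I
      · simp [hk]
      by_cases hk2 : k = J
      · simp only [hk2, hIJ.ne', if_true, if_false, h1]
      by_cases hk3 : k = K
      · simp only [hk3, hKI, hKJ, if_true, if_false]
        rw [← h2]; field_simp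
      simp only [hk, hk2, hk3, if_false]
    · filter_upwards [ev_ne (z I) 0, ev_ne (z I) q, ev_ne (z I) (-q), ev_ne (z I) 1,
        ev_ne (z I) (-1)] with s s0 s1 s2 s3 s4
      have h := off1 hF hE hi (fun k => if k = I then s else if k = J then q^2 * s else
        if k = K then q^2 * s⁻¹ else z k) I J K hIJ hJ hK hKI hKJ
          (by simp only [hIJ.ne', if_true, if_false])
          (by simp only [hKI, hKJ, if_true, if_false]; field_simp)
      refine (mul_eq_zero.mp h).resolve_left ?_
      have e1 : q^2 * s - s ≠ 0 := by
        intro h
        have : (q^2 - 1) * s = 0 := by linear_combination h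
        rcases mul_eq_zero.mp this with h | h
        · exact q_sq_ne_one (by linear_combination h)
        · exact s0 h
      have e2 : q^2 * s⁻¹ - s ≠ 0 := by
        intro h
        have : (q - s) * (q + s) = 0 := by
          field_simp at h; linear_combination h
        rcases mul_eq_zero.mp this with h | h
        · exact s1 (by linear_combination -h)
        · exact s2 (by linear_combination h)
      have e3 : q^2 * s⁻¹ - q^2 * s ≠ 0 := by
        intro h
        have : q^2 * ((1 - s) * (1 + s)) = 0 := by
          field_simp at h; linear_combination h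
        rcases mul_eq_zero.mp this with h | h
        · exact pow_ne_zero 2 q_ne_zero h
        rcases mul_eq_zero.mp h with h | h
        · exact s3 (by linear_combination -h)
        · exact s4 (by linear_combination h)
      have hA' : i = I ∨ i = J ∨ i = K := by
        by_contra hcon; push Not at hcon; exact hA hcon
      have hB' : i + 1 = I ∨ i + 1 = J ∨ i + 1 = K := by
        by_contra hcon; push Not at hcon; exact hB hcon
      intro h0
      rcases hA' with h | h | h <;> rcases hB' with h' | h' | h' <;>
        first
        | (exfalso; omega)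
        | (rw [h', h] at h0
           simp only [hKI, hKJ, hIJ.ne', hIJ.ne, hKI.symm, hKJ.symm, if_true, if_false] at h0
           first
           | exact e1 (by linear_combination h0)
           | exact e1 (by linear_combination -h0)
           | exact e2 (by linear_combination h0)
           | exact e2 (by linear_combination -h0)
           | exact e3 (by linear_combination h0)
           | exact e3 (by linear_combination -h0))
  · intro z I J K hIJ hJ hK hK' h1 h2
    have hKI : K ≠ I := by omega
    have hKJ : K ≠ J := by omega
    by_cases hne : z (i+1) - z i ≠ 0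
    · exact (mul_eq_zero.mp (off2 hF hE hi z I J K hIJ hJ hK hK' h1 h2)).resolve_left hne
    push Not at hne
    have hzi : z (i+1) = z i := by linear_combination hne
    by_cases hA : i ≠ I ∧ i ≠ J ∧ i ≠ K
    · obtain ⟨a1, a2, a3⟩ := hA
      have := lim hpd (fun k s => if k = i then s else z k) (z i)
        (fun k => by by_cases hk : k = i <;> simp only [hk, if_true, if_false] <;> fun_prop) ?_
      · convert this using 3 with k
        funext k; by_cases hk : k = i <;> simp [hk]
      · filter_upwards [ev_ne (z i) (z i)] with s hs
        have h := off2 hF hE hi (fun k => if k = i then s else z k) I J K hIJ hJ hK hK'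
          (by simp only [a1.symm, a2.symm, if_false]; exact h1)
          (by simp only [a1.symm, a3.symm, if_false]; exact h2)
        refine (mul_eq_zero.mp h).resolve_left ?_
        simp only [if_true, Nat.succ_ne_self, if_false, hzi]
        exact fun h => hs (by linear_combination -h)
    by_cases hB : i + 1 ≠ I ∧ i + 1 ≠ J ∧ i + 1 ≠ K
    · obtain ⟨a1, a2, a3⟩ := hB
      have := lim hpd (fun k s => if k = i + 1 then s else z k) (z (i+1))
        (fun k => by by_cases hk : k = i + 1 <;> simp only [hk, if_true, if_false] <;> fun_prop) ?_
      · convert this using 3 with k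
        funext k; by_cases hk : k = i + 1 <;> simp [hk]
      · filter_upwards [ev_ne (z (i+1)) (z (i+1))] with s hs
        have h := off2 hF hE hi (fun k => if k = i + 1 then s else z k) I J K hIJ hJ hK hK'
          (by simp only [a1.symm, a2.symm, if_false]; exact h1)
          (by simp only [a1.symm, a3.symm, if_false]; exact h2)
        refine (mul_eq_zero.mp h).resolve_left ?_
        have : i ≠ i + 1 := by omega
        simp only [if_true, this, if_false, ← hzi]
        exact fun h => hs (by linear_combination h)
    have := lim hpd (fun k s => if k = I then s else if k = J then q^2 * s else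
        if k = K then q * s else z k) (z I)
        (fun k => by
          by_cases hk : k = I
          · simp only [hk, if_true]; fun_prop
          by_cases hk2 : k = J
          · simp only [hk2, hIJ.ne', if_true, if_false]; fun_prop
          by_cases hk3 : k = K
          · simp only [hk3, hKI, hKJ, if_true, if_false]; fun_prop
          simp only [hk, hk2, hk3, if_false]; fun_prop) ?_
    · convert this using 3 with k
      funext k
      by_cases hk : k = I
      · simp [hk]
      by_cases hk2 : k = J
      · simp only [hk2, hIJ.ne', if_true, if_false, h1]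
      by_cases hk3 : k = K
      · simp only [hk3, hKI, hKJ, if_true, if_false, h2]
      simp only [hk, hk2, hk3, if_false]
    · filter_upwards [ev_ne (z I) 0] with s s0
      have h := off2 hF hE hi (fun k => if k = I then s else if k = J then q^2 * s else
        if k = K then q * s else z k) I J K hIJ hJ hK hK'
          (by simp only [hIJ.ne', if_true, if_false])
          (by simp only [hKI, hKJ, if_true, if_false])
      refine (mul_eq_zero.mp h).resolve_left ?_
      have e1 : q^2 * s - s ≠ 0 := by
        intro h
        have : (q^2 - 1) * s = 0 := by linear_combination h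
        rcases mul_eq_zero.mp this with h | h
        · exact q_sq_ne_one (by linear_combination h)
        · exact s0 h
      have e2 : q * s - s ≠ 0 := by
        intro h
        have : (q - 1) * s = 0 := by linear_combination h
        rcases mul_eq_zero.mp this with h | h
        · exact q_ne_one (by linear_combination h)
        · exact s0 h
      have e3 : q * s - q^2 * s ≠ 0 := by
        intro h
        have : q * ((1 - q) * s) = 0 := by linear_combination h
        rcases mul_eq_zero.mp this with h | h
        · exact q_ne_zero h
        rcases mul_eq_zero.mp h with h | h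
        · exact q_ne_one (by linear_combination -h)
        · exact s0 h
      have hA' : i = I ∨ i = J ∨ i = K := by
        by_contra hcon; push Not at hcon; exact hA hcon
      have hB' : i + 1 = I ∨ i + 1 = J ∨ i + 1 = K := by
        by_contra hcon; push Not at hcon; exact hB hcon
      intro h0
      rcases hA' with h | h | h <;> rcases hB' with h' | h' | h' <;>
        first
        | (exfalso; omega)
        | (rw [h', h] at h0
           simp only [hKI, hKJ, hIJ.ne', hIJ.ne, hKI.symm, hKJ.symm, if_true, if_false] at h0
           first
           | exact e1 (by linear_combination h0)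
           | exact e1 (by linear_combination -h0)
           | exact e2 (by linear_combination h0)
           | exact e2 (by linear_combination -h0)
           | exact e3 (by linear_combination h0)
           | exact e3 (by linear_combination -h0))

end Pool.Agent.H988R2.Perc
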