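import Pool.Agent.H988R2.Perc.T04
import Pool.Agent.H988R2.Perc.T05
import Pool.Agent.H988R2.Perc.T08

/-! T09: injectivity of the family `ev` on `V`. -/

namespace Pool.Agent.H988R2.Perc

namespace T09

/-- a polynomial function vanishing for all values but one of a variable vanishes -/
theorem univ_ext {N d : ℕ} {F : List ℂ → ℂ} (hF : PD N d F) (u v : List ℂ)
    (h : u.length + v.length + 1 = N) (c : ℂ) (h0 : ∀ x, x ≠ c → F (u ++ x :: v) = 0) (x : ℂ) :
    F (u ++ x :: v) = 0 := by
  obtain ⟨P, _, hP⟩ := PD.univ hF u v h
  have : P = 0 := by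
    apply Polynomial.eq_zero_of_infinite_isRoot
    apply Set.Infinite.mono (s := {c}ᶜ)
    · intro y hy
      simp only [Set.mem_ofPred_eq, Polynomial.IsRoot.def]
      rw [← hP y]
      exact h0 y hy
    · exact (Set.finite_singleton c).infinite_compl
  rw [hP x, this, Polynomial.eval_zero]

/-- the inductive hypothesis -/
def Good (N n : ℕ) : Prop :=
  ∀ F : List ℂ → ℂ, V N F → (∀ w : Word, Dyck w → w.length = N → ev n w F = 0) →
    ∀ l : List ℂ, l.length = N → F l = 0

theorem stepA {n : ℕ} (ih : Good (2*n) n) {F : List ℂ → ℂ} (hF : V (2*n+2) F)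
    (h : ∀ w : Word, Dyck w → w.length = 2*n+2 → ev (n+1) w F = 0) (u v : List ℂ) (x : ℂ)
    (huv : u.length + v.length = 2*n) : F (u ++ x :: (q^2 * x) :: v) = 0 := by
  rw [rho_spec (i := u.length) hF (by omega) (by omega) u v x rfl huv]
  rw [ih (rho u.length F) (rho_V hF (by omega) (by omega)) ?_ (u ++ v) (by simpa using huv),
    mul_zero]
  intro w hw hwl
  rw [← ev_ins hF hw hwl (by omega)]
  exact h _ (Dyck.ins _ _ (by omega) hw) (by rw [length_ins]; omega)

theorem stepB {n : ℕ} (ih : Good (2*n) n) (d : ℕ) : ∀ {F : List ℂ → ℂ}, V (2*n+2) F →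
    (∀ w : Word, Dyck w → w.length = 2*n+2 → ev (n+1) w F = 0) → ∀ (u m v : List ℂ) (x : ℂ),
    m.length = d → u.length + m.length + v.length + 2 = 2*n+2 →
      F (u ++ x :: (m ++ (q^2 * x) :: v)) = 0 := by
  induction d with
  | zero =>
    intro F hF h u m v x hm hl
    obtain rfl : m = [] := List.length_eq_zero_iff.mp hm
    exact stepA ih hF h u v x (by simp at hl; omega)
  | succ d ihd =>
    intro F hF h u m v x hm hl
    obtain ⟨m', y, rfl⟩ : ∃ m' y, m = m' ++ [y] := by
      rcases List.eq_nil_or_concat m with h | ⟨m', y, h⟩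
      · subst h; simp at hm
      · exact ⟨m', y, by simpa using h⟩
    have hm' : m'.length = d := by simpa using hm
    have hl' : u.length + m'.length + v.length + 3 = 2*n+2 := by simp at hl; omega
    have e : ∀ y : ℂ, u ++ x :: ((m' ++ [y]) ++ (q^2 * x) :: v) =
        (u ++ x :: m') ++ y :: ((q^2 * x) :: v) := by intro y; simp
    rw [e]
    apply univ_ext hF.pd (u ++ x :: m') ((q^2 * x) :: v) (by simp; omega) (q * x)
    intro y hy
    obtain ⟨E, hEpd, hE⟩ := exists_E (i := u.length + 1 + m'.length) hF.pd (by omega)
    have hEV : V (2*n+2) E := V.exch hF (by omega) hE hEpd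
    have hEk : ∀ w : Word, Dyck w → w.length = 2*n+2 → ev (n+1) w E = 0 := by
      intro w hw hwl
      rw [ev_act (n := n+1) (F := F) (E := E) (i := u.length + 1 + m'.length) hF hEV hE
        (by omega) hw (by omega)]
      apply h
      · exact dyck_act hw (by omega)
      · rw [length_act (by omega), hwl]
    have h1 : E (u ++ x :: (m' ++ (q^2 * x) :: (y :: v))) = 0 :=
      ihd hEV hEk u m' (y :: v) x hm' (by simp; omega)
    have h2 : F (u ++ x :: (m' ++ (q^2 * x) :: (y :: v))) = 0 :=
      ihd hF h u m' (y :: v) x hm' (by simp; omega)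
    have h3 := hE (u ++ x :: m') v (q^2 * x) y (by simp; omega) (by simp; omega)
    have e1 : (u ++ x :: m') ++ (q^2 * x) :: y :: v =
        u ++ x :: (m' ++ (q^2 * x) :: (y :: v)) := by simp
    rw [e1, h1, h2, mul_zero, mul_zero, sub_zero] at h3
    rcases mul_eq_zero.mp h3.symm with h4 | h4
    · exfalso
      apply hy
      have hq := q_cube
      have : q^2 * (y - q * x) = 0 := by linear_combination -h4
      rcases mul_eq_zero.mp this with h5 | h5
      · exact absurd h5 (pow_ne_zero 2 q_ne_zero)
      · linear_combination h5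
    · exact h4

end T09

open T09 in
theorem ev_inj {n : ℕ} {F : List ℂ → ℂ} (hF : V (2*n) F)
    (h : ∀ w : Word, Dyck w → w.length = 2*n → ev n w F = 0) (l : List ℂ)
    (hl : l.length = 2*n) : F l = 0 := by
  have key : ∀ n, Good (2*n) n := by
    intro n
    induction n with
    | zero =>
      intro F hF h l hl
      obtain rfl : l = [] := List.length_eq_zero_iff.mp hl
      exact h [] Dyck.nil rfl
    | succ n ih =>
      intro F hF h
      have hN : 2 * (n+1) = 2*n+2 := by ring
      rw [hN] at hF h ⊢
      apply PD.generic hF.pd (fun t => t.toFinset)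
      intro l hl hk
      have hnd : l.Nodup := by
        rw [List.nodup_iff_pairwise_ne, List.pairwise_iff_getElem]
        intro i j hi hj hij he
        apply hk j (by omega)
        rw [List.mem_toFinset]
        apply List.mem_take_iff_getElem.mpr
        refine ⟨i, by rw [lt_min_iff]; exact ⟨hij, hi⟩, ?_⟩
        rw [he]; simp [List.getD_eq_getElem?_getD, hj]
      cases l with
      | nil => simp at hl
      | cons z l' =>
        have hl' : l'.length = 2*n+1 := by simpa using hl
        have hnd' : l'.Nodup := (List.nodup_cons.mp hnd).2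
        apply PD.roots hF.pd [] l' (by simp; omega) (l'.map (q * ·)).toFinset
        · rw [List.toFinset_card_of_nodup]
          · simp; omega
          · exact hnd'.map (mul_right_injective₀ q_ne_zero)
        · intro x hx
          rw [List.mem_toFinset, List.mem_map] at hx
          obtain ⟨y, hy, rfl⟩ := hx
          obtain ⟨m, v, rfl⟩ := List.append_of_mem hy
          have hyq : y = q^2 * (q * y) := by
            have := q_cube; linear_combination (-y) * this
          have := stepB ih m.length hF h [] m v (q * y) rfl (by simp at hl' ⊢; omega)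
          rw [← hyq] at this
          simpa using this
  exact key n F hF h l hl

end Pool.Agent.H988R2.Perc
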